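import Pool.Agent.Lib.MP_c9b009_ag.OD.Spec

/-! # MP_c9b009_ag, row OD, module FRM: `S4` over `ℂ[q, l]`, regular sequence -/

set_option autoImplicit false

namespace Pool.Agent.Lib.MPc9b009.OD

open MvPolynomial Pool.Agent.Lib.MPc9b009.B5

namespace FRMM

/-- Transcendence degree of a hypersurface. -/
theorem trdeg_hyper {n : ℕ} (f : MvPolynomial (Fin (n + 1)) ℂ) (h0 : f ≠ 0) (hu : ¬ IsUnit f)
    (q : Ideal (MvPolynomial (Fin (n + 1)) ℂ)) (hq : q = Ideal.span {f}) :
    ((n : ℕ) : Cardinal) ≤ Algebra.trdeg ℂ (MvPolynomial (Fin (n + 1)) ℂ ⧸ q) := by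
  subst hq
  -- a variable which occurs in `f`
  have hk : ∃ k, degreeOf k f ≠ 0 := by
    by_contra hcon
    push Not at hcon
    apply hu
    have h1 : f.totalDegree = 0 := by
      rw [totalDegree_eq_zero_iff]
      intro m hm k
      have h2 := (degreeOf_le_iff (n := k) (f := f) (d := 0)).1 (hcon k).le m hm
      omega
    rw [totalDegree_eq_zero_iff_eq_C] at h1
    rw [h1]
    apply IsUnit.map
    apply IsUnit.mk0
    intro h2
    rw [h2, C_0] at h1
    exact h0 h1
  obtain ⟨k, hk⟩ := hk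
  let y : {j : Fin (n + 1) // j ≠ k} → MvPolynomial (Fin (n + 1)) ℂ ⧸ Ideal.span {f} :=
    fun j => Ideal.Quotient.mk _ (X j.1)
  have hai : AlgebraicIndependent ℂ y := by
    rw [algebraicIndependent_iff]
    intro g hg
    have h1 : aeval y g = Ideal.Quotient.mk (Ideal.span {f}) (rename Subtype.val g) := by
      have h2 : (Ideal.Quotient.mkₐ ℂ (Ideal.span {f})).comp (rename Subtype.val) = aeval y := by
        apply MvPolynomial.algHom_ext
        intro j
        simp [y]
      rw [← h2]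
      rfl
    rw [h1, Ideal.Quotient.eq_zero_iff_mem, Ideal.mem_span_singleton] at hg
    by_contra hg0
    have hr0 : rename (Subtype.val : {j : Fin (n + 1) // j ≠ k} → Fin (n + 1)) g ≠ 0 := by
      intro h3
      apply hg0
      apply rename_injective _ Subtype.val_injective
      rw [h3, map_zero]
    obtain ⟨w, hw⟩ := hg
    have hw0 : w ≠ 0 := by
      rintro rfl
      rw [mul_zero] at hw
      exact hr0 hw
    have h4 : degreeOf k (rename (Subtype.val : {j : Fin (n + 1) // j ≠ k} → Fin (n + 1)) g) = 0 := by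
      by_contra h5
      have h6 : k ∈ (rename (Subtype.val : {j : Fin (n + 1) // j ≠ k} → Fin (n + 1)) g).vars := by
        rw [vars_def]
        rw [degreeOf_def] at h5
        exact Multiset.mem_toFinset.2 (Multiset.count_ne_zero.1 h5)
      have h7 := vars_rename (Subtype.val : {j : Fin (n + 1) // j ≠ k} → Fin (n + 1)) g h6
      obtain ⟨a, -, ha⟩ := Finset.mem_image.1 h7
      exact a.2 ha
    rw [hw, degreeOf_mul_eq h0 hw0] at h4
    omega
  have h8 := hai.cardinalMk_le_trdeg
  have h9 : Cardinal.mk {j : Fin (n + 1) // j ≠ k} = ((n : ℕ) : Cardinal) := by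
    rw [Cardinal.mk_fintype, Fintype.card_subtype_compl, Fintype.card_fin]
    simp
  rwa [h9] at h8

theorem trdeg_bot {N : ℕ} : Algebra.trdeg ℂ (MvPolynomial (Fin N) ℂ) = ((N : ℕ) : Cardinal) := by
  rw [MvPolynomial.trdeg_of_isDomain]
  simp

theorem trdeg_quot_bot {N : ℕ} : Algebra.trdeg ℂ
    (MvPolynomial (Fin N) ℂ ⧸ (⊥ : Ideal (MvPolynomial (Fin N) ℂ))) = ((N : ℕ) : Cardinal) := by
  rw [← trdeg_bot (N := N)]
  exact (AlgEquiv.quotientBot ℂ (MvPolynomial (Fin N) ℂ)).trdeg_eq

theorem hom_bot {N : ℕ} : Hom (⊥ : Ideal (MvPolynomial (Fin N) ℂ)) := by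
  intro g hg d
  rw [Ideal.mem_bot] at hg ⊢
  rw [hg, map_zero]

/-- integrality over `S / ⊥` gives integrality over `S` -/
theorem int_transfer {N : ℕ} {σ : Type} (y : σ → MvPolynomial (Fin N) ℂ) (z : MvPolynomial (Fin N) ℂ)
    (h : IsIntegral (Algebra.adjoin ℂ (Set.range fun b =>
      Ideal.Quotient.mk (⊥ : Ideal (MvPolynomial (Fin N) ℂ)) (y b)))
      (Ideal.Quotient.mk (⊥ : Ideal (MvPolynomial (Fin N) ℂ)) z)) :
    IsIntegral (Algebra.adjoin ℂ (Set.range y)) z := by
  let e : (MvPolynomial (Fin N) ℂ ⧸ (⊥ : Ideal (MvPolynomial (Fin N) ℂ))) →ₐ[ℂ]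
      MvPolynomial (Fin N) ℂ := (AlgEquiv.quotientBot ℂ (MvPolynomial (Fin N) ℂ)).toAlgHom
  have he : ∀ w, e (Ideal.Quotient.mk _ w) = w := fun w => rfl
  set s : Set (MvPolynomial (Fin N) ℂ ⧸ (⊥ : Ideal (MvPolynomial (Fin N) ℂ))) :=
    Set.range fun b => Ideal.Quotient.mk (⊥ : Ideal (MvPolynomial (Fin N) ℂ)) (y b) with hs
  have hmem : ∀ w : Algebra.adjoin ℂ s, e w ∈ Algebra.adjoin ℂ (Set.range y) := by
    intro w
    have h1 : e w ∈ (Algebra.adjoin ℂ s).map e := ⟨w, w.2, rfl⟩
    rw [AlgHom.map_adjoin] at h1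
    have h2 : e '' s = Set.range y := by
      rw [hs, ← Set.range_comp]
      rfl
    rwa [h2] at h1
  let φ : Algebra.adjoin ℂ s →+* Algebra.adjoin ℂ (Set.range y) :=
    ((e.comp (Algebra.adjoin ℂ s).val).codRestrict _ hmem).toRingHom
  have h3 := IsIntegral.map_of_comp_eq φ e.toRingHom (by ext w <;> rfl) h
  exact h3

end FRMM

open FRMM in
theorem specFRM : SpecFRM := by
  intro e q l he hq hl hQ hD
  have hint : ∀ z : S4, IsIntegral (Algebra.adjoin ℂ (Set.range (Sum.elim q l))) z := by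
    intro z
    apply int_transfer
    refine specFINI 4 ⊥ Ideal.isPrime_bot hom_bot (Fin 2 ⊕ Fin 2) inferInstance (Sum.elim q l)
      (Sum.elim (fun _ => e) (fun _ => 1)) ?_ ?_ ?_ _
    · rintro (b | b)
      · exact he
      · exact le_rfl
    · rintro (b | b)
      · exact hq b
      · exact hl b
    · intro p hp hph _ hyb
      exact hQ p hp hph (fun i => hyb (Sum.inl i)) (fun j => hyb (Sum.inr j))
  have key : ∀ d : S4, d ≠ 0 → d ∣ q 0 → d ∣ q 1 → IsUnit d := by
    intro d hd0 h0 h1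
    by_contra hu
    obtain ⟨π, hπ, hπd⟩ := WfDvdMonoid.exists_irreducible_factor hu hd0
    have hpr : Prime π := UniqueFactorizationMonoid.irreducible_iff_prime.1 hπ
    have hpi : (Ideal.span {π} : Ideal S4).IsPrime := (Ideal.span_singleton_prime hpr.ne_zero).2 hpr
    have h2 := trdeg_hyper (n := 3) π hpr.ne_zero hpr.not_unit (Ideal.span {π}) rfl
    have h3 := hD (Ideal.span {π}) hpi (by
      rw [Ideal.span_le]
      rintro x (rfl | rfl)
      · exact Ideal.mem_span_singleton.2 (hπd.trans h0)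
      · exact Ideal.mem_span_singleton.2 (hπd.trans h1))
    have h4 := h2.trans h3
    have h5 : (3 : ℕ) ≤ 2 := by exact_mod_cast h4
    omega
  have hq0 : q 0 ≠ 0 := by
    intro h0
    by_cases h1 : q 1 = 0
    · have h3 := hD ⊥ Ideal.isPrime_bot (by
        rw [Ideal.span_le]
        rintro x (rfl | rfl)
        · exact h0
        · exact h1)
      rw [trdeg_quot_bot] at h3
      have h5 : (4 : ℕ) ≤ 2 := by exact_mod_cast h3
      omega
    · have h2 := key (q 1) h1 (by rw [h0]; exact dvd_zero _) dvd_rfl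
      have h3 : constantCoeff (q 1) = 0 := by
        by_contra h4
        rw [constantCoeff_eq] at h4
        have h5 := hq 1 h4
        simp at h5
        omega
      have h4 := h2.map (constantCoeff : S4 →+* ℂ)
      rw [h3] at h4
      exact not_isUnit_zero h4
  refine ⟨?_, hint, hq0, ?_⟩
  · have : Algebra.IsAlgebraic (Algebra.adjoin ℂ (Set.range (Sum.elim q l))) S4 :=
      ⟨fun z => (hint z).isAlgebraic⟩
    have hle : Cardinal.mk (Fin 2 ⊕ Fin 2) ≤ Algebra.trdeg ℂ S4 := by
      rw [trdeg_bot, Cardinal.mk_sum, Cardinal.mk_fin]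
      norm_num
    exact (Algebra.IsAlgebraic.isTranscendenceBasis_of_le_trdeg_of_finite ℂ
      (Sum.elim q l) hle).1
  · intro z hz
    have hrel : IsRelPrime (q 0) (q 1) := by
      intro d h0 h1
      refine key d ?_ h0 h1
      rintro rfl
      exact hq0 (zero_dvd_iff.1 h0)
    exact hrel.dvd_of_dvd_mul_left hz

end Pool.Agent.Lib.MPc9b009.OD
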