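import Pool.Agent.Lib.MP_c9b009_ag.OD.Spec

/-!
# MP_c9b009_ag, row OD, module TLD: the trace of a logarithmic derivative
-/

set_option autoImplicit false

namespace Pool.Agent.Lib.MPc9b009.OD

open MvPolynomial Pool.Agent.Lib.MPc9b009.B5

namespace TLDM

open TrivSqZeroExt DualNumber

/-- the derivative of a determinant -/
theorem der_det {F : Type} [Field F] (D : Derivation ℤ F F) {n : Type*} [Fintype n] [DecidableEq n]
    (A C : Matrix n n F) (hA : ∀ i j, D (A i j) = (A * C) i j) : D A.det = A.det * C.trace := by
  have h1 : DET0M.phi D A.det = ((DET0M.phi D).mapMatrix A).det := RingHom.map_det _ _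
  have h2 : (DET0M.phi D).mapMatrix A = (inlHom F F).mapMatrix A *
      (1 + (ε : DualNumber F) • (inlHom F F).mapMatrix C) := by
    rw [mul_add, mul_one, Matrix.mul_smul, ← map_mul]
    ext i j
    · simp [DET0M.phi_apply]
    · have := hA i j
      simp only [DET0M.phi_apply, RingHom.mapMatrix_apply, Matrix.map_apply, Matrix.add_apply,
        Matrix.smul_apply, this, snd_add, snd_inl, snd_inr, smul_eq_mul, DualNumber.snd_mul,
        inlHom_apply, zero_add]
      simp
  have h3 : ((inlHom F F).mapMatrix C).trace = inlHom F F C.trace := by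
    simp [Matrix.trace]
  rw [h2, Matrix.det_mul, Matrix.det_one_add_smul, eps_pow_two, mul_zero, add_zero, h3,
    ← RingHom.map_det] at h1
  have h4 := congrArg TrivSqZeroExt.snd h1
  simpa [DET0M.phi_apply] using h4

end TLDM

open TLDM in
/-- module TLD -/
theorem specTLD : SpecTLD := by
  intro F L _ _ _ _ D' D hD z hz
  set b := Module.finBasis F L with hb
  set M := Algebra.leftMulMatrix b z with hM
  set N := Algebra.leftMulMatrix b z⁻¹ with hN
  have hMN : M * N = 1 := by
    rw [hM, hN, ← map_mul, mul_inv_cancel₀ hz, map_one]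
  have hNM : N * M = 1 := by
    rw [hM, hN, ← map_mul, inv_mul_cancel₀ hz, map_one]
  set G : Matrix (Fin (Module.finrank F L)) (Fin (Module.finrank F L)) F :=
    Matrix.of fun i j => b.repr (D (b j)) i with hG
  have hsm : ∀ (c : F) (x : L), D (c • x) = D' c • x + c • D x := by
    intro c x
    rw [Algebra.smul_def, Derivation.leibniz, hD, smul_eq_mul, smul_eq_mul, Algebra.smul_def,
      Algebra.smul_def]
    ring
  have hexp : ∀ x : L, x = ∑ k, b.repr x k • b k := fun x => (b.sum_repr x).symm
  have hDz : Algebra.leftMulMatrix b (D z) = M.map D' + G * M - M * G := by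
    ext i j
    have e0 : Algebra.leftMulMatrix b (D z) i j = b.repr (D z * b j) i :=
      Algebra.leftMulMatrix_eq_repr_mul b _ _ _
    have e1 : D z * b j = D (z * b j) - z * D (b j) := by
      rw [Derivation.leibniz, smul_eq_mul, smul_eq_mul]
      ring
    have e2 : D (z * b j) = ∑ k, (D' (M k j) • b k + M k j • D (b k)) := by
      conv_lhs => rw [hexp (z * b j)]
      rw [map_sum]
      refine Finset.sum_congr rfl fun k _ => ?_
      rw [hsm, hM, Algebra.leftMulMatrix_eq_repr_mul]
    have e3 : z * D (b j) = ∑ k, G k j • (z * b k) := by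
      conv_lhs => rw [hexp (D (b j))]
      rw [Finset.mul_sum]
      refine Finset.sum_congr rfl fun k _ => ?_
      rw [mul_smul_comm, hG, Matrix.of_apply]
    rw [e0, e1, e2, e3]
    simp only [map_sub, map_sum, map_add, map_smul, Finsupp.coe_sub, Pi.sub_apply,
      Finsupp.coe_finsetSum, Finset.sum_apply, Finsupp.coe_add, Pi.add_apply, Finsupp.coe_smul,
      Pi.smul_apply, smul_eq_mul, Matrix.sub_apply, Matrix.add_apply, Matrix.map_apply,
      Matrix.mul_apply, Finset.sum_add_distrib]
    have e4 : ∑ k, D' (M k j) * b.repr (b k) i = D' (M i j) := by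
      rw [Finset.sum_eq_single i]
      · simp
      · intro k _ hk
        simp [hk]
      · intro h
        exact absurd (Finset.mem_univ i) h
    rw [e4]
    congr 1
    · congr 1
      refine Finset.sum_congr rfl fun k _ => ?_
      rw [hG, Matrix.of_apply, mul_comm]
    · refine Finset.sum_congr rfl fun k _ => ?_
      rw [hM, Algebra.leftMulMatrix_eq_repr_mul, mul_comm]
  have hC : ∀ i j, D' (M i j) = (M * (N * M.map D')) i j := by
    intro i j
    rw [← mul_assoc, hMN, one_mul, Matrix.map_apply]
  have hdet := der_det D' M (N * M.map D') hC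
  have hne : M.det ≠ 0 := by
    intro h0
    have := congrArg Matrix.det hMN
    rw [Matrix.det_mul, h0, zero_mul, Matrix.det_one] at this
    exact zero_ne_one this
  have htr : Algebra.trace F L (D z / z) = (N * M.map D').trace := by
    rw [Algebra.trace_eq_matrix_trace b, div_eq_mul_inv, map_mul, hDz, ← hN]
    have e1 : (M.map D' + G * M - M * G) * N = M.map D' * N + G * (M * N) - M * (G * N) := by
      simp only [Matrix.sub_mul, Matrix.add_mul, Matrix.mul_assoc]
    rw [e1, Matrix.trace_sub, Matrix.trace_add, hMN, mul_one, Matrix.trace_mul_comm M (G * N),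
      Matrix.mul_assoc, hNM, mul_one, Matrix.trace_mul_comm (M.map D') N]
    ring
  rw [htr, Algebra.norm_eq_matrix_det b, ← hM, hdet, mul_comm, mul_div_assoc, div_self hne, mul_one]

end Pool.Agent.Lib.MPc9b009.OD
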