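import Pool.Agent.Lib.MP_c9b009_ag.OD.Spec

/-!
# MP_c9b009_ag, row OD, module BBX: the Baum-Bott formula
-/

set_option autoImplicit false

namespace Pool.Agent.Lib.MPc9b009.OD

open MvPolynomial Pool.Agent.Lib.MPc9b009.B5

namespace BBXM

/-- the coefficient of the monomial `X_0 X_1` -/
theorem coef (p r0 r1 r2 r3 : R4)
    (h : X (Sum.inl 0) * X (Sum.inl 1) * p = X (Sum.inl 0) ^ 2 * r0 + X (Sum.inl 1) ^ 2 * r1
      + X (Sum.inr 0) * r2 + X (Sum.inr 1) * r3) : coeff 0 p = 0 := by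
  classical
  obtain ⟨s0, hs0⟩ : ∃ s0 : (Fin 2 ⊕ Fin 2) →₀ ℕ,
      s0 = Finsupp.single (Sum.inl 0) 1 + Finsupp.single (Sum.inl 1) 1 := ⟨_, rfl⟩
  have e0 : s0 (Sum.inl 0) = 1 := by rw [hs0]; simp
  have e1 : s0 (Sum.inl 1) = 1 := by rw [hs0]; simp
  have e2 : s0 (Sum.inr 0) = 0 := by rw [hs0]; simp
  have e3 : s0 (Sum.inr 1) = 0 := by rw [hs0]; simp
  have h1 : (X (Sum.inl 0) * X (Sum.inl 1) : R4) = monomial s0 1 := by
    rw [hs0, X, X, monomial_mul, one_mul]
  rw [h1] at h
  have h2 := congrArg (coeff s0) h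
  have h3 : coeff s0 (monomial s0 (1 : ℂ) * p) = coeff 0 p := by
    have := coeff_monomial_mul (0 : (Fin 2 ⊕ Fin 2) →₀ ℕ) s0 (1 : ℂ) p
    rw [add_zero, one_mul] at this
    exact this
  have sq : ∀ (v : Fin 2 ⊕ Fin 2) (r : R4), s0 v ≤ 1 → coeff s0 (X v ^ 2 * r) = 0 := by
    intro v r hv
    rw [pow_two, mul_assoc, coeff_X_mul']
    split_ifs with h'
    · rw [coeff_X_mul', if_neg]
      rw [Finsupp.mem_support_iff, Finsupp.tsub_apply, Finsupp.single_eq_same]
      intro h''
      exact h'' (by omega)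
    · rfl
  have li : ∀ (v : Fin 2 ⊕ Fin 2) (r : R4), s0 v = 0 → coeff s0 (X v * r) = 0 := by
    intro v r hv
    rw [coeff_X_mul', if_neg]
    rw [Finsupp.mem_support_iff]
    exact fun h' => h' hv
  rw [h3, coeff_add, coeff_add, coeff_add, sq _ _ e0.le, sq _ _ e1.le, li _ _ e2, li _ _ e3] at h2
  rw [h2]
  ring

/-- the rows multiplied by a scalar -/
theorem detsc {B : Type} [CommRing B] (a : B) (b c d f : Fin 4 → B) :
    (Matrix.of (![fun k => a * b k, fun k => a * c k, d, f] : Fin 4 → Fin 4 → B)).det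
      = a ^ 2 * (Matrix.of (![b, c, d, f] : Fin 4 → Fin 4 → B)).det := by
  rw [Matrix.det_succ_row_zero, Matrix.det_succ_row_zero]
  simp [Fin.sum_univ_succ, Matrix.det_fin_three, Fin.succAbove]
  ring

end BBXM

open BBXM in
/-- module BBX -/
theorem specBBX (hCRB : SpecCRB) : SpecBBX := by
  intro e q l he hq hl L iF iA iR iFR iC hstd hj0 hT V T1 hV hT1
  have he0 : (e : ℂ) ≠ 0 := by
    exact_mod_cast (by omega : e ≠ 0)
  obtain ⟨a, ha⟩ : ∃ a : ℂ, a = (e : ℂ)⁻¹ := ⟨_, rfl⟩
  have hae : a * (e : ℂ) = 1 := by rw [ha]; exact inv_mul_cancel₀ he0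
  -- Euler
  have hU : ∀ i, ∑ c, (X c : S4) * (C a * pderiv c (q i)) = q i := by
    intro i
    have h := (hq i).sum_X_mul_pderiv
    have h1 : ∑ c, (X c : S4) * (C a * pderiv c (q i)) = C a * ∑ c, X c * pderiv c (q i) := by
      rw [Finset.mul_sum]
      exact Finset.sum_congr rfl fun c _ => by ring
    rw [h1, h, nsmul_eq_mul, ← mul_assoc, ← map_natCast (C : ℂ →+* S4) e, ← C_mul, hae, C_1, one_mul]
  have hW : ∀ j, ∑ c, (X c : S4) * pderiv c (l j) = l j := by
    intro j
    have h := (hl j).sum_X_mul_pderiv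
    rw [h, one_smul]
  obtain ⟨s, hs⟩ := hCRB S4 inferInstance X q l (fun i c => C a * pderiv c (q i)) V
    (fun j c => pderiv c (l j)) hU hV hW
  have hjc : (Matrix.of (![fun k => C a * pderiv k (q 0), fun k => C a * pderiv k (q 1),
      fun c => pderiv c (l 0), fun c => pderiv c (l 1)] : Fin 4 → Fin 4 → S4)).det
      = C (a ^ 2) * jc q l := by
    have hm : (Matrix.of (![fun k => pderiv k (q 0), fun k => pderiv k (q 1),
        fun c => pderiv c (l 0), fun c => pderiv c (l 1)] : Fin 4 → Fin 4 → S4))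
        = Matrix.of fun a c : Fin 4 => pderiv c ((![q 0, q 1, l 0, l 1] : Fin 4 → S4) a) := by
      ext1 i k
      fin_cases i <;> rfl
    rw [detsc, ← C_pow, hm, jc]
  have hvd : (Matrix.of (![V 0, V 1, fun c => pderiv c (l 0), fun c => pderiv c (l 1)] :
      Fin 4 → Fin 4 → S4)).det = vd V l := rfl
  rw [hjc, hvd] at hs
  have hD : algebraMap S4 L (jc q l) ≠ 0 := by
    have := hstd.fr
    intro h
    exact hj0 ((IsFractionRing.injective S4 L) (h.trans (map_zero _).symm))
  have := hstd.t1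
  have := hstd.t2
  have := hstd.t3
  have := hstd.fin
  choose r hr using fun i => hT (s i)
  obtain ⟨D, hDD⟩ : ∃ D, D = algebraMap S4 L (jc q l) := ⟨_, rfl⟩
  rw [← hDD] at hD hT1 hr
  -- the identity in L
  have hL : algebraMap R4 L (X (Sum.inl 0) * X (Sum.inl 1)) *
      (algebraMap ℂ L (a ^ 2) - algebraMap S4 L (vd V l) / D)
      = algebraMap R4 L (X (Sum.inl 0) ^ 2) * (algebraMap S4 L (s 0) / D)
        + algebraMap R4 L (X (Sum.inl 1) ^ 2) * (algebraMap S4 L (s 1) / D)
        + algebraMap R4 L (X (Sum.inr 0)) * (algebraMap S4 L (s 2) / D)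
        + algebraMap R4 L (X (Sum.inr 1)) * (algebraMap S4 L (s 3) / D) := by
    have h := congrArg (algebraMap S4 L) hs
    simp only [map_mul, map_add, map_sub, map_pow] at h
    rw [← hDD] at h
    have hC : algebraMap S4 L (C a) = algebraMap ℂ L a := by
      rw [IsScalarTower.algebraMap_apply ℂ S4 L]
      rfl
    rw [hC] at h
    simp only [map_mul, map_pow, hstd.xl, hstd.xr]
    field_simp
    linear_combination h
  have hF : ∀ (z : R4) (x : L), Algebra.trace (FractionRing R4) L (algebraMap R4 L z * x)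
      = algebraMap R4 (FractionRing R4) z * Algebra.trace (FractionRing R4) L x := by
    intro z x
    rw [IsScalarTower.algebraMap_apply R4 (FractionRing R4) L, ← Algebra.smul_def, map_smul,
      smul_eq_mul]
  have hTr := congrArg (Algebra.trace (FractionRing R4) L) hL
  simp only [map_add] at hTr
  rw [hF, hF, hF, hF, hF, hr, hr, hr, hr, map_sub, hT1] at hTr
  have hCt : Algebra.trace (FractionRing R4) L (algebraMap ℂ L (a ^ 2))
      = algebraMap R4 (FractionRing R4) (C ((Module.finrank (FractionRing R4) L : ℂ) * a ^ 2)) := by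
    rw [IsScalarTower.algebraMap_apply ℂ R4 L, IsScalarTower.algebraMap_apply R4 (FractionRing R4) L,
      Algebra.trace_algebraMap, nsmul_eq_mul, C_mul, map_mul]
    congr 1
    rw [map_natCast, map_natCast]
  rw [hCt] at hTr
  have hinj : Function.Injective (algebraMap R4 (FractionRing R4)) :=
    IsFractionRing.injective R4 (FractionRing R4)
  have hR : X (Sum.inl 0) * X (Sum.inl 1) *
      (C ((Module.finrank (FractionRing R4) L : ℂ) * a ^ 2) - T1)
      = X (Sum.inl 0) ^ 2 * r 0 + X (Sum.inl 1) ^ 2 * r 1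
      + X (Sum.inr 0) * r 2 + X (Sum.inr 1) * r 3 := by
    apply hinj
    simp only [map_mul, map_add, map_sub, map_pow] at hTr ⊢
    exact hTr
  have h0 := coef _ _ _ _ _ hR
  rw [coeff_sub, coeff_zero_C, sub_eq_zero] at h0
  rw [constantCoeff_eq, ← h0]
  linear_combination ((Module.finrank (FractionRing R4) L : ℂ)) * (a * e + 1) * hae

end Pool.Agent.Lib.MPc9b009.OD
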