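import Pool.Agent.Lib.MP_c9b009_ag.OD.Spec

/-!
# MP_c9b009_ag, row OD, module CLO: from LIE to `Geo`
-/

set_option autoImplicit false

namespace Pool.Agent.Lib.MPc9b009.OD

open MvPolynomial Pool.Agent.Lib.MPc9b009.B5

namespace CLOM

theorem self_zero {R : Type} [CommRing R] [IsDomain R] [CharZero R] {x : R} (h : x = - x) :
    x = 0 := by
  have h2 : (2 : R) * x = 0 := by linear_combination h
  exact (mul_eq_zero.1 h2).resolve_left two_ne_zero

theorem euler {N n : ℕ} {z : MvPolynomial (Fin N) ℂ} (h : z.IsHomogeneous n) :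
    ∑ k, X k * pderiv k z = C (n : ℂ) * z := by
  rw [h.sum_X_mul_pderiv]
  simp [nsmul_eq_mul]

/-- some entry of `P` is not zero -/
theorem exists_ne {N : ℕ} {g : Biv N} {P : Fin N → Fin N → MvPolynomial (Fin N) ℂ} (h : Om g P) :
    ∃ p q, p ≠ q ∧ P p q ≠ 0 := by
  by_contra hcon
  push Not at hcon
  have hz : ∀ i j, P i j = 0 := by
    intro i j
    by_cases hij : i = j
    · subst hij
      exact self_zero (h.skew i i)
    · exact hcon i j hij
  have := h.prim 0 (fun i j => by rw [hz i j])
  exact not_isUnit_zero this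

/-- a kernel vector is determined by two coordinates -/
theorem ker_zero {N : ℕ} {g : Biv N} {P : Fin N → Fin N → MvPolynomial (Fin N) ℂ} (hN : Even N)
    (h : Om g P) {p q : Fin N} (hpq : p ≠ q) (h0 : P p q ≠ 0) (κ : Fin N → MvPolynomial (Fin N) ℂ)
    (hk : ∀ a, ∑ k, g.f a k * κ k = 0) (hp : κ p = 0) (hq : κ q = 0) (l : Fin N) : κ l = 0 := by
  obtain ⟨ki, kj, h1, -⟩ := EXAM.core (Matrix.of g.f) hN (fun i j => g.skew i j) p q hpq
  have h2 := h1 κ (by
    ext1 a
    simpa [Matrix.mulVec, dotProduct] using hk a) l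
  obtain ⟨c, hc, hc2⟩ := h.minor
  rw [hc2 p q hpq, hp, hq, mul_zero, mul_zero, add_zero] at h2
  rcases mul_eq_zero.1 h2 with h3 | h3
  · exfalso
    rcases mul_eq_zero.1 h3 with h4 | h4
    · exact hc (C_eq_zero.1 h4)
    · exact h0 (pow_eq_zero_iff two_ne_zero |>.1 h4)
  · exact h3

/-- the cyclic sum -/
noncomputable def T {N : ℕ} (P : Fin N → Fin N → MvPolynomial (Fin N) ℂ) (k i j : Fin N) :
    MvPolynomial (Fin N) ℂ := pderiv k (P i j) + pderiv i (P j k) + pderiv j (P k i)

theorem T_cyc {N : ℕ} (P : Fin N → Fin N → MvPolynomial (Fin N) ℂ) (k i j : Fin N) :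
    T P k i j = T P i j k := by
  unfold T
  ring

theorem T_skew {N : ℕ} {P : Fin N → Fin N → MvPolynomial (Fin N) ℂ} (hs : ∀ i j, P j i = - P i j)
    (k i j : Fin N) : T P k j i = - T P k i j := by
  unfold T
  rw [hs i j, hs k i, hs j k, map_neg, map_neg, map_neg]
  ring

theorem T_skew' {N : ℕ} {P : Fin N → Fin N → MvPolynomial (Fin N) ℂ} (hs : ∀ i j, P j i = - P i j)
    (k i j : Fin N) : T P i k j = - T P k i j := by
  rw [T_cyc P i k j, T_skew hs k i j]

theorem T_ker {N : ℕ} {g : Biv N} {P : Fin N → Fin N → MvPolynomial (Fin N) ℂ} (h : Om g P)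
    (hlie : ∀ a i j, ham g a (P i j) + ∑ l, pderiv i (g.f a l) * P l j
      + ∑ l, pderiv j (g.f a l) * P i l = 0) (i j a : Fin N) :
    ∑ k, g.f a k * T P k i j = 0 := by
  have hd : ∀ i j, ∑ k, g.f a k * pderiv i (P k j) = - ∑ k, pderiv i (g.f a k) * P k j := by
    intro i j
    have h1 := congrArg (pderiv i) (h.ker a j)
    rw [map_sum, map_zero] at h1
    simp only [Derivation.leibniz, smul_eq_mul, Finset.sum_add_distrib] at h1
    have h2 : ∑ k, P k j * pderiv i (g.f a k) = ∑ k, pderiv i (g.f a k) * P k j :=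
      Finset.sum_congr rfl fun k _ => mul_comm _ _
    rw [h2] at h1
    linear_combination h1
  have h3 : ∑ k, g.f a k * T P k i j = ham g a (P i j) - ∑ k, g.f a k * pderiv i (P k j)
      + ∑ k, g.f a k * pderiv j (P k i) := by
    unfold T ham
    rw [← Finset.sum_sub_distrib, ← Finset.sum_add_distrib]
    refine Finset.sum_congr rfl fun k _ => ?_
    rw [h.skew k j, map_neg]
    ring
  rw [h3, hd i j, hd j i]
  have h4 : ∑ k, pderiv j (g.f a k) * P k i = - ∑ l, pderiv j (g.f a l) * P i l := by
    rw [← Finset.sum_neg_distrib]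
    refine Finset.sum_congr rfl fun k _ => ?_
    rw [h.skew i k]
    ring
  rw [h4]
  linear_combination hlie a i j

theorem T_zero {N : ℕ} {g : Biv N} {P : Fin N → Fin N → MvPolynomial (Fin N) ℂ} (hN : Even N)
    (h : Om g P)
    (hlie : ∀ a i j, ham g a (P i j) + ∑ l, pderiv i (g.f a l) * P l j
      + ∑ l, pderiv j (g.f a l) * P i l = 0) (k i j : Fin N) : T P k i j = 0 := by
  obtain ⟨p, q, hpq, h0⟩ := exists_ne h
  have hs := h.skew
  have hK := fun (i j : Fin N) => ker_zero hN h hpq h0 (fun k => T P k i j) (T_ker h hlie i j)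
  have hd1 : ∀ k j, T P k j j = 0 := fun k j => self_zero (T_skew hs k j j)
  have hd2 : ∀ k j, T P j k j = 0 := fun k j => by rw [T_cyc P j k j]; exact hd1 k j
  have hd3 : ∀ k j, T P j j k = 0 := fun k j => by rw [T_cyc P j j k]; exact hd2 k j
  have e1 : ∀ k, T P k p q = 0 := fun k => hK p q (hd3 q p) (hd2 p q) k
  have e2 : ∀ j k, T P k p j = 0 := fun j k => hK p j (hd3 j p) (by
    show T P q p j = 0
    rw [T_cyc P q p j, T_cyc P p j q, T_skew hs j p q, e1, neg_zero]) k
  have e3 : ∀ j k, T P k q j = 0 := fun j k => hK q j (by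
    show T P p q j = 0
    rw [T_cyc P p q j, T_cyc P q j p, e1]) (hd3 j q) k
  exact hK i j (by
    show T P p i j = 0
    rw [T_cyc P p i j, T_skew hs i p j, e2, neg_zero]) (by
    show T P q i j = 0
    rw [T_cyc P q i j, T_skew hs i q j, e3, neg_zero]) k

/-- derivative of `f_j` -/
theorem pderiv_fo {N : ℕ} (P : Fin N → Fin N → MvPolynomial (Fin N) ℂ) (i j : Fin N) :
    pderiv i (fo P j) = P i j + ∑ k, X k * pderiv i (P k j) := by
  unfold fo
  rw [map_sum]
  simp only [Derivation.leibniz, smul_eq_mul, pderiv_X, Finset.sum_add_distrib]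
  rw [add_comm]
  congr 1
  rw [Finset.sum_eq_single i]
  · simp
  · intro b _ hb
    rw [Pi.single_eq_of_ne hb, mul_zero]
  · intro hb
    exact absurd (Finset.mem_univ _) hb

end CLOM

open CLOM in
theorem specCLO : SpecCLO := by
  intro N g P hN h4 h hlie
  have hT := T_zero hN h hlie
  refine ⟨h, hlie, ?_, ?_⟩
  · intro i j
    rw [pderiv_fo, pderiv_fo, h.skew i j]
    have h1 : ∑ k, X k * pderiv i (P k j) - ∑ k, X k * pderiv j (P k i)
        = ∑ k, X k * pderiv k (P i j) := by
      rw [← Finset.sum_sub_distrib]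
      refine Finset.sum_congr rfl fun k _ => ?_
      have h2 := hT k i j
      unfold T at h2
      rw [h.skew k j, map_neg] at h2
      linear_combination - X k * h2
    rw [euler (h.hom i j)] at h1
    have h3 : (C (N : ℂ) : MvPolynomial (Fin N) ℂ) = C ((N - 2 : ℕ) : ℂ) + 2 := by
      obtain ⟨m, rfl⟩ : ∃ m, N = m + 2 := ⟨N - 2, by omega⟩
      rw [Nat.add_sub_cancel, Nat.cast_add, map_add]
      congr 1
    rw [h3]
    linear_combination h1
  · intro a i
    have h1 : ham g a (fo P i) = ∑ l, g.f a l * P l i + ∑ k, X k * ham g a (P k i) := by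
      unfold ham
      simp only [pderiv_fo, mul_add, Finset.sum_add_distrib, Finset.mul_sum]
      congr 1
      rw [Finset.sum_comm]
      refine Finset.sum_congr rfl fun k _ => Finset.sum_congr rfl fun l _ => ?_
      ring
    have h2 : ∑ k, X k * ham g a (P k i) = - ∑ l, (∑ k, X k * pderiv k (g.f a l)) * P l i
        - ∑ l, pderiv i (g.f a l) * fo P l := by
      have h3 : ∀ k, X k * ham g a (P k i) = - ∑ l, X k * pderiv k (g.f a l) * P l i
          - ∑ l, pderiv i (g.f a l) * (X k * P k l) := by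
        intro k
        have h4 : ∑ l, X k * pderiv k (g.f a l) * P l i = X k * ∑ l, pderiv k (g.f a l) * P l i := by
          rw [Finset.mul_sum]
          exact Finset.sum_congr rfl fun l _ => by ring
        have h5 : ∑ l, pderiv i (g.f a l) * (X k * P k l)
            = X k * ∑ l, pderiv i (g.f a l) * P k l := by
          rw [Finset.mul_sum]
          exact Finset.sum_congr rfl fun l _ => by ring
        rw [h4, h5]
        linear_combination X k * hlie a k i
      rw [Finset.sum_congr rfl fun k _ => h3 k, Finset.sum_sub_distrib, Finset.sum_neg_distrib,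
        Finset.sum_comm]
      congr 1
      · congr 1
        exact Finset.sum_congr rfl fun l _ => by rw [Finset.sum_mul]
      · rw [Finset.sum_comm]
        refine Finset.sum_congr rfl fun l _ => ?_
        unfold fo
        rw [Finset.mul_sum]
    have h6 : ∑ l, (∑ k, X k * pderiv k (g.f a l)) * P l i
        = C (2 : ℂ) * ∑ l, g.f a l * P l i := by
      rw [Finset.mul_sum]
      refine Finset.sum_congr rfl fun l _ => ?_
      rw [euler (g.quad a l)]
      push_cast
      ring
    rw [h1, h2, h6, h.ker a i]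
    ring

end Pool.Agent.Lib.MPc9b009.OD
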