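import Pool.Agent.Lib.MP_c9b009_ag.OD.Spec

/-!
# MP_c9b009_ag, row OD, module CNX: the recursion for a given kernel generator
-/

set_option autoImplicit false

namespace Pool.Agent.Lib.MPc9b009.OD

open MvPolynomial Pool.Agent.Lib.MPc9b009.B5

open Module CNTM in
/-- **CNX** -/
theorem specCNX (hEXA : SpecEXA) : SpecCNX := by
  intro N th A T hN hsk hq hdet hrk hTsk hTh hAT hT0 hTg hTp
  obtain ⟨a₀, ha₀⟩ := hEXA N th A T hN hsk hq hdet hrk hTsk hTh hAT hT0 hTg hTp
  have hTA : T * A = 0 := by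
    have hAt : A.transpose = -A := by
      ext1 i j
      exact hsk i j
    have hTt : T.transpose = -T := by
      ext1 i j
      exact hTsk i j
    have h := congrArg Matrix.transpose hAT
    rw [Matrix.transpose_mul, hAt, hTt, Matrix.transpose_zero, neg_mul_neg] at h
    exact h
  refine ⟨a₀, fun a ha => ?_⟩
  obtain ⟨h1, h2⟩ := ha₀ a ha
  have e1 := rn (T.mulVecLin.restrictScalars ℂ) (hv 4 N (a + 2))
  have m1 : Submodule.map (T.mulVecLin.restrictScalars ℂ) (hv 4 N (a + 2)) = hk A (a + 2 + th) := by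
    ext w
    constructor
    · rintro ⟨z, hz, rfl⟩
      refine ⟨?_, ?_⟩
      · exact mulVec_mem hTh hz (by omega)
      · show A.mulVec (T.mulVec z) = 0
        rw [Matrix.mulVec_mulVec, hAT, Matrix.zero_mulVec]
    · intro hw
      obtain ⟨z, hz, hzw⟩ := h1 w hw
      exact ⟨z, hz, hzw⟩
  have e2 := rn (A.mulVecLin.restrictScalars ℂ) (hv 4 N a)
  have m2 : Submodule.map (A.mulVecLin.restrictScalars ℂ) (hv 4 N a) = hk T (a + 2) := by
    ext w
    constructor
    · rintro ⟨z, hz, rfl⟩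
      refine ⟨?_, ?_⟩
      · exact mulVec_mem hq hz (by omega)
      · show T.mulVec (A.mulVec z) = 0
        rw [Matrix.mulVec_mulVec, hTA, Matrix.zero_mulVec]
    · intro hw
      obtain ⟨z, hz, hzw⟩ := h2 w hw
      exact ⟨z, hz, hzw⟩
  rw [m1, finrank_hv] at e1
  rw [m2, finrank_hv] at e2
  have e3 : finrank ℂ (hk A (a + 2 + th)) + finrank ℂ (hk T (a + 2)) = N * (a + 5).choose 3 := e1
  have e4 : finrank ℂ (hk T (a + 2)) + finrank ℂ (hk A a) = N * (a + 3).choose 3 := e2
  rw [choose_three, mul_add] at e3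
  omega

end Pool.Agent.Lib.MPc9b009.OD
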