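import Pool.Agent.Lib.MP_c9b009_ag.OD.Spec

/-!
# MP_c9b009_ag, row OD, module COD: polynomials without common factor have codimension `≥ 2`
-/

set_option autoImplicit false

namespace Pool.Agent.Lib.MPc9b009.OD

open MvPolynomial Pool.Agent.Lib.MPc9b009.B5

namespace CODM

theorem trdeg_le {v : ℕ} (q : Ideal (MvPolynomial (Fin v) ℂ)) :
    Algebra.trdeg ℂ (MvPolynomial (Fin v) ℂ ⧸ q) ≤ ((v : ℕ) : Cardinal) := by
  have h1 : Algebra.trdeg ℂ (MvPolynomial (Fin v) ℂ ⧸ q) ≤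
      Algebra.trdeg ℂ (MvPolynomial (Fin v) ℂ) :=
    trdeg_le_of_surjective (Ideal.Quotient.mkₐ ℂ q) (Ideal.Quotient.mkₐ_surjective ℂ q)
  rw [MvPolynomial.trdeg_of_isDomain] at h1
  simpa using h1

theorem trdeg_nat {v : ℕ} (q : Ideal (MvPolynomial (Fin v) ℂ)) :
    ∃ n : ℕ, n ≤ v ∧ Algebra.trdeg ℂ (MvPolynomial (Fin v) ℂ ⧸ q) = (n : Cardinal) := by
  have h := trdeg_le q
  obtain ⟨n, hn⟩ := Cardinal.lt_aleph0.1 (h.trans_lt (Cardinal.natCast_lt_aleph0 (n := v)))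
  rw [hn] at h
  exact ⟨n, by exact_mod_cast h, hn⟩

end CODM

theorem specCOD : SpecCOD := by
  intro v n f hv hf q hq hle
  have hfq : ∀ j, f j ∈ q := fun j => hle (Ideal.subset_span ⟨j, rfl⟩)
  have hne : q ≠ ⊥ := by
    rintro rfl
    have h0 : IsUnit (0 : MvPolynomial (Fin v) ℂ) := by
      refine hf 0 fun j => ?_
      rw [zero_dvd_iff]
      exact hfq j
    exact not_isUnit_zero h0
  obtain ⟨a, haq, hap⟩ := hq.exists_mem_prime_of_ne_bot hne
  have hpr : (Ideal.span {a}).IsPrime := (Ideal.span_singleton_prime hap.ne_zero).2 hap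
  have hpq : Ideal.span {a} ≤ q := by
    rw [Ideal.span_le]
    rintro x rfl
    exact haq
  have hbot : (⊥ : Ideal (MvPolynomial (Fin v) ℂ)) < Ideal.span {a} := by
    rw [bot_lt_iff_ne_bot, Ne, Ideal.span_singleton_eq_bot]
    exact hap.ne_zero
  have h1 := specMONO v ⊥ (Ideal.span {a}) Ideal.isPrime_bot hpr hbot
  obtain ⟨n0, hn0, e0⟩ := CODM.trdeg_nat (⊥ : Ideal (MvPolynomial (Fin v) ℂ))
  obtain ⟨n1, hn1, e1⟩ := CODM.trdeg_nat (Ideal.span {a})
  obtain ⟨n2, hn2, e2⟩ := CODM.trdeg_nat q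
  rcases eq_or_ne (Ideal.span {a}) q with he | he
  · exfalso
    apply hap.not_isUnit
    refine hf a fun j => ?_
    rw [← Ideal.mem_span_singleton, he]
    exact hfq j
  · have h2 := specMONO v (Ideal.span {a}) q hpr hq (lt_of_le_of_ne hpq he)
    rw [e0, e1] at h1
    rw [e1, e2] at h2
    rw [e2]
    norm_cast at h1 h2 ⊢
    omega

end Pool.Agent.Lib.MPc9b009.OD
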