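import Pool.Agent.Lib.MP_c9b009_ag.OD.Spec

/-!
# MP_c9b009_ag, row OD, module CRB: the determinant identity
-/

set_option autoImplicit false

namespace Pool.Agent.Lib.MPc9b009.OD

open MvPolynomial Pool.Agent.Lib.MPc9b009.B5

namespace CRBM

variable {B : Type} [CommRing B]

/-- the determinant with the rows `a`, `b`, `c`, `d` -/
noncomputable def d4 (a b c d : Fin 4 → B) : B := (Matrix.of (![a, b, c, d] : Fin 4 → Fin 4 → B)).det

theorem d4_eq (a b c d : Fin 4 → B) : d4 a b c d =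
    a 0 * (b 1 * (c 2 * d 3 - c 3 * d 2) - b 2 * (c 1 * d 3 - c 3 * d 1)
      + b 3 * (c 1 * d 2 - c 2 * d 1))
    - a 1 * (b 0 * (c 2 * d 3 - c 3 * d 2) - b 2 * (c 0 * d 3 - c 3 * d 0)
      + b 3 * (c 0 * d 2 - c 2 * d 0))
    + a 2 * (b 0 * (c 1 * d 3 - c 3 * d 1) - b 1 * (c 0 * d 3 - c 3 * d 0)
      + b 3 * (c 0 * d 1 - c 1 * d 0))
    - a 3 * (b 0 * (c 1 * d 2 - c 2 * d 1) - b 1 * (c 0 * d 2 - c 2 * d 0)
      + b 2 * (c 0 * d 1 - c 1 * d 0)) := by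
  unfold d4
  rw [Matrix.det_succ_row_zero]
  simp [Fin.sum_univ_succ, Matrix.det_fin_three, Fin.succAbove]
  ring

theorem five (x a0 a1 a2 a3 a4 : Fin 4 → B) :
    (∑ c, x c * a0 c) * d4 a1 a2 a3 a4 - (∑ c, x c * a1 c) * d4 a0 a2 a3 a4
      + (∑ c, x c * a2 c) * d4 a0 a1 a3 a4 - (∑ c, x c * a3 c) * d4 a0 a1 a2 a4
      + (∑ c, x c * a4 c) * d4 a0 a1 a2 a3 = 0 := by
  simp only [d4_eq, Fin.sum_univ_four]
  ring

theorem sub0 (a a' b c d : Fin 4 → B) : d4 (a - a') b c d = d4 a b c d - d4 a' b c d := by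
  simp only [d4_eq, Pi.sub_apply]
  ring

theorem sub1 (a b b' c d : Fin 4 → B) : d4 a (b - b') c d = d4 a b c d - d4 a b' c d := by
  simp only [d4_eq, Pi.sub_apply]
  ring

end CRBM

open CRBM in
/-- module CRB -/
theorem specCRB : SpecCRB := by
  intro B _ x q l U V W hU hV hW
  have e1 : ∑ c, x c * (U 0 - V 0) c = 0 := by
    have h : ∑ c, x c * (U 0 - V 0) c = ∑ c, x c * U 0 c - ∑ c, x c * V 0 c := by
      rw [← Finset.sum_sub_distrib]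
      exact Finset.sum_congr rfl fun c _ => by rw [Pi.sub_apply]; ring
    rw [h, hU, hV, sub_self]
  have e2 : ∑ c, x c * (U 1 - V 1) c = 0 := by
    have h : ∑ c, x c * (U 1 - V 1) c = ∑ c, x c * U 1 c - ∑ c, x c * V 1 c := by
      rw [← Finset.sum_sub_distrib]
      exact Finset.sum_congr rfl fun c _ => by rw [Pi.sub_apply]; ring
    rw [h, hU, hV, sub_self]
  have hA := five x (V 0) (U 0 - V 0) (U 1) (W 0) (W 1)
  have hB := five x (V 0) (U 1 - V 1) (U 1) (W 0) (W 1)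
  rw [hV 0, e1, hU 1, hW 0, hW 1] at hA
  rw [hV 0, e2, hU 1, hW 0, hW 1] at hB
  have hC : (Matrix.of (![U 0, U 1, W 0, W 1] : Fin 4 → Fin 4 → B)).det
      - (Matrix.of (![V 0, V 1, W 0, W 1] : Fin 4 → Fin 4 → B)).det
      = d4 (U 0 - V 0) (U 1) (W 0) (W 1) + d4 (V 0) (U 1 - V 1) (W 0) (W 1) := by
    rw [sub0, sub1]
    unfold d4
    ring
  rw [hC]
  refine ⟨![- d4 (U 1 - V 1) (U 1) (W 0) (W 1), - d4 (V 0) (U 0 - V 0) (W 0) (W 1),
    q 1 * d4 (V 0) (U 0 - V 0) (U 1) (W 1) + q 0 * d4 (V 0) (U 1 - V 1) (U 1) (W 1),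
    - (q 1 * d4 (V 0) (U 0 - V 0) (U 1) (W 0) + q 0 * d4 (V 0) (U 1 - V 1) (U 1) (W 0))], ?_⟩
  simp only [Matrix.cons_val]
  linear_combination (q 1) * hA + (q 0) * hB

end Pool.Agent.Lib.MPc9b009.OD
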