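import Pool.Agent.Lib.MP_c9b009_ag.OD.Spec

/-! # OD/KER: kernel vectors over any ring -/

set_option autoImplicit false

namespace Pool.Agent.Lib.MPc9b009.OD

open MvPolynomial Pool.Agent.Lib.MPc9b009.B5

namespace KERM

theorem diag {N : ℕ} {P : Fin N → Fin N → MvPolynomial (Fin N) ℂ} (h : ∀ i j, P j i = - P i j)
    (i : Fin N) : P i i = 0 := by
  have h1 := h i i
  have h2 : (2 : MvPolynomial (Fin N) ℂ) * P i i = 0 := by linear_combination h1
  rcases mul_eq_zero.1 h2 with h3 | h3
  · exact absurd h3 two_ne_zero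
  · exact h3

theorem det_mij {N : ℕ} {B : Type} [CommRing B] (g : Biv N) (br : MvPolynomial (Fin N) ℂ →+* B)
    (p q : Fin N) :
    (EXAM.mij (Matrix.of fun i j => br (g.f i j)) p q).det =
      br (EXAM.mij (Matrix.of g.f) p q).det := by
  rw [RingHom.map_det]
  rfl

end KERM

theorem specKER : SpecKER := by
  intro N g P hN hOm B _ br κ hκ p q l hpq
  obtain ⟨h, h0, hh⟩ := hOm.minor
  obtain ⟨ki, kj, hk, -⟩ := EXAM.core (Matrix.of fun i j => br (g.f i j)) hN
    (by intro i j; simp only [Matrix.of_apply]; rw [g.skew i j, map_neg]) p q hpq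
  rw [KERM.det_mij g br p q, hh p q hpq, map_mul, map_pow] at hk
  have e1 := hk κ (by
    funext a
    simp only [Matrix.mulVec, dotProduct, Matrix.of_apply, Pi.zero_apply]
    exact hκ a) l
  have hcol : ∀ c : Fin N, (Matrix.of fun i j => br (g.f i j)).mulVec (fun j => br (P j c)) = 0 := by
    intro c
    funext a
    simp only [Matrix.mulVec, dotProduct, Matrix.of_apply, Pi.zero_apply]
    have := congrArg br (hOm.ker a c)
    rw [map_sum, map_zero] at this
    simpa only [map_mul] using this
  have e2 := hk _ (hcol q) l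
  have e3 := hk _ (hcol p) l
  have d1 : br (P q q) = 0 := by rw [KERM.diag hOm.skew q, map_zero]
  have d2 : br (P p p) = 0 := by rw [KERM.diag hOm.skew p, map_zero]
  have s1 : br (P q p) = - br (P p q) := by rw [hOm.skew p q, map_neg]
  have s2 : br (P l p) = - br (P p l) := by rw [hOm.skew p l, map_neg]

  rw [d1] at e2
  rw [d2, s1, s2] at e3
  have hu : br (C h⁻¹) * br (C h) = 1 := by
    rw [← map_mul, ← C_mul, inv_mul_cancel₀ h0, C_1, map_one]
  have key : br (C h) * br (P p q) ^ 2 *
      (br (P p q) * κ l - br (P l q) * κ p - br (P p l) * κ q) = 0 := by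
    linear_combination (br (P p q)) * e1 - κ p * e2 + κ q * e3
  calc br (P p q) ^ 2 * (br (P p q) * κ l - br (P l q) * κ p - br (P p l) * κ q)
      = (br (C h⁻¹) * br (C h)) * (br (P p q) ^ 2 *
        (br (P p q) * κ l - br (P l q) * κ p - br (P p l) * κ q)) := by rw [hu, one_mul]
    _ = br (C h⁻¹) * (br (C h) * br (P p q) ^ 2 *
      (br (P p q) * κ l - br (P l q) * κ p - br (P p l) * κ q)) := by ring
    _ = 0 := by rw [key, mul_zero]

end Pool.Agent.Lib.MPc9b009.OD
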