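import Pool.Agent.Lib.MP_c9b009_ag.OD.Spec
import Pool.Agent.Lib.MP_c9b009_ag.OD.KER

/-! # OD/E2 -/

set_option autoImplicit false

namespace Pool.Agent.Lib.MPc9b009.OD

open MvPolynomial Pool.Agent.Lib.MPc9b009.B5

namespace E2M

theorem ker_mod {N : ℕ} {g : Biv N} {P : Fin N → Fin N → MvPolynomial (Fin N) ℂ}
    (hG : Geo g P) (u : Fin N → ℂ) (a : Fin N) :
    ∑ k, g.f a k * Fu P u k ∈ Jf P := by
  have h1 : ∑ k, g.f a k * Fu P u k = ∑ i, C (u i) * ham g a (fo P i) := by
    simp only [Fu, FF, ham, Finset.mul_sum]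
    rw [Finset.sum_comm]
    refine Finset.sum_congr rfl fun i _ => Finset.sum_congr rfl fun k _ => ?_
    ring
  rw [h1]
  refine Ideal.sum_mem _ fun i _ => Ideal.mul_mem_left _ _ ?_
  have h2 : ham g a (fo P i) = - ∑ l, pderiv i (g.f a l) * fo P l := by
    linear_combination hG.hamf a i
  rw [h2]
  refine neg_mem (Ideal.sum_mem _ fun l _ => Ideal.mul_mem_left _ _ ?_)
  exact Ideal.subset_span ⟨l, rfl⟩

theorem wedge {B : Type} [CommRing B] {N : ℕ} (Q : Fin N → Fin N → B) (κ κ' : Fin N → B)
    (hs : ∀ i j, Q j i = - Q i j)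
    (hp : ∀ i j k l, Q i j * Q k l - Q i k * Q j l + Q i l * Q j k = 0) (p q : Fin N)
    (h : ∀ l, Q p q ^ 2 * (Q p q * κ l - Q l q * κ p - Q p l * κ q) = 0)
    (h' : ∀ l, Q p q ^ 2 * (Q p q * κ' l - Q l q * κ' p - Q p l * κ' q) = 0) (k l : Fin N) :
    Q p q ^ 6 * (κ k * κ' l - κ l * κ' k) = Q p q ^ 5 * ((κ p * κ' q - κ q * κ' p) * Q k l) := by
  have e1 : Q p q ^ 3 * κ k = Q p q ^ 2 * (Q k q * κ p + Q p k * κ q) := by
    linear_combination h k
  have e2 : Q p q ^ 3 * κ l = Q p q ^ 2 * (Q l q * κ p + Q p l * κ q) := by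
    linear_combination h l
  have e1' : Q p q ^ 3 * κ' k = Q p q ^ 2 * (Q k q * κ' p + Q p k * κ' q) := by
    linear_combination h' k
  have e2' : Q p q ^ 3 * κ' l = Q p q ^ 2 * (Q l q * κ' p + Q p l * κ' q) := by
    linear_combination h' l
  have hpl : Q p q * Q k l = Q p l * Q k q - Q p k * Q l q := by
    have := hp p q k l
    rw [hs l q, hs k q] at this
    linear_combination this
  calc Q p q ^ 6 * (κ k * κ' l - κ l * κ' k)
      = (Q p q ^ 3 * κ k) * (Q p q ^ 3 * κ' l) - (Q p q ^ 3 * κ l) * (Q p q ^ 3 * κ' k) := by ring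
    _ = Q p q ^ 4 * ((κ p * κ' q - κ q * κ' p) * (Q p l * Q k q - Q p k * Q l q)) := by
        rw [e1, e2, e1', e2']; ring
    _ = Q p q ^ 5 * ((κ p * κ' q - κ q * κ' p) * Q k l) := by rw [← hpl]; ring

end E2M

theorem specE2 (hKER : SpecKER) : SpecE2 := by
  intro N g P hN hG u v
  set J := Jf P with hJ
  have hbr : ∀ w : Fin N → ℂ, ∀ a, ∑ k, (Ideal.Quotient.mk J) (g.f a k) *
      (Ideal.Quotient.mk J) (Fu P w k) = 0 := by
    intro w a
    have h1 := Ideal.Quotient.eq_zero_iff_mem.2 (E2M.ker_mod hG w a)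
    rw [map_sum] at h1
    simpa only [map_mul] using h1
  have key : ∀ p q k l : Fin N, P p q ^ 6 * (Puv P u v * (Fu P u k * Fu P v l - Fu P u l * Fu P v k)
      - duv P u v * P k l) ∈ J := by
    intro p q k l
    by_cases hpq : p = q
    · subst hpq
      rw [KERM.diag hG.skew p, zero_pow (by norm_num), zero_mul]
      exact J.zero_mem
    · have hw := E2M.wedge (fun i j => (Ideal.Quotient.mk J) (P i j))
        (fun k => (Ideal.Quotient.mk J) (Fu P u k)) (fun k => (Ideal.Quotient.mk J) (Fu P v k))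
        (by intro i j; rw [hG.skew i j, map_neg])
        (by
          intro i j k l
          have := congrArg (Ideal.Quotient.mk J) (hG.plu i j k l)
          simpa only [map_add, map_sub, map_mul, map_zero] using this) p q
        (fun l => hKER N g P hN hG.toOm _ _ (Ideal.Quotient.mk J) _ (hbr u) p q l hpq)
        (fun l => hKER N g P hN hG.toOm _ _ (Ideal.Quotient.mk J) _ (hbr v) p q l hpq)

      have hij : ∀ i j : Fin N, P p q ^ 6 * ((Fu P u k * Fu P v l - Fu P u l * Fu P v k) * P i j -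
          (Fu P u i * Fu P v j - Fu P u j * Fu P v i) * P k l) ∈ J := by
        intro i j
        rw [← Ideal.Quotient.eq_zero_iff_mem]
        simp only [map_mul, map_sub, map_pow]
        linear_combination (Ideal.Quotient.mk J (P i j)) * hw k l -
          (Ideal.Quotient.mk J (P k l)) * hw i j
      have hsum : P p q ^ 6 * (Puv P u v * (Fu P u k * Fu P v l - Fu P u l * Fu P v k)
          - duv P u v * P k l) = ∑ i, ∑ j, C (u i) * C (v j) * (P p q ^ 6 *
            ((Fu P u k * Fu P v l - Fu P u l * Fu P v k) * P i j -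
            (Fu P u i * Fu P v j - Fu P u j * Fu P v i) * P k l)) := by
        have h1 : duv P u v = ∑ i, ∑ j, C (u i) * C (v j) *
            (Fu P u i * Fu P v j - Fu P u j * Fu P v i) := by
          have h2 : ∑ i, ∑ j, C (u i) * C (v j) * (Fu P u i * Fu P v j - Fu P u j * Fu P v i) =
              ∑ i, ∑ j, (C (u i) * Fu P u i) * (C (v j) * Fu P v j) -
              ∑ j, ∑ i, (C (v j) * Fu P u j) * (C (u i) * Fu P v i) := by
            rw [Finset.sum_comm (f := fun j i => (C (v j) * Fu P u j) * (C (u i) * Fu P v i)),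
              ← Finset.sum_sub_distrib]
            refine Finset.sum_congr rfl fun i _ => ?_
            rw [← Finset.sum_sub_distrib]
            refine Finset.sum_congr rfl fun j _ => ?_
            ring
          rw [h2, duv, Finset.sum_mul_sum, Finset.sum_mul_sum]
        rw [h1, Puv]
        simp only [Finset.sum_mul, Finset.mul_sum, mul_sub, ← Finset.sum_sub_distrib]
        refine Finset.sum_congr rfl fun i _ => Finset.sum_congr rfl fun j _ => ?_
        ring
      rw [hsum]
      exact Ideal.sum_mem _ fun i _ => Ideal.sum_mem _ fun j _ => Ideal.mul_mem_left _ _ (hij i j)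
  let I : Ideal (MvPolynomial (Fin N) ℂ) :=
    { carrier := {z | ∀ k l, z * (Puv P u v * (Fu P u k * Fu P v l - Fu P u l * Fu P v k)
        - duv P u v * P k l) ∈ J}
      add_mem' := by
        intro a b ha hb k l
        rw [add_mul]
        exact J.add_mem (ha k l) (hb k l)
      zero_mem' := by
        intro k l
        rw [zero_mul]
        exact J.zero_mem
      smul_mem' := by
        intro c a ha k l
        rw [smul_eq_mul, mul_assoc]
        exact J.mul_mem_left c (ha k l) }
  have hrad : Puv P u v ∈ I.radical := by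
    rw [Puv]
    refine Ideal.sum_mem _ fun i _ => Ideal.sum_mem _ fun j _ => Ideal.mul_mem_left _ _ ?_
    exact ⟨6, fun k l => key i j k l⟩
  obtain ⟨m, hm⟩ := hrad
  exact ⟨m, fun k l => hm k l⟩

end Pool.Agent.Lib.MPc9b009.OD
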