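import Pool.Agent.Lib.MP_c9b009_ag.OD.Spec

/-!
# Module EVA: specialization of the trace to `q_0 = q_1 = 0`
-/

set_option autoImplicit false

namespace Pool.Agent.Lib.MPc9b009.OD

open MvPolynomial Pool.Agent.Lib.MPc9b009.B5

namespace EVAM

open nonZeroDivisors IsLocalRing

attribute [local instance] Ideal.Quotient.field in
theorem core (hF : SpecFRE) (R A : Type) [CommRing R] [IsDomain R] [IsNoetherianRing R] [CommRing A]
    [IsDomain A] [Algebra R A] [Module.Finite R A] [FaithfulSMul R A] (q : Ideal R) [q.IsPrime]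
    (x y : R) (hq : q = Ideal.span {x, y}) (hx : algebraMap R A x ≠ 0)
    (hy : ∀ z, algebraMap R A x ∣ algebraMap R A y * z → algebraMap R A x ∣ z)
    (F L : Type) [Field F] [Field L] [Algebra R F] [IsFractionRing R F] [Algebra A L]
    [IsFractionRing A L] [Algebra R L] [Algebra F L] [IsScalarTower R A L] [IsScalarTower R F L] :
    ∃ (k K : Type) (_ : Field k) (_ : CommRing K) (_ : Algebra k K) (ρ : R →+* k) (π : A →+* K),
      FiniteDimensional k K ∧ (∀ r, ρ r = 0 ↔ r ∈ q) ∧
      (∀ z : k, ∃ a b : R, b ∉ q ∧ ρ b * z = ρ a) ∧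
      (∀ r, π (algebraMap R A r) = algebraMap k K (ρ r)) ∧
      (∀ z : K, ∃ (s : A) (c : R), c ∉ q ∧ algebraMap k K (ρ c) * z = π s) ∧
      (∀ s : A, π s = 0 → ∃ c : R, c ∉ q ∧ algebraMap R A c * s ∈ q.map (algebraMap R A)) ∧
      ∀ (s : A) (t : R), Algebra.trace F L (algebraMap A L s) = algebraMap R F t →
        Algebra.trace k K (π s) = ρ t := by
  let Rp := Localization.AtPrime q
  let Ap := Localization (Algebra.algebraMapSubmonoid A q.primeCompl)
  let _ : Algebra Rp Ap := localizationAlgebra q.primeCompl A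
  have tow : IsScalarTower R Rp Ap := IsScalarTower.of_algebraMap_eq'
    (by rw [RingHom.algebraMap_toAlgebra, IsLocalization.map_comp, ← IsScalarTower.algebraMap_eq])
  have : IsLocalization (Submonoid.map (algebraMap R A) (Ideal.primeCompl q)) Ap :=
    inferInstanceAs (IsLocalization (Algebra.algebraMapSubmonoid A q.primeCompl) Ap)
  have e : Algebra.algebraMapSubmonoid A q.primeCompl ≤ A⁰ :=
    Submonoid.map_le_of_le_comap _ <| q.primeCompl_le_nonZeroDivisors.trans
      (nonZeroDivisors_le_comap_nonZeroDivisors_of_injective _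
        (FaithfulSMul.algebraMap_injective _ _))
  have : IsDomain Ap := IsLocalization.isDomain_of_le_nonZeroDivisors _ e
  have : IsDomain Rp := IsLocalization.isDomain_of_le_nonZeroDivisors _ q.primeCompl_le_nonZeroDivisors
  have : Module.Finite Rp Ap := .of_isLocalization R A q.primeCompl
  have injR : Function.Injective (algebraMap R Rp) :=
    IsLocalization.injective _ q.primeCompl_le_nonZeroDivisors
  have injA : Function.Injective (algebraMap A Ap) := IsLocalization.injective _ e
  have : IsNoetherianRing Rp := IsLocalization.isNoetherianRing q.primeCompl Rp inferInstance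
  have hmap : maximalIdeal Rp = Ideal.map (algebraMap R Rp) q :=
    (Localization.AtPrime.map_eq_maximalIdeal (I := q)).symm
  have hmax : maximalIdeal Rp = Ideal.span {algebraMap R Rp x, algebraMap R Rp y} := by
    rw [hmap, congrArg (Ideal.map (algebraMap R Rp)) hq, Ideal.map_span, Set.image_pair]
  have hcomm : ∀ r, algebraMap Rp Ap (algebraMap R Rp r) = algebraMap A Ap (algebraMap R A r) :=
    fun r => by rw [← IsScalarTower.algebraMap_apply, ← IsScalarTower.algebraMap_apply]
  have hfree : Module.Free Rp Ap := by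
    refine hF Rp _ inferInstance inferInstance Ap _ _ inferInstance (algebraMap R Rp x)
      (algebraMap R Rp y) hmax ?_ ?_
    · intro m hm
      rw [Algebra.smul_def, hcomm] at hm
      rcases mul_eq_zero.1 hm with h | h
      · exact absurd (injA (h.trans (map_zero _).symm)) hx
      · exact h
    · intro m n hmn
      rw [Algebra.smul_def, Algebra.smul_def, hcomm, hcomm] at hmn
      obtain ⟨a, s, rfl⟩ := IsLocalization.exists_mk'_eq (Algebra.algebraMapSubmonoid A q.primeCompl) m
      obtain ⟨b, s', rfl⟩ := IsLocalization.exists_mk'_eq (Algebra.algebraMapSubmonoid A q.primeCompl) n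
      have h3 := IsLocalization.mk'_spec Ap a s
      have h4 := IsLocalization.mk'_spec Ap b s'
      have h1 : algebraMap R A y * (a * s') = algebraMap R A x * (b * s) := by
        apply injA
        rw [map_mul, map_mul, map_mul, map_mul, ← h3, ← h4]
        linear_combination (algebraMap A Ap s * algebraMap A Ap s') * hmn
      obtain ⟨c, hc⟩ := hy _ ⟨_, h1⟩
      refine ⟨IsLocalization.mk' Ap c (s * s'), ?_⟩
      rw [Algebra.smul_def, hcomm]
      have h5 := IsLocalization.mk'_spec Ap c (s * s')
      have hs : algebraMap A Ap (s : A) ≠ 0 := fun h => by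
        have := IsLocalization.map_units Ap s
        rw [h] at this
        exact not_isUnit_zero this
      have hs' : algebraMap A Ap (s' : A) ≠ 0 := fun h => by
        have := IsLocalization.map_units Ap s'
        rw [h] at this
        exact not_isUnit_zero this
      apply mul_right_cancel₀ (mul_ne_zero hs hs')
      have h6 := congrArg (algebraMap A Ap) hc
      rw [map_mul, map_mul] at h6
      rw [Submonoid.coe_mul, map_mul] at h5
      linear_combination (algebraMap A Ap s') * h3 + h6 - algebraMap A Ap (algebraMap R A x) * h5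
  let pK : Ideal Ap := Ideal.map (algebraMap Rp Ap) (maximalIdeal Rp)
  let ρ : R →+* (Rp ⧸ maximalIdeal Rp) := (Ideal.Quotient.mk _).comp (algebraMap R Rp)
  let π : A →+* (Ap ⧸ pK) := (Ideal.Quotient.mk pK).comp (algebraMap A Ap)
  have hunit : ∀ c : R, c ∉ q → algebraMap R Rp c ∉ maximalIdeal Rp := by
    intro c hc hm
    have h1 := (IsLocalization.AtPrime.to_map_mem_maximal_iff Rp q c).1 hm
    exact hc h1
  refine ⟨Rp ⧸ maximalIdeal Rp, Ap ⧸ pK, inferInstance, inferInstance, inferInstance, ρ, π,
    ?_, fun r => ?_, fun z => ?_, fun r => ?_, fun z => ?_, fun s hs => ?_, fun s t hst => ?_⟩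
  · exact Module.Finite.of_basis (basisQuotient (Module.Free.chooseBasis Rp Ap))
  · show Ideal.Quotient.mk _ (algebraMap R Rp r) = 0 ↔ _
    rw [Ideal.Quotient.eq_zero_iff_mem]
    exact IsLocalization.AtPrime.to_map_mem_maximal_iff Rp q r
  · obtain ⟨z, rfl⟩ := Ideal.Quotient.mk_surjective z
    obtain ⟨a, b, rfl⟩ := IsLocalization.exists_mk'_eq q.primeCompl z
    refine ⟨a, b, b.2, ?_⟩
    show Ideal.Quotient.mk _ (algebraMap R Rp b) * _ = Ideal.Quotient.mk _ (algebraMap R Rp a)
    rw [← map_mul, mul_comm, IsLocalization.mk'_spec]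
  · show Ideal.Quotient.mk pK (algebraMap A Ap (algebraMap R A r)) = _
    rw [← hcomm]
    rfl
  · obtain ⟨z, rfl⟩ := Ideal.Quotient.mk_surjective z
    obtain ⟨a, b, rfl⟩ := IsLocalization.exists_mk'_eq (Algebra.algebraMapSubmonoid A q.primeCompl) z
    obtain ⟨c, hc, hcb⟩ := b.2
    refine ⟨a, c, hc, ?_⟩
    show Ideal.Quotient.mk pK (algebraMap Rp Ap (algebraMap R Rp c)) * _ =
      Ideal.Quotient.mk pK (algebraMap A Ap a)
    rw [hcomm, hcb, ← map_mul, mul_comm, IsLocalization.mk'_spec]
  · have h1 : algebraMap A Ap s ∈ pK := Ideal.Quotient.eq_zero_iff_mem.1 hs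
    have h2 : pK = Ideal.map (algebraMap A Ap) (Ideal.map (algebraMap R A) q) := by
      show Ideal.map (algebraMap Rp Ap) (maximalIdeal Rp) = _
      rw [hmap, Ideal.map_map, Ideal.map_map, ← IsScalarTower.algebraMap_eq,
        ← IsScalarTower.algebraMap_eq]
    rw [h2, IsLocalization.mem_map_algebraMap_iff (Algebra.algebraMapSubmonoid A q.primeCompl)] at h1
    obtain ⟨⟨⟨a, ha⟩, ⟨b, c, hc, rfl⟩⟩, h3⟩ := h1
    refine ⟨c, hc, ?_⟩
    simp only at h3
    rw [← map_mul] at h3
    rw [mul_comm, injA h3]
    exact ha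
  · show Algebra.trace (Rp ⧸ maximalIdeal Rp) (Ap ⧸ pK) (Ideal.Quotient.mk pK (algebraMap A Ap s)) =
      Ideal.Quotient.mk _ (algebraMap R Rp t)
    rw [Algebra.trace_quotient_mk]
    congr 1
    have hM : q.primeCompl ≤ R⁰ := q.primeCompl_le_nonZeroDivisors
    let f : Rp →+* F := IsLocalization.map (M := q.primeCompl) _ (T := R⁰) (RingHom.id R) hM
    let _ := f.toAlgebra
    have t1 : IsScalarTower R Rp F := IsScalarTower.of_algebraMap_eq'
      (by rw [RingHom.algebraMap_toAlgebra, IsLocalization.map_comp, RingHomCompTriple.comp_eq])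
    have := IsFractionRing.isFractionRing_of_isDomain_of_isLocalization q.primeCompl Rp F
    let g : Ap →+* L := IsLocalization.map _
      (M := Algebra.algebraMapSubmonoid A q.primeCompl) (T := A⁰)
      (RingHom.id A) e
    let _ := g.toAlgebra
    have t2 : IsScalarTower A Ap L := IsScalarTower.of_algebraMap_eq'
      (by rw [RingHom.algebraMap_toAlgebra, IsLocalization.map_comp, RingHomCompTriple.comp_eq])
    let _ := ((algebraMap F L).comp f).toAlgebra
    have t3 : IsScalarTower Rp F L := IsScalarTower.of_algebraMap_eq' rfl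
    have t4 : IsScalarTower Rp Ap L := by
      apply IsScalarTower.of_algebraMap_eq'
      apply IsLocalization.ringHom_ext q.primeCompl
      rw [RingHom.algebraMap_toAlgebra, RingHom.algebraMap_toAlgebra (R := Ap), RingHom.comp_assoc,
        RingHom.comp_assoc, ← IsScalarTower.algebraMap_eq, IsScalarTower.algebraMap_eq R A Ap,
        IsLocalization.map_comp, RingHom.comp_id, ← RingHom.comp_assoc, IsLocalization.map_comp,
        RingHom.comp_id, ← IsScalarTower.algebraMap_eq, ← IsScalarTower.algebraMap_eq]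
    have := IsFractionRing.isFractionRing_of_isDomain_of_isLocalization
      (Algebra.algebraMapSubmonoid A q.primeCompl) Ap L
    have inj2 : Function.Injective (algebraMap Rp Ap) := by
      have h1 : Function.Injective (algebraMap Rp L) := by
        rw [IsScalarTower.algebraMap_eq Rp F L]
        exact (algebraMap F L).injective.comp (IsFractionRing.injective Rp F)
      rw [IsScalarTower.algebraMap_eq Rp Ap L, RingHom.coe_comp] at h1
      exact Function.Injective.of_comp h1
    have : FaithfulSMul Rp Ap := (faithfulSMul_iff_algebraMap_injective Rp Ap).2 inj2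
    have : Algebra.IsIntegral Rp Ap := inferInstance
    have : IsLocalization (Algebra.algebraMapSubmonoid Ap Rp⁰) L := inferInstance
    apply IsFractionRing.injective Rp F
    rw [← Algebra.trace_localization Rp (Rₘ := F) (Sₘ := L) Rp⁰, ← IsScalarTower.algebraMap_apply,
      ← IsScalarTower.algebraMap_apply, hst]

/-- evaluation at `q_0 = q_1 = 0` -/
noncomputable def ev : R4 →ₐ[ℂ] MvPolynomial (Fin 2) ℂ := aeval (Sum.elim (fun _ => 0) X)

/-- the inclusion of `ℂ[l]` -/
noncomputable def inc : MvPolynomial (Fin 2) ℂ →ₐ[ℂ] R4 := rename Sum.inr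

theorem ev_inc (c : MvPolynomial (Fin 2) ℂ) : ev (inc c) = c := by
  have h : ev.comp inc = AlgHom.id ℂ _ := by
    ext i
    simp [ev, inc]
  exact DFunLike.congr_fun h c

theorem sub_mem (z : R4) : z - inc (ev z) ∈ Ideal.span {(X (Sum.inl 0) : R4), X (Sum.inl 1)} := by
  induction z using MvPolynomial.induction_on with
  | C a => simp [ev, inc]
  | add p q hp hq =>
    have : p + q - inc (ev (p + q)) = (p - inc (ev p)) + (q - inc (ev q)) := by
      rw [map_add, map_add]; ring
    rw [this]
    exact Ideal.add_mem _ hp hq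
  | mul_X p i hp =>
    have : p * X i - inc (ev (p * X i)) = X i * (p - inc (ev p)) +
        inc (ev p) * (X i - inc (ev (X i))) := by
      rw [map_mul, map_mul]; ring
    rw [this]
    refine Ideal.add_mem _ (Ideal.mul_mem_left _ _ hp) (Ideal.mul_mem_left _ _ ?_)
    rcases i with i | i
    · have h0 : inc (ev (X (Sum.inl i))) = 0 := by simp [ev, inc]
      rw [h0, sub_zero]
      apply Ideal.subset_span
      fin_cases i
      · exact Or.inl rfl
      · exact Or.inr rfl
    · have h0 : inc (ev (X (Sum.inr i))) = X (Sum.inr i) := by simp [ev, inc]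
      rw [h0, sub_self]
      exact Ideal.zero_mem _

theorem ker_eq : RingHom.ker (ev : R4 →+* MvPolynomial (Fin 2) ℂ) =
    Ideal.span {(X (Sum.inl 0) : R4), X (Sum.inl 1)} := by
  apply le_antisymm
  · intro z hz
    have h1 : ev z = 0 := hz
    have h2 := sub_mem z
    rw [h1, map_zero, sub_zero] at h2
    exact h2
  · rw [Ideal.span_le]
    rintro z (rfl | rfl)
    · show ev _ = 0
      simp [ev]
    · show ev _ = 0
      simp [ev]

end EVAM

open EVAM in
/-- **Module EVA.** -/
theorem specEVA (hF : SpecFRE) : SpecEVA := by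
  intro q l hq0 hq1 L _ _ _ _ _ hS
  let φ : R4 →ₐ[ℂ] S4 := aeval (Sum.elim q l)
  let _ : Algebra R4 S4 := φ.toRingHom.toAlgebra
  have hφ : ∀ t : R4, algebraMap R4 S4 t = φ t := fun t => rfl
  have := hS.fr
  have := hS.t1
  have := hS.t2
  have := hS.t3
  have tow : IsScalarTower R4 S4 L := by
    apply IsScalarTower.of_algebraMap_eq'
    apply MvPolynomial.ringHom_ext
    · intro r
      rw [RingHom.comp_apply, hφ]
      show algebraMap R4 L (algebraMap ℂ R4 r) = algebraMap S4 L (φ (algebraMap ℂ R4 r))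
      rw [φ.commutes, ← IsScalarTower.algebraMap_apply, ← IsScalarTower.algebraMap_apply]
    · intro i
      rw [RingHom.comp_apply, hφ]
      rcases i with i | i
      · rw [hS.xl]
        simp [φ]
      · rw [hS.xr]
        simp [φ]
  have tow2 : IsScalarTower ℂ R4 S4 := IsScalarTower.of_algebraMap_eq' φ.comp_algebraMap.symm
  have injS : Function.Injective (algebraMap S4 L) := IsFractionRing.injective S4 L
  have injR : Function.Injective (algebraMap R4 S4) := by
    have h1 : Function.Injective (algebraMap R4 L) := by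
      rw [IsScalarTower.algebraMap_eq R4 (FractionRing R4) L]
      exact (algebraMap (FractionRing R4) L).injective.comp
        (IsFractionRing.injective R4 (FractionRing R4))
    rw [IsScalarTower.algebraMap_eq R4 S4 L, RingHom.coe_comp] at h1
    exact Function.Injective.of_comp h1
  have : FaithfulSMul R4 S4 := (faithfulSMul_iff_algebraMap_injective R4 S4).2 injR
  have : Algebra.IsIntegral R4 S4 := ⟨fun z => by
    have h1 := hS.int z
    exact (isIntegral_algebraMap_iff injS).1 h1⟩
  have : Algebra.FiniteType R4 S4 := Algebra.FiniteType.of_restrictScalars_finiteType ℂ R4 S4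
  have : Module.Finite R4 S4 := Algebra.IsIntegral.finite
  set 𝔮 : Ideal R4 := RingHom.ker (ev : R4 →+* MvPolynomial (Fin 2) ℂ) with h𝔮
  have : 𝔮.IsPrime := RingHom.ker_isPrime _
  have e0 : φ (X (Sum.inl 0)) = q 0 := by simp [φ]
  have e1 : φ (X (Sum.inl 1)) = q 1 := by simp [φ]
  have einc : ∀ c, φ (inc c) = aeval l c := by
    intro c
    have h : φ.comp inc = aeval l := by
      ext i
      simp [φ, inc]
    exact DFunLike.congr_fun h c
  have hmem : ∀ z : R4, z - inc (ev z) ∈ 𝔮 := fun z => by
    rw [h𝔮, ker_eq]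
    exact sub_mem z
  have hmap : 𝔮.map (algebraMap R4 S4) = Ideal.span {q 0, q 1} := by
    rw [h𝔮, ker_eq, Ideal.map_span, Set.image_pair, hφ, hφ, e0, e1]
  obtain ⟨k, K, _, _, _, ρ, π, hfin, hρ, hz, hπ, hK, hker, htr⟩ := core hF R4 S4 𝔮 (X (Sum.inl 0))
    (X (Sum.inl 1)) ker_eq (by rw [hφ, e0]; exact hq0) (by rw [hφ, hφ, e0, e1]; exact hq1)
    (FractionRing R4) L
  have hρe : ∀ z : R4, ρ z = ρ (inc (ev z)) := fun z => by
    have h1 := (hρ _).2 (hmem z)
    rw [map_sub, sub_eq_zero] at h1
    exact h1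
  let _ : Algebra (MvPolynomial (Fin 2) ℂ) k := (ρ.comp (inc : MvPolynomial (Fin 2) ℂ →+* R4)).toAlgebra
  have halg : ∀ c : MvPolynomial (Fin 2) ℂ, algebraMap _ k c = ρ (inc c) := fun c => rfl
  have hev : ∀ b : R4, b ∉ 𝔮 → ev b ≠ 0 := fun b hb h => hb h
  have inj3 : Function.Injective (algebraMap (MvPolynomial (Fin 2) ℂ) k) := by
    rw [injective_iff_map_eq_zero]
    intro c hc
    rw [halg] at hc
    have h1 : ev (inc c) = 0 := (hρ _).1 hc
    rwa [ev_inc] at h1
  have : FaithfulSMul (MvPolynomial (Fin 2) ℂ) k :=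
    (faithfulSMul_iff_algebraMap_injective _ k).2 inj3
  refine ⟨k, K, inferInstance, inferInstance, inferInstance, inferInstance, π, ?_, hfin, ?_, ?_, ?_,
    ?_, ?_⟩
  · apply IsFractionRing.of_field
    intro z
    obtain ⟨a, b, hb, hab⟩ := hz z
    refine ⟨ev a, ev b, ?_⟩
    rw [halg, halg, ← hρe, ← hρe, ← hab]
    have : ρ b ≠ 0 := fun h => hb ((hρ b).1 h)
    field_simp
  · intro i
    have h1 : q i = algebraMap R4 S4 (X (Sum.inl i)) := by rw [hφ]; simp [φ]
    have h2 : (X (Sum.inl i) : R4) ∈ 𝔮 := by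
      show ev _ = 0
      simp [ev]
    rw [h1, hπ, (hρ _).2 h2, map_zero]
  · intro c
    rw [← einc, ← hφ, hπ, halg]
  · intro x
    obtain ⟨s, c, hc, h⟩ := hK x
    refine ⟨s, ev c, hev c hc, ?_⟩
    rw [halg, ← hρe]
    exact h
  · intro s hs
    obtain ⟨c, hc, h⟩ := hker s hs
    refine ⟨ev c, hev c hc, ?_⟩
    rw [hmap, hφ] at h
    have h2 : φ (c - inc (ev c)) ∈ Ideal.span {q 0, q 1} := by
      rw [← hmap, ← hφ]
      exact Ideal.mem_map_of_mem _ (hmem c)
    rw [← einc]
    have h3 : φ (inc (ev c)) * s = φ c * s - φ (c - inc (ev c)) * s := by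
      rw [map_sub]; ring
    rw [h3]
    exact Ideal.sub_mem _ h (Ideal.mul_mem_right _ _ h2)
  · intro s t hst
    rw [htr s t hst, hρe]
    rfl

end Pool.Agent.Lib.MPc9b009.OD
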