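import Pool.Agent.Lib.MP_c9b009_ag.OD.Spec

/-!
# MP_c9b009_ag, row OD: module EVB
-/

set_option autoImplicit false

namespace Pool.Agent.Lib.MPc9b009.OD

open MvPolynomial Pool.Agent.Lib.MPc9b009.B5

namespace EVBM

abbrev P2 := MvPolynomial (Fin 2) ℂ

section alg

variable {k K : Type} [Field k] [CommRing K] [Algebra k K] [Algebra P2 k]
  [IsFractionRing P2 k]

/-- the image of a polynomial in `K` -/
noncomputable def io (c : P2) : K := algebraMap k K (algebraMap P2 k c)

omit [IsFractionRing P2 k] in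
lemma io_mul (c d : P2) : (io (k := k) (c * d) : K) = io (k := k) c * io (k := k) d := by
  unfold io; rw [map_mul, map_mul]

omit [IsFractionRing P2 k] in
lemma io_one : (io (k := k) 1 : K) = 1 := by
  unfold io; rw [map_one, map_one]

lemma alg_ne {c : P2} (hc : c ≠ 0) : algebraMap P2 k c ≠ 0 := by
  intro h
  exact hc ((IsFractionRing.injective P2 k) (by rw [h, map_zero]))

lemma io_unit {c : P2} (hc : c ≠ 0) : IsUnit (io (k := k) c : K) := by
  unfold io
  exact (IsUnit.mk0 _ (alg_ne hc)).map (algebraMap k K)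

lemma io_cancel {c : P2} (hc : c ≠ 0) {x : K} (h : io (k := k) c * x = 0) : x = 0 := by
  obtain ⟨u, hu⟩ := io_unit (k := k) (K := K) hc
  rw [← hu] at h
  exact (Units.mul_right_eq_zero u).mp h

omit [IsFractionRing P2 k] in
/-- the ideal generated by the image of `J` -/
lemma mem_map (π : S4 →+* K) (l : Fin 2 → S4)
    (hpi : ∀ c : P2, π (aeval l c) = io (k := k) c)
    (hsur : ∀ x : K, ∃ (s : S4) (c : P2), c ≠ 0 ∧ io (k := k) c * x = π s)
    (J : Ideal S4) {x : K} (hx : x ∈ Ideal.map π J) :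
    ∃ c : P2, c ≠ 0 ∧ ∃ z ∈ J, io (k := k) c * x = π z := by
  unfold Ideal.map at hx
  induction hx using Submodule.span_induction with
  | mem y hy =>
    obtain ⟨z, hz, rfl⟩ := hy
    exact ⟨1, one_ne_zero, z, hz, by rw [io_one, one_mul]⟩
  | zero => exact ⟨1, one_ne_zero, 0, J.zero_mem, by rw [mul_zero, map_zero]⟩
  | add y y' _ _ hy hy' =>
    obtain ⟨c, hc, z, hz, h⟩ := hy
    obtain ⟨c', hc', z', hz', h'⟩ := hy'
    refine ⟨c * c', mul_ne_zero hc hc', aeval l c' * z + aeval l c * z',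
      J.add_mem (J.mul_mem_left _ hz) (J.mul_mem_left _ hz'), ?_⟩
    rw [map_add, map_mul, map_mul, hpi, hpi, io_mul, ← h, ← h']
    ring
  | smul a y _ hy =>
    obtain ⟨c, hc, z, hz, h⟩ := hy
    obtain ⟨s, c', hc', hs⟩ := hsur a
    refine ⟨c' * c, mul_ne_zero hc' hc, s * z, J.mul_mem_left _ hz, ?_⟩
    rw [map_mul, io_mul, ← hs, ← h, smul_eq_mul]
    ring

end alg

lemma unit_mod {K : Type} [CommRing K] (I : Ideal K) (a : K)
    (h : ∀ P : Ideal K, P.IsMaximal → I ≤ P → a ∉ P) : ∃ b : K, a * b - 1 ∈ I := by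
  have htop : I ⊔ Ideal.span {a} = ⊤ := by
    by_contra hne
    obtain ⟨P, hP, hle⟩ := Ideal.exists_le_maximal _ hne
    exact h P hP (le_sup_left.trans hle)
      (hle (Ideal.mem_sup_right (Ideal.mem_span_singleton_self a)))
  have h1 : (1 : K) ∈ I ⊔ Ideal.span {a} := by rw [htop]; exact Submodule.mem_top
  obtain ⟨y, hy, z, hz, hyz⟩ := Submodule.mem_sup.mp h1
  obtain ⟨b, rfl⟩ := Ideal.mem_span_singleton'.mp hz
  refine ⟨b, ?_⟩
  have : a * b - 1 = - y := by rw [← hyz]; ring
  rw [this]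
  exact I.neg_mem hy

lemma pow_mod {K : Type} [CommRing K] (I : Ideal K) {a b x : K} (hab : a * b - 1 ∈ I) (m : ℕ)
    (hx : a ^ m * x ∈ I) : x ∈ I := by
  have h1 : (a * b) ^ m - 1 ∈ I := by
    have : (a * b) ^ m - 1 = (a * b) ^ m - 1 ^ m := by rw [one_pow]
    rw [this]
    exact I.mem_of_dvd (sub_dvd_pow_sub_pow _ _ m) hab
  have h2 : x = b ^ m * (a ^ m * x) - ((a * b) ^ m - 1) * x := by ring
  rw [h2]
  exact I.sub_mem (I.mul_mem_left _ hx) (I.mul_mem_right _ h1)

lemma aeval_lift (q l : Fin 2 → S4) (L : Type) [Field L] [Algebra S4 L] [Algebra R4 L]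
    [Algebra (FractionRing R4) L] [Algebra ℂ L] (h : Std q l L) (c : P2) :
    algebraMap S4 L (aeval l c) = algebraMap R4 L (rename Sum.inr c) := by
  have := h.t2
  have := h.t3
  induction c using MvPolynomial.induction_on with
  | C a =>
    rw [rename_C]
    have e1 : (aeval l (C a : P2) : S4) = algebraMap ℂ S4 a := aeval_C l a
    have e2 : (C a : R4) = algebraMap ℂ R4 a := rfl
    rw [e1, e2, ← IsScalarTower.algebraMap_apply, ← IsScalarTower.algebraMap_apply]
  | add p q hp hq => simp only [map_add, hp, hq]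
  | mul_X p n hp => simp only [map_mul, hp, aeval_X, rename_X, h.xr]

/-- clearing denominators: independence over the fraction field -/
lemma indep {k K : Type} [Field k] [CommRing K] [Algebra k K] [Algebra P2 k]
    [IsFractionRing P2 k] [FiniteDimensional k K] (q l : Fin 2 → S4) (π : S4 →+* K)
    (hpi : ∀ c : P2, π (aeval l c) = io (k := k) c)
    (hsur : ∀ x : K, ∃ (s : S4) (c : P2), c ≠ 0 ∧ io (k := k) c * x = π s)
    (hker : ∀ s : S4, π s = 0 → ∃ c : P2, c ≠ 0 ∧ aeval l c * s ∈ Ideal.span {q 0, q 1})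
    (J : Ideal S4) (hq : Ideal.span {q 0, q 1} ≤ J) (n : ℕ) (m : Fin n → S4)
    (hm : ∀ c : Fin n → P2, ∑ i, aeval l (c i) * m i ∈ J → ∀ i, c i = 0) :
    n ≤ Module.finrank k (K ⧸ Ideal.map π J) := by
  classical
  have hli : LinearIndependent k (fun i => Ideal.Quotient.mk (Ideal.map π J) (π (m i))) := by
    rw [Fintype.linearIndependent_iff]
    intro a ha
    obtain ⟨b, hb⟩ := IsLocalization.exist_integer_multiples_of_finset (nonZeroDivisors P2)
      (Finset.univ.image a)
    have hb0 : (b : P2) ≠ 0 := nonZeroDivisors.coe_ne_zero b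
    have hex : ∀ i, ∃ c : P2, algebraMap P2 k c = algebraMap P2 k b * a i := by
      intro i
      obtain ⟨c, hc⟩ := hb (a i) (Finset.mem_image_of_mem a (Finset.mem_univ i))
      exact ⟨c, by rw [hc, Algebra.smul_def]⟩
    choose c hc using hex
    have h1 : ∑ i, io (k := k) (c i) * π (m i) ∈ Ideal.map π J := by
      rw [← Ideal.Quotient.eq_zero_iff_mem, map_sum]
      have h2 : ∀ i, Ideal.Quotient.mk (Ideal.map π J) (io (k := k) (c i) * π (m i))
          = algebraMap P2 k b • (a i • Ideal.Quotient.mk (Ideal.map π J) (π (m i))) := by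
        intro i
        rw [smul_smul, ← hc i]
        unfold io
        rw [← Algebra.smul_def]
        rfl
      rw [Finset.sum_congr rfl (fun i _ => h2 i), ← Finset.smul_sum, ha, smul_zero]
    obtain ⟨d, hd, z, hz, hdz⟩ := mem_map π l hpi hsur J h1
    have h3 : π (aeval l d * ∑ i, aeval l (c i) * m i - z) = 0 := by
      rw [map_sub, map_mul, hpi, map_sum, ← hdz, sub_eq_zero]
      congr 1
      refine Finset.sum_congr rfl fun i _ => ?_
      rw [map_mul, hpi]
    obtain ⟨d', hd', hmem⟩ := hker _ h3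
    have h4 : ∑ i, aeval l (d' * d * c i) * m i ∈ J := by
      have h5 : ∑ i, aeval l (d' * d * c i) * m i
          = aeval l d' * (aeval l d * (∑ i, aeval l (c i) * m i) - z) + aeval l d' * z := by
        rw [mul_sub, sub_add_cancel, Finset.mul_sum, Finset.mul_sum]
        refine Finset.sum_congr rfl fun i _ => ?_
        rw [map_mul, map_mul]
        ring
      rw [h5]
      exact J.add_mem (hq hmem) (J.mul_mem_left _ hz)
    intro i
    have h6 := hm (fun i => d' * d * c i) h4 i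
    have h7 : c i = 0 := by
      rcases mul_eq_zero.mp h6 with h | h
      · exact absurd h (mul_ne_zero hd' hd)
      · exact h
    have h8 := hc i
    rw [h7, map_zero] at h8
    rcases mul_eq_zero.mp h8.symm with h | h
    · exact absurd h (alg_ne hb0)
    · exact h
  have := hli.fintype_card_le_finrank
  rwa [Fintype.card_fin] at this

end EVBM

theorem specEVB (hEVA : SpecEVA) (hTRB : SpecTRB) : SpecEVB := by
  intro q l hq0 hreg L i1 i2 i3 i4 i5 hstd J pu w du jac B hB hjac hqJ0 hqJ1 h1 h2 h3 htr T1 hT1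
  obtain ⟨k, K, f1, f2, f3, f4, π, hfr, hfd, hpq, hpi', hsur', hker, htrace⟩ :=
    hEVA q l hq0 hreg L i1 i2 i3 i4 i5 hstd
  have hpi : ∀ c : EVBM.P2, π (aeval l c) = EVBM.io (k := k) c := hpi'
  have hsur : ∀ x : K, ∃ (s : S4) (c : EVBM.P2), c ≠ 0 ∧ EVBM.io (k := k) c * x = π s := hsur'
  have hqJ : Ideal.span {q 0, q 1} ≤ J := by
    rw [Ideal.span_le]
    intro x hx
    rcases hx with h | h
    · rw [h]; exact hqJ0
    · rw [Set.mem_singleton_iff.mp h]; exact hqJ1
  have hpspan : ∀ z ∈ Ideal.span {q 0, q 1}, π z = 0 := by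
    intro z hz
    obtain ⟨a, b, rfl⟩ := Ideal.mem_span_pair.mp hz
    rw [map_add, map_mul, map_mul, hpq, hpq, mul_zero, mul_zero, add_zero]
  set Jb : Ideal K := Ideal.map π J with hJb
  have hJmem : ∀ z ∈ J, π z ∈ Jb := fun z hz => Ideal.mem_map_of_mem π hz
  -- (1)
  have hP : ∀ P : Ideal K, P.IsMaximal → Jb ≤ P → π pu ∉ P ∧ ∃ δ : ℝ, 0 < δ ∧ δ ≤ B ∧
      π du - EVBM.io (k := k) (C (δ : ℂ)) * π pu ^ 2 ∈ P := by
    intro P hPm hle
    have hQ := h3 (Ideal.comap π P) (hPm.isPrime.comap π) (Ideal.map_le_iff_le_comap.mp hle) (by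
      intro c hc
      by_contra hne
      have : EVBM.io (k := k) c ∈ P := by
        rw [← hpi]; exact hc
      exact hPm.ne_top (Ideal.eq_top_of_isUnit_mem _ this (EVBM.io_unit hne)))
    obtain ⟨ha, δ, hδ0, hδB, hδ⟩ := hQ
    refine ⟨ha, δ, hδ0, hδB, ?_⟩
    have h4 : π (du - C (δ : ℂ) * pu ^ 2) ∈ P := hδ
    have h5 : π (C (δ : ℂ)) = EVBM.io (k := k) (C (δ : ℂ)) := by
      rw [← hpi, aeval_C]; rfl
    rw [map_sub, map_mul, map_pow, h5] at h4
    exact h4
  have hCne : ∀ δ : ℝ, 0 < δ → (C (δ : ℂ) : EVBM.P2) ≠ 0 := by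
    intro δ hδ h
    rw [C_eq_zero] at h
    exact hδ.ne' (by exact_mod_cast h)
  obtain ⟨p', hp'⟩ := EVBM.unit_mod Jb (π pu) (fun P hPm hle => (hP P hPm hle).1)
  obtain ⟨d', hd'⟩ := EVBM.unit_mod Jb (π du) (by
    intro P hPm hle hdu
    obtain ⟨ha, δ, hδ0, hδB, hδ⟩ := hP P hPm hle
    have h4 : EVBM.io (k := k) (C (δ : ℂ)) * π pu ^ 2 ∈ P := by
      have := P.sub_mem hdu hδ
      rwa [sub_sub_cancel] at this
    have hpr := hPm.isPrime
    rcases hpr.mem_or_mem h4 with h | h
    · exact hPm.ne_top (Ideal.eq_top_of_isUnit_mem _ h (EVBM.io_unit (hCne δ hδ0)))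
    · exact ha (hpr.mem_of_pow_mem 2 h))
  -- (2)
  have hann : ∀ x ∈ Jb, π pu * x = 0 := by
    intro x hx
    obtain ⟨c, hc, z, hz, hcz⟩ := EVBM.mem_map π l hpi hsur J hx
    apply EVBM.io_cancel (k := k) hc
    have h4 : π (pu * z) = 0 := hpspan _ (h1 z hz)
    rw [map_mul, ← hcz] at h4
    rw [← h4]; ring
  -- (3)
  obtain ⟨m, hm⟩ := h2
  have h5 : π pu * π jac - π du * π w ∈ Jb := by
    apply EVBM.pow_mod Jb hp' m
    have := hJmem _ hm
    rwa [map_mul, map_pow, map_sub, map_mul, map_mul] at this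
  set ψ : K := π pu ^ 2 * d' with hψ
  have he : π w - π pu * d' * π jac ∈ Jb := by
    have : π w - π pu * d' * π jac
        = - (d' * (π pu * π jac - π du * π w)) - (π du * d' - 1) * π w := by ring
    rw [this]
    exact Jb.sub_mem (Jb.neg_mem (Jb.mul_mem_left _ h5)) (Jb.mul_mem_right _ hd')
  have h6 : π pu * π w = ψ * π jac := by
    have := hann _ he
    rw [← sub_eq_zero, ← this, hψ]; ring
  have hψJ : ∀ z ∈ Jb, ψ * z = 0 := by
    intro z hz
    have := hann z hz
    have e : ψ * z = π pu * d' * (π pu * z) := by rw [hψ]; ring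
    rw [e, this, mul_zero]
  -- (4)
  obtain ⟨s, c, hc, hcs⟩ := hsur ψ
  have h7 : π (s * jac - aeval l c * (pu * w)) = 0 := by
    rw [map_sub, map_mul, map_mul, map_mul, hpi, h6, ← hcs]; ring
  obtain ⟨c', hc', hmem⟩ := hker _ h7
  obtain ⟨s0, s1, hs⟩ := Ideal.mem_span_pair.mp hmem
  obtain ⟨r0, hr0⟩ := htr s0
  obtain ⟨r1, hr1⟩ := htr s1
  have hjL : algebraMap S4 L jac ≠ 0 := by
    intro h
    have := hstd.fr
    exact hjac ((IsFractionRing.injective S4 L) (by rw [h, map_zero]))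
  have ht1 := hstd.t1
  have hsm : ∀ (r : R4) (y : L), algebraMap R4 L r * y
      = algebraMap R4 (FractionRing R4) r • y := by
    intro r y
    rw [Algebra.smul_def, ← IsScalarTower.algebraMap_apply]
  have h8 : algebraMap S4 L (aeval l c' * s) =
      algebraMap R4 (FractionRing R4) (rename Sum.inr (c' * c)) •
        (algebraMap S4 L (pu * w) / algebraMap S4 L jac)
      + algebraMap R4 (FractionRing R4) (X (Sum.inl 0)) •
        (algebraMap S4 L s0 / algebraMap S4 L jac)
      + algebraMap R4 (FractionRing R4) (X (Sum.inl 1)) •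
        (algebraMap S4 L s1 / algebraMap S4 L jac) := by
    rw [← hsm, ← hsm, ← hsm, map_mul (rename Sum.inr), map_mul (algebraMap R4 L),
      ← EVBM.aeval_lift q l L hstd, ← EVBM.aeval_lift q l L hstd, hstd.xl, hstd.xl]
    have h9 := congrArg (algebraMap S4 L) hs
    simp only [map_add, map_mul, map_sub] at h9 ⊢
    field_simp
    linear_combination (-1 : L) * h9
  have h9 : Algebra.trace (FractionRing R4) L (algebraMap S4 L (aeval l c' * s))
      = algebraMap R4 (FractionRing R4)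
        (rename Sum.inr (c' * c) * T1 + X (Sum.inl 0) * r0 + X (Sum.inl 1) * r1) := by
    rw [h8, map_add, map_add, map_smul, map_smul, map_smul, hT1, hr0, hr1]
    simp only [map_add, map_mul, smul_eq_mul]
  have h10 := htrace _ _ h9
  set T0 : EVBM.P2 := aeval (Sum.elim (fun _ => 0) X) T1 with hT0
  have h11 : (aeval (Sum.elim (fun _ => 0) X) (rename Sum.inr (c' * c) * T1 + X (Sum.inl 0) * r0
      + X (Sum.inl 1) * r1 : R4) : EVBM.P2) = c' * c * T0 := by
    rw [map_add, map_add, map_mul, map_mul (aeval _) (X (Sum.inl 0)),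
      map_mul (aeval _) (X (Sum.inl 1)), aeval_X, aeval_X, aeval_rename]
    simp only [Sum.elim_inl, zero_mul, add_zero]
    have : ((Sum.elim (fun _ : Fin 2 => (0 : EVBM.P2)) X) ∘ (Sum.inr : Fin 2 → Fin 2 ⊕ Fin 2)
        : Fin 2 → EVBM.P2) = X := rfl
    rw [this, aeval_X_left]
    rfl
  rw [h11] at h10
  have h12 : π (aeval l c' * s) = (algebraMap EVBM.P2 k (c' * c)) • ψ := by
    rw [map_mul, hpi, ← hcs, Algebra.smul_def]
    unfold EVBM.io
    rw [map_mul (algebraMap EVBM.P2 k), map_mul (algebraMap k K)]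
    ring
  rw [h12, map_smul, smul_eq_mul, map_mul (algebraMap EVBM.P2 k) (c' * c) T0] at h10
  have h13 : Algebra.trace k K ψ = algebraMap EVBM.P2 k T0 :=
    mul_left_cancel₀ (EVBM.alg_ne (mul_ne_zero hc' hc)) h10
  -- (5)
  obtain ⟨r, hr, hdim⟩ := hTRB k K f1 f2 f3 hfd ((algebraMap EVBM.P2 k).comp C) Jb ψ (1 / B)
    hψJ (by
      intro P hPm hle
      obtain ⟨ha, δ, hδ0, hδB, hδ⟩ := hP P hPm hle
      refine ⟨1 / δ, one_div_le_one_div_of_le hδ0 hδB, ?_⟩
      have hio : algebraMap k K (((algebraMap EVBM.P2 k).comp C) (((1 / δ : ℝ)) : ℂ))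
          = EVBM.io (k := k) (C (((1 / δ : ℝ)) : ℂ)) := rfl
      rw [hio]
      set α : K := EVBM.io (k := k) (C (δ : ℂ)) with hα
      set β : K := EVBM.io (k := k) (C (((1 / δ : ℝ)) : ℂ)) with hβ
      have hαβ : α * β = 1 := by
        rw [hα, hβ, ← EVBM.io_mul, ← C_mul, ← Complex.ofReal_mul, mul_one_div_cancel hδ0.ne',
          Complex.ofReal_one, C_1, EVBM.io_one]
      have : ψ - β = - (β * d' * (π du - α * π pu ^ 2)) + β * (π du * d' - 1)
          - (α * β - 1) * ψ := by rw [hψ]; ring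
      rw [this, hαβ, sub_self, zero_mul, sub_zero]
      exact P.add_mem (P.neg_mem (P.mul_mem_left _ hδ)) (P.mul_mem_left _ (hle hd')))
  rw [h13] at hr
  have hinj : T0 = C (r : ℂ) := (IsFractionRing.injective EVBM.P2 k) hr
  have hcc : constantCoeff T1 = (r : ℂ) := by
    have h14 : constantCoeff T0 = constantCoeff T1 := by
      rw [hT0]
      have h15 : (constantCoeff : EVBM.P2 →+* ℂ).comp
          (aeval (Sum.elim (fun _ => (0 : EVBM.P2)) X) : R4 →ₐ[ℂ] EVBM.P2).toRingHom
          = (constantCoeff : R4 →+* ℂ) := by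
        apply MvPolynomial.ringHom_ext
        · intro a
          simp
        · rintro (i | i)
          · simp
          · simp
      exact RingHom.congr_fun h15 T1
    rw [← h14, hinj, constantCoeff_C]
  refine ⟨r, hcc, ?_⟩
  intro n mm hmm
  have h16 := EVBM.indep (k := k) q l π hpi hsur hker J hqJ n mm hmm
  have h17 : (n : ℝ) ≤ (Module.finrank k (K ⧸ Jb) : ℝ) := by exact_mod_cast h16
  have h18 : (Module.finrank k (K ⧸ Jb) : ℝ) ≤ B * r := by
    have h19 := mul_le_mul_of_nonneg_left hdim hB.le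
    rw [← mul_assoc, mul_one_div_cancel hB.ne', one_mul] at h19
    exact h19
  exact h17.trans h18

end Pool.Agent.Lib.MPc9b009.OD
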