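import Pool.Agent.Lib.MP_c9b009_ag.OD.Spec

/-!
# MP_c9b009_ag, row OD, module FLD: the fraction field
-/

set_option autoImplicit false

namespace Pool.Agent.Lib.MPc9b009.OD

open MvPolynomial Pool.Agent.Lib.MPc9b009.B5

/-- **FLD** -/
theorem specFLD : SpecFLD := by
  intro q l hai hint
  let L := FractionRing S4
  let y : Fin 2 ⊕ Fin 2 → S4 := Sum.elim q l
  let φ : R4 →ₐ[ℂ] S4 := aeval y
  have hφ : Function.Injective φ := hai
  let iRL : Algebra R4 L := ((algebraMap S4 L).comp φ.toRingHom).toAlgebra
  have hRL : ∀ f, algebraMap R4 L f = algebraMap S4 L (φ f) := fun _ => rfl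
  have hinj : Function.Injective (algebraMap R4 L) :=
    (IsFractionRing.injective S4 L).comp hφ
  have iFs : FaithfulSMul R4 L := (faithfulSMul_iff_algebraMap_injective _ _).2 hinj
  let iFL : Algebra (FractionRing R4) L := FractionRing.liftAlgebra R4 L
  have iT : IsScalarTower R4 (FractionRing R4) L := FractionRing.isScalarTower_liftAlgebra _ L
  have iS : IsScalarTower ℂ S4 L := inferInstance
  have iC : IsScalarTower ℂ R4 L := by
    apply IsScalarTower.of_algebraMap_eq
    intro a
    rw [hRL]
    have h1 : φ (algebraMap ℂ R4 a) = algebraMap ℂ S4 a := φ.commutes a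
    rw [h1, ← IsScalarTower.algebraMap_apply ℂ S4 L]
  have hX1 : ∀ i, algebraMap R4 L (X (Sum.inl i)) = algebraMap S4 L (q i) := by
    intro i
    rw [hRL]
    congr 1
    exact aeval_X y _
  have hX2 : ∀ j, algebraMap R4 L (X (Sum.inr j)) = algebraMap S4 L (l j) := by
    intro j
    rw [hRL]
    congr 1
    exact aeval_X y _
  have hint' : ∀ z : S4, IsIntegral R4 (algebraMap S4 L z) := by
    intro z
    obtain ⟨P, hPm, hP⟩ := hint z
    have hrange : ∀ b : Algebra.adjoin ℂ (Set.range y), ∃ f : R4, φ f = b := by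
      rintro ⟨b, hb⟩
      rw [Algebra.adjoin_range_eq_range_aeval] at hb
      exact hb
    have h2 : φ.toRingHom.IsIntegralElem z := by
      choose g hg using hrange
      refine ⟨?_, ?_, ?_⟩
      · exact (Polynomial.X ^ P.natDegree + ∑ i ∈ Finset.range P.natDegree,
          Polynomial.C (g (P.coeff i)) * Polynomial.X ^ i)
      · apply Polynomial.monic_X_pow_add
        apply (Polynomial.degree_sum_le _ _).trans_lt
        rw [Finset.sup_lt_iff]
        · intro i hi
          refine lt_of_le_of_lt (Polynomial.degree_C_mul_X_pow_le _ _) ?_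
          exact_mod_cast Finset.mem_range.1 hi
        · exact WithBot.bot_lt_coe _
      · have h4 : Polynomial.eval₂ (algebraMap (Algebra.adjoin ℂ (Set.range y)) S4) z P = 0 := hP
        rw [Polynomial.eval₂_eq_sum_range, Finset.sum_range_succ, Polynomial.Monic.coeff_natDegree hPm,
          map_one, one_mul] at h4
        rw [Polynomial.eval₂_add, Polynomial.eval₂_X_pow, Polynomial.eval₂_finsetSum, ← h4, add_comm]
        congr 1
        refine Finset.sum_congr rfl fun i _ => ?_
        rw [Polynomial.eval₂_mul, Polynomial.eval₂_C, Polynomial.eval₂_X_pow]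
        congr 1
        exact hg (P.coeff i)
    obtain ⟨P', hP'm, hP'⟩ := h2
    refine ⟨P', hP'm, ?_⟩
    have h5 : algebraMap R4 L = (algebraMap S4 L).comp φ.toRingHom := rfl
    rw [h5, ← Polynomial.hom_eval₂, hP', map_zero]
  have hfd : FiniteDimensional (FractionRing R4) L :=
    BSTM.fin_dim (AlgHom.id ℂ S4) Function.surjective_id hint'
  exact ⟨L, inferInstance, inferInstance, iRL, iFL, inferInstance,
    ⟨inferInstance, iT, iC, iS, hfd, hX1, hX2, hint'⟩⟩

end Pool.Agent.Lib.MPc9b009.OD
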