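import Pool.Agent.Lib.MP_c9b009_ag.OD.Spec

/-!
# MP_c9b009_ag, row OD, module FNL: the theorem from MAN
-/

set_option autoImplicit false

namespace Pool.Agent.Lib.MPc9b009.OD

open MvPolynomial Pool.Agent.Lib.MPc9b009.B5

/-- **FNL** -/
theorem specFNL (hMAN : SpecMAN) (hCRIT : SpecCRIT) (hLIFT : SpecLIFT) (hDET0 : SpecDET0)
    (hMST : SpecMST) (hDMIN : SpecDMIN) (hHMIN : SpecHMIN) (hSKE : SpecSKE) (hRKM : SpecRKM) :
    SpecFNL := by
  intro N s τ h6 hs h1 h2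
  obtain ⟨g, hg, hdiv⟩ := hLIFT N τ
  have hdet : (Matrix.of g.f).det = 0 := hDET0 N g (by omega) hg.1 hdiv
  have hcases : N = s + 2 ∨ N = s + 4 ∨ N = s + 6 := by
    obtain ⟨a, ha⟩ := h6
    obtain ⟨b, hb⟩ := hs
    omega
  rcases hcases with rfl | rfl | rfl
  · refine hCRIT (s + 2) s τ.f g ⊥ hs hg Ideal.isPrime_bot THAM.hom_bot
      (THAM.stab_bot g.f) (fun I J => ?_) (THAM.trdeg_bot le_rfl)
    rw [THAM.mnr_big (by omega) g.f I J]
    exact Ideal.zero_mem _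
  · refine hCRIT (s + 4) s τ.f g ⊥ hs hg Ideal.isPrime_bot THAM.hom_bot
      (THAM.stab_bot g.f) (fun I J => ?_) (THAM.trdeg_bot (by omega))
    obtain ⟨b, hb⟩ := hs
    obtain ⟨m, rfl⟩ : ∃ m, s = 2 * m := ⟨b, by omega⟩
    rw [THAM.mnr_skew hSKE hRKM (m := m + 1) g hdet I J]
    exact Ideal.zero_mem _
  · have hM := hMAN (s + 6) g h6 (by omega) hg.1 hdiv hdet
    have hP : ∃ p ∈ (mI (s + 6 - 3) g).minimalPrimes,
        ((s + 6 - 3 : ℕ) : Cardinal) ≤ Algebra.trdeg ℂ (MvPolynomial (Fin (s + 6)) ℂ ⧸ p) := by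
      by_contra hcon
      push Not at hcon
      apply hM
      intro q hq hIq
      exact CUTM.bound (K := s + 6 - 4) (mI (s + 6 - 3) g) (fun p hp => by
        have := hcon p hp
        have e : s + 6 - 4 + 1 = s + 6 - 3 := by omega
        rw [e]
        exact this) q hq hIq
    obtain ⟨p, hp, hD⟩ := hP
    obtain ⟨hst, hho⟩ := hMST (s + 6) (s + 6 - 3) g hg.1
    refine hCRIT (s + 6) s τ.f g p hs hg hp.1.1 (hHMIN _ _ hho p hp)
      (hDMIN _ _ g.f _ hst p hp) (fun I J => ?_) (le_trans ?_ hD)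
    · exact hp.1.2 (Ideal.subset_span ⟨I, J, rfl⟩)
    · exact Nat.cast_le.2 (by omega)

end Pool.Agent.Lib.MPc9b009.OD
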