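import Pool.Agent.Lib.MP_c9b009_ag.OD.Spec

/-!
# MP_c9b009_ag, row OD, module GCD: the gcd of finitely many forms of one degree
-/

set_option autoImplicit false

namespace Pool.Agent.Lib.MPc9b009.OD

open MvPolynomial Pool.Agent.Lib.MPc9b009.B5

/-- **GCD**: the gcd of finitely many forms of one degree. -/
theorem specGCD : SpecGCD := by
  classical
  intro v n m f hf hne
  obtain ⟨j0, hj0⟩ := hne
  let _ : NormalizedGCDMonoid (MvPolynomial (Fin v) ℂ) := Classical.choice (inferInstance)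
  obtain ⟨G, hG, hG1⟩ := Finset.extract_gcd (s := (Finset.univ : Finset (Fin n))) f
    ⟨j0, Finset.mem_univ _⟩
  set g := (Finset.univ : Finset (Fin n)).gcd f with hg
  have hGe : ∀ j, f j = g * G j := fun j => hG j (Finset.mem_univ _)
  have h0 : g * G j0 ≠ 0 := by
    rw [← hGe]
    exact hj0
  have hg0 : g ≠ 0 := left_ne_zero_of_mul h0
  obtain ⟨d, e, hde, hgm, -⟩ := THEM.factor (P := g) (q := G j0) (m := m)
    (by rw [← hGe]; exact hf j0) h0
  refine ⟨g, G, d, e, hde, hgm, hg0, fun j => ?_, ⟨j0, right_ne_zero_of_mul h0⟩, hGe,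
    fun z hz => ?_⟩
  · refine THEM.homog_of_mul hgm hg0 ?_
    rw [← hGe, hde]
    exact hf j
  · have h1 : z ∣ (Finset.univ : Finset (Fin n)).gcd G := Finset.dvd_gcd fun b _ => hz b
    rw [hG1] at h1
    exact isUnit_of_dvd_one h1

end Pool.Agent.Lib.MPc9b009.OD
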