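import Pool.Agent.Lib.MP_c9b009_ag.OD.MAN

/-!
# MP_c9b009_ag, row OD, module HC1: the `f_j` have no common factor
-/

set_option autoImplicit false

namespace Pool.Agent.Lib.MPc9b009.OD

open MvPolynomial Pool.Agent.Lib.MPc9b009.B5

namespace HC1M

/-- the numerical contradiction -/
theorem arith (c K K' : ℤ) (hc : 12 ≤ c)
    (h : ∀ a : ℕ, c * (a : ℤ) - K ≤ 12 * K') : False := by
  have h1 := h ((K + 12 * K').natAbs + 1)
  push_cast at h1
  set t : ℤ := |K + 12 * K'| with ht
  have h2' : K + 12 * K' ≤ t := by rw [ht]; exact le_abs_self _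
  have h3 : 0 ≤ t := abs_nonneg _
  nlinarith

end HC1M

open MANM HC1M in
/-- **HC1** -/
theorem specHC1 (hGCD : SpecGCD) (hCOD : SpecCOD) (hUSL : SpecUSL) (hRES : SpecRES)
    (hCNX : SpecCNX) (hHIL : SpecHIL) (hBND : SpecBND) (hZRO : SpecZRO) (hHMIN : SpecHMIN) :
    SpecHC1 := by
  intro N g P hev hN hG hD
  have hP : Om g P := hG.toOm
  have hf0 : ∃ j, fo P j ≠ 0 := by
    by_contra hcon
    push Not at hcon
    have h1 : ∀ i j, P i j = 0 := by
      intro i j
      have h2 := hG.curl i j
      rw [hcon, hcon, map_zero, map_zero, sub_zero] at h2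
      rcases mul_eq_zero.1 h2.symm with h3 | h3
      · exfalso
        have h4 : (N : ℂ) = 0 := C_injective _ _ (by rw [h3, C_0])
        have h5 : N = 0 := by exact_mod_cast h4
        omega
      · exact h3
    have h2 := hP.prim 0 (fun i j => by rw [h1 i j])
    exact not_isUnit_zero h2
  obtain ⟨h, f', d, e, hde, hhd, hh0, hf'h, hf'0, hff, hf'u⟩ :=
    hGCD N N (N - 1) (fo P) (fo_hom hN hP) hf0
  rcases Nat.eq_zero_or_pos d with hd0 | hd
  · -- `h` is a constant
    subst hd0
    intro z hz
    apply hf'u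
    intro j
    have h1 : h.totalDegree = 0 := Nat.le_zero.1 hhd.totalDegree_le
    obtain ⟨c, hc⟩ : ∃ c, h = C c := ⟨_, totalDegree_eq_zero_iff_eq_C.1 h1⟩
    have hc0 : c ≠ 0 := by
      rintro rfl
      apply hh0
      rw [hc, C_0]
    have hu : IsUnit h := by
      rw [hc]
      exact (isUnit_iff_ne_zero.2 hc0).map C
    have h2 := hz j
    rw [hff j] at h2
    exact (hu.dvd_mul_left).1 h2
  · exfalso
    have hJd : Dle (Ideal.span (Set.range f')) (N - 2) := hCOD N N f' (by omega) hf'u
    have hHomJ : Hom (Ideal.span (Set.range f')) := CUTM.hom_span _ (by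
      rintro _ ⟨j, rfl⟩
      exact ⟨_, hf'h j⟩)
    obtain ⟨u, hu, hu1, hu2, hu3⟩ := hUSL N d (mI (N - 3) g) (Ideal.span (Set.range f')) h hN
      (hom_mI _ g) hHomJ hD hJd hh0 hhd
    obtain ⟨hr1, hr2, hr3, hr4⟩ := hRES N g P u hev hN hP hu hu1
    set F : Fin N → S4 := fun i => CUTM.Phi u (f' i) with hF
    set A : Matrix (Fin N) (Fin N) S4 := Matrix.of fun i j => CUTM.Phi u (g.f i j) with hA
    set T : Matrix (Fin N) (Fin N) S4 := Matrix.of fun i j => CUTM.Phi u (P i j) with hT
    have hmap : Ideal.map (CUTM.Phi u) (Ideal.span (Set.range f'))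
        = Ideal.span (Set.range F) := by
      rw [Ideal.map_span, ← Set.range_comp]
      rfl
    have hJ2 : Dle (Ideal.span (Set.range F)) 2 := by rw [← hmap]; exact hu2
    have hFh : ∀ i, (F i).IsHomogeneous e := fun i => CUTM.Phi_hom u (hf'h i)
    have hAs : ∀ i j, A j i = - A i j := by
      intro i j
      show CUTM.Phi u (g.f j i) = - CUTM.Phi u (g.f i j)
      rw [g.skew i j, map_neg]
    have hAh : ∀ i j, (A i j).IsHomogeneous 2 := fun i j => CUTM.Phi_hom u (g.quad i j)
    have hTs : ∀ i j, T j i = - T i j := by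
      intro i j
      show CUTM.Phi u (P j i) = - CUTM.Phi u (P i j)
      rw [hP.skew i j, map_neg]
    have hTh : ∀ i j, (T i j).IsHomogeneous (N - 2) := fun i j => CUTM.Phi_hom u (hP.hom i j)
    have hAT : A * T = 0 := by
      refine Matrix.ext fun i j => ?_
      rw [Matrix.mul_apply, Matrix.zero_apply]
      show ∑ k, CUTM.Phi u (g.f i k) * CUTM.Phi u (P k j) = 0
      have := congrArg (CUTM.Phi u) (hP.ker i j)
      rw [map_sum, map_zero] at this
      rw [← this]
      exact Finset.sum_congr rfl fun k _ => (map_mul _ _ _).symm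
    have hT0 : T ≠ 0 := by
      intro h0
      obtain ⟨i, j, hij⟩ := hr1 (fun _ => 1) (by
        intro h
        have := congrFun h 0
        exact one_ne_zero this)
      apply hij
      have h1 : T i j = 0 := by rw [h0]; rfl
      have h2 : CUTM.Phi u (P i j) = 0 := h1
      rw [h2, map_zero]
    have hTp : ∀ i j k l, T i j * T k l - T i k * T j l + T i l * T j k = 0 := by
      intro i j k l
      show CUTM.Phi u (P i j) * CUTM.Phi u (P k l) - CUTM.Phi u (P i k) * CUTM.Phi u (P j l)
        + CUTM.Phi u (P i l) * CUTM.Phi u (P j k) = 0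
      have := congrArg (CUTM.Phi u) (hP.plu i j k l)
      rw [map_zero, map_add, map_sub, map_mul, map_mul, map_mul] at this
      exact this
    have hF0 : ∃ j, F j ≠ 0 := by
      by_contra hcon
      push Not at hcon
      have h0 : Ideal.span (Set.range F) ≤ (⊥ : Ideal S4) := by
        rw [Ideal.span_le]
        rintro _ ⟨j, rfl⟩
        rw [hcon j]
        exact Ideal.zero_mem _
      have h1 := hJ2 ⊥ Ideal.isPrime_bot h0
      have h2 := (THAM.trdeg_bot (N := 4) (k := 4) le_rfl).trans h1
      have h3 := Nat.cast_le.1 h2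
      omega
    -- lower bound for the Hilbert function
    obtain ⟨a₀, hrec⟩ := hCNX N (N - 2) A T hev hAs hAh hr4 hr2 hTs hTh hAT hT0 hr3 hTp
    have hxf : ∑ i, X i * f' i = 0 := by
      have h1 := sum_x_fo hP
      have h2 : ∑ i, X i * fo P i = h * ∑ i, X i * f' i := by
        rw [Finset.mul_sum]
        exact Finset.sum_congr rfl fun i _ => by rw [hff i]; ring
      rw [h2] at h1
      exact (mul_eq_zero.1 h1).resolve_left hh0
    have hgf : ∀ a, ∑ j, g.f a j * f' j = 0 := by
      intro a
      have h1 := g_fo hP a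
      have h2 : ∑ j, g.f a j * fo P j = h * ∑ j, g.f a j * f' j := by
        rw [Finset.mul_sum]
        exact Finset.sum_congr rfl fun i _ => by rw [hff i]; ring
      rw [h2] at h1
      exact (mul_eq_zero.1 h1).resolve_left hh0
    obtain ⟨K, hK⟩ := hHIL N d e a₀ A T (fun i => CUTM.Phi u (X i)) F (CUTM.Phi u h) hev hN hde hAh
      hAT hTh (fun i => CUTM.Phi_hom u (isHomogeneous_X ℂ i)) hFh (CUTM.Phi_hom u hhd) hu3
      hF0 (by
        intro j
        show CUTM.Phi u h * CUTM.Phi u (f' j) = ∑ i, CUTM.Phi u (X i) * CUTM.Phi u (P i j)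
        rw [← map_mul, ← hff j]
        unfold fo
        rw [map_sum]
        exact Finset.sum_congr rfl fun k _ => map_mul _ _ _)
      (by
        have := congrArg (CUTM.Phi u) hxf
        rw [map_sum, map_zero] at this
        rw [← this]
        exact Finset.sum_congr rfl fun k _ => (map_mul _ _ _).symm)
      (by
        funext i
        show ∑ j, CUTM.Phi u (g.f i j) * CUTM.Phi u (f' j) = 0
        have := congrArg (CUTM.Phi u) (hgf i)
        rw [map_sum, map_zero] at this
        rw [← this]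
        exact Finset.sum_congr rfl fun k _ => (map_mul _ _ _).symm)
      (by
        intro a ha
        have := hrec a ha
        have e : a + 2 + (N - 2) = a + N := by omega
        rw [e] at this
        exact this)
    have hHomF : Hom (Ideal.span (Set.range F)) := CUTM.hom_span _ (by
      rintro _ ⟨j, rfl⟩
      exact ⟨_, hFh j⟩)
    have hnot : ¬ Dle (Ideal.span (Set.range F)) 1 := by
      intro hD1
      obtain ⟨K', hK'⟩ := hBND _ hHomF hD1
      refine HC1M.arith (3 * ((N : ℤ) - 2 * d) ^ 2 + (N : ℤ) ^ 2 - 4) K K' ?_ fun a => ?_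
      · have h1 : (4 : ℤ) ≤ N := by exact_mod_cast hN
        nlinarith [sq_nonneg ((N : ℤ) - 2 * d)]
      · refine (hK a).trans ?_
        have : ((hq (Ideal.span (Set.range F)) a : ℕ) : ℤ) ≤ ((K' : ℕ) : ℤ) := by
          exact_mod_cast hK' a
        linarith
    unfold Dle at hnot
    push Not at hnot
    obtain ⟨q, hq, hIq, hqD⟩ := hnot
    obtain ⟨p, hp, hpq⟩ := Ideal.exists_minimalPrimes_le hIq
    have hpD : ((2 : ℕ) : Cardinal) ≤ Algebra.trdeg ℂ (S4 ⧸ p) := by
      have h1 : Algebra.trdeg ℂ (S4 ⧸ q) ≤ Algebra.trdeg ℂ (S4 ⧸ p) :=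
        trdeg_le_of_surjective (Ideal.Quotient.factorₐ ℂ hpq)
          (Ideal.Quotient.factor_surjective hpq)
      refine le_trans ?_ h1
      obtain ⟨D, hDq⟩ := BSTM.nat_trdeg q
      rw [hDq] at hqD ⊢
      have h2 : 1 < D := Nat.cast_lt.1 hqD
      exact Nat.cast_le.2 h2
    obtain ⟨y, hy, hy1, hy2⟩ := hZRO 4 p (CUTM.Phi u h) d hp.1.1 (hHMIN 4 _ hHomF p hp) hpD hd
      (CUTM.Phi_hom u hhd)
    obtain ⟨i, j, hij⟩ := hr1 y hy
    apply hij
    set x : Fin N → ℂ := fun k => ∑ b, u b k * y b with hx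
    rw [CUTM.eval_Phi]
    rw [CUTM.eval_Phi] at hy2
    have hf'x : ∀ j, eval x (f' j) = 0 := by
      intro j
      have h1 := hy1 (F j) (hp.1.2 (Ideal.subset_span ⟨j, rfl⟩))
      rw [hF] at h1
      simp only at h1
      rw [CUTM.eval_Phi] at h1
      exact h1
    have hdx : ∀ i j, eval x (pderiv i (fo P j)) = 0 := by
      intro i j
      rw [hff j, Derivation.leibniz, smul_eq_mul, smul_eq_mul, map_add, map_mul, map_mul, hf'x j]
      have h2 : eval x h = 0 := hy2
      rw [h2, zero_mul, zero_mul, add_zero]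
    have h1 := congrArg (eval x) (hG.curl i j)
    rw [map_sub, hdx, hdx, sub_zero, map_mul, eval_C] at h1
    rcases mul_eq_zero.1 h1.symm with h3 | h3
    · exfalso
      have h5 : N = 0 := by exact_mod_cast h3
      omega
    · exact h3

end Pool.Agent.Lib.MPc9b009.OD
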