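import Pool.Agent.Lib.MP_c9b009_ag.OD.Spec

/-!
# MP_c9b009_ag, row OD, module HIL: lower bound for the Hilbert function
-/

set_option autoImplicit false

namespace Pool.Agent.Lib.MPc9b009.OD

open MvPolynomial Pool.Agent.Lib.MPc9b009.B5

namespace HILM

open Module

/-- `v ↦ ∑ x_i v_i` -/
noncomputable def io {N : ℕ} (x : Fin N → S4) : (Fin N → S4) →ₗ[ℂ] S4 :=
  ∑ i, (LinearMap.mulLeft ℂ (x i)) ∘ₗ (LinearMap.proj i)

theorem io_apply {N : ℕ} (x v : Fin N → S4) : io x v = ∑ i, x i * v i := by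
  rw [io, LinearMap.sum_apply]
  rfl

instance fin_hk {N : ℕ} (A : Matrix (Fin N) (Fin N) S4) (a : ℕ) : Module.Finite ℂ (hk A a) :=
  Submodule.finiteDimensional_of_le (S₂ := hv 4 N a) inf_le_left

theorem dims {N d e t : ℕ} (A T : Matrix (Fin N) (Fin N) S4) (x f' : Fin N → S4) (h : S4)
    (hN : 4 ≤ N) (hde : d + e = N - 1) (hAT : A * T = 0)
    (hT : ∀ i j, (T i j).IsHomogeneous (N - 2))
    (hf : ∀ j, (f' j).IsHomogeneous e) (hh0 : h ≠ 0)
    (hf0 : ∃ j, f' j ≠ 0) (hhf : ∀ j, h * f' j = ∑ i, x i * T i j) (hxf : ∑ i, x i * f' i = 0)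
    (hAf : A.mulVec f' = 0) :
    (t + e + 1 + 3).choose 3 + (t + d + 3).choose 3 ≤
      hq (Ideal.span (Set.range f')) (t + e + 1) + finrank ℂ (hk A (t + d + e)) := by
  classical
  set I := Ideal.span (Set.range f') with hI
  set H := homogeneousSubmodule (Fin 4) ℂ (t + e + 1) with hH
  set W := Submodule.comap H.subtype (I.restrictScalars ℂ) with hW
  have e1 : hq I (t + e + 1) + finrank ℂ W = (t + e + 1 + 3).choose 3 := by
    rw [← CNTM.finrank_hom (t + e + 1)]
    exact Submodule.finrank_quotient_add_finrank W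
  have e2 : finrank ℂ (Submodule.map (io x) (hk A (t + d + e))) +
      finrank ℂ (hk A (t + d + e) ⊓ LinearMap.ker (io x) : Submodule ℂ (Fin N → S4)) =
      finrank ℂ (hk A (t + d + e)) := CNTM.rn (io x) (hk A (t + d + e))
  -- first claim
  have c1 : finrank ℂ W ≤ finrank ℂ (Submodule.map (io x) (hk A (t + d + e))) := by
    have hmem : ∀ w : W, h * ((w : H) : S4) ∈ Submodule.map (io x) (hk A (t + d + e)) := by
      rintro ⟨⟨w, hw⟩, hwI⟩
      have hwI' : w ∈ I := hwI
      have hwH : w.IsHomogeneous (t + e + 1) := hw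
      rw [hI, Ideal.mem_span_range_iff_exists_fun] at hwI'
      obtain ⟨u, hu⟩ := hwI'
      let v : Fin N → S4 := fun j => homogeneousComponent (t + 1) (u j)
      have hw' : w = ∑ j, f' j * v j := by
        have h1 : homogeneousComponent (e + (t + 1)) w = w := by
          rw [show e + (t + 1) = t + e + 1 by omega]
          rw [homogeneousComponent_of_mem hwH, if_pos rfl]
        rw [← hu, map_sum] at h1
        rw [← hu, ← h1]
        refine Finset.sum_congr rfl fun j _ => ?_
        rw [mul_comm, EXAM.homComp_mul _ _ (hf j)]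
      refine ⟨T.mulVec v, ⟨?_, ?_⟩, ?_⟩
      · exact CNTM.mulVec_mem (a := t + 1) hT
          (fun j _ => homogeneousComponent_isHomogeneous _ _) (by omega)
      · change A.mulVec (T.mulVec v) = 0
        rw [Matrix.mulVec_mulVec, hAT, Matrix.zero_mulVec]
      · rw [io_apply]
        simp only [Matrix.mulVec, dotProduct, Finset.mul_sum]
        rw [Finset.sum_comm, hw', Finset.mul_sum]
        refine Finset.sum_congr rfl fun j _ => ?_
        rw [← mul_assoc, hhf j, Finset.sum_mul]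
        exact Finset.sum_congr rfl fun i _ => by ring
    let Φ : W →ₗ[ℂ] Submodule.map (io x) (hk A (t + d + e)) :=
      LinearMap.codRestrict _ ((LinearMap.mulLeft ℂ h) ∘ₗ H.subtype ∘ₗ W.subtype) hmem
    refine LinearMap.finrank_le_finrank_of_injective (f := Φ) ?_
    intro w w' hww
    have h1 : h * ((w : H) : S4) = h * ((w' : H) : S4) := congrArg Subtype.val hww
    have h2 := mul_left_cancel₀ hh0 h1
    exact Subtype.ext (Subtype.ext h2)
  -- second claim
  have c2 : (t + d + 3).choose 3 ≤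
      finrank ℂ (hk A (t + d + e) ⊓ LinearMap.ker (io x) : Submodule ℂ (Fin N → S4)) := by
    rw [← CNTM.finrank_hom (t + d)]
    let Ψ0 : homogeneousSubmodule (Fin 4) ℂ (t + d) →ₗ[ℂ] (Fin N → S4) :=
      { toFun := fun s i => (s : S4) * f' i
        map_add' := fun s s' => by
          funext i
          exact add_mul _ _ _
        map_smul' := fun c s => by
          funext i
          change (c • (s : S4)) * f' i = c • ((s : S4) * f' i)
          rw [smul_mul_assoc] }
    have hmem : ∀ s, Ψ0 s ∈ hk A (t + d + e) ⊓ LinearMap.ker (io x) := by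
      intro s
      refine ⟨⟨?_, ?_⟩, ?_⟩
      · intro i _
        exact IsHomogeneous.mul s.2 (hf i)
      · change A.mulVec (fun i => (s : S4) * f' i) = 0
        funext i
        have h1 := congrFun hAf i
        simp only [Matrix.mulVec, dotProduct, Pi.zero_apply] at h1 ⊢
        have h2 : ∑ j, A i j * ((s : S4) * f' j) = (s : S4) * ∑ j, A i j * f' j := by
          rw [Finset.mul_sum]
          exact Finset.sum_congr rfl fun j _ => by ring
        rw [h2, h1, mul_zero]
      · change io x (Ψ0 s) = 0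
        rw [io_apply]
        have h2 : ∑ j, x j * ((s : S4) * f' j) = (s : S4) * ∑ j, x j * f' j := by
          rw [Finset.mul_sum]
          exact Finset.sum_congr rfl fun j _ => by ring
        change ∑ j, x j * ((s : S4) * f' j) = 0
        rw [h2, hxf, mul_zero]
    have hfin : Module.Finite ℂ (hk A (t + d + e) ⊓ LinearMap.ker (io x) :
        Submodule ℂ (Fin N → S4)) :=
      Submodule.finiteDimensional_of_le (S₂ := hk A (t + d + e)) inf_le_left
    refine LinearMap.finrank_le_finrank_of_injective (f := LinearMap.codRestrict _ Ψ0 hmem) ?_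
    intro s s' hss
    obtain ⟨j, hj⟩ := hf0
    have h1 : Ψ0 s = Ψ0 s' := congrArg Subtype.val hss
    have h2 : (s : S4) * f' j = (s' : S4) * f' j := congrFun h1 j
    exact Subtype.ext (mul_right_cancel₀ hj h2)
  omega

theorem choose3 (m : ℕ) : 6 * ((m + 3).choose 3 : ℤ) = (m + 1) * (m + 2) * (m + 3) := by
  have h := Nat.ascFactorial_eq_factorial_mul_choose m 3
  have h1 : (m + 1).ascFactorial 3 = (m + 1) * (m + 2) * (m + 3) := by
    simp only [Nat.ascFactorial]
    ring
  have h2 : Nat.factorial 3 = 6 := rfl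
  rw [h1, h2] at h
  have h4 : (((m + 1) * (m + 2) * (m + 3) : ℕ) : ℤ) = ((6 * (m + 3).choose 3 : ℕ) : ℤ) := by rw [h]
  push_cast at h4
  linarith

/-- the sum of the absolute values bounds a function which is eventually periodic -/
theorem bdd (φ : ℕ → ℤ) (a₀ N : ℕ) (hN : 1 ≤ N) (hφ : ∀ a, a₀ ≤ a → φ (a + N) = φ a) :
    ∃ C : ℤ, 0 ≤ C ∧ ∀ a, φ a ≤ C := by
  refine ⟨∑ a ∈ Finset.range (a₀ + N), |φ a|, Finset.sum_nonneg fun a _ => abs_nonneg _, ?_⟩
  intro a
  induction a using Nat.strong_induction_on with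
  | _ a ih =>
    by_cases ha : a < a₀ + N
    · exact (le_abs_self _).trans (Finset.single_le_sum (f := fun a => |φ a|)
        (fun b _ => abs_nonneg _) (Finset.mem_range.2 ha))
    · obtain ⟨b, rfl⟩ : ∃ b, a = b + N := ⟨a - N, by omega⟩
      rw [hφ b (by omega)]
      exact ih b (by omega)

end HILM

open HILM in
theorem specHIL : SpecHIL := by
  intro N d e a₀ A T x f' h hev hN hde _ hAT hT _ hf _ hh0 hf0 hhf hxf hAf hrec
  obtain ⟨M, hM⟩ := hev
  have hNM : (N : ℤ) = 2 * M := by rw [hM]; push_cast; ring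
  have hdeZ : (e : ℤ) = 2 * M - 1 - d := by omega
  obtain ⟨C, hC0, hC⟩ := bdd (fun a => 12 * (Module.finrank ℂ (hk A a) : ℤ)
    - (4 * ((a : ℤ) + 3 - M) ^ 3 - (N : ℤ) ^ 2 * ((a : ℤ) + 3 - M))) a₀ N (by omega) (by
      intro a ha
      have h1 := hrec a ha
      have h2 : (Module.finrank ℂ (hk A (a + N)) : ℤ) =
          (Module.finrank ℂ (hk A a) : ℤ) + N * ((a : ℤ) + 3) ^ 2 := by
        rw [h1]; push_cast; ring
      simp only [h2]
      push_cast
      rw [hNM]
      ring)
  set σ : ℤ := 3 * ((N : ℤ) - 2 * d) ^ 2 + (N : ℤ) ^ 2 - 4 with hσ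
  have hσ0 : 0 ≤ σ := by
    have h1 : (4 : ℤ) ≤ N := by exact_mod_cast hN
    have h2 : 0 ≤ ((N : ℤ) - 2 * d) ^ 2 := sq_nonneg _
    nlinarith
  refine ⟨C + σ * e, fun n => ?_⟩
  by_cases hn : n ≤ e
  · have h1 : (n : ℤ) ≤ e := by exact_mod_cast hn
    have h2 : (0 : ℤ) ≤ 12 * (hq (Ideal.span (Set.range f')) n : ℤ) := by positivity
    have h3 : σ * n ≤ σ * e := mul_le_mul_of_nonneg_left h1 hσ0
    linarith
  · obtain ⟨t, rfl⟩ : ∃ t, n = t + e + 1 := ⟨n - e - 1, by omega⟩
    have h1 := dims (t := t) A T x f' h hN hde hAT hT hf hh0 hf0 hhf hxf hAf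
    have h1' : (((t + e + 1 + 3).choose 3 : ℕ) : ℤ) + (((t + d + 3).choose 3 : ℕ) : ℤ) ≤
        (hq (Ideal.span (Set.range f')) (t + e + 1) : ℤ)
          + (Module.finrank ℂ (hk A (t + d + e)) : ℤ) := by exact_mod_cast h1
    have h2 := hC (t + d + e)
    have h3 := choose3 (t + e + 1)
    have h4 := choose3 (t + d)
    push_cast at h2 h3 h4 ⊢
    have h5 : 0 ≤ σ * (M + 1) := mul_nonneg hσ0 (by positivity)
    have h6 : σ * ((t : ℤ) + M + 2) = 2 * (((t : ℤ) + e + 1 + 1) * (t + e + 1 + 2) * (t + e + 1 + 3))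
        + 2 * (((t : ℤ) + d + 1) * (t + d + 2) * (t + d + 3))
        - (4 * ((t : ℤ) + d + e + 3 - M) ^ 3 - (N : ℤ) ^ 2 * ((t : ℤ) + d + e + 3 - M)) := by
      rw [hσ, hNM, hdeZ]
      ring
    have h7 : σ * ((t : ℤ) + M + 2) = σ * (t + e + 1) - σ * e + σ * (M + 1) := by ring
    linarith

end Pool.Agent.Lib.MPc9b009.OD
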