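import Pool.Agent.Lib.MP_c9b009_ag.OD.Spec

/-! # MP_c9b009_ag, row OD, module JTR: traces of `s / jc` -/

set_option autoImplicit false

namespace Pool.Agent.Lib.MPc9b009.OD

open MvPolynomial Pool.Agent.Lib.MPc9b009.B5

namespace JTRM

/-- reindexing -/
def e4 : Fin 4 ≃ Fin 2 ⊕ Fin 2 := (finSumFinEquiv (m := 2) (n := 2)).symm

theorem elim_e4 (q l : Fin 2 → S4) (a : Fin 4) :
    Sum.elim q l (e4 a) = (![q 0, q 1, l 0, l 1] : Fin 4 → S4) a := by
  fin_cases a <;> rfl

end JTRM

open JTRM in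
theorem specJTR : SpecJTR := by
  intro q l L _ _ _ _ _ hS
  haveI := hS.fr
  haveI := hS.t1
  haveI := hS.t2
  haveI := hS.t3
  haveI := hS.fin
  obtain ⟨dd, hdd, -⟩ := specDEX (Fin 2 ⊕ Fin 2) inferInstance inferInstance L inferInstance
    inferInstance inferInstance inferInstance inferInstance inferInstance inferInstance
  let φ : S4 →ₐ[ℂ] L := IsScalarTower.toAlgHom ℂ S4 L
  have hφ : ∀ z, φ z = algebraMap S4 L z := fun _ => rfl
  -- the matrices
  let J' : Matrix (Fin 2 ⊕ Fin 2) (Fin 2 ⊕ Fin 2) L := Matrix.of fun a c =>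
    φ (pderiv (e4.symm c) (Sum.elim q l a))
  let x' : Fin 2 ⊕ Fin 2 → L := fun c => algebraMap S4 L (X (e4.symm c))
  let M' : Matrix (Fin 2 ⊕ Fin 2) (Fin 2 ⊕ Fin 2) L := Matrix.of fun c b => dd b (x' c)
  have hJM : J' * M' = 1 := by
    ext a b
    rw [Matrix.mul_apply]
    have h1 : ∑ c, J' a c * M' c b = ∑ c : Fin 4, φ (pderiv c (Sum.elim q l a)) * dd b (φ (X c)) := by
      rw [← Equiv.sum_comp e4]
      refine Finset.sum_congr rfl fun c _ => ?_
      show φ (pderiv (e4.symm (e4 c)) (Sum.elim q l a)) * dd b (algebraMap S4 L (X (e4.symm (e4 c)))) = _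
      rw [Equiv.symm_apply_apply]
      rfl
    rw [h1, ← BSTM.der_poly φ (dd b) (Sum.elim q l a)]
    have h2 : φ (Sum.elim q l a) = algebraMap R4 L (X a) := by
      rcases a with i | j
      · rw [hS.xl]; rfl
      · rw [hS.xr]; rfl
    rw [h2, hdd, Matrix.one_apply]
    simp only [eq_comm]
  have hdet : algebraMap S4 L (jc q l) * M'.det = 1 := by
    have h1 : J'.det * M'.det = 1 := by rw [← Matrix.det_mul, hJM, Matrix.det_one]
    have h2 : J'.det = algebraMap S4 L (jc q l) := by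
      rw [← Matrix.det_submatrix_equiv_self e4 J', jc, RingHom.map_det]
      congr 1
      ext a c
      show φ (pderiv (e4.symm (e4 c)) (Sum.elim q l (e4 a))) = _
      rw [Equiv.symm_apply_apply, elim_e4]
      rfl
    rw [← h2, h1]
  have hne : algebraMap S4 L (jc q l) ≠ 0 := left_ne_zero_of_mul (by rw [hdet]; exact one_ne_zero)
  refine ⟨fun h0 => hne (by rw [h0, map_zero]), ?_⟩
  intro s
  obtain ⟨r, hr⟩ := specTRA (specTRH specTRV) (Fin 2 ⊕ Fin 2) inferInstance inferInstance L inferInstance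
    inferInstance inferInstance inferInstance inferInstance inferInstance inferInstance dd
    (algebraMap S4 L s) x' hdd (hS.int s) (fun c => hS.int _)
  refine ⟨r, ?_⟩
  rw [← hr]
  congr 1
  rw [div_eq_iff hne, mul_assoc]
  have h3 : M'.det * algebraMap S4 L (jc q l) = 1 := by rw [mul_comm, hdet]
  show _ = algebraMap S4 L s * (M'.det * algebraMap S4 L (jc q l))
  rw [h3, mul_one]

end Pool.Agent.Lib.MPc9b009.OD
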