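import Pool.Agent.Lib.MP_c9b009_ag.OD.Spec

/-!
# MP_c9b009_ag, row OD, module LIE: the Lie derivative of the kernel form vanishes
-/

set_option autoImplicit false

namespace Pool.Agent.Lib.MPc9b009.OD

open MvPolynomial Pool.Agent.Lib.MPc9b009.B5

namespace LIEM

theorem der_prod {S R : Type*} [CommRing S] [CommRing R] [Algebra S R] (D : Derivation S R R)
    {ι : Type*} [DecidableEq ι] (s : Finset ι) (f : ι → R) :
    D (∏ i ∈ s, f i) = ∑ i ∈ s, D (f i) * ∏ j ∈ s.erase i, f j := by
  induction s using Finset.induction_on with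
  | empty => simp
  | insert a s ha ih =>
    rw [Finset.prod_insert ha, D.leibniz, ih, Finset.sum_insert ha, Finset.erase_insert ha,
      smul_eq_mul, smul_eq_mul, Finset.mul_sum, add_comm]
    congr 1
    · ring
    · refine Finset.sum_congr rfl fun i hi => ?_
      have hai : a ≠ i := fun h => ha (h ▸ hi)
      rw [Finset.erase_insert_of_ne hai, Finset.prod_insert (fun h => ha (Finset.mem_of_mem_erase h))]
      ring

theorem der_det {S R : Type*} [CommRing S] [CommRing R] [Algebra S R] (D : Derivation S R R)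
    {n : Type*} [Fintype n] [DecidableEq n] (B : Matrix n n R) :
    D B.det = ∑ i, ∑ k, B.adjugate i k * D (B k i) := by
  have h1 : D B.det = ∑ i, (B.updateCol i (fun k => D (B k i))).det := by
    simp only [Matrix.det_apply']
    rw [map_sum, Finset.sum_comm]
    refine Finset.sum_congr rfl fun σ _ => ?_
    rw [← zsmul_eq_mul, map_zsmul, der_prod, zsmul_eq_mul, Finset.mul_sum]
    refine Finset.sum_congr rfl fun i _ => ?_
    congr 1
    rw [← Finset.mul_prod_erase Finset.univ _ (Finset.mem_univ i), Matrix.updateCol_self]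
    congr 1
    refine Finset.prod_congr rfl fun j hj => ?_
    rw [Matrix.updateCol_ne (Finset.ne_of_mem_erase hj)]
  rw [h1]
  refine Finset.sum_congr rfl fun i _ => ?_
  rw [← Matrix.cramer_apply, Matrix.cramer_eq_adjugate_mulVec]
  rfl

section

variable {S R : Type} [CommRing S] [CommRing R] [Algebra S R] {N : ℕ}

/-- entries of `adj B`, `B` the principal minor, are skew -/
theorem adj_neg (A : Matrix (Fin N) (Fin N) R) (hN : Even N) (hN4 : 4 ≤ N)
    (hA : ∀ i j, A j i = - A i j) (p q : Fin N) (hpq : p ≠ q)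
    (a b : {l : Fin N // l ≠ p ∧ l ≠ q}) :
    (EXAM.mij A p q).adjugate b a = - (EXAM.mij A p q).adjugate a b := by
  have hc := EXAM.card_ij p q hpq
  have hne : Nonempty {l : Fin N // l ≠ p ∧ l ≠ q} := by
    rw [← Fintype.card_pos_iff]
    omega
  have hsk := EXAM.adj_skew (EXAM.mij A p q) (by
    ext a b
    simp only [Matrix.transpose_apply, Matrix.neg_apply, EXAM.mij, Matrix.submatrix_apply]
    exact hA a.1 b.1) (by
    obtain ⟨m, hm⟩ := hN
    exact ⟨m - 1, by omega⟩) hne
  have := congrFun (congrFun hsk a) b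
  simpa [Matrix.transpose_apply, Matrix.neg_apply] using this

/-- the rows of `A` times `adj B` -/
noncomputable def W (A : Matrix (Fin N) (Fin N) R) (p q : Fin N) (l : Fin N)
    (k : {l : Fin N // l ≠ p ∧ l ≠ q}) : R :=
  ∑ i : {l : Fin N // l ≠ p ∧ l ≠ q}, A l i.1 * (EXAM.mij A p q).adjugate i k

theorem W_in (A : Matrix (Fin N) (Fin N) R) (p q : Fin N) (l k : {l : Fin N // l ≠ p ∧ l ≠ q}) :
    W A p q l.1 k = if l = k then (EXAM.mij A p q).det else 0 := by
  have h := congrFun (congrFun (Matrix.mul_adjugate (EXAM.mij A p q)) l) k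
  rw [Matrix.mul_apply] at h
  rw [W]
  simp only [Matrix.smul_apply, Matrix.one_apply, smul_eq_mul, mul_ite, mul_one, mul_zero] at h
  exact h

theorem W_ker (A : Matrix (Fin N) (Fin N) R) (hN : Even N) (hN4 : 4 ≤ N)
    (hA : ∀ i j, A j i = - A i j) (p q : Fin N) (hpq : p ≠ q) (v : Fin N → R)
    (hv : ∀ a, ∑ j, A a j * v j = 0) (j : {l : Fin N // l ≠ p ∧ l ≠ q}) :
    (EXAM.mij A p q).det * v j.1 = -(W A p q p j * v p) - W A p q q j * v q := by
  have h1 : ∀ k : {l : Fin N // l ≠ p ∧ l ≠ q},
      (EXAM.mij A p q).mulVec (fun m => v m.1) k = -(A k.1 p * v p + A k.1 q * v q) := by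
    intro k
    have h1 := hv k.1
    rw [EXAM.sum_split p q hpq] at h1
    have h2 : (EXAM.mij A p q).mulVec (fun m => v m.1) k =
        ∑ i : {l : Fin N // l ≠ p ∧ l ≠ q}, A k.1 i.1 * v i.1 := rfl
    rw [h2]
    linear_combination h1
  have h2 : (EXAM.mij A p q).adjugate.mulVec ((EXAM.mij A p q).mulVec (fun m => v m.1)) =
      (EXAM.mij A p q).det • (fun m => v m.1) := by
    rw [Matrix.mulVec_mulVec, Matrix.adjugate_mul, Matrix.smul_mulVec, Matrix.one_mulVec]
  have h3 := congrFun h2 j
  rw [Pi.smul_apply, smul_eq_mul] at h3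
  rw [← h3]
  rw [Matrix.mulVec, dotProduct, W, W, Finset.sum_mul, Finset.sum_mul, ← Finset.sum_neg_distrib,
    ← Finset.sum_sub_distrib]
  refine Finset.sum_congr rfl fun k _ => ?_
  rw [h1 k, adj_neg A hN hN4 hA p q hpq k j, hA p k.1, hA q k.1]
  ring

/-- the derivative of the principal minor -/
theorem main (D : Derivation S R R) (A : Matrix (Fin N) (Fin N) R) (hN : Even N) (hN4 : 4 ≤ N)
    (hA : ∀ i j, A j i = - A i j) (M P : Fin N → Fin N → R)
    (hD : ∀ j k, D (A j k) = ∑ l, M j l * A l k + ∑ l, M k l * A j l)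
    (hP : ∀ i j, P j i = - P i j) (hP0 : ∀ i, P i i = 0) (hk : ∀ a k, ∑ j, A a j * P j k = 0)
    (p q : Fin N) (hpq : p ≠ q) :
    P p q * D (EXAM.mij A p q).det = 2 * (EXAM.mij A p q).det *
      (P p q * ∑ l, M l l - ∑ l, M l p * P l q - ∑ l, M l q * P p l) := by
  set B := EXAM.mij A p q with hB
  have hBa : ∀ i k : {l : Fin N // l ≠ p ∧ l ≠ q}, B.adjugate k i = - B.adjugate i k :=
    fun i k => adj_neg A hN hN4 hA p q hpq i k
  -- the derivative
  have h1 : D B.det = 2 * ∑ k : {l : Fin N // l ≠ p ∧ l ≠ q}, ∑ l, M k.1 l * W A p q l k := by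
    rw [der_det]
    have e1 : ∀ i k : {l : Fin N // l ≠ p ∧ l ≠ q}, B.adjugate i k * D (B k i) =
        B.adjugate i k * ∑ l, M k.1 l * A l i.1 + B.adjugate i k * ∑ l, M i.1 l * A k.1 l := by
      intro i k
      rw [show B k i = A k.1 i.1 from rfl, hD, mul_add]
    simp only [e1, Finset.sum_add_distrib]
    have e2 : ∑ i : {l : Fin N // l ≠ p ∧ l ≠ q}, ∑ k : {l : Fin N // l ≠ p ∧ l ≠ q},
        B.adjugate i k * ∑ l, M k.1 l * A l i.1 =
        ∑ k : {l : Fin N // l ≠ p ∧ l ≠ q}, ∑ l, M k.1 l * W A p q l k := by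
      rw [Finset.sum_comm]
      refine Finset.sum_congr rfl fun k _ => ?_
      simp only [W, Finset.mul_sum]
      rw [Finset.sum_comm]
      refine Finset.sum_congr rfl fun l _ => Finset.sum_congr rfl fun i _ => ?_
      ring
    have e3 : ∑ i : {l : Fin N // l ≠ p ∧ l ≠ q}, ∑ k : {l : Fin N // l ≠ p ∧ l ≠ q},
        B.adjugate i k * ∑ l, M i.1 l * A k.1 l =
        ∑ k : {l : Fin N // l ≠ p ∧ l ≠ q}, ∑ l, M k.1 l * W A p q l k := by
      refine Finset.sum_congr rfl fun k _ => ?_
      simp only [W, Finset.mul_sum]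
      rw [Finset.sum_comm]
      refine Finset.sum_congr rfl fun l _ => Finset.sum_congr rfl fun i _ => ?_
      rw [hBa i k, hA l i.1]
      ring
    rw [e2, e3]
    ring
  rw [h1]
  have hq : ∀ k : {l : Fin N // l ≠ p ∧ l ≠ q}, P p q * W A p q p k = - (B.det * P k.1 q) := by
    intro k
    rw [W_ker A hN hN4 hA p q hpq (fun l => P l q) (fun a => hk a q) k, hP0]
    ring
  have hp : ∀ k : {l : Fin N // l ≠ p ∧ l ≠ q}, P p q * W A p q q k = B.det * P k.1 p := by
    intro k
    rw [W_ker A hN hN4 hA p q hpq (fun l => P l p) (fun a => hk a p) k, hP0, hP p q]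
    ring
  have h2 : ∀ k : {l : Fin N // l ≠ p ∧ l ≠ q}, P p q * ∑ l, M k.1 l * W A p q l k =
      B.det * (P p q * M k.1 k.1 - M k.1 p * P k.1 q + M k.1 q * P k.1 p) := by
    intro k
    rw [EXAM.sum_split p q hpq]
    have e1 : ∑ l : {l : Fin N // l ≠ p ∧ l ≠ q}, M k.1 l.1 * W A p q l.1 k =
        M k.1 k.1 * B.det := by
      simp only [W_in, mul_ite, mul_zero]
      rw [Finset.sum_ite_eq']
      simp [hB]
    rw [e1]
    linear_combination (M k.1 p) * hq k + (M k.1 q) * hp k
  have h3 : P p q * (2 * ∑ k : {l : Fin N // l ≠ p ∧ l ≠ q}, ∑ l, M k.1 l * W A p q l k) =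
      2 * ∑ k : {l : Fin N // l ≠ p ∧ l ≠ q}, P p q * ∑ l, M k.1 l * W A p q l k := by
    rw [Finset.mul_sum, Finset.mul_sum, Finset.mul_sum]
    refine Finset.sum_congr rfl fun k _ => ?_
    ring
  rw [h3, Finset.sum_congr rfl (fun k _ => h2 k), ← Finset.mul_sum]
  rw [EXAM.sum_split p q hpq (fun l => M l l), EXAM.sum_split p q hpq (fun l => M l p * P l q),
    EXAM.sum_split p q hpq (fun l => M l q * P p l), hP0, hP0]
  have h4 : ∑ k : {l : Fin N // l ≠ p ∧ l ≠ q},
      (P p q * M k.1 k.1 - M k.1 p * P k.1 q + M k.1 q * P k.1 p) =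
      P p q * ∑ k : {l : Fin N // l ≠ p ∧ l ≠ q}, M k.1 k.1
        - ∑ k : {l : Fin N // l ≠ p ∧ l ≠ q}, M k.1 p * P k.1 q
        - ∑ k : {l : Fin N // l ≠ p ∧ l ≠ q}, M k.1 q * P p k.1 := by
    rw [Finset.mul_sum, ← Finset.sum_sub_distrib, ← Finset.sum_sub_distrib]
    refine Finset.sum_congr rfl fun k _ => ?_
    rw [hP p k.1]
    ring
  rw [h4]
  ring

end

end LIEM

theorem specLIE : SpecLIE := by
  intro N g P hN hN4 hjac hdiv hO a
  have hskew : ∀ i j, P j i = - P i j := hO.skew
  have hP0 : ∀ i, P i i = 0 := fun i => self_eq_neg.1 (hskew i i)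
  have hker := hO.ker
  set A : Matrix (Fin N) (Fin N) (MvPolynomial (Fin N) ℂ) := Matrix.of g.f with hAdef
  have hA : ∀ i j, A j i = - A i j := g.skew
  let D : Derivation ℂ (MvPolynomial (Fin N) ℂ) (MvPolynomial (Fin N) ℂ) :=
    ∑ l, g.f a l • pderiv l
  have hDx : ∀ x, D x = ham g a x := by
    intro x
    have h := map_sum (Derivation.coeFnAddMonoidHom (R := ℂ) (A := MvPolynomial (Fin N) ℂ)
      (M := MvPolynomial (Fin N) ℂ)) (fun l => g.f a l • pderiv l) Finset.univ
    have h2 := congrFun h x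
    rw [Finset.sum_apply] at h2
    exact h2
  set M : Fin N → Fin N → MvPolynomial (Fin N) ℂ := fun j l => pderiv l (g.f a j) with hM
  have hD : ∀ j k, D (A j k) = ∑ l, M j l * A l k + ∑ l, M k l * A j l := by
    intro j k
    have h1 := hjac a j k
    rw [jac] at h1
    simp only [Finset.sum_add_distrib] at h1
    rw [hDx, ham]
    have e1 : ∑ l, g.f j l * pderiv l (g.f k a) = - ∑ l, M k l * A j l := by
      rw [← Finset.sum_neg_distrib]
      refine Finset.sum_congr rfl fun l _ => ?_
      rw [g.skew a k, map_neg]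
      simp only [hM, hAdef, Matrix.of_apply]
      ring
    have e2 : ∑ l, g.f k l * pderiv l (g.f a j) = - ∑ l, M j l * A l k := by
      rw [← Finset.sum_neg_distrib]
      refine Finset.sum_congr rfl fun l _ => ?_
      simp only [hM, hAdef, Matrix.of_apply]
      rw [g.skew l k]
      ring
    rw [e1, e2] at h1
    rw [show A j k = g.f j k from rfl]
    linear_combination h1
  -- the form `E`
  set E : Fin N → Fin N → MvPolynomial (Fin N) ℂ :=
    fun i j => D (P i j) + ∑ l, M l i * P l j + ∑ l, M l j * P i l with hE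
  suffices hmain : ∀ i j, E i j = 0 by
    intro i j
    have := hmain i j
    rw [← hDx]
    exact this
  have hEs : ∀ i j, E j i = - E i j := by
    intro i j
    simp only [hE]
    have e1 : ∑ l, M l j * P l i = - ∑ l, M l j * P i l := by
      rw [← Finset.sum_neg_distrib]
      refine Finset.sum_congr rfl fun l _ => ?_
      rw [hskew i l]; ring
    have e2 : ∑ l, M l i * P j l = - ∑ l, M l i * P l j := by
      rw [← Finset.sum_neg_distrib]
      refine Finset.sum_congr rfl fun l _ => ?_
      rw [hskew l j]; ring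
    rw [hskew i j, map_neg, e1, e2]
    ring
  have hE0 : ∀ i, E i i = 0 := fun i => self_eq_neg.1 (hEs i i)
  have hkE : ∀ b j, ∑ i, g.f b i * E i j = 0 := by
    intro b j
    have s1 : ∑ i, g.f b i * D (P i j) + ∑ i, D (g.f b i) * P i j = 0 := by
      have h1 := congrArg D (hker b j)
      rw [map_zero, map_sum] at h1
      rw [← Finset.sum_add_distrib, ← h1]
      refine Finset.sum_congr rfl fun i _ => ?_
      rw [D.leibniz, smul_eq_mul, smul_eq_mul]
      ring
    have s2 : ∑ i, D (g.f b i) * P i j = ∑ i, ∑ l, M i l * g.f b l * P i j := by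
      have e1 : ∀ i, D (g.f b i) * P i j =
          (∑ l, M b l * (g.f l i * P i j)) + ∑ l, M i l * g.f b l * P i j := by
        intro i
        have := hD b i
        rw [show A b i = g.f b i from rfl] at this
        rw [this, add_mul, Finset.sum_mul, Finset.sum_mul]
        congr 1
        refine Finset.sum_congr rfl fun l _ => ?_
        simp only [hAdef, Matrix.of_apply]
        ring
      rw [Finset.sum_congr rfl (fun i _ => e1 i), Finset.sum_add_distrib, Finset.sum_comm]
      have e2 : ∑ l, ∑ i, M b l * (g.f l i * P i j) = 0 := by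
        refine Finset.sum_eq_zero fun l _ => ?_
        rw [← Finset.mul_sum, hker l j, mul_zero]
      rw [e2, zero_add]
    have s3 : ∑ i, g.f b i * ∑ l, M l i * P l j = ∑ i, ∑ l, M i l * g.f b l * P i j := by
      simp only [Finset.mul_sum]
      rw [Finset.sum_comm]
      refine Finset.sum_congr rfl fun l _ => Finset.sum_congr rfl fun i _ => ?_
      ring
    have s4 : ∑ i, g.f b i * ∑ l, M l j * P i l = 0 := by
      simp only [Finset.mul_sum]
      rw [Finset.sum_comm]
      refine Finset.sum_eq_zero fun l _ => ?_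
      have : ∑ i, g.f b i * (M l j * P i l) = M l j * ∑ i, g.f b i * P i l := by
        rw [Finset.mul_sum]
        refine Finset.sum_congr rfl fun i _ => ?_
        ring
      rw [this, hker b l, mul_zero]
    simp only [hE, mul_add, Finset.sum_add_distrib]
    rw [s3, s4]
    rw [s2] at s1
    linear_combination s1
  -- a nonzero entry
  obtain ⟨p, q, hPpq⟩ : ∃ p q, P p q ≠ 0 := by
    by_contra hcon
    push Not at hcon
    exact not_isUnit_zero (hO.prim 0 (fun i j => by rw [hcon i j]))
  have hpq : p ≠ q := by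
    rintro rfl
    exact hPpq (hP0 p)
  obtain ⟨h, hh, hmin⟩ := hO.minor
  have hdet : (EXAM.mij A p q).det = C h * P p q ^ 2 := hmin p q hpq
  have hCh : (C h : MvPolynomial (Fin N) ℂ) ≠ 0 := by
    rw [Ne, MvPolynomial.C_eq_zero]
    exact hh
  have hdet0 : (EXAM.mij A p q).det ≠ 0 := by
    rw [hdet]
    exact mul_ne_zero hCh (pow_ne_zero 2 hPpq)
  obtain ⟨kp, kq, hc, -⟩ := EXAM.core A hN hA p q hpq
  have hc' : ∀ κ : Fin N → MvPolynomial (Fin N) ℂ, (∀ b, ∑ j, g.f b j * κ j = 0) →
      ∀ l, P p q * κ l = P l q * κ p - P l p * κ q := by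
    intro κ hκ l
    have h1 := hc κ (by ext b; exact congrArg _ (hκ b)) l
    have h2 := hc (fun m => P m q) (by ext b; exact congrArg _ (hker b q)) l
    have h3 := hc (fun m => P m p) (by ext b; exact congrArg _ (hker b p)) l
    beta_reduce at h2 h3
    rw [hP0] at h2 h3
    rw [hskew p q] at h3
    apply mul_left_cancel₀ hdet0
    linear_combination P p q * h1 - κ p * h2 + κ q * h3
  have hEq : ∀ l, P p q * E l q = P l q * E p q := by
    intro l
    rw [hc' (fun m => E m q) (fun b => hkE b q) l, hE0]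
    ring
  have hEp : ∀ l, P p q * E l p = P l p * E p q := by
    intro l
    rw [hc' (fun m => E m p) (fun b => hkE b p) l, hE0, hEs p q]
    ring
  have hEl : ∀ l j, P p q ^ 2 * E l j = E p q * (P p q * P l j) := by
    intro l j
    have h1 := hc' (fun m => E m j) (fun b => hkE b j) l
    beta_reduce at h1
    have h2 := hEq j
    have h3 := hEp j
    have h4 := hO.plu p q l j
    rw [hEs j p] at h1
    have h5 := hEs j q
    rw [h5] at h1
    rw [hskew l p, hskew j q, hskew j p, hskew l q] at h4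
    linear_combination P p q * h1 - P l q * h3 + P l p * h2 - E p q * h4
  -- the minor
  have hm := LIEM.main D A hN hN4 hA M P hD hskew hP0 (fun b k => hker b k) p q hpq
  have htr : ∑ l, M l l = 0 := by
    have h1 := hdiv a
    have h2 : ∑ l, M l l = - ∑ i, pderiv i (g.f i a) := by
      rw [← Finset.sum_neg_distrib]
      refine Finset.sum_congr rfl fun l _ => ?_
      simp only [hM]
      rw [g.skew l a, map_neg]
    rw [h2, h1, neg_zero]
  have hdd : D (EXAM.mij A p q).det = C h * (2 * P p q * D (P p q)) := by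
    rw [hdet, ← MvPolynomial.smul_eq_C_mul, D.map_smul, MvPolynomial.smul_eq_C_mul, pow_two,
      D.leibniz, smul_eq_mul]
    ring
  have he : E p q = D (P p q) + ∑ l, M l p * P l q + ∑ l, M l q * P p l := rfl
  have he0 : E p q = 0 := by
    rw [hdd, htr, hdet] at hm
    have h6 : (2 * (C h * P p q ^ 2)) * E p q = 0 := by
      rw [he]
      linear_combination hm
    have h7 : (2 * (C h * P p q ^ 2) : MvPolynomial (Fin N) ℂ) ≠ 0 :=
      mul_ne_zero two_ne_zero (mul_ne_zero hCh (pow_ne_zero 2 hPpq))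
    exact (mul_eq_zero.1 h6).resolve_left h7
  intro i j
  have h8 := hEl i j
  rw [he0, zero_mul] at h8
  exact (mul_eq_zero.1 h8).resolve_left (pow_ne_zero 2 hPpq)

end Pool.Agent.Lib.MPc9b009.OD
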