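import Pool.Agent.Lib.MP_c9b009_ag.OD.Spec

/-!
# MP_c9b009_ag, row OD, module LOG: the global step

`Rg h x`: the fraction `x` is regular at the prime `h`. By induction over the prime factors of a common
denominator there is `g ≠ 0` with `t_b + ∂_b g / g` a polynomial for every `b`; then `Eu(g) = q g` with
`q = ∑ X_b c_b - c`, and the coefficients at a monomial of least degree of `g` give `- c = ` this degree.
-/

set_option autoImplicit false

namespace Pool.Agent.Lib.MPc9b009.OD

open MvPolynomial Pool.Agent.Lib.MPc9b009.B5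

namespace LOGM

variable {σ : Type}

/-- the embedding of the polynomials into the fractions -/
noncomputable abbrev io (r : MvPolynomial σ ℂ) : FractionRing (MvPolynomial σ ℂ) :=
  algebraMap (MvPolynomial σ ℂ) (FractionRing (MvPolynomial σ ℂ)) r

theorem io_ne {r : MvPolynomial σ ℂ} (h : r ≠ 0) : io r ≠ 0 := fun h0 =>
  h ((IsFractionRing.injective (MvPolynomial σ ℂ) (FractionRing (MvPolynomial σ ℂ)))
    (by rw [map_zero]; exact h0))

theorem io_inj {r s : MvPolynomial σ ℂ} (h : io r = io s) : r = s :=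
  IsFractionRing.injective (MvPolynomial σ ℂ) (FractionRing (MvPolynomial σ ℂ)) h

/-- `x` is regular at `h` -/
def Rg (h : MvPolynomial σ ℂ) (x : FractionRing (MvPolynomial σ ℂ)) : Prop :=
  ∃ r s : MvPolynomial σ ℂ, ¬ h ∣ s ∧ x * io s = io r

theorem Rg.add {h : MvPolynomial σ ℂ} (hp : Prime h) {x y : FractionRing (MvPolynomial σ ℂ)}
    (hx : Rg h x) (hy : Rg h y) : Rg h (x + y) := by
  obtain ⟨r, s, hs, e⟩ := hx
  obtain ⟨r', s', hs', e'⟩ := hy
  refine ⟨r * s' + r' * s, s * s', fun hd => ?_, ?_⟩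
  · rcases hp.dvd_or_dvd hd with h1 | h1
    · exact hs h1
    · exact hs' h1
  · simp only [io, map_add, map_mul] at e e' ⊢
    rw [← e, ← e']
    ring

theorem Rg.frac {h p : MvPolynomial σ ℂ} (hd : ¬ h ∣ p) (n : ℕ) (a : MvPolynomial σ ℂ) :
    Rg h ((n : FractionRing (MvPolynomial σ ℂ)) * (io a / io p)) := by
  have hp0 : p ≠ 0 := fun h0 => hd (h0 ▸ dvd_zero h)
  refine ⟨n * a, p, hd, ?_⟩
  have h1 : io p ≠ 0 := io_ne hp0
  simp only [io, map_mul, map_natCast] at h1 ⊢
  field_simp

theorem Rg.assoc {h p : MvPolynomial σ ℂ} (ha : Associated h p)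
    {x : FractionRing (MvPolynomial σ ℂ)} (hx : Rg p x) : Rg h x := by
  obtain ⟨r, s, hs, e⟩ := hx
  exact ⟨r, s, fun hd => hs (ha.dvd_iff_dvd_left.1 hd), e⟩

/-- a fraction which is regular at all primes is a polynomial -/
theorem int_of_reg [Finite σ] (x : FractionRing (MvPolynomial σ ℂ))
    (hx : ∀ h : MvPolynomial σ ℂ, Prime h → Rg h x) : ∃ r : MvPolynomial σ ℂ, x = io r := by
  have hu : IsUnit (IsFractionRing.den (MvPolynomial σ ℂ) x : MvPolynomial σ ℂ) := by
    by_contra hnu
    have hd0 : (IsFractionRing.den (MvPolynomial σ ℂ) x : MvPolynomial σ ℂ) ≠ 0 :=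
      nonZeroDivisors.coe_ne_zero _
    obtain ⟨h, hirr, hdv⟩ := WfDvdMonoid.exists_irreducible_factor hnu hd0
    have hp : Prime h := hirr.prime
    obtain ⟨r, s, hs, e⟩ := hx h hp
    have e1 : algebraMap (MvPolynomial σ ℂ) (FractionRing (MvPolynomial σ ℂ))
        (IsFractionRing.num (MvPolynomial σ ℂ) x)
        / algebraMap (MvPolynomial σ ℂ) (FractionRing (MvPolynomial σ ℂ))
          (IsFractionRing.den (MvPolynomial σ ℂ) x) = x :=
      IsFractionRing.mk'_num_den' (MvPolynomial σ ℂ) x
    have hdn : algebraMap (MvPolynomial σ ℂ) (FractionRing (MvPolynomial σ ℂ))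
        (IsFractionRing.den (MvPolynomial σ ℂ) x) ≠ 0 := io_ne hd0
    have e2 : (IsFractionRing.num (MvPolynomial σ ℂ) x) * s
        = r * (IsFractionRing.den (MvPolynomial σ ℂ) x : MvPolynomial σ ℂ) := by
      apply io_inj
      simp only [io, map_mul]
      rw [← e1] at e
      simp only [io] at e
      rw [div_mul_eq_mul_div, div_eq_iff hdn] at e
      exact e
    have h3 : h ∣ IsFractionRing.num (MvPolynomial σ ℂ) x := by
      have : h ∣ (IsFractionRing.num (MvPolynomial σ ℂ) x) * s := by
        rw [e2]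
        exact Dvd.dvd.mul_left hdv r
      rcases hp.dvd_or_dvd this with h1 | h1
      · exact h1
      · exact absurd h1 hs
    exact hp.not_isUnit (IsFractionRing.num_den_reduced (MvPolynomial σ ℂ) x h3 hdv)
  obtain ⟨r, hr⟩ := IsFractionRing.isInteger_of_isUnit_den hu
  exact ⟨r, hr.symm⟩

/-- the induction over the prime factors of a common denominator -/
theorem exists_g [Finite σ] (s : MvPolynomial σ ℂ) : s ≠ 0 →
    ∀ t : σ → FractionRing (MvPolynomial σ ℂ),
    (∀ h : MvPolynomial σ ℂ, Prime h → ∃ n : ℕ, ∀ b, Rg h (t b + n * (io (pderiv b h) / io h))) →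
    (∀ h : MvPolynomial σ ℂ, Prime h → ¬ h ∣ s → ∀ b, Rg h (t b)) →
    ∃ g : MvPolynomial σ ℂ, g ≠ 0 ∧ ∀ b, ∃ cb : MvPolynomial σ ℂ,
      t b + io (pderiv b g) / io g = io cb := by
  induction s using UniqueFactorizationMonoid.induction_on_prime with
  | h₁ => exact fun h => absurd rfl h
  | h₂ s hs =>
    intro _ t _ hr
    refine ⟨1, one_ne_zero, fun b => ?_⟩
    obtain ⟨r, hr'⟩ := int_of_reg (t b) (fun h hp => hr h hp
      (fun hd => hp.not_isUnit (isUnit_of_dvd_unit hd hs)) b)
    exact ⟨r, by simp [io, hr']⟩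
  | h₃ s p hs0 hp ih =>
    intro _ t ht hr
    obtain ⟨n, hn⟩ := ht p hp
    have key : ∀ h : MvPolynomial σ ℂ, Prime h → ¬ Associated h p → ¬ h ∣ p := fun h hh hna hd =>
      hna ((hh.dvd_prime_iff_associated hp).1 hd)
    have hA : ∀ h : MvPolynomial σ ℂ, Prime h → ∃ m : ℕ, ∀ b,
        Rg h ((t b + n * (io (pderiv b p) / io p)) + m * (io (pderiv b h) / io h)) := by
      intro h hh
      by_cases ha : Associated h p
      · refine ⟨0, fun b => ?_⟩
        have := Rg.assoc ha (hn b)
        simpa using this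
      · obtain ⟨m, hm⟩ := ht h hh
        refine ⟨m, fun b => ?_⟩
        have := Rg.add hh (hm b) (Rg.frac (key h hh ha) n (pderiv b p))
        have e : t b + (n : FractionRing (MvPolynomial σ ℂ)) * (io (pderiv b p) / io p)
            + m * (io (pderiv b h) / io h)
            = t b + m * (io (pderiv b h) / io h) + n * (io (pderiv b p) / io p) := by ring
        rw [e]
        exact this
    have hB : ∀ h : MvPolynomial σ ℂ, Prime h → ¬ h ∣ s → ∀ b,
        Rg h (t b + n * (io (pderiv b p) / io p)) := by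
      intro h hh hns b
      by_cases ha : Associated h p
      · exact Rg.assoc ha (hn b)
      · have hnd : ¬ h ∣ p * s := fun hd => by
          rcases hh.dvd_or_dvd hd with h1 | h1
          · exact key h hh ha h1
          · exact hns h1
        exact Rg.add hh (hr h hh hnd b) (Rg.frac (key h hh ha) n (pderiv b p))
    obtain ⟨g, hg0, hg⟩ := ih hs0 (fun b => t b + n * (io (pderiv b p) / io p)) hA hB
    refine ⟨g * p ^ n, mul_ne_zero hg0 (pow_ne_zero _ hp.ne_zero), fun b => ?_⟩
    obtain ⟨cb, hcb⟩ := hg b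
    refine ⟨cb, ?_⟩
    rw [← hcb]
    have h1 : io p ≠ 0 := io_ne hp.ne_zero
    have h2 : io g ≠ 0 := io_ne hg0
    have h3 : io (pderiv b (g * p ^ n)) / io (g * p ^ n)
        = n * (io (pderiv b p) / io p) + io (pderiv b g) / io g := by
      rcases Nat.eq_zero_or_pos n with h0 | h0
      · subst h0
        simp
      · obtain ⟨k, rfl⟩ : ∃ k, n = k + 1 := ⟨n - 1, by omega⟩
        simp only [io] at h1 h2 ⊢
        rw [pderiv_mul, pderiv_pow]
        simp only [map_add, map_mul, map_pow, map_natCast, Nat.add_sub_cancel]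
        field_simp
        ring
    rw [h3, ← add_assoc]

/-- the coefficients of `X_b ∂_b g` -/
theorem coeff_eu (g : MvPolynomial σ ℂ) (b : σ) (d : σ →₀ ℕ) :
    coeff d (X b * pderiv b g) = (d b : ℂ) * coeff d g := by
  classical
  rw [coeff_X_mul']
  split_ifs with h
  · rw [coeff_pderiv]
    have h1 : 1 ≤ d b := Nat.one_le_iff_ne_zero.2 (Finsupp.mem_support_iff.1 h)
    have h2 : d - Finsupp.single b 1 + Finsupp.single b 1 = d :=
      tsub_add_cancel_of_le (Finsupp.single_le_iff.2 h1)
    rw [h2, mul_comm]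
    congr 1
    have : (d - Finsupp.single b 1 : σ →₀ ℕ) b = d b - 1 := by simp
    rw [this, Nat.cast_sub h1]
    push_cast
    ring
  · have : d b = 0 := by
      by_contra h0
      exact h (Finsupp.mem_support_iff.2 h0)
    simp [this]

/-- the coefficient at a monomial of least degree -/
theorem lowest (g q : MvPolynomial σ ℂ) (d : σ →₀ ℕ) (hd : ∀ f, f.degree < d.degree → coeff f g = 0) :
    coeff d (q * g) = coeff 0 q * coeff d g := by
  classical
  rw [coeff_mul]
  rw [Finset.sum_eq_single (0, d)]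
  · rintro ⟨e, f⟩ hef hne
    rw [Finset.HasAntidiagonal.mem_antidiagonal] at hef
    simp only at hef
    have he : e ≠ 0 := by
      intro h0
      apply hne
      rw [h0, zero_add] at hef
      rw [h0, hef]
    have hdeg : e.degree + f.degree = d.degree := by
      rw [← hef, map_add]
    have : 0 < e.degree := by
      rcases Nat.eq_zero_or_pos e.degree with h0 | h0
      · exact absurd ((Finsupp.degree_eq_zero_iff e).1 h0) he
      · exact h0
    simp only
    rw [hd f (by omega), mul_zero]
  · intro h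
    exact absurd (Finset.HasAntidiagonal.mem_antidiagonal.2 (by simp)) h

end LOGM

open LOGM in
theorem specLOG : SpecLOG := by
  classical
  intro σ _ t c ht hc
  obtain ⟨⟨s, hs⟩, hst⟩ := IsLocalization.exist_integer_multiples_of_finite
    (nonZeroDivisors (MvPolynomial σ ℂ)) t
  have hs0 : s ≠ 0 := nonZeroDivisors.ne_zero hs
  obtain ⟨g, hg0, hg⟩ := exists_g s hs0 t (fun h hh => by
      obtain ⟨n, hn⟩ := ht h hh
      exact ⟨n, fun b => hn b⟩) (fun h hh hnd b => by
      obtain ⟨r, hr⟩ := hst b
      refine ⟨r, s, hnd, ?_⟩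
      have e0 : io r = io s * t b := by
        rw [← Algebra.smul_def]
        exact hr
      rw [e0, mul_comm])
  choose cb hcb using hg
  have hg' : io g ≠ 0 := io_ne hg0
  -- the Euler equation
  have e1 : (∑ b, X b * pderiv b g) = ((∑ b, X b * cb b) - C c) * g := by
    apply io_inj
    have e2 : (∑ b, io (X b) * (io (cb b) * io g)) = io (C c) * io g + ∑ b, io (X b) * io (pderiv b g) := by
      have hc' : (∑ b, io (X b) * t b) = io (C c) := hc
      rw [← hc', Finset.sum_mul, ← Finset.sum_add_distrib]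
      refine Finset.sum_congr rfl fun b _ => ?_
      rw [← hcb b]
      field_simp
    simp only [io, map_sum, map_mul, map_sub] at e2 ⊢
    rw [sub_mul, eq_sub_iff_add_eq, add_comm, ← e2, Finset.sum_mul]
    exact Finset.sum_congr rfl fun b _ => by ring
  -- a monomial of least degree
  obtain ⟨d, hd, hmin⟩ := Finset.exists_min_image g.support (fun f => f.degree)
    (MvPolynomial.support_nonempty.2 hg0)
  have hdg : coeff d g ≠ 0 := mem_support_iff.1 hd
  have hlow : ∀ f : σ →₀ ℕ, f.degree < d.degree → coeff f g = 0 := fun f hf => by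
    by_contra h0
    exact absurd (hmin f (mem_support_iff.2 h0)) (not_le.2 hf)
  have e3 := congrArg (coeff d) e1
  rw [lowest g _ d hlow, coeff_sum] at e3
  have e4 : ∑ b, coeff d (X b * pderiv b g) = (d.degree : ℂ) * coeff d g := by
    rw [Finset.sum_congr rfl fun b _ => coeff_eu g b d, ← Finset.sum_mul]
    congr 1
    rw [Finsupp.degree_eq_sum]
    push_cast
    rfl
  rw [e4] at e3
  have e5 : coeff 0 ((∑ b, X b * cb b) - C c) = - c := by
    rw [coeff_sub, coeff_sum, coeff_C, if_pos rfl, Finset.sum_eq_zero, zero_sub]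
    intro b _
    rw [coeff_X_mul', if_neg]
    simp
  rw [e5] at e3
  have e6 : (d.degree : ℂ) = - c := mul_right_cancel₀ hdg e3
  refine ⟨-(d.degree : ℝ), ?_, by simp⟩
  push_cast
  rw [e6, neg_neg]

end Pool.Agent.Lib.MPc9b009.OD
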