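import Pool.Agent.Lib.MP_c9b009_ag.OD.Spec

/-!
# MP_c9b009_ag, row OD, module MAN: the main theorem from the other modules
-/

set_option autoImplicit false

namespace Pool.Agent.Lib.MPc9b009.OD

open MvPolynomial Pool.Agent.Lib.MPc9b009.B5

namespace MANM

theorem hom_mI {N : ℕ} (k : ℕ) (g : Biv N) : Hom (mI k g) := CUTM.hom_span _ (by
    rintro _ ⟨a, b, rfl⟩
    exact ⟨_, CUTM.det_hom _ (fun _ _ => g.quad _ _)⟩)

theorem fo_hom {N : ℕ} (hN : 4 ≤ N) {g : Biv N} {P : Fin N → Fin N → MvPolynomial (Fin N) ℂ}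
    (h : Om g P) (j : Fin N) : (fo P j).IsHomogeneous (N - 1) := by
  unfold fo
  refine IsHomogeneous.sum _ _ _ fun i _ => ?_
  have h1 := (isHomogeneous_X ℂ i).mul (h.hom i j)
  have e : 1 + (N - 2) = N - 1 := by omega
  rwa [e] at h1

theorem hom_Jf {N : ℕ} (hN : 4 ≤ N) {g : Biv N} {P : Fin N → Fin N → MvPolynomial (Fin N) ℂ}
    (h : Om g P) : Hom (Jf P) := CUTM.hom_span _ (by
    rintro _ ⟨j, rfl⟩
    exact ⟨_, fo_hom hN h j⟩)

theorem sum_x_fo {N : ℕ} {g : Biv N} {P : Fin N → Fin N → MvPolynomial (Fin N) ℂ}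
    (h : Om g P) : ∑ i, X i * fo P i = 0 := by
  unfold fo
  have h1 : ∑ i, X i * ∑ k, X k * P k i = ∑ i, ∑ k, (X i * X k) * P k i :=
    Finset.sum_congr rfl fun i _ => by
      rw [Finset.mul_sum]
      exact Finset.sum_congr rfl fun k _ => by ring
  have h2 : ∑ i, ∑ k, (X i * X k : MvPolynomial (Fin N) ℂ) * P k i
      = - ∑ i, ∑ k, (X i * X k) * P k i := by
    conv_lhs => rw [Finset.sum_comm]
    rw [← Finset.sum_neg_distrib]
    refine Finset.sum_congr rfl fun i _ => ?_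
    rw [← Finset.sum_neg_distrib]
    refine Finset.sum_congr rfl fun k _ => ?_
    rw [h.skew k i]
    ring
  rw [h1]
  have h3 := eq_neg_iff_add_eq_zero.1 h2
  have h4 : (2 : MvPolynomial (Fin N) ℂ) * ∑ i, ∑ k, (X i * X k) * P k i = 0 := by
    rw [two_mul]; exact h3
  rcases mul_eq_zero.1 h4 with h5 | h5
  · exact absurd h5 two_ne_zero
  · exact h5

theorem g_fo {N : ℕ} {g : Biv N} {P : Fin N → Fin N → MvPolynomial (Fin N) ℂ}
    (h : Om g P) (a : Fin N) : ∑ j, g.f a j * fo P j = 0 := by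
  unfold fo
  have h1 : ∑ j, g.f a j * ∑ i, X i * P i j = ∑ i, X i * ∑ j, g.f a j * P i j := by
    simp only [Finset.mul_sum]
    rw [Finset.sum_comm]
    refine Finset.sum_congr rfl fun i _ => Finset.sum_congr rfl fun j _ => by ring
  rw [h1]
  refine Finset.sum_eq_zero fun i _ => ?_
  have h2 : ∑ j, g.f a j * P i j = - ∑ j, g.f a j * P j i := by
    rw [← Finset.sum_neg_distrib]
    refine Finset.sum_congr rfl fun j _ => ?_
    rw [h.skew j i]
    ring
  rw [h2, h.ker, neg_zero, mul_zero]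

/-- a prime with `Q ∩ ℂ[l] = 0` has transcendence degree `≥ 2`. -/
theorem two_le {Q : Ideal S4} (hQ : Q.IsPrime) (l : Fin 2 → S4)
    (h : ∀ c : MvPolynomial (Fin 2) ℂ, aeval l c ∈ Q → c = 0) :
    ((2 : ℕ) : Cardinal) ≤ Algebra.trdeg ℂ (S4 ⧸ Q) := by
  have hai : AlgebraicIndependent ℂ (fun j => Ideal.Quotient.mk Q (l j)) := by
    rw [algebraicIndependent_iff]
    intro c hc
    apply h
    rw [← Ideal.Quotient.eq_zero_iff_mem]
    have e : aeval (fun j => Ideal.Quotient.mk Q (l j)) c = Ideal.Quotient.mkₐ ℂ Q (aeval l c) := by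
      have := MvPolynomial.comp_aeval_apply (R := ℂ) (f := l) (φ := Ideal.Quotient.mkₐ ℂ Q) c
      exact this.symm
    rw [e] at hc
    exact hc
  have := hai.cardinalMk_le_trdeg
  rwa [Cardinal.mk_fin] at this

/-- such a prime is a minimal prime of `J` if `Dle J 2`. -/
theorem minimal {J Q : Ideal S4} (hMONO : SpecMONO) (hJ : Dle J 2) (hQ : Q.IsPrime) (hJQ : J ≤ Q)
    (h2 : ((2 : ℕ) : Cardinal) ≤ Algebra.trdeg ℂ (S4 ⧸ Q)) : Q ∈ J.minimalPrimes := by
  obtain ⟨p, hp, hpQ⟩ := Ideal.exists_minimalPrimes_le hJQ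
  rcases eq_or_lt_of_le hpQ with h | h
  · rw [← h]; exact hp
  · exfalso
    have h3 := hMONO 4 p Q hp.1.1 hQ h
    have h4 := hJ p hp.1.1 hp.1.2
    have h5 := (add_le_add_left h2 1).trans (h3.trans h4)
    have h6 : ((2 + 1 : ℕ) : Cardinal) ≤ ((2 : ℕ) : Cardinal) := by
      rw [Nat.cast_add, Nat.cast_one]
      exact h5
    have h7 := Nat.cast_le.1 h6
    omega

theorem map_Jf {N : ℕ} (u : Fin 4 → Fin N → ℂ) (P : Fin N → Fin N → MvPolynomial (Fin N) ℂ) :
    Ideal.map (CUTM.Phi u) (Jf P) = Ideal.span (Set.range fun i => CUTM.Phi u (fo P i)) := by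
  unfold Jf
  rw [Ideal.map_span, ← Set.range_comp]
  rfl

theorem Phi_C {N : ℕ} (u : Fin 4 → Fin N → ℂ) (c : ℂ) : CUTM.Phi u (C c) = C c := by
  have := (CUTM.Phi u).commutes c
  exact this

theorem Phi_Puv {N : ℕ} (u : Fin 4 → Fin N → ℂ) (P : Fin N → Fin N → MvPolynomial (Fin N) ℂ)
    (a b : Fin N → ℂ) : CUTM.Phi u (Puv P a b)
      = ∑ i, ∑ j, C (a i) * C (b j) * CUTM.Phi u (P i j) := by
  unfold Puv
  simp only [map_sum, map_mul, Phi_C]

/-- the numerical contradiction -/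
theorem arith (m K K' : ℤ) (hm : 2 ≤ m)
    (h : ∀ a : ℕ, (16 * m ^ 2 - 4) * (a : ℤ) - K ≤ 12 * (m ^ 2 * ((a : ℤ) + 1) + K')) : False := by
  have h1 := h ((K + 12 * m ^ 2 + 12 * K').natAbs + 1)
  have h2 : K + 12 * m ^ 2 + 12 * K' ≤ ((K + 12 * m ^ 2 + 12 * K').natAbs : ℤ) := Int.le_natAbs
  push_cast at h1
  set t : ℤ := |K + 12 * m ^ 2 + 12 * K'| with ht
  have h2' : K + 12 * m ^ 2 + 12 * K' ≤ t := by rw [ht]; exact le_abs_self _
  have h3 : 0 ≤ t := abs_nonneg _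
  have h4 : 4 ≤ m ^ 2 := by nlinarith
  nlinarith

end MANM

open MANM in
/-- **MAN** -/
theorem specMAN (hPRI : SpecPRI) (hLIE : SpecLIE) (hCLO : SpecCLO) (hHC1 : SpecHC1)
    (hCOD : SpecCOD) (hUSL : SpecUSL) (hRES : SpecRES) (hCNX : SpecCNX) (hHIL : SpecHIL)
    (hPQL : SpecPQL) (hUVL : SpecUVL) (hFRM : SpecFRM) (hFLD : SpecFLD) (hJTR : SpecJTR)
    (hRST : SpecRST) (hBBX : SpecBBX) (hRK0 : SpecRK0) (hEVB : SpecEVB) (hRNK : SpecRNK)
    (hMONO : SpecMONO) (hHMIN : SpecHMIN) : SpecMAN := by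
  intro N g hev hN hjac hdiv hdet hD
  obtain ⟨P, hP⟩ := hPRI N g hev hN hdet hD
  have hG : Geo g P := hCLO N g P hev hN hP (hLIE N g P hev hN hjac hdiv hP)
  have hcop := hHC1 N g P hev hN hG hD
  have hJd : Dle (Jf P) (N - 2) := hCOD N N (fo P) (by omega) hcop
  obtain ⟨u, hu, hu1, hu2, -⟩ := hUSL N 0 (mI (N - 3) g) (Jf P) 1 hN (hom_mI _ g)
    (hom_Jf hN hP) hD hJd one_ne_zero (isHomogeneous_one _ _)
  obtain ⟨hr1, hr2, hr3, hr4⟩ := hRES N g P u hev hN hP hu hu1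
  set F : Fin N → S4 := fun i => CUTM.Phi u (fo P i) with hF
  set A : Matrix (Fin N) (Fin N) S4 := Matrix.of fun i j => CUTM.Phi u (g.f i j) with hA
  set T : Matrix (Fin N) (Fin N) S4 := Matrix.of fun i j => CUTM.Phi u (P i j) with hT
  have hmap : Ideal.map (CUTM.Phi u) (Jf P) = Ideal.span (Set.range F) := map_Jf u P
  have hJ2 : Dle (Ideal.span (Set.range F)) 2 := by rw [← hmap]; exact hu2
  have hFh : ∀ i, (F i).IsHomogeneous (N - 1) := fun i => CUTM.Phi_hom u (fo_hom hN hP i)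
  have hAs : ∀ i j, A j i = - A i j := by
    intro i j
    show CUTM.Phi u (g.f j i) = - CUTM.Phi u (g.f i j)
    rw [g.skew i j, map_neg]
  have hAh : ∀ i j, (A i j).IsHomogeneous 2 := fun i j => CUTM.Phi_hom u (g.quad i j)
  have hTs : ∀ i j, T j i = - T i j := by
    intro i j
    show CUTM.Phi u (P j i) = - CUTM.Phi u (P i j)
    rw [hP.skew i j, map_neg]
  have hTh : ∀ i j, (T i j).IsHomogeneous (N - 2) := fun i j => CUTM.Phi_hom u (hP.hom i j)
  have hAT : A * T = 0 := by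
    refine Matrix.ext fun i j => ?_
    rw [Matrix.mul_apply, Matrix.zero_apply]
    show ∑ k, CUTM.Phi u (g.f i k) * CUTM.Phi u (P k j) = 0
    have := congrArg (CUTM.Phi u) (hP.ker i j)
    rw [map_sum, map_zero] at this
    rw [← this]
    exact Finset.sum_congr rfl fun k _ => (map_mul _ _ _).symm
  have hT0 : T ≠ 0 := by
    intro h0
    obtain ⟨i, j, hij⟩ := hr1 (fun _ => 1) (by
      intro h
      have := congrFun h 0
      exact one_ne_zero this)
    apply hij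
    have h1 : T i j = 0 := by rw [h0]; rfl
    have h2 : CUTM.Phi u (P i j) = 0 := h1
    rw [h2, map_zero]
  have hTp : ∀ i j k l, T i j * T k l - T i k * T j l + T i l * T j k = 0 := by
    intro i j k l
    show CUTM.Phi u (P i j) * CUTM.Phi u (P k l) - CUTM.Phi u (P i k) * CUTM.Phi u (P j l)
      + CUTM.Phi u (P i l) * CUTM.Phi u (P j k) = 0
    have := congrArg (CUTM.Phi u) (hP.plu i j k l)
    rw [map_zero, map_add, map_sub, map_mul, map_mul, map_mul] at this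
    exact this
  have hF0 : ∃ j, F j ≠ 0 := by
    by_contra hcon
    push Not at hcon
    have h0 : Ideal.span (Set.range F) ≤ (⊥ : Ideal S4) := by
      rw [Ideal.span_le]
      rintro _ ⟨j, rfl⟩
      rw [hcon j]
      exact Ideal.zero_mem _
    have h1 := hJ2 ⊥ Ideal.isPrime_bot h0
    have h2 := (THAM.trdeg_bot (N := 4) (k := 4) le_rfl).trans h1
    have h3 := Nat.cast_le.1 h2
    omega
  -- lower bound for the Hilbert function
  obtain ⟨a₀, hrec⟩ := hCNX N (N - 2) A T hev hAs hAh hr4 hr2 hTs hTh hAT hT0 hr3 hTp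
  obtain ⟨K, hK⟩ := hHIL N 0 (N - 1) a₀ A T (fun i => CUTM.Phi u (X i)) F 1 hev hN (by omega) hAh
    hAT hTh (fun i => CUTM.Phi_hom u (isHomogeneous_X ℂ i)) hFh (isHomogeneous_one _ _) one_ne_zero
    hF0 (by
      intro j
      rw [one_mul]
      show CUTM.Phi u (fo P j) = ∑ i, CUTM.Phi u (X i) * CUTM.Phi u (P i j)
      unfold fo
      rw [map_sum]
      exact Finset.sum_congr rfl fun k _ => map_mul _ _ _)
    (by
      have := congrArg (CUTM.Phi u) (sum_x_fo hP)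
      rw [map_sum, map_zero] at this
      rw [← this]
      exact Finset.sum_congr rfl fun k _ => (map_mul _ _ _).symm)
    (by
      funext i
      show ∑ j, CUTM.Phi u (g.f i j) * CUTM.Phi u (fo P j) = 0
      have := congrArg (CUTM.Phi u) (g_fo hP i)
      rw [map_sum, map_zero] at this
      rw [← this]
      exact Finset.sum_congr rfl fun k _ => (map_mul _ _ _).symm)
    (by
      intro a ha
      have := hrec a ha
      have e : a + 2 + (N - 2) = a + N := by omega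
      rw [e] at this
      exact this)
  -- the choice of `a, b, l`
  obtain ⟨a, b, l, hl, hQ0, hq2, hQ3⟩ := hUVL N (N - 1) F (fun i j => CUTM.Phi u (P i j)) (by omega)
    hFh hJ2 (by
      intro Q hQ hQh hFQ h2
      refine (hPQL N g P hev hN hG hD hJd u hr1 Q hQ hQh ?_ h2).1
      rw [hmap, Ideal.span_le]
      rintro _ ⟨j, rfl⟩
      exact hFQ j)
  set q : Fin 2 → S4 := ![∑ i, C (a i) * F i, ∑ i, C (b i) * F i] with hqdef
  have hq0 : q 0 = ∑ i, C (a i) * F i := rfl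
  have hq1 : q 1 = ∑ i, C (b i) * F i := rfl
  have hqh : ∀ i, (q i).IsHomogeneous (N - 1) := by
    have key : ∀ c : Fin N → ℂ, (∑ i, C (c i) * F i).IsHomogeneous (N - 1) := by
      intro c
      refine IsHomogeneous.sum _ _ _ fun i _ => ?_
      have := (isHomogeneous_C (Fin 4) (c i)).mul (hFh i)
      rwa [zero_add] at this
    intro i
    fin_cases i
    · exact key a
    · exact key b
  have hqJ : ∀ i, q i ∈ Ideal.span (Set.range F) := by
    have key : ∀ c : Fin N → ℂ, (∑ i, C (c i) * F i) ∈ Ideal.span (Set.range F) := by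
      intro c
      exact Submodule.sum_mem _ fun i _ => Ideal.mul_mem_left _ _
        (Ideal.subset_span ⟨i, rfl⟩)
    intro i
    fin_cases i
    · exact key a
    · exact key b
  obtain ⟨hai, hint, hq00, hreg⟩ := hFRM (N - 1) q l (by omega) hqh hl
    (fun Q hQ hQh h1 h2 => hQ0 Q hQ hQh (h1 0) (h1 1) h2) hq2
  obtain ⟨L, i1, i2, i3, i4, i5, hstd⟩ := hFLD q l hai hint
  obtain ⟨hjc, htr⟩ := hJTR q l L i1 i2 i3 i4 i5 hstd
  obtain ⟨V, w, hV, hvd, hpuJ, hE2⟩ := hRST N g P hev hG u a b q l hq0 hq1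
  obtain ⟨T1, hT1⟩ := htr (vd V l)
  have hbb := hBBX (N - 1) q l (by omega) hqh hl L i1 i2 i3 i4 i5 hstd hjc htr V T1 hV hT1
  have hrk := hRK0 (N - 1) q l (by omega) hqh hl hai L i1 i2 i3 i4 i5 hstd
  rw [hmap] at hpuJ hE2
  rw [hvd] at hT1
  obtain ⟨m, hm⟩ : ∃ m, N = 2 * m := by
    obtain ⟨m, hm⟩ := hev
    exact ⟨m, by omega⟩
  have hNr : (N : ℝ) = 2 * (m : ℝ) := by rw [hm]; push_cast; ring
  have hm2 : 2 ≤ m := by omega
  have hmr : (2 : ℝ) ≤ (m : ℝ) := by exact_mod_cast hm2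
  obtain ⟨r, hr, hfam⟩ := hEVB q l hq00 hreg L i1 i2 i3 i4 i5 hstd (Ideal.span (Set.range F))
    (CUTM.Phi u (Puv P a b)) w (CUTM.Phi u (duv P a b)) (jc q l) ((m : ℝ) ^ 2) (by positivity)
    hjc (hqJ 0) (hqJ 1) hpuJ hE2 (by
      intro Q hQ hJQ hc
      have h2 := two_le hQ l hc
      have hmin := minimal hMONO hJ2 hQ hJQ h2
      have hQh : Hom Q := hHMIN 4 _ (CUTM.hom_span _ (by
        rintro _ ⟨j, rfl⟩
        exact ⟨_, hFh j⟩)) Q hmin
      have hFQ : ∀ i, F i ∈ Q := fun i => hJQ (Ideal.subset_span ⟨i, rfl⟩)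
      refine ⟨?_, ?_⟩
      · have := hQ3 Q hQ hQh hFQ h2
        rw [Phi_Puv]
        exact this
      · obtain ⟨δ, h3, h4, h5⟩ := (hPQL N g P hev hN hG hD hJd u hr1 Q hQ hQh
          (by rw [hmap]; exact hJQ) h2).2
        refine ⟨δ, h3, ?_, h5 a b⟩
        rw [hNr] at h4
        nlinarith) htr T1 hT1
  -- `r ≤ 1`
  have hr1' : r ≤ 1 := by
    rw [hr] at hbb
    have h1 : r * ((N - 1 : ℕ) : ℝ) ^ 2 = (Module.finrank (FractionRing R4) L : ℝ) := by
      exact_mod_cast hbb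
    have h2 : (Module.finrank (FractionRing R4) L : ℝ) ≤ ((N - 1 : ℕ) : ℝ) ^ 2 := by
      exact_mod_cast hrk
    have h3 : (0 : ℝ) < ((N - 1 : ℕ) : ℝ) ^ 2 := by
      have : 0 < N - 1 := by omega
      positivity
    by_contra hcon
    push Not at hcon
    nlinarith
  obtain ⟨K', hK'⟩ := hRNK (Ideal.span (Set.range F)) l (m ^ 2) (CUTM.hom_span _ (by
      rintro _ ⟨j, rfl⟩
      exact ⟨_, hFh j⟩)) hl (fun Q hQ hQh hJQ hlQ => hQ0 Q hQ hQh (hJQ (hqJ 0)) (hJQ (hqJ 1)) hlQ)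
    (by
      intro n mm hmm
      have h1 := hfam n mm hmm
      have h2 : (n : ℝ) ≤ ((m ^ 2 : ℕ) : ℝ) := by
        push_cast
        nlinarith [sq_nonneg (m : ℝ)]
      exact_mod_cast h2)
  refine arith (m : ℤ) K (K' : ℤ) (by exact_mod_cast hm2) fun t => ?_
  have h1 := hK t
  have h2 := hK' t
  have h3 : (12 * (hq (Ideal.span (Set.range F)) t : ℤ)) ≤ 12 * ((m : ℤ) ^ 2 * ((t : ℤ) + 1) + K') := by
    have : ((hq (Ideal.span (Set.range F)) t : ℕ) : ℤ) ≤ ((m ^ 2 * (t + 1) + K' : ℕ) : ℤ) := by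
      exact_mod_cast h2
    push_cast at this
    linarith
  refine le_trans (le_trans (le_of_eq ?_) h1) h3
  rw [hm]
  push_cast
  ring

end Pool.Agent.Lib.MPc9b009.OD
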