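import Pool.Agent.Lib.MP_c9b009_ag.OD.Spec

/-!
# MP_c9b009_ag, row OD, module PLC
-/

set_option autoImplicit false

namespace Pool.Agent.Lib.MPc9b009.OD

open MvPolynomial Pool.Agent.Lib.MPc9b009.B5

namespace PLCM

/-- The prime of a valuation. -/
noncomputable def qv {N : ℕ} {L : Type} [Field L] [Algebra ℂ L]
    (br : MvPolynomial (Fin N) ℂ →ₐ[ℂ] L) (v : Valuation L (WithZero (Multiplicative ℤ)))
    (hv : ∀ z, v (br z) ≤ 1) : Ideal (MvPolynomial (Fin N) ℂ) where
  carrier := {z | v (br z) < 1}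
  add_mem' := by
    intro a b ha hb
    simp only [Set.mem_setOf_eq, map_add] at ha hb ⊢
    exact lt_of_le_of_lt (v.map_add _ _) (max_lt ha hb)
  zero_mem' := by simp
  smul_mem' := by
    intro c z hz
    simp only [Set.mem_setOf_eq, smul_eq_mul, map_mul] at hz ⊢
    calc v (br c) * v (br z) ≤ 1 * v (br z) := mul_le_mul_left (hv c) _
      _ = v (br z) := one_mul _
      _ < 1 := hz

theorem mem_qv {N : ℕ} {L : Type} [Field L] [Algebra ℂ L]
    (br : MvPolynomial (Fin N) ℂ →ₐ[ℂ] L) (v : Valuation L (WithZero (Multiplicative ℤ)))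
    (hv : ∀ z, v (br z) ≤ 1) (z : MvPolynomial (Fin N) ℂ) : z ∈ qv br v hv ↔ v (br z) < 1 :=
  Iff.rfl

theorem qv_prime {N : ℕ} {L : Type} [Field L] [Algebra ℂ L]
    (br : MvPolynomial (Fin N) ℂ →ₐ[ℂ] L) (v : Valuation L (WithZero (Multiplicative ℤ)))
    (hv : ∀ z, v (br z) ≤ 1) : (qv br v hv).IsPrime := by
  refine ⟨?_, ?_⟩
  · rw [Ideal.ne_top_iff_one, mem_qv]
    simp
  · intro a b hab
    rw [mem_qv, map_mul, map_mul] at hab
    rw [mem_qv, mem_qv]
    by_contra hc
    push Not at hc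
    have ha := le_antisymm (hv a) hc.1
    have hb := le_antisymm (hv b) hc.2
    rw [ha, hb, one_mul] at hab
    exact lt_irrefl _ hab

/-- A prime element of the polynomial ring contains a variable. -/
theorem exists_var {n : ℕ} (h : MvPolynomial (Fin n) ℂ) (hh : Prime h) :
    ∃ k : Fin n, h.degreeOf k ≠ 0 := by
  by_contra hc
  push Not at hc
  have h1 : h.vars = ∅ := by
    rw [Finset.eq_empty_iff_forall_notMem]
    intro k hk
    exact mem_vars_iff_degreeOf_ne_zero.1 hk (hc k)
  rw [vars_eq_empty_iff_eq_C] at h1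
  have h2 : h.coeff 0 ≠ 0 := by
    intro h3
    rw [h3, map_zero] at h1
    exact hh.ne_zero h1
  apply hh.not_unit
  rw [h1]
  exact (IsUnit.mk0 _ h2).map C

/-- The transcendence degree over a prime of the normalization. -/
theorem trdeg_ge {n N : ℕ} (q : Ideal (MvPolynomial (Fin N) ℂ)) (hq : q.IsPrime)
    (y : Fin n → MvPolynomial (Fin N) ℂ) (h : MvPolynomial (Fin n) ℂ) (hh : Prime h)
    (hy : ∀ r : MvPolynomial (Fin n) ℂ, aeval y r ∈ q → h ∣ r) :
    ((n - 1 : ℕ) : Cardinal) ≤ Algebra.trdeg ℂ (MvPolynomial (Fin N) ℂ ⧸ q) := by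
  classical
  obtain ⟨k, hk⟩ := exists_var h hh
  have hind : AlgebraicIndependent ℂ
      (fun b : {b : Fin n // b ≠ k} => Ideal.Quotient.mk q (y b.1)) := by
    rw [algebraicIndependent_iff]
    intro F hF
    have h1 : aeval (fun b : {b : Fin n // b ≠ k} => Ideal.Quotient.mk q (y b.1)) F
        = Ideal.Quotient.mk q (aeval y (rename Subtype.val F)) := by
      rw [aeval_rename]
      have h2 : (aeval (fun b : {b : Fin n // b ≠ k} => Ideal.Quotient.mk q (y b.1)) :
          MvPolynomial {b : Fin n // b ≠ k} ℂ →ₐ[ℂ] MvPolynomial (Fin N) ℂ ⧸ q)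
          = (Ideal.Quotient.mkₐ ℂ q).comp (aeval (y ∘ Subtype.val)) := by
        apply MvPolynomial.algHom_ext
        intro b
        simp
      rw [h2]
      rfl
    rw [h1, Ideal.Quotient.eq_zero_iff_mem] at hF
    have h3 := hy _ hF
    obtain ⟨g, hg⟩ := h3
    by_contra hF0
    have hG0 : rename (Subtype.val : {b : Fin n // b ≠ k} → Fin n) F ≠ 0 := by
      intro h4
      exact hF0 ((rename_injective _ Subtype.val_injective) (by rw [h4, map_zero]))
    have hg0 : g ≠ 0 := by
      rintro rfl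
      rw [mul_zero] at hg
      exact hG0 hg
    have h5 : (rename (Subtype.val : {b : Fin n // b ≠ k} → Fin n) F).degreeOf k = 0 := by
      by_contra h6
      have h7 := mem_vars_iff_degreeOf_ne_zero.2 h6
      obtain ⟨b, _, hb⟩ := mem_vars_rename _ _ h7
      exact b.2 hb
    rw [hg, degreeOf_mul_eq hh.ne_zero hg0] at h5
    omega
  have := hind.cardinalMk_le_trdeg
  refine le_trans (le_of_eq ?_) this
  rw [Cardinal.mk_fintype]
  congr 1
  have hcard : Fintype.card {b : Fin n // b ≠ k} = n - 1 := by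
    rw [Fintype.card_subtype_compl, Fintype.card_fin, Fintype.card_subtype_eq]
  exact hcard.symm

theorem det_zero {N : ℕ} {g : Biv N} {P : Fin N → Fin N → MvPolynomial (Fin N) ℂ} (hO : Om g P) :
    (Matrix.of g.f).det = 0 := by
  have hP : ∃ i j, P i j ≠ 0 := by
    by_contra hc
    push Not at hc
    have := hO.prim 0 (fun i j => by rw [hc i j])
    simp at this
  obtain ⟨i, j, hij⟩ := hP
  refine Matrix.exists_mulVec_eq_zero_iff.1 ⟨fun l => P l j, ?_, ?_⟩
  · intro h
    exact hij (congrFun h i)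
  · funext a
    exact hO.ker a j

end PLCM

theorem specPLC (hPRK : SpecPRK) : SpecPLC := by
  classical
  intro N g P hN hN4 hO hD L _ _ _ _ br y hy h hh v hv hvh
  set q := PLCM.qv br v hv with hq
  have hqp : q.IsPrime := PLCM.qv_prime br v hv
  -- the transcendence degree
  have hbr : ∀ r : MvPolynomial (Fin (N - 2)) ℂ, br (aeval y r) = algebraMap _ L r := by
    intro r
    have h1 : br.comp (aeval y) = IsScalarTower.toAlgHom ℂ (MvPolynomial (Fin (N - 2)) ℂ) L := by
      apply MvPolynomial.algHom_ext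
      intro b
      simp [hy b]
    exact congrArg (fun f => f r) h1
  have htr : ((N - 2 - 1 : ℕ) : Cardinal) ≤ Algebra.trdeg ℂ (MvPolynomial (Fin N) ℂ ⧸ q) := by
    refine PLCM.trdeg_ge q hqp y h hh fun r hr => ?_
    rw [hq, PLCM.mem_qv, hbr, hvh] at hr
    exact hr
  have hnle : ¬ mI (N - 3) g ≤ q := by
    intro hle
    have h1 := htr.trans (hD q hqp hle)
    have h2 : N - 2 - 1 ≤ N - 4 := by exact_mod_cast h1
    omega
  -- some entry is not in `q`
  have hex : ∃ i j, P i j ∉ q := by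
    by_contra hc
    push Not at hc
    apply hnle
    obtain ⟨m, rfl⟩ : ∃ m, N = m + 4 := ⟨N - 4, by omega⟩
    have hdom : IsDomain (MvPolynomial (Fin (m + 4)) ℂ ⧸ q) := Ideal.Quotient.isDomain q
    let F := FractionRing (MvPolynomial (Fin (m + 4)) ℂ ⧸ q)
    let φ : MvPolynomial (Fin (m + 4)) ℂ →+* F :=
      (algebraMap (MvPolynomial (Fin (m + 4)) ℂ ⧸ q) F).comp (Ideal.Quotient.mk q)
    have hφ : ∀ z, φ z = 0 ↔ z ∈ q := by
      intro z
      change algebraMap (MvPolynomial (Fin (m + 4)) ℂ ⧸ q) F (Ideal.Quotient.mk q z) = 0 ↔ _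
      rw [map_eq_zero_iff _ (IsFractionRing.injective _ F), Ideal.Quotient.eq_zero_iff_mem]
    have hchar : CharZero F := by
      refine charZero_of_injective_ringHom (f := φ.comp (C : ℂ →+* MvPolynomial (Fin (m + 4)) ℂ)) ?_
      exact RingHom.injective _
    let A : Matrix (Fin (m + 4)) (Fin (m + 4)) F := (Matrix.of g.f).map φ
    have hskew : ∀ i j, A j i = - A i j := by
      intro i j
      change φ (g.f j i) = - φ (g.f i j)
      rw [g.skew i j, map_neg]
    have hdet : A.det = 0 := by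
      have h1 : A.det = φ (Matrix.of g.f).det := (RingHom.map_det φ (Matrix.of g.f)).symm
      rw [h1, PLCM.det_zero hO, map_zero]
    have hmin : ∀ i j, i ≠ j → (EXAM.mij A i j).det = 0 := by
      intro i j hij
      obtain ⟨c, _, hc2⟩ := hO.minor
      have h1 : (EXAM.mij A i j).det = φ (EXAM.mij (Matrix.of g.f) i j).det :=
        (RingHom.map_det φ (EXAM.mij (Matrix.of g.f) i j)).symm
      rw [h1, hc2 i j hij, hφ]
      exact Ideal.mul_mem_left _ _ (Ideal.pow_mem_of_mem _ (hc i j) 2 (by norm_num))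
    have hrk := hPRK F inferInstance hchar (m + 4) A hN hskew hdet hmin
    have hrk2 : A.rank ≤ m := by omega
    have hall := (specRKM F inferInstance (m + 4) (m + 4) m A).2 hrk2
    rw [mI, Ideal.span_le]
    rintro z ⟨I, J, rfl⟩
    change mnr g.f I J ∈ q
    rw [← hφ]
    have h1 : φ (mnr g.f I J) = (Matrix.of fun a b => A (I a) (J b)).det :=
      RingHom.map_det φ (Matrix.of fun a b => g.f (I a) (J b))
    rw [h1]
    exact hall I J
  obtain ⟨i, j, hij⟩ := hex
  refine ⟨i, j, ?_, ?_⟩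
  · rintro rfl
    apply hij
    have h1 := hO.skew i i
    have h2 : P i i = 0 := self_eq_neg.1 h1
    rw [h2]
    exact q.zero_mem
  · rw [hq, PLCM.mem_qv, not_lt] at hij
    exact le_antisymm (hv _) hij

end Pool.Agent.Lib.MPc9b009.OD
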