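import Pool.Agent.Lib.MP_c9b009_ag.OD.Spec

/-!
# MP_c9b009_ag, row OD, module POS: `δ` is real, `0 < δ ≤ N² / 4`
-/

set_option autoImplicit false

namespace Pool.Agent.Lib.MPc9b009.OD

open MvPolynomial Pool.Agent.Lib.MPc9b009.B5

namespace POSM

/-- Noether normalization, abstract form. -/
theorem noether_abs {N n : ℕ} {A L : Type} [CommRing A] [IsDomain A] [Algebra ℂ A]
    [Field L] [Algebra A L] [IsFractionRing A L] [Algebra ℂ L] [IsScalarTower ℂ A L]
    (φ₀ : MvPolynomial (Fin N) ℂ →ₐ[ℂ] A) (hφ₀ : Function.Surjective φ₀)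
    (y0 : Fin n → MvPolynomial (Fin N) ℂ) (y : Fin n → A) (hy : ∀ j, y j = φ₀ (y0 j))
    (hai : AlgebraicIndependent ℂ y)
    (hint1 : ∀ z : A, IsIntegral (Algebra.adjoin ℂ (Set.range y)) z) :
    ∃ (_ : Algebra (MvPolynomial (Fin n) ℂ) L)
      (_ : Algebra (FractionRing (MvPolynomial (Fin n) ℂ)) L)
      (_ : IsScalarTower (MvPolynomial (Fin n) ℂ) (FractionRing (MvPolynomial (Fin n) ℂ)) L)
      (_ : IsScalarTower ℂ (MvPolynomial (Fin n) ℂ) L)
      (_ : FiniteDimensional (FractionRing (MvPolynomial (Fin n) ℂ)) L)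
      (br : MvPolynomial (Fin N) ℂ →ₐ[ℂ] L),
      (∀ z, br z = 0 ↔ φ₀ z = 0) ∧ (∀ x : L, ∃ z w, br w ≠ 0 ∧ x = br z / br w) ∧
      (∀ b, algebraMap (MvPolynomial (Fin n) ℂ) L (X b) = br (y0 b)) ∧
      (∀ z, IsIntegral (MvPolynomial (Fin n) ℂ) (br z)) := by
  let φ : MvPolynomial (Fin n) ℂ →ₐ[ℂ] A := aeval y
  have hφ : Function.Injective φ := hai
  let iRL : Algebra (MvPolynomial (Fin n) ℂ) L :=
    ((algebraMap A L).comp φ.toRingHom).toAlgebra
  have hRL : ∀ f, algebraMap (MvPolynomial (Fin n) ℂ) L f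
      = algebraMap A L (φ f) := fun _ => rfl
  have hinj : Function.Injective (algebraMap (MvPolynomial (Fin n) ℂ) L) :=
    (IsFractionRing.injective A L).comp hφ
  have iFs : FaithfulSMul (MvPolynomial (Fin n) ℂ) L :=
    (faithfulSMul_iff_algebraMap_injective _ _).2 hinj
  let iFL : Algebra (FractionRing (MvPolynomial (Fin n) ℂ)) L :=
    FractionRing.liftAlgebra (MvPolynomial (Fin n) ℂ) L
  have iT : IsScalarTower (MvPolynomial (Fin n) ℂ)
      (FractionRing (MvPolynomial (Fin n) ℂ)) L :=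
    FractionRing.isScalarTower_liftAlgebra _ L
  have iC : IsScalarTower ℂ (MvPolynomial (Fin n) ℂ) L := by
    apply IsScalarTower.of_algebraMap_eq
    intro a
    rw [hRL]
    have h1 : φ (algebraMap ℂ (MvPolynomial (Fin n) ℂ) a) = algebraMap ℂ A a :=
      φ.commutes a
    rw [h1, ← IsScalarTower.algebraMap_apply ℂ A L]
  have hint' : ∀ z : A, IsIntegral (MvPolynomial (Fin n) ℂ) (algebraMap A L z) := by
    intro z
    obtain ⟨P, hPm, hP⟩ := hint1 z
    have hrange : ∀ b : Algebra.adjoin ℂ (Set.range y), ∃ f : MvPolynomial (Fin n) ℂ,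
        φ f = b := by
      rintro ⟨b, hb⟩
      rw [Algebra.adjoin_range_eq_range_aeval] at hb
      exact hb
    have h2 : φ.toRingHom.IsIntegralElem z := by
      choose g hg using hrange
      refine ⟨?_, ?_, ?_⟩
      · exact (Polynomial.X ^ P.natDegree + ∑ i ∈ Finset.range P.natDegree,
          Polynomial.C (g (P.coeff i)) * Polynomial.X ^ i)
      · apply Polynomial.monic_X_pow_add
        apply (Polynomial.degree_sum_le _ _).trans_lt
        rw [Finset.sup_lt_iff]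
        · intro i hi
          refine lt_of_le_of_lt (Polynomial.degree_C_mul_X_pow_le _ _) ?_
          exact_mod_cast Finset.mem_range.1 hi
        · exact WithBot.bot_lt_coe _
      · have h4 : Polynomial.eval₂ (algebraMap (Algebra.adjoin ℂ (Set.range y)) A) z P = 0 := hP
        rw [Polynomial.eval₂_eq_sum_range, Finset.sum_range_succ,
          Polynomial.Monic.coeff_natDegree hPm, map_one, one_mul] at h4
        rw [Polynomial.eval₂_add, Polynomial.eval₂_X_pow, Polynomial.eval₂_finsetSum, ← h4,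
          add_comm]
        congr 1
        refine Finset.sum_congr rfl fun i _ => ?_
        rw [Polynomial.eval₂_mul, Polynomial.eval₂_C, Polynomial.eval₂_X_pow]
        congr 1
        exact hg (P.coeff i)
    obtain ⟨P', hP'm, hP'⟩ := h2
    refine ⟨P', hP'm, ?_⟩
    have h5 : algebraMap (MvPolynomial (Fin n) ℂ) L =
        (algebraMap A L).comp φ.toRingHom := rfl
    rw [h5, ← Polynomial.hom_eval₂, hP', map_zero]
  have hfd : FiniteDimensional (FractionRing (MvPolynomial (Fin n) ℂ)) L :=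
    BSTM.fin_dim (A := A) (L := L) φ₀ hφ₀ hint'
  let br : MvPolynomial (Fin N) ℂ →ₐ[ℂ] L := (IsScalarTower.toAlgHom ℂ A L).comp φ₀
  have hbre : ∀ z, br z = algebraMap A L (φ₀ z) := fun _ => rfl
  refine ⟨iRL, iFL, iT, iC, hfd, br, ?_, ?_, ?_, ?_⟩
  · intro z
    rw [hbre]
    exact map_eq_zero_iff _ (IsFractionRing.injective A L)
  · intro x
    obtain ⟨a, b, hb, rfl⟩ := IsFractionRing.div_surjective (A := A) x
    obtain ⟨a', rfl⟩ := hφ₀ a
    obtain ⟨b', rfl⟩ := hφ₀ b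
    refine ⟨a', b', ?_, rfl⟩
    rw [hbre]
    intro h
    have h2 := (map_eq_zero_iff _ (IsFractionRing.injective A L)).1 h
    rw [h2] at hb
    exact zero_notMem_nonZeroDivisors hb
  · intro b
    rw [hRL, hbre, ← hy]
    congr 1
    exact aeval_X y _
  · intro z
    exact hint' _

/-- Noether normalization of `S / p0` by linear forms, with all structures. -/
theorem noether {N : ℕ} (p0 : Ideal (MvPolynomial (Fin N) ℂ)) (hp : p0.IsPrime) (hh : Hom p0)
    (hD : Algebra.trdeg ℂ (MvPolynomial (Fin N) ℂ ⧸ p0) = ((N - 2 : ℕ) : Cardinal)) :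
    ∃ (L : Type) (_ : Field L) (_ : Algebra (MvPolynomial (Fin (N - 2)) ℂ) L)
      (_ : Algebra (FractionRing (MvPolynomial (Fin (N - 2)) ℂ)) L)
      (_ : IsScalarTower (MvPolynomial (Fin (N - 2)) ℂ)
        (FractionRing (MvPolynomial (Fin (N - 2)) ℂ)) L)
      (_ : Algebra ℂ L) (_ : IsScalarTower ℂ (MvPolynomial (Fin (N - 2)) ℂ) L)
      (_ : FiniteDimensional (FractionRing (MvPolynomial (Fin (N - 2)) ℂ)) L)
      (br : MvPolynomial (Fin N) ℂ →ₐ[ℂ] L) (y : Fin (N - 2) → MvPolynomial (Fin N) ℂ),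
      (∀ z, br z = 0 ↔ z ∈ p0) ∧ (∀ x : L, ∃ z w, br w ≠ 0 ∧ x = br z / br w) ∧
      (∀ b, (y b).IsHomogeneous 1) ∧
      (∀ b, algebraMap (MvPolynomial (Fin (N - 2)) ℂ) L (X b) = br (y b)) ∧
      (∀ z, IsIntegral (MvPolynomial (Fin (N - 2)) ℂ) (br z)) := by
  have hSOP := specSOP (specSEL specMONO specHMIN) specFINI
  obtain ⟨c, l, hai, hint⟩ := hSOP N 0 (N - 2) p0 hp hh (by rw [hD, Nat.zero_add]) Empty
    inferInstance 1 (fun k => k.elim) le_rfl (fun k => k.elim) (by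
      intro q hq hhq hpq _
      rw [← hD]
      exact trdeg_le_of_surjective (Ideal.Quotient.factorₐ ℂ hpq)
        (Ideal.Quotient.factor_surjective hpq))
  have hdom : IsDomain (MvPolynomial (Fin N) ℂ ⧸ p0) := Ideal.Quotient.isDomain p0
  have hai' : AlgebraicIndependent ℂ (fun j : Fin (N - 2) =>
      Ideal.Quotient.mk p0 (∑ k, C (l j k) * X k)) := hai.comp Sum.inr Sum.inr_injective
  have hint1 : ∀ z : MvPolynomial (Fin N) ℂ ⧸ p0, IsIntegral (Algebra.adjoin ℂ
      (Set.range (fun j : Fin (N - 2) => Ideal.Quotient.mk p0 (∑ k, C (l j k) * X k)))) z := by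
    intro z
    have h1 := hint z
    rw [Set.Sum.elim_range, Set.range_eq_empty, Set.empty_union] at h1
    exact h1
  obtain ⟨iRL, iFL, iT, iC, hfd, br, h1, h2, h3, h4⟩ :=
    noether_abs (L := FractionRing (MvPolynomial (Fin N) ℂ ⧸ p0)) (Ideal.Quotient.mkₐ ℂ p0)
      (Ideal.Quotient.mkₐ_surjective ℂ p0) (fun j => ∑ k, C (l j k) * X k) _ (fun _ => rfl)
      hai' hint1
  refine ⟨FractionRing (MvPolynomial (Fin N) ℂ ⧸ p0), inferInstance, iRL, iFL, iT, inferInstance,
    iC, hfd, br, fun j => ∑ k, C (l j k) * X k, ?_, h2, ?_, h3, h4⟩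
  · intro z
    rw [h1, Ideal.Quotient.mkₐ_eq_mk, Ideal.Quotient.eq_zero_iff_mem]
  · intro b
    apply IsHomogeneous.sum
    intro k _
    have := (isHomogeneous_C (Fin N) (l b k)).mul (isHomogeneous_X ℂ k)
    rwa [zero_add] at this

theorem val_div_le {L : Type} [Field L] (v : Valuation L (WithZero (Multiplicative ℤ))) (x y : L)
    (hx : v x ≤ 1) (hy : v y = 1) : v (x / y) ≤ 1 := by
  rw [map_div₀, hy, div_one]
  exact hx

/-- the eigenvalue `l1` is real and `≥ 1`. -/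
theorem lam_real (hPSC : SpecPSC) (hVAL : SpecVAL) (hLOG : SpecLOG) (hPLC : SpecPLC)
    {N : ℕ} {g : Biv N} {P : Fin N → Fin N → MvPolynomial (Fin N) ℂ} (hNe : Even N)
    (hN : 4 ≤ N) (hG : Geo g P) (hDle : Dle (mI (N - 3) g) (N - 4))
    (p0 : Ideal (MvPolynomial (Fin N) ℂ)) (hp : p0.IsPrime) (hh : Hom p0) (hst : Stab g.f p0)
    (hf : ∀ j, fo P j ∈ p0) (hP : ∃ i j, P i j ∉ p0)
    (hD : Algebra.trdeg ℂ (MvPolynomial (Fin N) ℂ ⧸ p0) = ((N - 2 : ℕ) : Cardinal))
    (δ l1 mu : ℂ) (hs : l1 + mu = N) (hm : l1 * mu = δ) (hne : l1 ≠ mu)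
    (hδ : ∀ i j k l, FF P i k * FF P j l - FF P i l * FF P j k - C δ * (P i j * P k l) ∈ p0) :
    ∃ r : ℝ, l1 = (r : ℂ) ∧ 1 ≤ r := by
  obtain ⟨L, iF, iRL, iFL, iT, iC, iCT, iFD, br, y, hbr, hfr, hy, hX, hint⟩ := noether p0 hp hh hD
  obtain ⟨dd, hdd, hdec⟩ := specDEX (Fin (N - 2)) inferInstance inferInstance L iF iRL iFL iT iC
    iCT iFD
  obtain ⟨θ, a, j0, ha, hsum, hloc⟩ := hPSC N g P hNe hN hG p0 hp hh hst hf hP δ l1 mu hs hm hne hδ
    L iF iRL iC iCT br y dd hbr hfr hy hX hdd hdec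
  have hV := hVAL (Fin (N - 2)) inferInstance inferInstance L iF iRL iFL iT iC iCT iFD dd N
    (fun k => br (X k)) a j0 θ hdd (fun k => hint (X k)) ha (by
      intro h hh v hvi hv
      obtain ⟨p, q, hpq, hvP⟩ := hPLC N g P hNe hN hG.toOm hDle L iF iRL iC iCT br y hX h hh v
        (fun z => hvi _ (hint z)) hv
      have hP0 : br (P p q) ≠ 0 := by
        intro h0
        rw [h0, map_zero] at hvP
        exact zero_ne_one hvP
      have hvP2 : v (br (P p q) ^ 2) = 1 := by rw [map_pow, hvP, one_pow]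
      obtain ⟨h1, h2⟩ := hloc p q hpq hP0
      refine ⟨p, q, fun k => br (P k q) / br (P p q), fun k => br (P p k) / br (P p q),
        fun m l => ga P br p q m l, fun m l => gb P br p q m l, ?_, ?_, h1, h2⟩
      · intro k
        exact ⟨val_div_le v _ _ (hvi _ (hint _)) hvP, val_div_le v _ _ (hvi _ (hint _)) hvP⟩
      · intro m l
        exact ⟨val_div_le v _ _ (hvi _ (hint _)) hvP2, val_div_le v _ _ (hvi _ (hint _)) hvP2⟩)
  let F := FractionRing (MvPolynomial (Fin (N - 2)) ℂ)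
  obtain ⟨r, hr, hr0⟩ := hLOG (Fin (N - 2)) inferInstance
    (fun b => Algebra.trace F L (θ b)) ((Module.finrank F L : ℂ) * (1 - l1)) hV (by
      have h1 : ∑ b, algebraMap (MvPolynomial (Fin (N - 2)) ℂ) F (X b) * Algebra.trace F L (θ b)
          = Algebra.trace F L (∑ b, algebraMap (MvPolynomial (Fin (N - 2)) ℂ) L (X b) * θ b) := by
        rw [map_sum]
        refine Finset.sum_congr rfl fun b _ => ?_
        rw [IsScalarTower.algebraMap_apply (MvPolynomial (Fin (N - 2)) ℂ) F L,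
          ← Algebra.smul_def (algebraMap (MvPolynomial (Fin (N - 2)) ℂ) F (X b)) (θ b),
          map_smul, smul_eq_mul]
      rw [h1, hsum]
      have h2 : algebraMap ℂ L (1 - l1) = algebraMap F L
          (algebraMap (MvPolynomial (Fin (N - 2)) ℂ) F (C (1 - l1))) := by
        rw [← IsScalarTower.algebraMap_apply (MvPolynomial (Fin (N - 2)) ℂ) F L,
          IsScalarTower.algebraMap_apply ℂ (MvPolynomial (Fin (N - 2)) ℂ) L]
        rfl
      rw [h2, Algebra.trace_algebraMap, nsmul_eq_mul, C_mul, map_mul]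
      congr 1
      rw [map_natCast, map_natCast])
  have hpos : 0 < Module.finrank F L := Module.finrank_pos
  have hc : (Module.finrank F L : ℂ) ≠ 0 := by exact_mod_cast hpos.ne'
  refine ⟨1 - r / (Module.finrank F L : ℝ), ?_, ?_⟩
  · push_cast
    rw [← hr]
    field_simp
    ring
  · have h3 : r / (Module.finrank F L : ℝ) ≤ 0 :=
      div_nonpos_of_nonpos_of_nonneg hr0 (by positivity)
    linarith

end POSM

open POSM

theorem specPOS (hPSB : SpecPSB) (hPSC : SpecPSC) (hVAL : SpecVAL) (hLOG : SpecLOG)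
    (hPLC : SpecPLC) : SpecPOS := by
  intro N g P hNe hN hG hDle p0 hp hh hst hf hP hD
  obtain ⟨δ, hδ⟩ := hPSB N g P hNe hN hG p0 hp hst hf hP hD
  obtain ⟨s, hs⟩ : ∃ s : ℂ, s ^ 2 = (N : ℂ) ^ 2 - 4 * δ :=
    IsAlgClosed.exists_pow_nat_eq _ (by norm_num)
  obtain ⟨l1, hl1⟩ : ∃ l1 : ℂ, l1 = ((N : ℂ) + s) / 2 := ⟨_, rfl⟩
  obtain ⟨mu, hmu⟩ : ∃ mu : ℂ, mu = ((N : ℂ) - s) / 2 := ⟨_, rfl⟩
  have hsum : l1 + mu = N := by rw [hl1, hmu]; ring
  have hprod : l1 * mu = δ := by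
    rw [hl1, hmu]
    linear_combination (-1 / 4 : ℂ) * hs
  by_cases hne : l1 = mu
  · have h1 : δ = (((N : ℝ) ^ 2 / 4 : ℝ) : ℂ) := by
      have h2 : l1 = (N : ℂ) / 2 := by
        have : l1 + l1 = N := by nth_rewrite 2 [hne]; exact hsum
        linear_combination this / 2
      rw [← hprod, ← hne, h2]
      push_cast
      ring
    refine ⟨(N : ℝ) ^ 2 / 4, by positivity, by linarith, fun i j k l => ?_⟩
    rw [← h1]
    exact hδ i j k l
  · obtain ⟨r1, hr1, h1⟩ := lam_real hPSC hVAL hLOG hPLC hNe hN hG hDle p0 hp hh hst hf hP hD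
      δ l1 mu hsum hprod hne hδ
    obtain ⟨r2, hr2, h2⟩ := lam_real hPSC hVAL hLOG hPLC hNe hN hG hDle p0 hp hh hst hf hP hD
      δ mu l1 (by rw [add_comm]; exact hsum) (by rw [mul_comm]; exact hprod) (Ne.symm hne) hδ
    have h3 : r1 + r2 = (N : ℝ) := by
      have : ((r1 + r2 : ℝ) : ℂ) = ((N : ℝ) : ℂ) := by
        push_cast
        rw [← hr1, ← hr2]
        exact hsum
      exact_mod_cast this
    have h4 : δ = ((r1 * r2 : ℝ) : ℂ) := by
      push_cast
      rw [← hr1, ← hr2]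
      exact hprod.symm
    refine ⟨r1 * r2, by positivity, ?_, fun i j k l => ?_⟩
    · rw [← h3]
      nlinarith [sq_nonneg (r1 - r2)]
    · rw [← h4]
      exact hδ i j k l

end Pool.Agent.Lib.MPc9b009.OD
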