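import Pool.Agent.Lib.MP_c9b009_ag.OD.Spec

/-!
# MP_c9b009_ag, row OD, module PQL: the components of `V ∩ U`
-/

set_option autoImplicit false

namespace Pool.Agent.Lib.MPc9b009.OD

open MvPolynomial Pool.Agent.Lib.MPc9b009.B5

namespace PQLM

/-- one contraction -/
theorem contr {R : Type} [CommRing R] {N : ℕ} (p : Ideal R) (a b A B Z W : Fin N → R) (e : R)
    (P : Fin N → Fin N → R) (h : ∀ k l, A k * B l - Z l * W k - e * P k l ∈ p) :
    (∑ k, a k * A k) * (∑ l, b l * B l) - (∑ l, b l * Z l) * (∑ k, a k * W k)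
      - e * (∑ k, ∑ l, a k * b l * P k l) ∈ p := by
  have e1 : (∑ k, a k * A k) * (∑ l, b l * B l) - (∑ l, b l * Z l) * (∑ k, a k * W k)
      - e * (∑ k, ∑ l, a k * b l * P k l)
      = ∑ k, ∑ l, a k * b l * (A k * B l - Z l * W k - e * P k l) := by
    have h1 : (∑ k, a k * A k) * (∑ l, b l * B l) = ∑ k, ∑ l, a k * b l * (A k * B l) := by
      rw [Finset.sum_mul_sum]
      refine Finset.sum_congr rfl fun k _ => Finset.sum_congr rfl fun l _ => ?_
      ring
    have h2 : (∑ l, b l * Z l) * (∑ k, a k * W k) = ∑ k, ∑ l, a k * b l * (Z l * W k) := by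
      rw [mul_comm, Finset.sum_mul_sum]
      refine Finset.sum_congr rfl fun k _ => Finset.sum_congr rfl fun l _ => ?_
      ring
    have h3 : e * (∑ k, ∑ l, a k * b l * P k l) = ∑ k, ∑ l, a k * b l * (e * P k l) := by
      rw [Finset.mul_sum]
      refine Finset.sum_congr rfl fun k _ => ?_
      rw [Finset.mul_sum]
      refine Finset.sum_congr rfl fun l _ => ?_
      ring
    rw [h1, h2, h3]
    simp only [← Finset.sum_sub_distrib]
    refine Finset.sum_congr rfl fun k _ => Finset.sum_congr rfl fun l _ => ?_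
    ring
  rw [e1]
  exact p.sum_mem fun k _ => p.sum_mem fun l _ => p.mul_mem_left _ (h k l)

/-- the ideal of `V` is stable -/
theorem stab {N : ℕ} {g : Biv N} {P : Fin N → Fin N → MvPolynomial (Fin N) ℂ} (hG : Geo g P) :
    Stab g.f (Jf P) := by
  intro z hz a
  have e : ∀ w, ∑ i, g.f i a * pderiv i w = - ham g a w := by
    intro w
    rw [ham, ← Finset.sum_neg_distrib]
    refine Finset.sum_congr rfl fun i _ => ?_
    rw [g.skew a i]
    ring
  rw [e, neg_mem_iff]
  have hadd : ∀ x y, ham g a (x + y) = ham g a x + ham g a y := by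
    intro x y
    simp only [ham, map_add, mul_add, Finset.sum_add_distrib]
  have hmul : ∀ x y, ham g a (x * y) = x * ham g a y + y * ham g a x := by
    intro x y
    simp only [ham, Derivation.leibniz, smul_eq_mul, Finset.mul_sum, ← Finset.sum_add_distrib]
    refine Finset.sum_congr rfl fun i _ => ?_
    ring
  rw [Jf] at hz ⊢
  refine Submodule.span_induction (p := fun x _ => ham g a x ∈ Ideal.span (Set.range (fo P)))
    ?_ ?_ ?_ ?_ hz
  · rintro _ ⟨i, rfl⟩
    have h1 := hG.hamf a i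
    rw [eq_neg_of_add_eq_zero_left h1, neg_mem_iff]
    exact Ideal.sum_mem _ fun l _ => Ideal.mul_mem_left _ _ (Ideal.subset_span ⟨l, rfl⟩)
  · simp [ham]
  · intro x y _ _ hx hy
    rw [hadd]
    exact Ideal.add_mem _ hx hy
  · intro c x hx hx'
    rw [smul_eq_mul, hmul]
    exact Ideal.add_mem _ (Ideal.mul_mem_left _ _ hx') (Ideal.mul_mem_right _ _ hx)

/-- the ideal of `V` is homogeneous -/
theorem hom {N : ℕ} {g : Biv N} {P : Fin N → Fin N → MvPolynomial (Fin N) ℂ} (hG : Om g P) :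
    Hom (Jf P) := by
  refine CUTM.hom_span _ ?_
  rintro _ ⟨j, rfl⟩
  refine ⟨1 + (N - 2), ?_⟩
  exact IsHomogeneous.sum _ _ _ fun i _ => (isHomogeneous_X ℂ i).mul (hG.hom i j)

end PQLM

/-- the components of `V ∩ U` -/
theorem specPQL (hPOS : SpecPOS) (hZRO : SpecZRO) : SpecPQL := by
  intro N g P hNe hN4 hG hD3 hDJ u hu Q hQ hQh hJQ htr
  have hne : ∃ i j, CUTM.Phi u (P i j) ∉ Q := by
    obtain ⟨y, hy0, hyQ, -⟩ := hZRO 4 Q (X 0) 1 hQ hQh htr le_rfl (isHomogeneous_X ℂ 0)
    obtain ⟨i, j, hij⟩ := hu y hy0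
    exact ⟨i, j, fun h => hij (hyQ _ h)⟩
  refine ⟨hne, ?_⟩
  obtain ⟨i, j, hij⟩ := hne
  set T : Ideal (MvPolynomial (Fin N) ℂ) := Ideal.comap (CUTM.Phi u) Q with hT
  have hTp : T.IsPrime := Ideal.comap_isPrime _ _
  have hJT : Jf P ≤ T := Ideal.map_le_iff_le_comap.mp hJQ
  obtain ⟨p0, hp0, hpT⟩ := Ideal.exists_minimalPrimes_le hJT
  have hpp : p0.IsPrime := hp0.1.1
  have hJp : Jf P ≤ p0 := hp0.1.2
  have hPij : P i j ∉ p0 := fun h => hij (hpT h)
  have hstab : Stab g.f p0 := specDMIN N N g.f (Jf P) (PQLM.stab hG) p0 hp0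
  have hhom : Hom p0 := specHMIN N (Jf P) (PQLM.hom hG.toOm) p0 hp0
  have hfo : ∀ j, fo P j ∈ p0 := fun j => hJp (Ideal.subset_span ⟨j, rfl⟩)
  have hne' : i ≠ j := by
    rintro rfl
    apply hPij
    have h1 := hG.skew i i
    have h2 : P i i = 0 := by
      have h3 : (2 : MvPolynomial (Fin N) ℂ) * P i i = 0 := by linear_combination h1
      rcases mul_eq_zero.mp h3 with h4 | h4
      · exact absurd h4 two_ne_zero
      · exact h4
    rw [h2]
    exact zero_mem _
  have htr0 : Algebra.trdeg ℂ (MvPolynomial (Fin N) ℂ ⧸ p0) = ((N - 2 : ℕ) : Cardinal) := by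
    refine le_antisymm (hDJ p0 hpp hJp) ?_
    have hcard : Fintype.card {l : Fin N // l ≠ i ∧ l ≠ j} = N - 2 := by
      have := EXAM.card_ij i j hne'
      omega
    let e : Fin (N - 2) ≃ {l : Fin N // l ≠ i ∧ l ≠ j} :=
      (Fintype.equivFinOfCardEq hcard).symm
    refine specDIM N N (N - 2) g.f p0 hpp hstab ⟨fun a => (e a).1, fun a => (e a).1, ?_⟩
    obtain ⟨h, hh0, hh⟩ := hG.minor
    have e1 : mnr g.f (fun a => (e a).1) (fun a => (e a).1) =
        (EXAM.mij (Matrix.of g.f) i j).det := by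
      rw [← Matrix.det_submatrix_equiv_self e]
      rfl
    rw [e1, hh i j hne']
    intro hmem
    rcases hpp.mem_or_mem hmem with h1 | h1
    · apply hpp.ne_top
      rw [Ideal.eq_top_iff_one]
      have h2 := p0.mul_mem_left (C h⁻¹) h1
      rwa [← C_mul, inv_mul_cancel₀ hh0, C_1] at h2
    · exact hPij (hpp.mem_of_pow_mem 2 h1)
  obtain ⟨δ, hδ0, hδ1, hδ⟩ := hPOS N g P hNe hN4 hG hD3 p0 hpp hhom hstab hfo ⟨i, j, hPij⟩ htr0
  refine ⟨δ, hδ0, hδ1, fun a b => ?_⟩
  have key : duv P a b - C (δ : ℂ) * Puv P a b ^ 2 ∈ p0 := by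
    have hA : ∀ k l, Fu P a k * Fu P b l - Fu P a l * Fu P b k
        - C (δ : ℂ) * Puv P a b * P k l ∈ p0 := by
      intro k l
      have h1 := PQLM.contr p0 (fun i => C (a i)) (fun i => C (b i)) (fun i => FF P i k)
        (fun j => FF P j l) (fun j => FF P j k) (fun i => FF P i l) (C (δ : ℂ) * P k l) P
        (fun i j => by
          have := hδ i j k l
          have e2 : FF P i k * FF P j l - FF P j k * FF P i l - C (δ : ℂ) * P k l * P i j
            = FF P i k * FF P j l - FF P i l * FF P j k - C (δ : ℂ) * (P i j * P k l) := by ring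
          rw [e2]
          exact this)
      have e3 : Fu P a k * Fu P b l - Fu P a l * Fu P b k - C (δ : ℂ) * Puv P a b * P k l
          = (∑ k_1, C (a k_1) * FF P k_1 k) * (∑ l_1, C (b l_1) * FF P l_1 l)
            - (∑ l_1, C (b l_1) * FF P l_1 k) * (∑ k_1, C (a k_1) * FF P k_1 l)
            - C (δ : ℂ) * P k l * (∑ k_1, ∑ l_1, C (a k_1) * C (b l_1) * P k_1 l_1) := by
        simp only [Fu, Puv]
        ring
      rw [e3]
      exact h1
    have hB := PQLM.contr p0 (fun i => C (a i)) (fun i => C (b i)) (fun k => Fu P a k)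
      (fun l => Fu P b l) (fun l => Fu P a l) (fun k => Fu P b k) (C (δ : ℂ) * Puv P a b) P hA
    have e4 : duv P a b - C (δ : ℂ) * Puv P a b ^ 2
        = (∑ k, C (a k) * Fu P a k) * (∑ l, C (b l) * Fu P b l)
          - (∑ l, C (b l) * Fu P a l) * (∑ k, C (a k) * Fu P b k)
          - C (δ : ℂ) * Puv P a b * (∑ k, ∑ l, C (a k) * C (b l) * P k l) := by
      have e5 : (∑ k, ∑ l, C (a k) * C (b l) * P k l) = Puv P a b := rfl
      rw [e5, duv]
      ring
    rw [e4]
    exact hB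
  have h2 := hpT key
  rw [hT, Ideal.mem_comap] at h2
  have e6 : CUTM.Phi u (duv P a b - C (δ : ℂ) * Puv P a b ^ 2)
      = CUTM.Phi u (duv P a b) - C (δ : ℂ) * CUTM.Phi u (Puv P a b) ^ 2 := by
    rw [map_sub, map_mul, map_pow]
    congr 2
    exact (CUTM.Phi u).commutes (δ : ℂ)
  rw [← e6]
  exact h2

end Pool.Agent.Lib.MPc9b009.OD
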