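import Pool.Agent.Lib.MP_c9b009_ag.OD.Spec

/-!
# MP_c9b009_ag, row OD, module PRB: principal minors of a skew matrix of corank two
-/

set_option autoImplicit false

namespace Pool.Agent.Lib.MPc9b009.OD

open MvPolynomial Pool.Agent.Lib.MPc9b009.B5

namespace PRBM

variable {F : Type} [Field F] {N : ℕ}

theorem mij_symm (A : Matrix (Fin N) (Fin N) F) (i j : Fin N) :
    (EXAM.mij A i j).det = (EXAM.mij A j i).det := by
  let e : {l : Fin N // l ≠ i ∧ l ≠ j} ≃ {l : Fin N // l ≠ j ∧ l ≠ i} :=
    Equiv.subtypeEquivRight (fun l => and_comm)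
  have h : EXAM.mij A i j = (EXAM.mij A j i).submatrix e e := by
    ext a b
    rfl
  rw [h, Matrix.det_submatrix_equiv_self]

theorem diag_zero [CharZero F] (T : Matrix (Fin N) (Fin N) F) (hT : ∀ i j, T j i = - T i j)
    (a : Fin N) : T a a = 0 := self_eq_neg.1 (hT a a)

theorem col_ker (A T : Matrix (Fin N) (Fin N) F) (hAT : A * T = 0) (l : Fin N) :
    A.mulVec (fun k => T k l) = 0 := by
  ext m
  have := congrFun (congrFun hAT m) l
  simpa [Matrix.mul_apply, Matrix.mulVec, dotProduct] using this

/-- three-term relation for the kernel vectors -/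
theorem k1 [CharZero F] (A T : Matrix (Fin N) (Fin N) F) (hN : Even N)
    (hA : ∀ i j, A j i = - A i j) (hT : ∀ i j, T j i = - T i j) (hAT : A * T = 0) (hT0 : T ≠ 0)
    (hpl : ∀ i j k l, T i j * T k l - T i k * T j l + T i l * T j k = 0)
    (p q : Fin N) (hpq : p ≠ q) (hD : (EXAM.mij A p q).det ≠ 0) (w : Fin N → F)
    (hw : A.mulVec w = 0) (j k l : Fin N) : T j k * w l - T j l * w k + T k l * w j = 0 := by
  obtain ⟨kp, kq, h1, -⟩ := EXAM.core A hN hA p q hpq
  have hcol : ∀ k l, (EXAM.mij A p q).det * T k l = kp k * T p l + kq k * T q l := fun k l =>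
    h1 _ (col_ker A T hAT l) k
  have hpp := diag_zero T hT p
  have hqq := diag_zero T hT q
  have hTpq : T p q ≠ 0 := by
    intro h0
    have h0' : T q p = 0 := by rw [hT p q, h0, neg_zero]
    have e1 : ∀ k, T k p = 0 := by
      intro k
      have := hcol k p
      rw [hpp, h0', mul_zero, mul_zero, add_zero] at this
      exact (mul_eq_zero.1 this).resolve_left hD
    have e2 : ∀ k, T k q = 0 := by
      intro k
      have := hcol k q
      rw [hqq, h0, mul_zero, mul_zero, add_zero] at this
      exact (mul_eq_zero.1 this).resolve_left hD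
    apply hT0
    ext a b
    have := hcol a b
    rw [hT b p, hT b q, e1, e2, neg_zero, mul_zero, mul_zero, add_zero] at this
    simpa using (mul_eq_zero.1 this).resolve_left hD
  have hv : ∀ l, T p q * w l = T l q * w p - T l p * w q := by
    intro l
    have a1 := h1 w hw l
    have a2 := hcol l q
    have a3 := hcol l p
    rw [hqq, mul_zero, add_zero] at a2
    rw [hpp, mul_zero, zero_add, hT p q] at a3
    have : (EXAM.mij A p q).det * (T p q * w l - (T l q * w p - T l p * w q)) = 0 := by
      linear_combination T p q * a1 - w p * a2 + w q * a3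
    have := (mul_eq_zero.1 this).resolve_left hD
    linear_combination this
  have key : T p q * (T j k * w l - T j l * w k + T k l * w j) = 0 := by
    linear_combination T j k * hv l - T j l * hv k + T k l * hv j + w p * hpl j k l q
      - w q * hpl j k l p
  exact (mul_eq_zero.1 key).resolve_left hTpq

/-- a zero row -/
theorem row_zero [CharZero F] (A T : Matrix (Fin N) (Fin N) F) (hN : Even N)
    (hA : ∀ i j, A j i = - A i j) (hT : ∀ i j, T j i = - T i j) (hAT : A * T = 0) (hT0 : T ≠ 0)
    (i : Fin N) (hi : ∀ m, T i m = 0) (l : Fin N) (hl : i ≠ l) : (EXAM.mij A i l).det = 0 := by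
  by_contra hD
  obtain ⟨kp, kq, h1, -⟩ := EXAM.core A hN hA i l hl
  have hcol : ∀ x m, (EXAM.mij A i l).det * T x m = kq x * T l m := by
    intro x m
    have := h1 _ (col_ker A T hAT m) x
    rw [hi m, mul_zero, zero_add] at this
    exact this
  apply hT0
  ext a b
  simp only [Matrix.zero_apply]
  by_contra hab
  have hba : T b a ≠ 0 := by
    rw [hT a b]
    exact neg_ne_zero.2 hab
  have e1 := hcol a b
  have e2 := hcol b a
  have e3 := hcol b b
  rw [diag_zero T hT b, mul_zero] at e3
  have f1 : T l b ≠ 0 := by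
    intro h
    rw [h, mul_zero] at e1
    exact (mul_ne_zero hD hab) e1
  have f2 : kq b ≠ 0 := by
    intro h
    rw [h, zero_mul] at e2
    exact (mul_ne_zero hD hba) e2
  exact (mul_ne_zero f2 f1) e3.symm

/-! ### One row -/

section row

variable (A : Matrix (Fin N) (Fin N) F) (i : Fin N)

/-- without the index `i` -/
def del : Matrix {x : Fin N // x ≠ i} {x : Fin N // x ≠ i} F := A.submatrix Subtype.val Subtype.val

theorem card_del : Fintype.card {x : Fin N // x ≠ i} + 1 = N := by
  have h1 : Fintype.card {x : Fin N // x ≠ i} = Fintype.card (Fin N) - Fintype.card {x : Fin N // x = i} :=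
    Fintype.card_subtype_compl (fun x => x = i)
  rw [Fintype.card_subtype_eq, Fintype.card_fin] at h1
  have : 0 < N := i.pos
  omega

theorem det_del [CharZero F] (hN : Even N) (hA : ∀ i j, A j i = - A i j) : (del A i).det = 0 := by
  have h1 : (del A i).transpose = - del A i := by
    ext a b
    exact hA a.1 b.1
  have h2 : (del A i).det = (-1) ^ Fintype.card {x : Fin N // x ≠ i} * (del A i).det := by
    rw [← Matrix.det_neg, ← h1, Matrix.det_transpose]
  have h3 : Odd (Fintype.card {x : Fin N // x ≠ i}) := by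
    have := card_del i
    obtain ⟨m, hm⟩ := hN
    have : 0 < N := i.pos
    exact ⟨m - 1, by omega⟩
  rw [h3.neg_one_pow, neg_one_mul] at h2
  exact self_eq_neg.1 h2

theorem del_skew (hA : ∀ i j, A j i = - A i j) (a b : {x : Fin N // x ≠ i}) :
    del A i b a = - del A i a b := hA a.1 b.1

/-- extension by zero -/
def ex (w : {x : Fin N // x ≠ i} → F) (x : Fin N) : F := if h : x ≠ i then w ⟨x, h⟩ else 0

theorem ex_i (w : {x : Fin N // x ≠ i} → F) : ex i w i = 0 := dif_neg (fun h => h rfl)

theorem ex_ne (w : {x : Fin N // x ≠ i} → F) (a : {x : Fin N // x ≠ i}) : ex i w a.1 = w a :=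
  dif_pos a.2

theorem sum_ex (w : {x : Fin N // x ≠ i} → F) (g : Fin N → F) :
    ∑ x, g x * ex i w x = ∑ a : {x : Fin N // x ≠ i}, g a.1 * w a := by
  rw [← Finset.add_sum_erase Finset.univ _ (Finset.mem_univ i), ex_i, mul_zero, zero_add]
  rw [Finset.sum_subtype (p := fun x => x ≠ i) (Finset.univ.erase i) (by
    intro x
    simp)]
  refine Finset.sum_congr rfl fun a _ => ?_
  rw [ex_ne]

theorem ex_ker (T : Matrix (Fin N) (Fin N) F) (hA : ∀ i j, A j i = - A i j) (hAT : A * T = 0)
    (m0 : Fin N) (hm0 : T i m0 ≠ 0) (w : {x : Fin N // x ≠ i} → F)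
    (hw : (del A i).mulVec w = 0) : A.mulVec (ex i w) = 0 := by
  have h1 : ∀ a : {x : Fin N // x ≠ i}, A.mulVec (ex i w) a.1 = 0 := by
    intro a
    have := congrFun hw a
    rw [Pi.zero_apply] at this
    rw [← this]
    show ∑ x, A a.1 x * ex i w x = ∑ b, del A i a b * w b
    rw [sum_ex]
    rfl
  have h2 : ∑ x, T x m0 * A.mulVec (ex i w) x = 0 := by
    have hc := col_ker A T hAT m0
    have h3 : ∀ y, ∑ x, A y x * T x m0 = 0 := fun y => congrFun hc y
    calc ∑ x, T x m0 * A.mulVec (ex i w) x
        = ∑ x, ∑ y, T x m0 * (A x y * ex i w y) := by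
          refine Finset.sum_congr rfl fun x _ => ?_
          show T x m0 * ∑ y, A x y * ex i w y = _
          rw [Finset.mul_sum]
      _ = ∑ y, ∑ x, T x m0 * (A x y * ex i w y) := Finset.sum_comm
      _ = ∑ y, (∑ x, A y x * T x m0) * (- ex i w y) := by
          refine Finset.sum_congr rfl fun y _ => ?_
          rw [Finset.sum_mul]
          refine Finset.sum_congr rfl fun x _ => ?_
          rw [hA y x]
          ring
      _ = 0 := by
          refine Finset.sum_eq_zero fun y _ => ?_
          rw [h3 y, zero_mul]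
  have h4 : A.mulVec (ex i w) i = 0 := by
    rw [← Finset.add_sum_erase Finset.univ _ (Finset.mem_univ i)] at h2
    have h5 : ∑ x ∈ Finset.univ.erase i, T x m0 * A.mulVec (ex i w) x = 0 := by
      refine Finset.sum_eq_zero fun x hx => ?_
      rw [h1 ⟨x, Finset.ne_of_mem_erase hx⟩, mul_zero]
    rw [h5, add_zero] at h2
    exact (mul_eq_zero.1 h2).resolve_left hm0
  ext x
  by_cases hx : x = i
  · rw [hx]
    exact h4
  · exact h1 ⟨x, hx⟩

theorem adj_diag (l : {x : Fin N // x ≠ i}) :
    (del A i).adjugate l l = (EXAM.mij A i l.1).det := by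
  rw [Matrix.adjugate_apply, Matrix.twoBlockTriangular_det' _ (fun x => x = l)]
  · have h0 : ∀ (f : Fintype {x : {x : Fin N // x ≠ i} // x = l})
        (d : DecidableEq {x : {x : Fin N // x ≠ i} // x = l})
        (M : Matrix {x : {x : Fin N // x ≠ i} // x = l} {x : {x : Fin N // x ≠ i} // x = l} F),
        @Matrix.det _ d f F _ M = M ⟨l, rfl⟩ ⟨l, rfl⟩ := by
      intro f d M
      exact @Matrix.det_eq_elem_of_subsingleton _ d f F _ _ M ⟨l, rfl⟩
    rw [h0]
    have h1 : (Matrix.toSquareBlockProp ((del A i).updateRow l (Pi.single l 1))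
        (fun x => x = l)) ⟨l, rfl⟩ ⟨l, rfl⟩ = 1 := by
      simp [Matrix.toSquareBlockProp_def]
    rw [h1, one_mul]
    let e : {x : {x : Fin N // x ≠ i} // ¬ x = l} ≃ {x : Fin N // x ≠ i ∧ x ≠ l.1} :=
      { toFun := fun x => ⟨x.1.1, x.1.2, fun h => x.2 (Subtype.ext h)⟩
        invFun := fun y => ⟨⟨y.1, y.2.1⟩, fun h => y.2.2 (congrArg Subtype.val h)⟩
        left_inv := fun x => rfl
        right_inv := fun y => rfl }
    have h2 : Matrix.toSquareBlockProp ((del A i).updateRow l (Pi.single l 1))
        (fun x => ¬ x = l) = (EXAM.mij A i l.1).submatrix e e := by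
      ext a b
      rw [Matrix.toSquareBlockProp_def, Matrix.of_apply, Matrix.updateRow_ne a.2]
      rfl
    rw [h2, Matrix.det_submatrix_equiv_self]
  · intro x hx y hy
    subst hx
    rw [Matrix.updateRow_self, Pi.single_apply, if_neg hy]

end row

/-- comparison of the minors in one row -/
theorem ratio [CharZero F] (A T : Matrix (Fin N) (Fin N) F) (hN : Even N)
    (hA : ∀ i j, A j i = - A i j) (hT : ∀ i j, T j i = - T i j) (hAT : A * T = 0) (hT0 : T ≠ 0)
    (hpl : ∀ i j k l, T i j * T k l - T i k * T j l + T i l * T j k = 0)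
    (p q : Fin N) (hpq : p ≠ q) (hD : (EXAM.mij A p q).det ≠ 0) (i l m : Fin N)
    (hl : i ≠ l) (hm : i ≠ m) :
    (EXAM.mij A i l).det * T i m ^ 2 = (EXAM.mij A i m).det * T i l ^ 2 := by
  by_cases hi : ∀ m, T i m = 0
  · rw [hi m, hi l]
    ring
  · push Not at hi
    obtain ⟨m0, hm0⟩ := hi
    have hdet := det_del A i hN hA
    have hcol : ∀ a b c : {x : Fin N // x ≠ i},
        T i c.1 * (del A i).adjugate a b = T i a.1 * (del A i).adjugate c b := by
      intro a b c
      have h1 : (del A i).mulVec (fun x => (del A i).adjugate x b) = 0 := by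
        ext r
        have := congrFun (congrFun (Matrix.mul_adjugate (del A i)) r) b
        rw [hdet, zero_smul] at this
        simpa [Matrix.mul_apply, Matrix.mulVec, dotProduct] using this
      have h2 := k1 A T hN hA hT hAT hT0 hpl p q hpq hD _
        (ex_ker A i T hA hAT m0 hm0 _ h1) i c.1 a.1
      rw [ex_i, ex_ne, ex_ne, mul_zero, add_zero] at h2
      exact sub_eq_zero.1 h2
    have hrow : ∀ a b c : {x : Fin N // x ≠ i},
        T i c.1 * (del A i).adjugate a b = T i b.1 * (del A i).adjugate a c := by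
      intro a b c
      have h1 : (del A i).mulVec (fun x => (del A i).adjugate a x) = 0 := by
        ext r
        have := congrFun (congrFun (Matrix.adjugate_mul (del A i)) a) r
        rw [hdet, zero_smul, Matrix.mul_apply] at this
        simp only [Matrix.mulVec, dotProduct, Pi.zero_apply]
        simp only [Matrix.zero_apply] at this
        rw [← neg_eq_zero, ← this, ← Finset.sum_neg_distrib]
        refine Finset.sum_congr rfl fun x _ => ?_
        rw [del_skew A i hA r x]
        ring
      have h2 := k1 A T hN hA hT hAT hT0 hpl p q hpq hD _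
        (ex_ker A i T hA hAT m0 hm0 _ h1) i c.1 b.1
      rw [ex_i, ex_ne, ex_ne, mul_zero, add_zero] at h2
      exact sub_eq_zero.1 h2
    have g1 := adj_diag A i ⟨l, hl.symm⟩
    have g2 := adj_diag A i ⟨m, hm.symm⟩
    have g3 := hcol ⟨l, hl.symm⟩ ⟨l, hl.symm⟩ ⟨m, hm.symm⟩
    have g4 := hrow ⟨m, hm.symm⟩ ⟨l, hl.symm⟩ ⟨m, hm.symm⟩
    simp only at g1 g2 g3 g4
    rw [← g1, ← g2]
    linear_combination T i m * g3 + T i l * g4

end PRBM

open PRBM in
theorem specPRB : SpecPRB := by
  intro F _ _ N A T hN hA hT hAT hT0 hpl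
  by_cases hall : ∀ i j, i ≠ j → (EXAM.mij A i j).det = 0
  · refine ⟨0, fun i j hij => ?_⟩
    rw [hall i j hij, zero_mul]
  push Not at hall
  obtain ⟨p, q, hpq, hD⟩ := hall
  have R := ratio A T hN hA hT hAT hT0 hpl p q hpq hD
  have hd := diag_zero T hT
  obtain ⟨a, b, hab⟩ : ∃ a b, T a b ≠ 0 := by
    by_contra h
    push Not at h
    exact hT0 (by ext a b; simpa using h a b)
  have hne : ∀ x y, T x y ≠ 0 → x ≠ y := by
    rintro x y h rfl
    exact h (hd x)
  -- ratios at adjacent pairs
  have adj : ∀ x y z, T x y ≠ 0 → T x z ≠ 0 →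
      (EXAM.mij A x y).det / T x y ^ 2 = (EXAM.mij A x z).det / T x z ^ 2 := by
    intro x y z h1 h2
    rw [div_eq_div_iff (pow_ne_zero 2 h1) (pow_ne_zero 2 h2)]
    exact R x y z (hne x y h1) (hne x z h2)
  have sym : ∀ x y, (EXAM.mij A x y).det / T x y ^ 2 = (EXAM.mij A y x).det / T y x ^ 2 := by
    intro x y
    rw [mij_symm A x y, hT x y, neg_sq]
  have hT' : ∀ x y, T x y ≠ 0 → T y x ≠ 0 := by
    intro x y h
    rw [hT x y]
    exact neg_ne_zero.2 h
  refine ⟨(EXAM.mij A a b).det / T a b ^ 2, fun i j hij => ?_⟩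
  by_cases h0 : T i j = 0
  · rw [h0]
    have : (EXAM.mij A i j).det = 0 := by
      by_cases hi : ∀ m, T i m = 0
      · exact row_zero A T hN hA hT hAT hT0 i hi j hij
      · push Not at hi
        obtain ⟨m, hm⟩ := hi
        have := R i j m hij (hne i m hm)
        rw [h0] at this
        have h2 : (EXAM.mij A i j).det * T i m ^ 2 = 0 := by
          rw [this]
          ring
        exact (mul_eq_zero.1 h2).resolve_right (pow_ne_zero 2 hm)
    rw [this]
    ring
  · have key : (EXAM.mij A i j).det / T i j ^ 2 = (EXAM.mij A a b).det / T a b ^ 2 := by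
      by_cases hia : T i a = 0
      · have hpl' := hpl i a j b
        rw [hia, zero_mul, zero_sub] at hpl'
        have h3 : T i b * T a j ≠ 0 := by
          have : T i b * T a j = T i j * T a b := by linear_combination hpl'
          rw [this]
          exact mul_ne_zero h0 hab
        have hib := left_ne_zero_of_mul h3
        rw [adj i j b h0 hib, sym i b, adj b i a (hT' i b hib) (hT' a b hab), sym b a]
      · rw [adj i j a h0 hia, sym i a, adj a i b (hT' i a hia) hab]
    rw [← key, div_mul_cancel₀ _ (pow_ne_zero 2 h0)]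

end Pool.Agent.Lib.MPc9b009.OD
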