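import Pool.Agent.Lib.MP_c9b009_ag.OD.Spec

/-!
# MP_c9b009_ag, row OD: module PRI
-/

set_option autoImplicit false

namespace Pool.Agent.Lib.MPc9b009.OD

open MvPolynomial Pool.Agent.Lib.MPc9b009.B5

namespace PRIM

/-- Dimension of a prime ideal without nonzero polynomials in the variables other than `k`. -/
theorem trdeg_ge {N : ℕ} (p : Ideal (MvPolynomial (Fin N) ℂ)) (hp : p.IsPrime) (k : Fin N)
    (h : ∀ P : MvPolynomial {j : Fin N // j ≠ k} ℂ, rename Subtype.val P ∈ p → P = 0) :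
    ((N - 1 : ℕ) : Cardinal) ≤ Algebra.trdeg ℂ (MvPolynomial (Fin N) ℂ ⧸ p) := by
  have hnt : Nontrivial (MvPolynomial (Fin N) ℂ ⧸ p) := Ideal.Quotient.nontrivial_iff.2 hp.ne_top
  have hind : AlgebraicIndependent ℂ (fun j : {j : Fin N // j ≠ k} =>
      Ideal.Quotient.mkₐ ℂ p (X j.1)) := by
    rw [algebraicIndependent_iff]
    intro P hP
    apply h
    rw [← Ideal.Quotient.eq_zero_iff_mem]
    have h2 : (Ideal.Quotient.mkₐ ℂ p).comp (rename (Subtype.val : {j : Fin N // j ≠ k} → Fin N))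
        = aeval (fun j : {j : Fin N // j ≠ k} => Ideal.Quotient.mkₐ ℂ p (X j.1)) := by
      apply MvPolynomial.algHom_ext
      intro j
      rw [AlgHom.comp_apply, rename_X, aeval_X]
    have h1 : (Ideal.Quotient.mkₐ ℂ p).comp (rename Subtype.val) P = 0 := by
      rw [h2]
      exact hP
    exact h1
  have h1 := hind.cardinalMk_le_trdeg
  rw [Cardinal.mk_fintype] at h1
  have h2 : Fintype.card {j : Fin N // j ≠ k} = N - 1 := by
    rw [Fintype.card_subtype_compl, Fintype.card_fin, Fintype.card_unique]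
  rw [h2] at h1
  exact h1

/-- A prime ideal containing a given nonunit of large dimension. -/
theorem exists_p0 {N : ℕ} (hN : 1 ≤ N) (c : MvPolynomial (Fin N) ℂ) (hc : ¬ IsUnit c) :
    ∃ p : Ideal (MvPolynomial (Fin N) ℂ), p.IsPrime ∧ c ∈ p ∧
      ((N - 1 : ℕ) : Cardinal) ≤ Algebra.trdeg ℂ (MvPolynomial (Fin N) ℂ ⧸ p) := by
  rcases eq_or_ne c 0 with h0 | h0
  · refine ⟨⊥, Ideal.isPrime_bot, by rw [h0]; exact Ideal.zero_mem _,
      trdeg_ge _ Ideal.isPrime_bot ⟨0, hN⟩ fun P hP => ?_⟩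
    have h1 : rename Subtype.val P = 0 := hP
    exact (rename_injective _ Subtype.val_injective) (by rw [h1, map_zero])
  · obtain ⟨π, hπ, hd⟩ := WfDvdMonoid.exists_irreducible_factor hc h0
    have hpr : Prime π := UniqueFactorizationMonoid.irreducible_iff_prime.1 hπ
    have hI : (Ideal.span {π}).IsPrime := (Ideal.span_singleton_prime hpr.ne_zero).2 hpr
    obtain ⟨k, hk⟩ : π.vars.Nonempty := by
      by_contra hne
      rw [Finset.not_nonempty_iff_eq_empty, vars_eq_empty_iff_eq_C] at hne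
      have h2 : coeff 0 π ≠ 0 := by
        intro h2
        rw [h2, map_zero] at hne
        exact hpr.ne_zero hne
      apply hpr.not_isUnit
      rw [hne]
      exact (isUnit_iff_ne_zero.2 h2).map C
    refine ⟨Ideal.span {π}, hI, Ideal.mem_span_singleton.2 hd,
      trdeg_ge _ hI k fun P hP => ?_⟩
    obtain ⟨Q, hQ⟩ := Ideal.mem_span_singleton.1 hP
    by_contra hP0
    have h3 : rename Subtype.val P ≠ 0 := by
      intro h3
      exact hP0 ((rename_injective _ Subtype.val_injective) (by rw [h3, map_zero]))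
    have hQ0 : Q ≠ 0 := by
      rintro rfl
      rw [mul_zero] at hQ
      exact h3 hQ
    have h4 : degreeOf k (rename (Subtype.val : {j : Fin N // j ≠ k} → Fin N) P) = 0 := by
      by_contra h4
      obtain ⟨j, -, hj⟩ := mem_vars_rename _ _ (mem_vars_iff_degreeOf_ne_zero.2 h4)
      exact j.2 hj
    rw [hQ, degreeOf_mul_eq hpr.ne_zero hQ0] at h4
    exact (mem_vars_iff_degreeOf_ne_zero.1 hk) (by omega)

theorem map_mij {N : ℕ} {R S : Type} [CommRing R] [CommRing S] (f : R →+* S)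
    (A : Matrix (Fin N) (Fin N) R) (i j : Fin N) :
    (EXAM.mij (A.map f) i j).det = f (EXAM.mij A i j).det := by
  rw [RingHom.map_det]
  rfl

/-- The `(N-2)`-minors and the generator of the kernel. -/
theorem exists_c (hB : SpecPRB) {N : ℕ} (A T : Matrix (Fin N) (Fin N) (MvPolynomial (Fin N) ℂ))
    (hN : Even N) (hA : ∀ i j, A j i = - A i j) (hT : ∀ i j, T j i = - T i j) (hAT : A * T = 0)
    (hT0 : T ≠ 0) (hprim : ∀ z, (∀ i j, z ∣ T i j) → IsUnit z)
    (hplu : ∀ i j k l, T i j * T k l - T i k * T j l + T i l * T j k = 0) :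
    ∃ c : MvPolynomial (Fin N) ℂ, ∀ i j, i ≠ j → (EXAM.mij A i j).det = c * T i j ^ 2 := by
  have hinj : Function.Injective (algebraMap (MvPolynomial (Fin N) ℂ)
    (FractionRing (MvPolynomial (Fin N) ℂ))) := IsFractionRing.injective _ _
  have hch : CharZero (FractionRing (MvPolynomial (Fin N) ℂ)) :=
    charZero_of_injective_algebraMap hinj
  obtain ⟨c, hc⟩ := hB (FractionRing (MvPolynomial (Fin N) ℂ)) inferInstance hch N
    (A.map (algebraMap _ _)) (T.map (algebraMap _ _)) hN
    (fun i j => by rw [Matrix.map_apply, Matrix.map_apply, hA, map_neg])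
    (fun i j => by rw [Matrix.map_apply, Matrix.map_apply, hT, map_neg])
    (by rw [← Matrix.map_mul, hAT, Matrix.map_zero _ (map_zero _)])
    (by
      intro h
      apply hT0
      refine Matrix.ext fun i j => ?_
      have h1 := congrFun (congrFun h i) j
      rw [Matrix.map_apply, Matrix.zero_apply] at h1
      exact hinj (by rw [h1, Matrix.zero_apply, map_zero]))
    (fun i j k l => by
      simp only [Matrix.map_apply]
      rw [← map_mul, ← map_mul, ← map_mul, ← map_sub, ← map_add, hplu, map_zero])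
  obtain ⟨a, b, hab, hfr⟩ := IsFractionRing.exists_reduced_fraction
    (A := MvPolynomial (Fin N) ℂ) c
  have hkey : ∀ i j, i ≠ j → (b : MvPolynomial (Fin N) ℂ) * (EXAM.mij A i j).det
      = a * T i j ^ 2 := by
    intro i j hij
    apply hinj
    have h1 := hc i j hij
    rw [map_mij, Matrix.map_apply] at h1
    rw [map_mul, map_mul, map_pow, h1, ← hfr, ← mul_assoc]
    congr 1
    rw [mul_comm]
    exact IsLocalization.mk'_spec _ a b
  have hb0 : (b : MvPolynomial (Fin N) ℂ) ≠ 0 := nonZeroDivisors.ne_zero b.2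
  have hbu : IsUnit (b : MvPolynomial (Fin N) ℂ) := by
    by_contra hbu
    obtain ⟨π, hπ, hd⟩ := WfDvdMonoid.exists_irreducible_factor hbu hb0
    have hpr : Prime π := UniqueFactorizationMonoid.irreducible_iff_prime.1 hπ
    apply hpr.not_isUnit
    apply hprim
    intro i j
    rcases eq_or_ne i j with rfl | hij
    · have h1 := hT i i
      have h2 : T i i = 0 := self_eq_neg.1 h1
      rw [h2]
      exact dvd_zero _
    · have h1 : π ∣ a * T i j ^ 2 := by
        rw [← hkey i j hij]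
        exact dvd_mul_of_dvd_left hd _
      rcases hpr.dvd_or_dvd h1 with h2 | h2
      · exact absurd (hab h2 hd) hpr.not_isUnit
      · exact hpr.dvd_of_dvd_pow h2
  obtain ⟨u, hu⟩ := hbu
  refine ⟨↑u⁻¹ * a, fun i j hij => ?_⟩
  rw [mul_assoc, ← hkey i j hij, ← mul_assoc, ← hu, Units.inv_mul, one_mul]

/-- Large primes do not contain the `(N-2)`-minors. -/
theorem c_unit (hK : SpecPRK) {N : ℕ} (g : Biv (N + 4)) (hN : Even (N + 4))
    (hdet : (Matrix.of g.f).det = 0) (hD : Dle (mI (N + 4 - 3) g) (N + 4 - 4))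
    (c : MvPolynomial (Fin (N + 4)) ℂ)
    (T : Fin (N + 4) → Fin (N + 4) → MvPolynomial (Fin (N + 4)) ℂ)
    (hc : ∀ i j, i ≠ j → (EXAM.mij (Matrix.of g.f) i j).det = c * T i j ^ 2) : IsUnit c := by
  by_contra hu
  obtain ⟨p, hp, hcp, htr⟩ := exists_p0 (by omega) c hu
  have hdm : IsDomain (MvPolynomial (Fin (N + 4)) ℂ ⧸ p) := Ideal.Quotient.isDomain p
  let K := FractionRing (MvPolynomial (Fin (N + 4)) ℂ ⧸ p)
  have hinj : Function.Injective (algebraMap (MvPolynomial (Fin (N + 4)) ℂ ⧸ p) K) :=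
    IsFractionRing.injective _ _
  let φ : MvPolynomial (Fin (N + 4)) ℂ →+* K := (algebraMap _ K).comp (Ideal.Quotient.mk p)
  have hφ : ∀ z, φ z = 0 ↔ z ∈ p := by
    intro z
    rw [← Ideal.Quotient.eq_zero_iff_mem]
    show algebraMap _ K (Ideal.Quotient.mk p z) = 0 ↔ _
    rw [← map_zero (algebraMap (MvPolynomial (Fin (N + 4)) ℂ ⧸ p) K)]
    exact hinj.eq_iff
  have hch : CharZero K :=
    ((φ.comp (C : ℂ →+* MvPolynomial (Fin (N + 4)) ℂ)).charZero_iff
      (φ.comp (C : ℂ →+* MvPolynomial (Fin (N + 4)) ℂ)).injective).1 inferInstance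
  have hrk := hK K inferInstance hch (N + 4) ((Matrix.of g.f).map φ) hN
    (fun i j => by
      rw [Matrix.map_apply, Matrix.map_apply, Matrix.of_apply, Matrix.of_apply, g.skew, map_neg])
    (by
      have h1 := RingHom.map_det φ (Matrix.of g.f)
      rw [hdet, map_zero] at h1
      exact h1.symm)
    (fun i j hij => by
      rw [map_mij, hc i j hij, hφ]
      exact Ideal.mul_mem_right _ _ hcp)
  have hmin := (specRKM K inferInstance (N + 4) (N + 4) N ((Matrix.of g.f).map φ)).2 (by omega)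
  have hle : mI (N + 4 - 3) g ≤ p := by
    rw [mI, Ideal.span_le]
    rintro z ⟨I, J, rfl⟩
    rw [SetLike.mem_coe, ← hφ, mnr, RingHom.map_det]
    exact hmin I J
  have h2 := hD p hp hle
  have h3 := htr.trans h2
  rw [Nat.cast_le] at h3
  omega

theorem det_mij_hom {N : ℕ} (g : Biv N) (i j : Fin N) (hij : i ≠ j) :
    (EXAM.mij (Matrix.of g.f) i j).det.IsHomogeneous (2 * (N - 2)) := by
  have hcard := EXAM.card_ij i j hij
  have e : {l : Fin N // l ≠ i ∧ l ≠ j} ≃ Fin (N - 2) :=
    Fintype.equivFinOfCardEq (by omega)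
  rw [← Matrix.det_reindex_self e]
  exact MSTM.det_homog _ fun a b => g.quad _ _

end PRIM

theorem specPRI (hT : SpecTHN) (hB : SpecPRB) (hK : SpecPRK) : SpecPRI := by
  intro N g hN h4 hdet hD
  obtain ⟨n, rfl⟩ : ∃ n, N = n + 4 := ⟨N - 4, by omega⟩
  obtain ⟨th, T, hs, hh, hAT, hT0, hprim, hplu⟩ := hT (n + 4) (n + 4) (Matrix.of g.f) hN (by omega)
    g.skew g.quad hdet
  obtain ⟨c, hc⟩ := PRIM.exists_c hB (Matrix.of g.f) T hN g.skew hs hAT hT0 hprim hplu
  have hcu := PRIM.c_unit hK g hN hdet hD c (fun i j => T i j) hc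
  obtain ⟨h, hh0, rfl⟩ := isUnit_iff_eq_C_of_isReduced.1 hcu
  have hne : ∃ i j, i ≠ j ∧ T i j ≠ 0 := by
    by_contra hcon
    push Not at hcon
    apply hT0
    refine Matrix.ext fun i j => ?_
    rw [Matrix.zero_apply]
    rcases eq_or_ne i j with rfl | hij
    · exact self_eq_neg.1 (hs i i)
    · exact hcon i j hij
  obtain ⟨i, j, hij, hTij⟩ := hne
  have hdeg : th = n + 4 - 2 := by
    have h1 := PRIM.det_mij_hom g i j hij
    rw [hc i j hij] at h1
    have h2 : (C h * T i j ^ 2).IsHomogeneous (0 + th * 2) :=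
      (isHomogeneous_C _ h).mul ((hh i j).pow 2)
    have h3 : (C h : MvPolynomial (Fin (n + 4)) ℂ) * T i j ^ 2 ≠ 0 :=
      mul_ne_zero (fun h0 => hh0.ne_zero (by
        rw [← map_zero (C : ℂ →+* MvPolynomial (Fin (n + 4)) ℂ)] at h0
        exact C_injective _ _ h0)) (pow_ne_zero 2 hTij)
    have h4 := h1.inj_right h2 h3
    omega
  subst hdeg
  refine ⟨fun i j => T i j, hs, hh, fun a k => ?_, hplu, ⟨h, hh0.ne_zero, hc⟩, hprim⟩
  have h1 := congrFun (congrFun hAT a) k
  rw [Matrix.mul_apply] at h1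
  exact h1

end Pool.Agent.Lib.MPc9b009.OD
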