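import Pool.Agent.Lib.MP_c9b009_ag.OD.Spec

/-!
# MP_c9b009_ag, row OD, module PSA: identities along a component of `V`
-/

set_option autoImplicit false

namespace Pool.Agent.Lib.MPc9b009.OD

open MvPolynomial Pool.Agent.Lib.MPc9b009.B5

namespace PSAM

variable {N : ℕ} {g : Biv N} {P : Fin N → Fin N → MvPolynomial (Fin N) ℂ}
variable {L : Type} [Field L] [Algebra ℂ L] {br : MvPolynomial (Fin N) ℂ →ₐ[ℂ] L}

/-- Kernel vectors in `L`. -/
def KV (g : Biv N) (br : MvPolynomial (Fin N) ℂ →ₐ[ℂ] L) (κ : Fin N → L) : Prop :=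
  ∀ a, ∑ k, br (g.f a k) * κ k = 0

/-- Kernel vectors are determined by two coordinates. -/
theorem k0 (hK : SpecKER) (hN : Even N) (hG : Geo g P) {p q : Fin N} (hpq : p ≠ q)
    (hr : br (P p q) ≠ 0) {κ : Fin N → L} (hκ : KV g br κ) (l : Fin N) :
    br (P p q) * κ l = br (P l q) * κ p + br (P p l) * κ q := by
  have h := hK N g P hN hG.toOm L inferInstance br.toRingHom κ hκ p q l hpq
  have h2 : br (P p q) ^ 2 * (br (P p q) * κ l - br (P l q) * κ p - br (P p l) * κ q) = 0 := h
  have h3 := (mul_eq_zero.1 h2).resolve_left (pow_ne_zero 2 hr)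
  linear_combination h3

/-- Plücker in `L`. -/
theorem plu (hG : Geo g P) (i j k l : Fin N) :
    br (P i j) * br (P k l) - br (P i k) * br (P j l) + br (P i l) * br (P j k) = 0 := by
  have h := congrArg br (hG.plu i j k l)
  simpa only [map_add, map_sub, map_mul, map_zero] using h

theorem skw (hG : Geo g P) (i j : Fin N) : br (P j i) = - br (P i j) := by
  rw [hG.skew i j, map_neg]

/-- (k1) -/
theorem k1 (hK : SpecKER) (hN : Even N) (hG : Geo g P) {p q : Fin N} (hpq : p ≠ q)
    (hr : br (P p q) ≠ 0) {κ : Fin N → L} (hκ : KV g br κ) (j k l : Fin N) :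
    br (P j k) * κ l - br (P j l) * κ k + br (P k l) * κ j = 0 := by
  have h1 := k0 hK hN hG hpq hr hκ
  apply mul_left_cancel₀ hr
  have e1 := plu (br := br) hG j k l q
  have e2 := plu (br := br) hG j k p l
  have s1 := skw (br := br) hG p j
  have s2 := skw (br := br) hG p k
  rw [s1, s2] at e2
  linear_combination br (P j k) * h1 l - br (P j l) * h1 k + br (P k l) * h1 j + κ p * e1 + κ q * e2

/-- The rows of `F` are kernel vectors. -/
theorem row (hG : Geo g P) (hf : ∀ j, br (fo P j) = 0) (i : Fin N) :
    KV g br (fun k => br (FF P i k)) := by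
  intro a
  have h := congrArg br (hG.hamf a i)
  simp only [ham, map_add, map_sum, map_mul, hf, mul_zero, Finset.sum_const_zero, add_zero,
    map_zero] at h
  exact h

theorem curlL (hG : Geo g P) (i j : Fin N) :
    br (FF P j i) - br (FF P i j) = algebraMap ℂ L N * br (P i j) := by
  have h := congrArg br (hG.curl i j)
  rw [map_sub, map_mul, MvPolynomial.C_eq_algebraMap, AlgHom.commutes] at h
  exact h

/-- The columns of `F` are kernel vectors. -/
theorem col (hG : Geo g P) (hf : ∀ j, br (fo P j) = 0) (j : Fin N) :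
    KV g br (fun k => br (FF P k j)) := by
  intro a
  have h1 := row hG hf j a
  have h2 := congrArg br (hG.ker a j)
  simp only [map_sum, map_mul, map_zero] at h2
  beta_reduce at h1 ⊢
  have h3 : ∀ k, br (FF P k j) = br (FF P j k) - algebraMap ℂ L N * br (P k j) := fun k => by
    have := curlL (br := br) hG k j
    linear_combination -this
  calc ∑ k, br (g.f a k) * br (FF P k j)
      = ∑ k, br (g.f a k) * br (FF P j k)
        - algebraMap ℂ L N * ∑ k, br (g.f a k) * br (P k j) := by
        rw [Finset.mul_sum, ← Finset.sum_sub_distrib]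
        exact Finset.sum_congr rfl fun k _ => by rw [h3 k]; ring
    _ = 0 := by rw [h1, h2, mul_zero, sub_zero]

theorem main (hK : SpecKER) (hN : Even N) (hG : Geo g P) {p q : Fin N} (hpq : p ≠ q)
    (hf : ∀ j, br (fo P j) = 0) (hr : br (P p q) ≠ 0) (i j k l : Fin N) :
    br (FF P i k) * br (FF P j l) - br (FF P i l) * br (FF P j k) =
    (br (FF P p p) * br (FF P q q) - br (FF P p q) * br (FF P q p)) / br (P p q) ^ 2
      * (br (P i j) * br (P k l)) := by
  have hR : ∀ i k, br (P p q) * br (FF P i k) = br (P k q) * br (FF P i p)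
      + br (P p k) * br (FF P i q) := fun i k => k0 hK hN hG hpq hr (row hG hf i) k
  have hC : ∀ i k, br (P p q) * br (FF P i k) = br (P i q) * br (FF P p k)
      + br (P p i) * br (FF P q k) := fun i k => k0 hK hN hG hpq hr (col hG hf k) i
  have hP : ∀ k l, br (P k q) * br (P p l) - br (P l q) * br (P p k)
      = br (P p q) * br (P k l) := fun k l => by
    have e := plu (br := br) hG p q k l
    rw [skw (br := br) hG l q, skw (br := br) hG k q] at e
    linear_combination -e
  have hA : br (P p q) * (br (FF P i k) * br (FF P j l) - br (FF P i l) * br (FF P j k)) =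
      br (P k l) * (br (FF P i p) * br (FF P j q) - br (FF P i q) * br (FF P j p)) := by
    apply mul_left_cancel₀ hr
    have h1 := hR i k
    have h2 := hR j l
    have h3 := hR i l
    have h4 := hR j k
    have h5 := hP k l
    linear_combination (br (P p q) * br (FF P j l)) * h1
      + (br (P k q) * br (FF P i p) + br (P p k) * br (FF P i q)) * h2
      - (br (P p q) * br (FF P j k)) * h3
      - (br (P l q) * br (FF P i p) + br (P p l) * br (FF P i q)) * h4
      + (br (FF P i p) * br (FF P j q) - br (FF P i q) * br (FF P j p)) * h5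
  have hB : br (P p q) * (br (FF P i p) * br (FF P j q) - br (FF P i q) * br (FF P j p)) =
      br (P i j) * (br (FF P p p) * br (FF P q q) - br (FF P p q) * br (FF P q p)) := by
    apply mul_left_cancel₀ hr
    have h1 := hC i p
    have h2 := hC j q
    have h3 := hC i q
    have h4 := hC j p
    have h5 := hP i j
    linear_combination (br (P p q) * br (FF P j q)) * h1
      + (br (P i q) * br (FF P p p) + br (P p i) * br (FF P q p)) * h2
      - (br (P p q) * br (FF P j p)) * h3
      - (br (P i q) * br (FF P p q) + br (P p i) * br (FF P q q)) * h4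
      + (br (FF P p p) * br (FF P q q) - br (FF P p q) * br (FF P q p)) * h5
  have hr2 : br (P p q) ^ 2 ≠ 0 := pow_ne_zero 2 hr
  rw [div_mul_eq_mul_div, eq_div_iff hr2]
  linear_combination br (P p q) * hA + br (P k l) * hB

end PSAM

/-- PSA. -/
theorem specPSA (hK : SpecKER) : SpecPSA := by
  intro N g P hN hG L _ _ br p q hpq hf hr
  have h0 := PSAM.main hK hN hG hpq hf hr
  refine ⟨h0, fun μ i j k l => ?_⟩
  have h1 := h0 i j k l
  have h2 : br (P j k) * br (FF P i l) - br (P j l) * br (FF P i k)
      + br (P k l) * br (FF P i j) = 0 :=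
    PSAM.k1 hK hN hG hpq hr (PSAM.row hG hf i) j k l
  have h3 : br (P i k) * br (FF P j l) - br (P i l) * br (FF P j k)
      + br (P k l) * br (FF P j i) = 0 :=
    PSAM.k1 hK hN hG hpq hr (PSAM.row hG hf j) i k l
  have h4 := PSAM.curlL (br := br) hG i j
  have h5 := PSAM.plu (br := br) hG i j k l
  rw [map_mul, map_pow]
  linear_combination h1 + algebraMap ℂ L μ * (h3 - h2 - br (P k l) * h4)
    - (algebraMap ℂ L μ) ^ 2 * h5

end Pool.Agent.Lib.MPc9b009.OD
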