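import Pool.Agent.Lib.MP_c9b009_ag.OD.Spec

/-!
# MP_c9b009_ag, row OD, module PSB: `δ` is a constant along a stable prime
-/

set_option autoImplicit false

namespace Pool.Agent.Lib.MPc9b009.OD

open MvPolynomial Pool.Agent.Lib.MPc9b009.B5

namespace PSBM

/-- the saturation -/
def satI {R : Type} [CommRing R] (K : Ideal R) (d : R) : Ideal R where
  carrier := {z | ∃ k : ℕ, d ^ k * z ∈ K}
  add_mem' := by
    rintro a b ⟨k, hk⟩ ⟨m, hm⟩
    refine ⟨k + m, ?_⟩
    have e : d ^ (k + m) * (a + b) = d ^ m * (d ^ k * a) + d ^ k * (d ^ m * b) := by ring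
    rw [e]
    exact K.add_mem (K.mul_mem_left _ hk) (K.mul_mem_left _ hm)
  zero_mem' := ⟨0, by simp⟩
  smul_mem' := by
    rintro c z ⟨k, hk⟩
    refine ⟨k, ?_⟩
    have e : d ^ k * (c • z) = c * (d ^ k * z) := by rw [smul_eq_mul]; ring
    rw [e]
    exact K.mul_mem_left _ hk

theorem mem_satI {R : Type} [CommRing R] {K : Ideal R} {d z : R} :
    z ∈ satI K d ↔ ∃ k : ℕ, d ^ k * z ∈ K := Iff.rfl

theorem der_pow {R : Type} [CommRing R] [Algebra ℂ R] (D : Derivation ℂ R R) (d : R) (k : ℕ) :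
    d * D (d ^ k) = k * d ^ k * D d := by
  induction k with
  | zero => simp
  | succ k ih =>
    rw [pow_succ, D.leibniz]
    simp only [smul_eq_mul]
    have e : d * (d ^ k * D d + d * D (d ^ k)) = d * (d ^ k * D d) + d * (d * D (d ^ k)) := by ring
    rw [e, ih]
    push_cast
    ring

/-- the ideal `{z | ∃ k, d^k z ∈ p0 + (n - δ d)}` is stable. -/
theorem sat_stable {R : Type} [CommRing R] [Algebra ℂ R] (D : Derivation ℂ R R) (p0 : Ideal R)
    (hp0 : ∀ z ∈ p0, D z ∈ p0) (n d δ : R) (hδ : D δ = 0) (h1 : d * D n - n * D d ∈ p0) (z : R)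
    (hz : z ∈ satI (p0 ⊔ Ideal.span {n - δ * d}) d) :
    D z ∈ satI (p0 ⊔ Ideal.span {n - δ * d}) d := by
  obtain ⟨k, hk⟩ := hz
  refine ⟨k + 1, ?_⟩
  obtain ⟨a, ha, c, hc, hac⟩ := Submodule.mem_sup.1 hk
  obtain ⟨b, hb⟩ := Ideal.mem_span_singleton'.1 hc
  have e1 : D (d ^ k * z) = d ^ k * D z + z * D (d ^ k) := by
    rw [D.leibniz]; simp only [smul_eq_mul]
  have e2 : D (d ^ k * z) = D a + (b * (D n - δ * D d) + (n - δ * d) * D b) := by
    rw [← hac, ← hb, map_add, D.leibniz, map_sub, D.leibniz, hδ]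
    simp only [smul_eq_mul, mul_zero, add_zero]
  have e3 := der_pow D d k
  have e4 : d ^ (k + 1) * D z = (d * D a + b * (d * D n - n * D d))
      + ((b * D d + d * D b) * (n - δ * d)) - (k * D d) * (d ^ k * z) := by
    have e5 : d ^ (k + 1) * D z = d * D (d ^ k * z) - z * (d * D (d ^ k)) := by
      rw [e1]; ring
    rw [e5, e3, e2]
    ring
  rw [e4]
  refine Ideal.sub_mem _ (Ideal.add_mem _ ?_ ?_) (Ideal.mul_mem_left _ _ hk)
  · exact Ideal.mem_sup_left (p0.add_mem (p0.mul_mem_left _ (hp0 a ha)) (p0.mul_mem_left _ h1))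
  · exact Ideal.mem_sup_right (Ideal.mul_mem_left _ _ (Ideal.mem_span_singleton_self _))

/-- the Hamiltonian vector field as a derivation. -/
noncomputable def Xd {N : ℕ} (g : Biv N) (a : Fin N) :
    Derivation ℂ (MvPolynomial (Fin N) ℂ) (MvPolynomial (Fin N) ℂ) :=
  mkDerivation ℂ fun l => g.f a l

theorem Xd_apply {N : ℕ} (g : Biv N) (a : Fin N) (z : MvPolynomial (Fin N) ℂ) :
    Xd g a z = ham g a z := by
  have h := BSTM.der_poly (AlgHom.id ℂ (MvPolynomial (Fin N) ℂ)) (Xd g a) z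
  simp only [AlgHom.id_apply] at h
  rw [h, ham]
  refine Finset.sum_congr rfl fun l _ => ?_
  rw [Xd, mkDerivation_X, mul_comm]

theorem Xd_stab {N : ℕ} (g : Biv N) (a : Fin N) (z : MvPolynomial (Fin N) ℂ) :
    Xd g a z = - ∑ i, g.f i a * pderiv i z := by
  rw [Xd_apply, ham, ← Finset.sum_neg_distrib]
  refine Finset.sum_congr rfl fun l _ => ?_
  rw [g.skew l a]
  ring

theorem stab_iff {N : ℕ} (g : Biv N) (p : Ideal (MvPolynomial (Fin N) ℂ)) :
    Stab g.f p ↔ ∀ z ∈ p, ∀ a, Xd g a z ∈ p := by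
  constructor
  · intro h z hz a
    rw [Xd_stab]
    exact p.neg_mem (h z hz a)
  · intro h z hz a
    have := h z hz a
    rw [Xd_stab] at this
    exact (p.neg_mem_iff).1 this

/-- derivative of `hamf` by `∂_k`: `X_a F_ik` modulo `f`. -/
theorem XF {N : ℕ} {g : Biv N} {P : Fin N → Fin N → MvPolynomial (Fin N) ℂ} (h : Geo g P)
    (a i k : Fin N) :
    Xd g a (FF P i k) + ∑ l, pderiv k (g.f a l) * FF P i l + ∑ l, pderiv i (g.f a l) * FF P l k
      + ∑ l, pderiv k (pderiv i (g.f a l)) * fo P l = 0 := by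
  have h1 := congrArg (pderiv k) (h.hamf a i)
  rw [map_add, map_zero, ham, map_sum, map_sum] at h1
  simp only [Derivation.leibniz, smul_eq_mul, Finset.sum_add_distrib] at h1
  rw [Xd_apply, ham]
  unfold FF
  have e1 : ∑ l, g.f a l * pderiv l (pderiv k (fo P i))
      = ∑ l, g.f a l * pderiv k (pderiv l (fo P i)) :=
    Finset.sum_congr rfl fun l _ => by rw [LIFTM.pderiv_pderiv_comm l k]
  have e2 : ∑ l, pderiv k (g.f a l) * pderiv l (fo P i)
      = ∑ l, pderiv l (fo P i) * pderiv k (g.f a l) :=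
    Finset.sum_congr rfl fun l _ => mul_comm _ _
  have e3 : ∑ l, pderiv k (pderiv i (g.f a l)) * fo P l
      = ∑ l, fo P l * pderiv k (pderiv i (g.f a l)) :=
    Finset.sum_congr rfl fun l _ => mul_comm _ _
  rw [e1, e2, e3]
  linear_combination h1

/-- abstract form of the sums -/
theorem comb {ι L : Type} [Fintype ι] [Field L] (A f g h : ι → L) (x y c : L)
    (H : ∀ l, f l * x - y * g l = c * h l) :
    (∑ l, A l * f l) * x - y * (∑ l, A l * g l) = c * ∑ l, A l * h l := by
  rw [Finset.sum_mul, Finset.mul_sum, Finset.mul_sum, ← Finset.sum_sub_distrib]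
  refine Finset.sum_congr rfl fun l _ => ?_
  linear_combination A l * H l

/-- (1): the logarithmic derivative of `n` and `d` agree. -/
theorem step1 {N : ℕ} {g : Biv N} {P : Fin N → Fin N → MvPolynomial (Fin N) ℂ} (h : Geo g P)
    {L : Type} [Field L] [Algebra ℂ L] (br : MvPolynomial (Fin N) ℂ →ₐ[ℂ] L)
    (hf : ∀ j, br (fo P j) = 0) (p q : Fin N) (δ : L)
    (hA : ∀ i j k l, br (FF P i k) * br (FF P j l) - br (FF P i l) * br (FF P j k) =
      δ * (br (P i j) * br (P k l))) (a : Fin N) :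
    br (P p q ^ 2 * Xd g a (FF P p p * FF P q q - FF P p q * FF P q p)
      - (FF P p p * FF P q q - FF P p q * FF P q p) * Xd g a (P p q ^ 2)) = 0 := by
  have XFL : ∀ i k, br (Xd g a (FF P i k)) = - (∑ l, br (pderiv k (g.f a l)) * br (FF P i l))
      - ∑ l, br (pderiv i (g.f a l)) * br (FF P l k) := by
    intro i k
    have h1 := congrArg br (XF h a i k)
    simp only [map_add, map_sum, map_mul, map_zero, hf, mul_zero, Finset.sum_const_zero,
      add_zero] at h1
    linear_combination h1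
  have XPL : br (Xd g a (P p q)) = - (∑ l, br (pderiv p (g.f a l)) * br (P l q))
      - ∑ l, br (pderiv q (g.f a l)) * br (P p l) := by
    have h1 := congrArg br (h.lie a p q)
    rw [← Xd_apply] at h1
    simp only [map_add, map_sum, map_mul, map_zero] at h1
    linear_combination h1
  have c1 := comb (fun l => br (pderiv p (g.f a l))) (fun l => br (FF P p l))
    (fun l => br (FF P q l)) (fun l => br (P l q)) (br (FF P q q)) (br (FF P p q))
    (δ * br (P p q)) (fun l => by linear_combination hA p q l q)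
  have c2 := comb (fun l => br (pderiv p (g.f a l))) (fun l => br (FF P l p))
    (fun l => br (FF P l q)) (fun l => br (P l q)) (br (FF P q q)) (br (FF P q p))
    (δ * br (P p q)) (fun l => by linear_combination hA l q p q)
  have c3 := comb (fun l => br (pderiv q (g.f a l))) (fun l => br (FF P q l))
    (fun l => br (FF P p l)) (fun l => br (P p l)) (br (FF P p p)) (br (FF P q p))
    (δ * br (P p q)) (fun l => by linear_combination hA p q p l)
  have c4 := comb (fun l => br (pderiv q (g.f a l))) (fun l => br (FF P l q))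
    (fun l => br (FF P l p)) (fun l => br (P p l)) (br (FF P p p)) (br (FF P p q))
    (δ * br (P p q)) (fun l => by linear_combination hA p l p q)
  have hn := hA p q p q
  have e1 : Xd g a (FF P p p * FF P q q - FF P p q * FF P q p) = FF P p p * Xd g a (FF P q q)
      + FF P q q * Xd g a (FF P p p) - (FF P p q * Xd g a (FF P q p)
      + FF P q p * Xd g a (FF P p q)) := by
    rw [map_sub, Derivation.leibniz, Derivation.leibniz]
    simp only [smul_eq_mul]
  have e2 : Xd g a (P p q ^ 2) = 2 * P p q * Xd g a (P p q) := by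
    rw [pow_two, Derivation.leibniz]
    simp only [smul_eq_mul]
    ring
  rw [e1, e2]
  simp only [map_sub, map_mul, map_add, map_pow, XFL, map_ofNat]
  rw [XPL]
  linear_combination (-br (P p q) ^ 2) * (c1 + c2 + c3 + c4)
    + 2 * br (P p q) * ((∑ l, br (pderiv p (g.f a l)) * br (P l q))
      + ∑ l, br (pderiv q (g.f a l)) * br (P p l)) * hn

/-- the minor `Δ_pq` as an indexed minor -/
theorem minor_eq {N : ℕ} (g : Biv N) (p q : Fin N) (hpq : p ≠ q) :
    ∃ I J : Fin (N - 2) → Fin N, mnr g.f I J = (EXAM.mij (Matrix.of g.f) p q).det := by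
  have hc := EXAM.card_ij p q hpq
  have e : Fin (N - 2) ≃ {l : Fin N // l ≠ p ∧ l ≠ q} :=
    (Fintype.equivFinOfCardEq (by omega)).symm
  refine ⟨fun k => (e k).1, fun k => (e k).1, ?_⟩
  unfold mnr
  rw [← Matrix.det_submatrix_equiv_self e (EXAM.mij (Matrix.of g.f) p q)]
  rfl

/-- a zero of a prime ideal where a given polynomial does not vanish -/
theorem exists_zero {N : ℕ} (p0 : Ideal (MvPolynomial (Fin N) ℂ)) (hp : p0.IsPrime)
    (z : MvPolynomial (Fin N) ℂ) (hz : z ∉ p0) :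
    ∃ y : Fin N → ℂ, (∀ w ∈ p0, eval y w = 0) ∧ eval y z ≠ 0 := by
  by_contra hcon
  push Not at hcon
  apply hz
  have h1 : z ∈ p0.radical := by
    rw [← vanishingIdeal_zeroLocus_eq_radical (K := ℂ) p0]
    intro y hy
    have h2 := hcon y (fun w hw => by
      have := hy w hw
      rw [← coe_aeval_eq_eval]
      exact this)
    rw [← coe_aeval_eq_eval] at h2
    exact h2
  rwa [hp.radical] at h1

end PSBM

open PSBM

theorem specPSB (hPSA : SpecPSA) : SpecPSB := by
  intro N g P hNe hN hG p0 hp0 hst hf hP hD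
  obtain ⟨p, q, hpq⟩ := hP
  have hne : p ≠ q := by
    rintro rfl
    apply hpq
    have h1 : P p p + P p p = 0 := by
      nth_rewrite 1 [hG.skew p p]
      ring
    have h2 : (2 : MvPolynomial (Fin N) ℂ) * P p p = 0 := by rw [two_mul]; exact h1
    rcases mul_eq_zero.1 h2 with h3 | h3
    · exact absurd h3 two_ne_zero
    · rw [h3]; exact p0.zero_mem
  have _ := hp0
  let L := FractionRing (MvPolynomial (Fin N) ℂ ⧸ p0)
  let br : MvPolynomial (Fin N) ℂ →ₐ[ℂ] L :=
    (IsScalarTower.toAlgHom ℂ (MvPolynomial (Fin N) ℂ ⧸ p0) L).comp (Ideal.Quotient.mkₐ ℂ p0)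
  have hbr : ∀ z, br z = 0 ↔ z ∈ p0 := by
    intro z
    have e : br z = algebraMap (MvPolynomial (Fin N) ℂ ⧸ p0) L (Ideal.Quotient.mk p0 z) := rfl
    rw [e, ← Ideal.Quotient.eq_zero_iff_mem]
    exact map_eq_zero_iff _ (IsFractionRing.injective (MvPolynomial (Fin N) ℂ ⧸ p0) L)
  have hP0 : br (P p q) ≠ 0 := fun h => hpq ((hbr _).1 h)
  obtain ⟨hA, -⟩ := hPSA N g P hNe hG L inferInstance inferInstance br p q hne
    (fun j => (hbr _).2 (hf j)) hP0
  obtain ⟨δL, hδL⟩ : ∃ δL : L, δL = (br (FF P p p) * br (FF P q q)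
    - br (FF P p q) * br (FF P q p)) / br (P p q) ^ 2 := ⟨_, rfl⟩
  rw [← hδL] at hA
  have h1 : ∀ a, P p q ^ 2 * Xd g a (FF P p p * FF P q q - FF P p q * FF P q p)
      - (FF P p p * FF P q q - FF P p q * FF P q p) * Xd g a (P p q ^ 2) ∈ p0 := by
    intro a
    rw [← hbr]
    exact step1 hG br (fun j => (hbr _).2 (hf j)) p q δL hA a
  obtain ⟨n, hn⟩ : ∃ n, n = FF P p p * FF P q q - FF P p q * FF P q p := ⟨_, rfl⟩
  obtain ⟨d, hd⟩ : ∃ d, d = P p q ^ 2 := ⟨_, rfl⟩
  rw [← hn, ← hd] at h1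
  obtain ⟨y, hy0, hyz⟩ := exists_zero p0 hp0 (P p q) hpq
  have hyd : eval y d ≠ 0 := by rw [hd, map_pow]; exact pow_ne_zero _ hyz
  obtain ⟨δ, hδ⟩ : ∃ δ : ℂ, δ = eval y n / eval y d := ⟨_, rfl⟩
  have hmain : n - C δ * d ∈ p0 := by
    by_contra hcon
    have hst' := (stab_iff g p0).1 hst
    have hIst : Stab g.f (satI (p0 ⊔ Ideal.span {n - C δ * d}) d) := by
      rw [stab_iff]
      intro z hz a
      refine sat_stable (Xd g a) p0 (fun z hz => hst' z hz a) n d (C δ) ?_ (h1 a) z hz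
      rw [show (C δ : MvPolynomial (Fin N) ℂ) = algebraMap ℂ _ δ from rfl]
      exact (Xd g a).map_algebraMap δ
    have hIm : satI (p0 ⊔ Ideal.span {n - C δ * d}) d ≤ RingHom.ker (eval y) := by
      rintro z ⟨k, hk⟩
      have hK : p0 ⊔ Ideal.span {n - C δ * d} ≤ RingHom.ker (eval y) := by
        refine sup_le (fun w hw => hy0 w hw) ?_
        rw [Ideal.span_le]
        rintro _ rfl
        rw [SetLike.mem_coe, RingHom.mem_ker, map_sub, map_mul, eval_C, hδ, div_mul_cancel₀ _ hyd,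
          sub_self]
      have h2 := hK hk
      rw [RingHom.mem_ker, map_mul, map_pow] at h2
      rw [RingHom.mem_ker]
      exact (mul_eq_zero.1 h2).resolve_left (pow_ne_zero _ hyd)
    have _ : (RingHom.ker (eval y : MvPolynomial (Fin N) ℂ →+* ℂ)).IsPrime :=
      RingHom.ker_isPrime _
    obtain ⟨r, hr, hrm⟩ := Ideal.exists_minimalPrimes_le hIm
    have hrst : Stab g.f r := specDMIN N N g.f _ hIst r hr
    have hIr := hr.1.2
    have hp0r : p0 < r := by
      refine lt_of_le_of_ne (fun z hz => hIr ⟨0, ?_⟩) ?_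
      · rw [pow_zero, one_mul]
        exact Ideal.mem_sup_left hz
      · intro h
        apply hcon
        rw [h]
        refine hIr ⟨0, ?_⟩
        rw [pow_zero, one_mul]
        exact Ideal.mem_sup_right (Ideal.mem_span_singleton_self _)
    have h3 := specMONO N p0 r hp0 hr.1.1 hp0r
    rw [hD] at h3
    have h4 : ((N - 2 : ℕ) : Cardinal) ≤ Algebra.trdeg ℂ (MvPolynomial (Fin N) ℂ ⧸ r) := by
      refine specDIM N N (N - 2) g.f r hr.1.1 hrst ?_
      obtain ⟨I, J, hIJ⟩ := minor_eq g p q hne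
      refine ⟨I, J, fun hmem => ?_⟩
      rw [hIJ] at hmem
      obtain ⟨c, hc0, hc⟩ := hG.minor
      rw [hc p q hne] at hmem
      have h5 := hrm hmem
      rw [RingHom.mem_ker, map_mul, eval_C, map_pow] at h5
      exact (mul_ne_zero hc0 (pow_ne_zero _ hyz)) h5
    have h6 := (add_le_add_left h4 1).trans h3
    have h7 : ((N - 2 + 1 : ℕ) : Cardinal) ≤ ((N - 2 : ℕ) : Cardinal) := by
      rw [Nat.cast_add, Nat.cast_one]
      exact h6
    have h8 := Nat.cast_le.1 h7
    omega
  have hδ2 : δL = algebraMap ℂ L δ := by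
    have h2 := (hbr _).2 hmain
    rw [map_sub, map_mul, hn, hd] at h2
    simp only [map_sub, map_mul, map_pow] at h2
    rw [hδL]
    have h3 : br (C δ) = algebraMap ℂ L δ := by
      rw [show (C δ : MvPolynomial (Fin N) ℂ) = algebraMap ℂ _ δ from rfl]
      exact br.commutes δ
    rw [h3] at h2
    rw [div_eq_iff (pow_ne_zero _ hP0)]
    exact sub_eq_zero.1 h2
  refine ⟨δ, fun i j k l => ?_⟩
  rw [← hbr]
  have h3 : br (C δ) = algebraMap ℂ L δ := by
    rw [show (C δ : MvPolynomial (Fin N) ℂ) = algebraMap ℂ _ δ from rfl]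
    exact br.commutes δ
  simp only [map_sub, map_mul, h3]
  rw [hA, hδ2]
  ring

end Pool.Agent.Lib.MPc9b009.OD
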