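import Pool.Agent.Lib.MP_c9b009_ag.OD.Spec

/-!
# MP_c9b009_ag, row OD, module RES: restriction to the subspace
-/

set_option autoImplicit false

namespace Pool.Agent.Lib.MPc9b009.OD

open MvPolynomial Pool.Agent.Lib.MPc9b009.B5

namespace RESM

theorem diag_zero {N : ℕ} {g : Biv N} {P : Fin N → Fin N → MvPolynomial (Fin N) ℂ} (h : Om g P)
    (i : Fin N) : P i i = 0 := by
  have h1 := h.skew i i
  have h2 : (2 : MvPolynomial (Fin N) ℂ) * P i i = 0 := by linear_combination h1
  exact (mul_eq_zero.1 h2).resolve_left two_ne_zero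

theorem det_zero {N : ℕ} {g : Biv N} {P : Fin N → Fin N → MvPolynomial (Fin N) ℂ} (h : Om g P) :
    (Matrix.of g.f).det = 0 := by
  by_contra hd
  have hAT : Matrix.of g.f * Matrix.of P = 0 := by
    ext1 a k
    simpa [Matrix.mul_apply] using h.ker a k
  have h1 : (Matrix.of g.f).det • Matrix.of P = 0 := by
    have h2 := congrArg ((Matrix.of g.f).adjugate * ·) hAT
    simp only [mul_zero] at h2
    rw [← Matrix.mul_assoc, Matrix.adjugate_mul, Matrix.smul_mul, Matrix.one_mul] at h2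
    exact h2
  have h3 : ∀ i j, P i j = 0 := by
    intro i j
    have h4 := congrFun (congrFun h1 i) j
    rw [Matrix.smul_apply, Matrix.of_apply, smul_eq_mul, Matrix.zero_apply] at h4
    exact (mul_eq_zero.1 h4).resolve_left hd
  exact not_isUnit_zero (h.prim 0 (fun i j => by rw [h3 i j]))

/-- the matrix of values -/
noncomputable def Ax {N : ℕ} (g : Biv N) (x : Fin N → ℂ) : Matrix (Fin N) (Fin N) ℂ :=
  Matrix.of fun i j => eval x (g.f i j)

theorem Ax_map {N : ℕ} (g : Biv N) (x : Fin N → ℂ) :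
    Ax g x = (eval x).mapMatrix (Matrix.of g.f) := by
  ext1 i j
  rfl

theorem Ax_skew {N : ℕ} (g : Biv N) (x : Fin N → ℂ) (i j : Fin N) : Ax g x j i = - Ax g x i j := by
  show eval x (g.f j i) = - eval x (g.f i j)
  rw [g.skew i j, map_neg]

theorem Ax_det {N : ℕ} {g : Biv N} {P : Fin N → Fin N → MvPolynomial (Fin N) ℂ} (h : Om g P)
    (x : Fin N → ℂ) : (Ax g x).det = 0 := by
  rw [Ax_map, ← RingHom.map_det, det_zero h, map_zero]

theorem Ax_mij {N : ℕ} (g : Biv N) (x : Fin N → ℂ) (i j : Fin N) :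
    (EXAM.mij (Ax g x) i j).det = eval x (EXAM.mij (Matrix.of g.f) i j).det := by
  rw [RingHom.map_det]
  rfl

theorem two_le_trdeg :
    ((2 : ℕ) : Cardinal) ≤ Algebra.trdeg ℂ (S4 ⧸ (⊥ : Ideal S4)) := by
  rw [(AlgEquiv.quotientBot ℂ S4).trdeg_eq]
  have h : Algebra.trdeg ℂ S4 = ((4 : ℕ) : Cardinal) := by
    rw [MvPolynomial.trdeg_of_isDomain]
    simp
  rw [h]
  exact_mod_cast (by norm_num : (2 : ℕ) ≤ 4)

end RESM

open RESM in
theorem specRES (hPRK : SpecPRK) (hZRO : SpecZRO) : SpecRES := by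
  intro N g P u hN h4 h _ hI
  have c1 : ∀ y : Fin 4 → ℂ, y ≠ 0 → ∃ i j, eval y (CUTM.Phi u (P i j)) ≠ 0 := by
    intro y hy
    by_contra hcon
    push Not at hcon
    set x : Fin N → ℂ := fun k => ∑ b, u b k * y b with hx
    have hP : ∀ i j, eval x (P i j) = 0 := by
      intro i j
      rw [← hcon i j, CUTM.eval_Phi]
    obtain ⟨c, hc, hc2⟩ := h.minor
    have hr := hPRK ℂ inferInstance inferInstance N (Ax g x) hN (Ax_skew g x) (Ax_det h x)
      (fun i j hij => by
        rw [Ax_mij, hc2 i j hij, map_mul, map_pow, hP i j]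
        simp)
    have hm := (specRKM ℂ inferInstance N N (N - 4) (Ax g x)).2 (by omega)
    have hz : ∀ z ∈ mI (N - 3) g, eval x z = 0 := by
      intro z hz
      have hle : mI (N - 3) g ≤ RingHom.ker (eval x) := by
        rw [mI, Ideal.span_le]
        rintro _ ⟨I, J, rfl⟩
        show eval x (mnr g.f I J) = 0
        have e : N - 4 + 1 = N - 3 := by omega
        have hm' : ∀ (I : Fin (N - 3) → Fin N) (J : Fin (N - 3) → Fin N),
            (Matrix.of fun s t => (Ax g x) (I s) (J t)).det = 0 := by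
          rw [← e]
          exact hm
        rw [mnr, RingHom.map_det, ← hm' I J]
        rfl
      exact hle hz
    obtain ⟨z, hz1, hz2⟩ := hI y hy
    apply hz2
    rw [CUTM.eval_Phi]
    exact hz z hz1
  have hdet : (Matrix.of fun i j => CUTM.Phi u (g.f i j)).det = 0 := by
    have e : (Matrix.of fun i j => CUTM.Phi u (g.f i j)) = (CUTM.Phi u).mapMatrix (Matrix.of g.f) := by
      ext1 i j
      rfl
    rw [e, ← AlgHom.map_det, det_zero h, map_zero]
  refine ⟨c1, ?_, ?_, hdet⟩
  · intro y hy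
    obtain ⟨p, q, hpq⟩ := c1 y hy
    have hne : p ≠ q := by
      rintro rfl
      rw [diag_zero h, map_zero, map_zero] at hpq
      exact hpq rfl
    set x : Fin N → ℂ := fun k => ∑ b, u b k * y b with hx
    have e : (Matrix.of fun i j => eval y (CUTM.Phi u (g.f i j))) = Ax g x := by
      ext1 i j
      show eval y (CUTM.Phi u (g.f i j)) = eval x (g.f i j)
      rw [CUTM.eval_Phi]
    rw [e]
    rw [CUTM.eval_Phi] at hpq
    obtain ⟨c, hc, hc2⟩ := h.minor
    have hd : (EXAM.mij (Ax g x) p q).det ≠ 0 := by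
      rw [Ax_mij, hc2 p q hne, map_mul, map_pow, eval_C]
      exact mul_ne_zero hc (pow_ne_zero 2 hpq)
    have hr : (EXAM.mij (Ax g x) p q).rank = Fintype.card {l : Fin N // l ≠ p ∧ l ≠ q} :=
      Matrix.rank_of_isUnit _ ((Matrix.isUnit_iff_isUnit_det _).2 (isUnit_iff_ne_zero.2 hd))
    have hle : (EXAM.mij (Ax g x) p q).rank ≤ (Ax g x).rank := Matrix.rank_submatrix_le _ _ _
    have hcard := EXAM.card_ij p q hne
    omega
  · intro z hz
    have h1 : (fun _ => 1 : Fin 4 → ℂ) ≠ 0 := by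
      intro h0
      exact one_ne_zero (congrFun h0 0)
    obtain ⟨i, j, hij⟩ := c1 _ h1
    have hne : CUTM.Phi u (P i j) ≠ 0 := by
      intro h0
      rw [h0, map_zero] at hij
      exact hij rfl
    obtain ⟨w, hw⟩ := hz i j
    obtain ⟨d, e, hde, hd, -⟩ := THEM.factor (m := N - 2) (P := z) (q := w)
      (hw ▸ CUTM.Phi_hom u (h.hom i j)) (hw ▸ hne)
    rcases Nat.eq_zero_or_pos d with h0 | h0
    · subst h0
      have hC : z = C (coeff 0 z) := totalDegree_eq_zero_iff_eq_C.1
        (Nat.le_zero.1 hd.totalDegree_le)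
      have hc0 : coeff 0 z ≠ 0 := by
        intro h2
        rw [h2, map_zero] at hC
        rw [hC, zero_mul] at hw
        exact hne hw
      rw [hC]
      exact (isUnit_iff_ne_zero.2 hc0).map C
    · exfalso
      obtain ⟨y, hy, -, hy2⟩ := hZRO 4 ⊥ z d Ideal.isPrime_bot (by
        intro a ha b
        rw [Ideal.mem_bot] at ha ⊢
        rw [ha, map_zero]) two_le_trdeg h0 hd
      obtain ⟨i, j, hij⟩ := c1 y hy
      obtain ⟨w, hw⟩ := hz i j
      rw [hw, map_mul, hy2, zero_mul] at hij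
      exact hij rfl

end Pool.Agent.Lib.MPc9b009.OD
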