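import Pool.Agent.Lib.MP_c9b009_ag.OD.Spec

/-!
# MP_c9b009_ag, row OD, module RK0: the Bezout inequality
-/

set_option autoImplicit false

namespace Pool.Agent.Lib.MPc9b009.OD

open MvPolynomial Pool.Agent.Lib.MPc9b009.B5

namespace RK0M

open Module

/-- the counting sum -/
theorem sum_aux (M : ℕ) : 6 * ∑ A ∈ Finset.range (M + 1), (A + 1) * (M - A)
    = M * (M + 1) * (M + 2) := by
  induction M with
  | zero => simp
  | succ M ih =>
    have h1 : ∑ A ∈ Finset.range (M + 1 + 1), (A + 1) * (M + 1 - A)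
        = ∑ A ∈ Finset.range (M + 1), (A + 1) * (M - A) + ∑ A ∈ Finset.range (M + 1), (A + 1) := by
      rw [Finset.sum_range_succ]
      rw [show M + 1 - (M + 1) = 0 by omega, mul_zero, add_zero, ← Finset.sum_add_distrib]
      refine Finset.sum_congr rfl fun A hA => ?_
      have hA' := Finset.mem_range.1 hA
      rw [show M + 1 - A = (M - A) + 1 by omega]
      ring
    have h2 : 2 * ∑ A ∈ Finset.range (M + 1), (A + 1) = (M + 1) * (M + 2) := by
      clear h1 ih
      induction M with
      | zero => simp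
      | succ M ih =>
        rw [Finset.sum_range_succ, mul_add, ih]
        ring
    rw [h1, mul_add, ih]
    have h3 : 6 * ∑ A ∈ Finset.range (M + 1), (A + 1) = 3 * ((M + 1) * (M + 2)) := by
      rw [← h2]; ring
    rw [h3]
    ring

theorem sum_ge (e M : ℕ) : e * (M * (M + 1) * (M + 2))
    ≤ 6 * ∑ A ∈ Finset.range (M + 1), (A + 1) * (e * (M - A) + 1) := by
  rw [← sum_aux, ← mul_assoc, mul_comm e 6, mul_assoc]
  refine Nat.mul_le_mul_left 6 ?_
  rw [Finset.mul_sum]
  refine Finset.sum_le_sum fun A _ => ?_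
  nlinarith [Nat.zero_le ((A + 1) * (e * (M - A)))]

theorem choose_le (n : ℕ) : 6 * (n + 3).choose 3 ≤ (n + 3) ^ 3 := by
  have h := Nat.descFactorial_eq_factorial_mul_choose (n + 3) 3
  have h2 : (n + 3).descFactorial 3 ≤ (n + 3) ^ 3 := Nat.descFactorial_le_pow (n + 3) 3
  have h3 : Nat.factorial 3 = 6 := rfl
  rw [h3] at h
  omega

/-- the numerical end -/
theorem num_end (T e D : ℕ) (he : 1 ≤ e)
    (h : ∀ M : ℕ, T * ∑ A ∈ Finset.range (M + 1), (A + 1) * (e * (M - A) + 1)
      ≤ (e * M + D + 3).choose 3) : T ≤ e ^ 2 := by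
  by_contra hT
  have hT' : e ^ 2 + 1 ≤ T := by omega
  obtain ⟨K, hK⟩ : ∃ K, K = D + 3 := ⟨_, rfl⟩
  have hK1 : 1 ≤ K := by omega
  have h1 : ∀ M : ℕ, (e ^ 2 + 1) * (e * M ^ 3) ≤ (e * M + K) ^ 3 := by
    intro M
    have h2 := h M
    have h3 := sum_ge e M
    have h4 := choose_le (e * M + D)
    have h5 : M ^ 3 ≤ M * (M + 1) * (M + 2) := by nlinarith [Nat.zero_le M, Nat.zero_le (M ^ 2)]
    calc (e ^ 2 + 1) * (e * M ^ 3) ≤ T * (e * (M * (M + 1) * (M + 2))) :=
          Nat.mul_le_mul hT' (Nat.mul_le_mul_left e h5)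
      _ ≤ T * (6 * ∑ A ∈ Finset.range (M + 1), (A + 1) * (e * (M - A) + 1)) :=
          Nat.mul_le_mul_left T h3
      _ = 6 * (T * ∑ A ∈ Finset.range (M + 1), (A + 1) * (e * (M - A) + 1)) := by ring
      _ ≤ 6 * (e * M + D + 3).choose 3 := Nat.mul_le_mul_left 6 h2
      _ ≤ (e * M + D + 3) ^ 3 := h4
      _ = (e * M + K) ^ 3 := by rw [hK, ← add_assoc]
  have h2 := h1 (7 * e * K)
  have e1 : (e ^ 2 + 1) * (e * (7 * e * K) ^ 3) = 343 * (e ^ 6 * K ^ 3) + 343 * (e ^ 4 * K ^ 3) := by
    ring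
  have e2 : (e * (7 * e * K) + K) ^ 3
      = 343 * (e ^ 6 * K ^ 3) + 147 * (e ^ 4 * K ^ 3) + 21 * (e ^ 2 * K ^ 3) + K ^ 3 := by
    ring
  rw [e1, e2] at h2
  have h3 : e ^ 2 * K ^ 3 ≤ e ^ 4 * K ^ 3 :=
    Nat.mul_le_mul_right _ (Nat.pow_le_pow_right he (by norm_num))
  have h4 : K ^ 3 ≤ e ^ 4 * K ^ 3 := Nat.le_mul_of_pos_left _ (Nat.pow_pos he)
  have h5 : 0 < e ^ 4 * K ^ 3 := Nat.mul_pos (Nat.pow_pos he) (Nat.pow_pos hK1)
  omega

section std

variable {q l : Fin 2 → S4} {L : Type} [Field L] [Algebra S4 L] [Algebra R4 L]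
  [Algebra (FractionRing R4) L] [Algebra ℂ L]

theorem alg_eq (hS : Std q l L) (t : R4) :
    algebraMap R4 L t = algebraMap S4 L (aeval (Sum.elim q l) t) := by
  have := hS.t2
  have := hS.t3
  have h : (IsScalarTower.toAlgHom ℂ R4 L)
      = (IsScalarTower.toAlgHom ℂ S4 L).comp (aeval (Sum.elim q l)) := by
    apply MvPolynomial.algHom_ext
    intro i
    rcases i with i | j
    · simpa using hS.xl i
    · simpa using hS.xr j
  exact DFunLike.congr_fun h t

/-- the monomials span -/
theorem span_mon (hS : Std q l L) :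
    Submodule.span (FractionRing R4)
      (Set.range fun d : Fin 4 →₀ ℕ => algebraMap S4 L (monomial d 1)) = ⊤ := by
  have := hS.t1
  have := hS.t2
  have := hS.t3
  have := hS.fin
  have := hS.fr
  let f : Multiplicative (Fin 4 →₀ ℕ) →* L :=
    (algebraMap S4 L).toMonoidHom.comp
      { toFun := fun d => monomial (Multiplicative.toAdd d) (1 : ℂ)
        map_one' := rfl
        map_mul' := fun a b => by
          rw [monomial_mul, mul_one]
          rfl }
  have hf : (Set.range fun d : Fin 4 →₀ ℕ => algebraMap S4 L (monomial d 1))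
      = (MonoidHom.mrange f : Set L) := by
    ext x
    constructor
    · rintro ⟨d, rfl⟩
      exact ⟨Multiplicative.ofAdd d, rfl⟩
    · rintro ⟨d, rfl⟩
      exact ⟨Multiplicative.toAdd d, rfl⟩
  rw [hf]
  have h1 : Submodule.span (FractionRing R4) (MonoidHom.mrange f : Set L)
      = Subalgebra.toSubmodule (Algebra.adjoin (FractionRing R4) (MonoidHom.mrange f : Set L)) := by
    rw [Algebra.adjoin_eq_span, Submonoid.closure_eq]
  rw [h1]
  have hmem : ∀ z : S4, algebraMap S4 L z
      ∈ Algebra.adjoin (FractionRing R4) (MonoidHom.mrange f : Set L) := by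
    intro z
    induction z using MvPolynomial.induction_on' with
    | monomial d a =>
      have h2 : (monomial d a : S4) = C a * monomial d 1 := by
        rw [C_mul_monomial, mul_one]
      rw [h2, map_mul]
      refine Subalgebra.mul_mem _ ?_ (Algebra.subset_adjoin ⟨Multiplicative.ofAdd d, rfl⟩)
      have h3 : algebraMap S4 L (C a) = algebraMap (FractionRing R4) L
          (algebraMap R4 (FractionRing R4) (C a)) := by
        have h4 : algebraMap S4 L (C a) = algebraMap ℂ L a := by
          rw [IsScalarTower.algebraMap_apply ℂ S4 L]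
          rfl
        have h5 : algebraMap R4 L (C a) = algebraMap ℂ L a := by
          rw [IsScalarTower.algebraMap_apply ℂ R4 L]
          rfl
        rw [h4, ← h5, IsScalarTower.algebraMap_apply R4 (FractionRing R4) L]
      rw [h3]
      exact Subalgebra.algebraMap_mem _ _
    | add p q hp hq =>
      rw [map_add]
      exact Subalgebra.add_mem _ hp hq
  rw [eq_top_iff]
  intro x _
  obtain ⟨a, b, hb, rfl⟩ := IsFractionRing.div_surjective (A := S4) x
  show _ ∈ Algebra.adjoin (FractionRing R4) (MonoidHom.mrange f : Set L)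
  rw [div_eq_mul_inv]
  refine Subalgebra.mul_mem _ (hmem a) ?_
  have h3 := hmem b
  have h4 : Algebra.IsAlgebraic (FractionRing R4) L := Algebra.IsAlgebraic.of_finite _ _
  exact Subalgebra.inv_mem_of_algebraic _ (x := ⟨_, h3⟩) (h4.isAlgebraic _)

/-- a basis of monomials -/
theorem exists_mon (hS : Std q l L) : ∃ d : Fin (finrank (FractionRing R4) L) → (Fin 4 →₀ ℕ),
    LinearIndependent (FractionRing R4) (fun i => algebraMap S4 L (monomial (d i) 1)) := by
  have := hS.fin
  obtain ⟨b, hb1, hb2, hb3⟩ := exists_linearIndependent (FractionRing R4)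
    (Set.range fun d : Fin 4 →₀ ℕ => algebraMap S4 L (monomial d 1))
  rw [span_mon hS] at hb2
  let B : Basis b (FractionRing R4) L := Basis.mk hb3 (by
    rw [Subtype.range_coe_subtype, Set.ofPred_mem_eq, hb2])
  have hfin : Finite b := Module.Finite.finite_basis B
  have := Fintype.ofFinite b
  have hcard : Fintype.card b = finrank (FractionRing R4) L := (finrank_eq_card_basis B).symm
  let E : Fin (finrank (FractionRing R4) L) ≃ b := (Fintype.equivFinOfCardEq hcard).symm
  have hc : ∀ x : b, ∃ d : Fin 4 →₀ ℕ, algebraMap S4 L (monomial d 1) = x := fun x => hb1 x.2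
  choose c hc using hc
  refine ⟨fun i => c (E i), ?_⟩
  have h1 := hb3.comp E E.injective
  have h2 : (fun i => algebraMap S4 L (monomial (c (E i)) 1)) = Subtype.val ∘ E := by
    ext i
    exact hc (E i)
  rw [h2]
  exact h1

end std

/-- exponents of weight `e M` -/
noncomputable def ex (e M : ℕ) (x : Σ A : Fin (M + 1), Fin (A + 1) × Fin (e * (M - A) + 1)) :
    (Fin 2 ⊕ Fin 2) →₀ ℕ :=
  Finsupp.equivFunOnFinite.symm (Sum.elim ![(x.2.1 : ℕ), x.1 - x.2.1]
    ![(x.2.2 : ℕ), e * (M - x.1) - x.2.2])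

theorem ex_inj (e M : ℕ) : Function.Injective (ex e M) := by
  rintro ⟨A, a, b⟩ ⟨A', a', b'⟩ h
  have h1 := DFunLike.congr_fun h (Sum.inl 0)
  have h2 := DFunLike.congr_fun h (Sum.inl 1)
  have h3 := DFunLike.congr_fun h (Sum.inr 0)
  simp only [ex, Finsupp.equivFunOnFinite_symm_apply_apply, Sum.elim_inl, Sum.elim_inr,
    Matrix.cons_val_zero, Matrix.cons_val_one] at h1 h2 h3
  have ha := a.2
  have ha' := a'.2
  have hA : A = A' := by
    apply Fin.ext
    omega
  subst hA
  have haa : a = a' := Fin.ext h1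
  have hbb : b = b' := Fin.ext h3
  rw [haa, hbb]

theorem phi_hom {e M : ℕ} {q l : Fin 2 → S4} (hq : ∀ i, (q i).IsHomogeneous e)
    (hl : ∀ j, (l j).IsHomogeneous 1)
    (x : Σ A : Fin (M + 1), Fin (A + 1) × Fin (e * (M - A) + 1)) :
    (aeval (Sum.elim q l) (monomial (ex e M x) (1 : ℂ)) : S4).IsHomogeneous (e * M) := by
  obtain ⟨A, a, b⟩ := x
  rw [aeval_monomial, map_one, one_mul, Finsupp.prod_fintype _ _ (fun i => pow_zero _)]
  rw [Fintype.prod_sum_type, Fin.prod_univ_two, Fin.prod_univ_two]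
  simp only [ex, Finsupp.equivFunOnFinite_symm_apply_apply, Sum.elim_inl, Sum.elim_inr,
    Matrix.cons_val_zero, Matrix.cons_val_one]
  have ha := a.2
  have hb := b.2
  have hA := A.2
  have h1 := ((hq 0).pow (a : ℕ)).mul ((hq 1).pow (A - a : ℕ))
  have h2 := ((hl 0).pow (b : ℕ)).mul ((hl 1).pow (e * (M - A) - b : ℕ))
  have h3 := h1.mul h2
  have h4 : e * (a : ℕ) + e * (A - a : ℕ) + (1 * (b : ℕ) + 1 * (e * (M - A) - b : ℕ)) = e * M := by
    have e1 : (b : ℕ) ≤ e * (M - A) := by omega
    have e2 : 1 * (b : ℕ) + 1 * (e * (M - A) - b : ℕ) = e * (M - A) := by omega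
    rw [e2, ← mul_add, ← mul_add]
    congr 1
    omega
  rw [h4] at h3
  exact h3

end RK0M

open Module RK0M in
theorem specRK0 : SpecRK0 := by
  intro e q l he hq hl hai L _ _ _ _ _ hS
  have := hS.t1
  have := hS.t2
  have := hS.t3
  have := hS.fin
  have := hS.fr
  obtain ⟨d, hd⟩ := exists_mon hS
  obtain ⟨T, hT⟩ : ∃ T, T = finrank (FractionRing R4) L := ⟨_, rfl⟩
  -- the degree
  let D := ∑ i, (d i).degree
  have hD : ∀ i, (d i).degree ≤ D := fun i =>
    Finset.single_le_sum (f := fun i => (d i).degree) (fun _ _ => Nat.zero_le _) (Finset.mem_univ i)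
  let s : Fin (finrank (FractionRing R4) L) → S4 :=
    fun i => l 0 ^ (D - (d i).degree) * monomial (d i) 1
  have hs : ∀ i, (s i).IsHomogeneous D := by
    intro i
    have h1 := ((hl 0).pow (D - (d i).degree)).mul
      (isHomogeneous_monomial (d := d i) (1 : ℂ) (n := (d i).degree) rfl)
    have h2 : 1 * (D - (d i).degree) + (d i).degree = D := by
      have := hD i
      omega
    rw [h2] at h1
    exact h1
  have hl0 : algebraMap R4 (FractionRing R4) (X (Sum.inr 0)) ≠ 0 := by
    rw [Ne, IsFractionRing.to_map_eq_zero_iff]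
    exact X_ne_zero _
  have hind : LinearIndependent (FractionRing R4) (fun i => algebraMap S4 L (s i)) := by
    have h1 := hd.units_smul (fun i => (Units.mk0 _ hl0) ^ (D - (d i).degree))
    have h2 : (fun i => algebraMap S4 L (s i)) =
        (fun i => (Units.mk0 _ hl0) ^ (D - (d i).degree)) • (fun i => algebraMap S4 L (monomial (d i) 1)) := by
      ext i
      simp only [s, Pi.smul_apply', map_mul, map_pow]
      rw [Units.smul_def, Algebra.smul_def]
      congr 1
      rw [Units.val_pow_eq_pow_val, Units.val_mk0, map_pow, ← IsScalarTower.algebraMap_apply]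
      rw [hS.xr 0]
    rw [h2]
    exact h1
  have hindR : LinearIndependent R4 (fun i => algebraMap S4 L (s i)) :=
    hind.restrict_scalars (by
      intro a b hab
      simp only [Algebra.smul_def, mul_one] at hab
      exact IsFractionRing.injective R4 (FractionRing R4) hab)
  have hmon : LinearIndependent ℂ (fun β : (Fin 2 ⊕ Fin 2) →₀ ℕ => (monomial β (1 : ℂ) : R4)) := by
    have h := (basisMonomials (Fin 2 ⊕ Fin 2) ℂ).linearIndependent
    rwa [coe_basisMonomials] at h
  have hprod := linearIndependent_smul hmon hindR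
  refine num_end _ e D he fun M => ?_
  let ι := (Σ A : Fin (M + 1), Fin (A + 1) × Fin (e * (M - A) + 1)) ×
    Fin (finrank (FractionRing R4) L)
  let v : ι → homogeneousSubmodule (Fin 4) ℂ (e * M + D) := fun x =>
    ⟨aeval (Sum.elim q l) (monomial (ex e M x.1) (1 : ℂ)) * s x.2,
      (phi_hom hq hl x.1).mul (hs x.2)⟩
  have hv : LinearIndependent ℂ v := by
    let g : homogeneousSubmodule (Fin 4) ℂ (e * M + D) →ₗ[ℂ] L :=
      (IsScalarTower.toAlgHom ℂ S4 L).toLinearMap ∘ₗ Submodule.subtype _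
    refine LinearIndependent.of_comp g ?_
    have h1 := hprod.comp (fun x : ι => (ex e M x.1, x.2)) (by
      rintro ⟨x, i⟩ ⟨x', i'⟩ h
      simp only [Prod.mk.injEq] at h
      rw [ex_inj e M h.1, h.2])
    have h2 : (g ∘ v) = (fun p : ((Fin 2 ⊕ Fin 2) →₀ ℕ) × Fin (finrank (FractionRing R4) L) =>
        (monomial p.1 (1 : ℂ) : R4) • algebraMap S4 L (s p.2)) ∘
          (fun x : ι => (ex e M x.1, x.2)) := by
      ext x
      simp only [Function.comp_apply, Algebra.smul_def]
      rw [alg_eq hS, ← map_mul]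
      rfl
    rw [h2]
    exact h1
  have h2 := hv.fintype_card_le_finrank
  rw [CNTM.finrank_hom] at h2
  have h3 : Fintype.card ι = finrank (FractionRing R4) L *
      ∑ A ∈ Finset.range (M + 1), (A + 1) * (e * (M - A) + 1) := by
    rw [Fintype.card_prod, Fintype.card_sigma, Fintype.card_fin, mul_comm]
    congr 1
    rw [Finset.sum_range]
    refine Finset.sum_congr rfl fun A _ => ?_
    rw [Fintype.card_prod, Fintype.card_fin, Fintype.card_fin]
  rw [h3] at h2
  exact h2

end Pool.Agent.Lib.MPc9b009.OD
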