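import Pool.Agent.Lib.MP_c9b009_ag.OD.Spec

/-!
# MP_c9b009_ag, row OD, module RNK: Hilbert function and rank
-/

set_option autoImplicit false

namespace Pool.Agent.Lib.MPc9b009.OD

open MvPolynomial Pool.Agent.Lib.MPc9b009.B5

attribute [local instance] MvPolynomial.gradedAlgebra

namespace RNKM

open Module

/-- the polynomial ring in two variables -/
abbrev R2 := MvPolynomial (Fin 2) ℂ

theorem finrank_hom2 (n : ℕ) : finrank ℂ (homogeneousSubmodule (Fin 2) ℂ n) = n + 1 := by
  classical
  have hset : {d : Fin 2 →₀ ℕ | d.degree = n} =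
      ((Finset.univ.finsuppAntidiag n : Finset (Fin 2 →₀ ℕ)) : Set (Fin 2 →₀ ℕ)) := by
    ext d
    simp only [Set.mem_ofPred_eq, Finset.mem_coe, Finset.mem_finsuppAntidiag, Finset.subset_univ,
      and_true]
    rw [Finsupp.degree_eq_sum]
  rw [homogeneousSubmodule_eq_finsupp_supported]
  have e := AddMonoidAlgebra.supportedEquivFinsupp (R := ℂ) (S := ℂ) {d : Fin 2 →₀ ℕ | d.degree = n}
  refine e.finrank_eq.trans ?_
  rw [hset]
  have h1 : finrank ℂ (((Finset.univ.finsuppAntidiag n : Finset (Fin 2 →₀ ℕ)) :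
      Set (Fin 2 →₀ ℕ)) →₀ ℂ) = (Finset.univ.finsuppAntidiag n : Finset (Fin 2 →₀ ℕ)).card := by
    rw [finrank_finsupp_self]
    exact Fintype.card_coe _
  rw [h1, Finset.card_finsuppAntidiag_nat_eq_choose, Finset.card_univ, Fintype.card_fin]
  have h2 : 2 + n - 1 = n + 1 := by omega
  rw [h2, Nat.choose_succ_self_right]

/-- forms of degree `a - δ` -/
noncomputable def H (a δ : ℕ) : Submodule ℂ R2 :=
  if δ ≤ a then homogeneousSubmodule (Fin 2) ℂ (a - δ) else ⊥

theorem H_le (a δ : ℕ) : H a δ ≤ homogeneousSubmodule (Fin 2) ℂ (a - δ) := by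
  unfold H
  split_ifs
  · exact le_rfl
  · exact bot_le

theorem H_mul {a δ m : ℕ} {f h : R2} (hf : f ∈ H a δ) (hh : h.IsHomogeneous m) :
    h * f ∈ H (a + m) δ := by
  unfold H at hf ⊢
  split_ifs at hf with h1
  · rw [if_pos (by omega)]
    rw [mem_homogeneousSubmodule] at hf ⊢
    have := hh.mul hf
    have e : m + (a - δ) = a + m - δ := by omega
    rwa [e] at this
  · rw [Submodule.mem_bot] at hf
    rw [hf, mul_zero]
    exact zero_mem _

theorem comp_H (k δ : ℕ) (f : R2) :
    (if δ ≤ k then homogeneousComponent (k - δ) f else 0) ∈ H k δ := by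
  unfold H
  split_ifs
  · exact homogeneousComponent_isHomogeneous _ _
  · exact zero_mem _

/-- `f ↦ f(l) g` -/
noncomputable def phi (l : Fin 2 → S4) (g : S4) : R2 →ₗ[ℂ] S4 :=
  (LinearMap.mulRight ℂ g).comp (aeval l : R2 →ₐ[ℂ] S4).toLinearMap

theorem phi_apply (l : Fin 2 → S4) (g : S4) (f : R2) : phi l g f = aeval l f * g := rfl

theorem aeval_hom {l : Fin 2 → S4} (hl : ∀ j, (l j).IsHomogeneous 1) {f : R2} {n : ℕ}
    (hf : f.IsHomogeneous n) : (aeval l f).IsHomogeneous n := by
  have := hf.aeval l (n := 1) hl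
  rwa [one_mul] at this

theorem comp_aeval {l : Fin 2 → S4} (hl : ∀ j, (l j).IsHomogeneous 1) (f : R2) (n : ℕ) :
    homogeneousComponent n (aeval l f) = aeval l (homogeneousComponent n f) := by
  conv_lhs => rw [← sum_homogeneousComponent f]
  rw [map_sum, map_sum]
  have h1 : ∀ i ∈ Finset.range (f.totalDegree + 1),
      homogeneousComponent n (aeval l (homogeneousComponent i f)) =
        if n = i then aeval l (homogeneousComponent i f) else 0 := by
    intro i _
    exact homogeneousComponent_of_mem (aeval_hom hl (homogeneousComponent_isHomogeneous i f))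
  rw [Finset.sum_congr rfl h1, Finset.sum_ite_eq]
  split_ifs with h2
  · rfl
  · rw [Finset.mem_range, not_lt] at h2
    rw [homogeneousComponent_eq_zero _ _ (by omega), map_zero]

theorem comp_phi {l : Fin 2 → S4} (hl : ∀ j, (l j).IsHomogeneous 1) (f : R2) {g : S4} {δ : ℕ}
    (hg : g.IsHomogeneous δ) (k : ℕ) : homogeneousComponent k (aeval l f * g) =
      aeval l (if δ ≤ k then homogeneousComponent (k - δ) f else 0) * g := by
  rw [FINIM.comp_mul _ _ δ k hg]
  split_ifs
  · rw [comp_aeval hl]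
  · rw [map_zero, zero_mul]

theorem finrank_quot_le {V : Type*} [AddCommGroup V] [Module ℂ V] (W Jr P : Submodule ℂ V)
    [Module.Finite ℂ P] (h : W ≤ Jr ⊔ P) :
    finrank ℂ (↥W ⧸ Submodule.comap W.subtype Jr) ≤ finrank ℂ P := by
  let f : W →ₗ[ℂ] V ⧸ Jr := Jr.mkQ.comp W.subtype
  have hk : LinearMap.ker f = Submodule.comap W.subtype Jr := by
    rw [LinearMap.ker_comp, Submodule.ker_mkQ]
  have e := f.quotKerEquivRange.finrank_eq
  rw [hk] at e
  rw [e]
  have hr : LinearMap.range f ≤ Submodule.map Jr.mkQ P := by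
    rintro _ ⟨w, rfl⟩
    obtain ⟨j, hj, p, hp, hjp⟩ := Submodule.mem_sup.1 (h w.2)
    refine ⟨p, hp, ?_⟩
    change Jr.mkQ p = Jr.mkQ (w : V)
    rw [← hjp, map_add, (Submodule.Quotient.mk_eq_zero Jr).2 hj |> fun h => (h : Jr.mkQ j = 0),
      zero_add]
  exact (Submodule.finrank_mono hr).trans (Submodule.finrank_map_le _ _)

theorem compl (b : R2) (β : ℕ) (hb : b ≠ 0) (hbh : b.IsHomogeneous β) (n : ℕ) :
    ∃ E : Submodule ℂ R2, Module.Finite ℂ E ∧ finrank ℂ E ≤ β ∧
      ∀ f : R2, f.IsHomogeneous n → ∃ h e : R2, e ∈ E ∧ f = b * h + e ∧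
        (β ≤ n ∧ h.IsHomogeneous (n - β) ∨ h = 0) := by
  rcases lt_or_ge n β with hn | hn
  · refine ⟨homogeneousSubmodule (Fin 2) ℂ n, CNTM.fin_hom 2 n, ?_, ?_⟩
    · rw [finrank_hom2]
      omega
    · intro f hf
      exact ⟨0, f, hf, by ring, Or.inr rfl⟩
  · have : Module.Finite ℂ (homogeneousSubmodule (Fin 2) ℂ n) := CNTM.fin_hom 2 n
    have : Module.Finite ℂ (homogeneousSubmodule (Fin 2) ℂ (n - β)) := CNTM.fin_hom 2 _
    let μ : homogeneousSubmodule (Fin 2) ℂ (n - β) →ₗ[ℂ] homogeneousSubmodule (Fin 2) ℂ n :=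
      LinearMap.codRestrict _ ((LinearMap.mulLeft ℂ b).comp (Submodule.subtype _)) (by
        intro x
        have h1 := hbh.mul ((mem_homogeneousSubmodule _ _).1 x.2)
        have h2 : β + (n - β) = n := by omega
        rw [h2] at h1
        exact h1)
    have hμ : ∀ x, ((μ x : homogeneousSubmodule (Fin 2) ℂ n) : R2) = b * x := fun x => rfl
    have hinj : Function.Injective μ := by
      intro x y hxy
      apply Subtype.ext
      have h1 := congrArg (fun z : homogeneousSubmodule (Fin 2) ℂ n => (z : R2)) hxy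
      simp only [hμ] at h1
      exact mul_left_cancel₀ hb h1
    obtain ⟨Y, hY⟩ := Submodule.exists_isCompl (LinearMap.range μ)
    have hd := Submodule.finrank_add_eq_of_isCompl hY
    rw [LinearMap.finrank_range_of_inj hinj, finrank_hom2, finrank_hom2] at hd
    have hd2 : finrank ℂ Y ≤ β := by omega
    refine ⟨Submodule.map (Submodule.subtype _) Y, inferInstance, ?_, ?_⟩
    · exact (Submodule.finrank_map_le _ _).trans hd2
    · intro f hf
      have hmem : (⟨f, hf⟩ : homogeneousSubmodule (Fin 2) ℂ n) ∈ LinearMap.range μ ⊔ Y := by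
        rw [hY.sup_eq_top]
        trivial
      obtain ⟨x, ⟨h, rfl⟩, y, hy, hxy⟩ := Submodule.mem_sup.1 hmem
      refine ⟨h, y, ⟨y, hy, rfl⟩, ?_, Or.inl ⟨hn, h.2⟩⟩
      have h1 := congrArg (fun z : homogeneousSubmodule (Fin 2) ℂ n => (z : R2)) hxy
      exact h1.symm

theorem gens (J : Ideal S4) (l : Fin 2 → S4) (hJ : Hom J) (hl : ∀ j, (l j).IsHomogeneous 1)
    (hQ : ∀ Q : Ideal S4, Q.IsPrime → Hom Q → J ≤ Q → (∀ j, l j ∈ Q) →
      Algebra.trdeg ℂ (S4 ⧸ Q) ≤ 0) :
    ∃ (ι : Type) (_ : Fintype ι) (g : ι → S4) (δ : ι → ℕ), (∀ i, (g i).IsHomogeneous (δ i)) ∧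
      ∀ a, homogeneousSubmodule (Fin 4) ℂ a ≤ J.restrictScalars ℂ ⊔
        ⨆ i, Submodule.map (phi l (g i)) (H a (δ i)) := by
  classical
  set I : Ideal S4 := J ⊔ Ideal.span (Set.range l) with hI
  have hIhom : I.IsHomogeneous (homogeneousSubmodule (Fin 4) ℂ) := by
    refine Ideal.IsHomogeneous.sup ((FINIM.hom_iff J).mp hJ) ?_
    refine Ideal.homogeneous_span _ _ ?_
    rintro x ⟨b, rfl⟩
    exact ⟨1, hl b⟩
  have hrad : ∀ i : Fin 4, X i ∈ I.radical := by
    intro i
    rw [hIhom.radical_eq, Ideal.mem_sInf]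
    rintro q ⟨hq1, hq2, hq3⟩
    have hq4 : Hom q := (FINIM.hom_iff q).mpr hq1
    have hpq : J ≤ q := le_trans le_sup_left hq2
    have hyq : ∀ b, l b ∈ q := fun b => hq2 (Ideal.mem_sup_right (Ideal.subset_span ⟨b, rfl⟩))
    exact FINIM.X_mem q hq3 hq4 (hQ q hq3 hq4 hpq hyq) i
  choose n hn using fun i => hrad i
  set e : ℕ := (∑ i, n i) + 1 with he
  have hXe : ∀ i : Fin 4, (X i : S4) ^ e ∈ I := by
    intro i
    have h1 : n i ≤ e := le_trans (Finset.single_le_sum (fun j _ => Nat.zero_le (n j))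
      (Finset.mem_univ i)) (Nat.le_succ _)
    obtain ⟨k, hk⟩ := Nat.exists_eq_add_of_le h1
    rw [hk, pow_add]
    exact I.mul_mem_right _ (hn i)
  refine ⟨Fin 4 → Fin e, inferInstance,
    fun a => monomial (Finsupp.equivFunOnFinite.symm (fun i => (a i : ℕ))) 1,
    fun a => ∑ i, (a i : ℕ), ?_, ?_⟩
  · intro a
    refine isHomogeneous_monomial _ ?_
    rw [Finsupp.degree_eq_sum]
    rfl
  intro a
  induction a using Nat.strong_induction_on with
  | _ a ih =>
  intro z hz
  rw [mem_homogeneousSubmodule] at hz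
  rw [← support_sum_monomial_coeff z]
  refine Submodule.sum_mem _ fun d hd => ?_
  have hda : d.degree = a := (hz.degree_eq_sum_deg_support hd).symm
  by_cases hlt : ∀ c, d c < e
  · refine (le_sup_right : _ ≤ J.restrictScalars ℂ ⊔ _) ?_
    refine (le_iSup (fun i : Fin 4 → Fin e => Submodule.map
      (phi l (monomial (Finsupp.equivFunOnFinite.symm (fun c => (i c : ℕ))) 1))
      (H a (∑ c, (i c : ℕ)))) (fun c => ⟨d c, hlt c⟩)) ?_
    refine ⟨C (coeff d z), ?_, ?_⟩
    · unfold H
      have h1 : ∑ c, d c = a := by rw [← hda, Finsupp.degree_eq_sum]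
      change C (coeff d z) ∈ (if ∑ c, d c ≤ a then homogeneousSubmodule (Fin 2) ℂ (a - ∑ c, d c)
        else ⊥)
      rw [h1, if_pos le_rfl, Nat.sub_self]
      exact isHomogeneous_C _ _
    · rw [phi_apply, aeval_C]
      have h2 : (Finsupp.equivFunOnFinite.symm (fun c => ((⟨d c, hlt c⟩ : Fin e) : ℕ)) :
          Fin 4 →₀ ℕ) = d := by
        ext c
        rfl
      rw [h2]
      change C (coeff d z) * monomial d 1 = _
      rw [C_mul_monomial, mul_one]
  · push Not at hlt
    obtain ⟨c, hc⟩ := hlt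
    have hmemI : monomial d (coeff d z) ∈ I := by
      have h1 : monomial d (coeff d z) = monomial (d - Finsupp.single c e) (coeff d z)
          * (X c : S4) ^ e := by
        rw [X_pow_eq_monomial, monomial_mul, mul_one]
        congr 1
        rw [tsub_add_cancel_of_le]
        rw [Finsupp.single_le_iff]
        exact hc
      rw [h1]
      exact I.mul_mem_left _ (hXe c)
    obtain ⟨j, hj, y, hy, hjy⟩ := Submodule.mem_sup.1 hmemI
    obtain ⟨u, hu⟩ := (Ideal.mem_span_range_iff_exists_fun).1 hy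
    have ha1 : 1 ≤ a := by
      have h1 : d c ≤ d.degree := Finsupp.le_degree c d
      omega
    have hcomp : monomial d (coeff d z) = homogeneousComponent a j +
        ∑ b, homogeneousComponent (a - 1) (u b) * l b := by
      have h1 : homogeneousComponent a (monomial d (coeff d z)) = monomial d (coeff d z) := by
        have h2 : (monomial d (coeff d z)).IsHomogeneous a := isHomogeneous_monomial _ hda
        rw [homogeneousComponent_of_mem h2, if_pos rfl]
      rw [← h1, ← hjy, map_add, ← hu, map_sum]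
      congr 1
      refine Finset.sum_congr rfl fun b _ => ?_
      rw [FINIM.comp_mul _ _ 1 a (hl b), if_pos ha1]
    rw [hcomp]
    refine add_mem ((le_sup_left : J.restrictScalars ℂ ≤ _) (hJ j hj a)) ?_
    refine Submodule.sum_mem _ fun b _ => ?_
    have hle : J.restrictScalars ℂ ⊔ (⨆ i : Fin 4 → Fin e, Submodule.map
        (phi l (monomial (Finsupp.equivFunOnFinite.symm (fun c => (i c : ℕ))) 1))
        (H (a - 1) (∑ c, (i c : ℕ)))) ≤ Submodule.comap (LinearMap.mulRight ℂ (l b))
        (J.restrictScalars ℂ ⊔ (⨆ i : Fin 4 → Fin e, Submodule.map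
        (phi l (monomial (Finsupp.equivFunOnFinite.symm (fun c => (i c : ℕ))) 1))
        (H a (∑ c, (i c : ℕ))))) := by
      refine sup_le ?_ (iSup_le fun i => ?_)
      · intro x hx
        rw [Submodule.mem_comap]
        exact (le_sup_left : J.restrictScalars ℂ ≤ _) (J.mul_mem_right (l b) hx)
      · rintro _ ⟨f, hf, rfl⟩
        rw [Submodule.mem_comap]
        refine (le_sup_right : _ ≤ J.restrictScalars ℂ ⊔ _) ?_
        refine (le_iSup (fun i : Fin 4 → Fin e => Submodule.map
          (phi l (monomial (Finsupp.equivFunOnFinite.symm (fun c => (i c : ℕ))) 1))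
          (H a (∑ c, (i c : ℕ)))) i) ?_
        refine ⟨X b * f, ?_, ?_⟩
        · have := H_mul hf (isHomogeneous_X ℂ b)
          rwa [Nat.sub_add_cancel ha1] at this
        · rw [phi_apply, phi_apply, map_mul, aeval_X]
          change _ = _ * l b
          ring
    have h3 := ih (a - 1) (by omega) ((mem_homogeneousSubmodule _ _).2
      (homogeneousComponent_isHomogeneous (a - 1) (u b)))
    exact hle h3

theorem finrank_sup_le {ι V : Type} [AddCommGroup V] [Module ℂ V] (s : Finset ι)
    (p : ι → Submodule ℂ V) (hp : ∀ i, Module.Finite ℂ (p i)) :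
    finrank ℂ (s.sup p : Submodule ℂ V) ≤ ∑ i ∈ s, finrank ℂ (p i) := by
  classical
  induction s using Finset.induction_on with
  | empty => simp
  | insert a s ha ih =>
    rw [Finset.sup_insert, Finset.sum_insert ha]
    have : Module.Finite ℂ (s.sup p : Submodule ℂ V) := Submodule.finite_finset_sup s p
    exact (Submodule.finrank_add_le_finrank_add_finrank _ _).trans (by omega)

end RNKM

open RNKM Module in
/-- module RNK -/
theorem specRNK : SpecRNK := by
  intro J l n0 hJ hl hQ hind
  classical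
  obtain ⟨ι, _, g, δ, hg, hgen⟩ := gens J l hJ hl hQ
  let Ind : Finset ι → Prop := fun s => ∀ c : ι → R2,
    ∑ i ∈ s, aeval l (c i) * g i ∈ J → ∀ i ∈ s, c i = 0
  have hne : (Finset.univ.filter Ind).Nonempty :=
    ⟨∅, Finset.mem_filter.2 ⟨Finset.mem_univ _, fun _ _ i hi => absurd hi (Finset.notMem_empty i)⟩⟩
  obtain ⟨S, hS, hmax⟩ := Finset.exists_max_image (Finset.univ.filter Ind) Finset.card hne
  have hSI : Ind S := (Finset.mem_filter.1 hS).2
  have hcard : S.card ≤ n0 := by
    refine hind S.card (fun k => g (S.equivFin.symm k)) ?_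
    intro c hc k
    let c' : ι → R2 := fun i => if h : i ∈ S then c (S.equivFin ⟨i, h⟩) else 0
    have h1 : ∑ i ∈ S, aeval l (c' i) * g i = ∑ k, aeval l (c k) * g (S.equivFin.symm k) := by
      rw [← Finset.sum_coe_sort S (fun i => aeval l (c' i) * g i),
        ← Equiv.sum_comp S.equivFin.symm]
      refine Finset.sum_congr rfl fun k _ => ?_
      congr 2
      simp [c']
    have h2 := hSI c' (by rw [h1]; exact hc) (S.equivFin.symm k) (S.equivFin.symm k).2
    simpa [c'] using h2
  have hrel : ∀ j : ι, ∃ (β : ℕ) (b : R2) (c : ι → R2), b ≠ 0 ∧ b.IsHomogeneous β ∧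
      (j ∉ S → (∀ i, c i ∈ H (δ j + β) (δ i)) ∧
        aeval l b * g j + ∑ i ∈ S, aeval l (c i) * g i ∈ J) := by
    intro j
    by_cases hj : j ∈ S
    · exact ⟨0, 1, 0, one_ne_zero, isHomogeneous_one _ _, fun h => absurd hj h⟩
    have hn : ¬ Ind (insert j S) := by
      intro h
      have h1 := hmax (insert j S) (by simp [h])
      rw [Finset.card_insert_of_notMem hj] at h1
      omega
    simp only [Ind] at hn
    push Not at hn
    obtain ⟨c, hc, i0, hi0, hci0⟩ := hn
    rw [Finset.sum_insert hj] at hc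
    have hcj : c j ≠ 0 := by
      intro h0
      rw [h0, map_zero, zero_mul, zero_add] at hc
      rcases Finset.mem_insert.1 hi0 with rfl | h1
      · exact hci0 h0
      · exact hci0 (hSI c hc i0 h1)
    obtain ⟨β, hβ⟩ : ∃ β, homogeneousComponent β (c j) ≠ 0 := by
      by_contra hno
      push Not at hno
      apply hcj
      rw [← sum_homogeneousComponent (c j)]
      exact Finset.sum_eq_zero fun i _ => hno i
    refine ⟨β, homogeneousComponent β (c j), fun i => if δ i ≤ δ j + β then
      homogeneousComponent (δ j + β - δ i) (c i) else 0, hβ,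
      homogeneousComponent_isHomogeneous _ _, fun _ => ⟨fun i => comp_H _ _ _, ?_⟩⟩
    have h3 := hJ _ hc (δ j + β)
    rw [map_add, map_sum, comp_phi hl _ (hg j), if_pos (by omega)] at h3
    have h4 : δ j + β - δ j = β := by omega
    rw [h4] at h3
    convert h3 using 2
    refine Finset.sum_congr rfl fun i _ => ?_
    rw [comp_phi hl _ (hg i)]
  choose β b c hb0 hbh hbc using hrel
  set B : R2 := ∏ j, b j with hB
  set βt : ℕ := ∑ j, β j with hβt
  have hB0 : B ≠ 0 := Finset.prod_ne_zero_iff.2 fun j _ => hb0 j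
  have hBh : B.IsHomogeneous βt := IsHomogeneous.prod _ _ _ fun j _ => hbh j
  choose E hEf hEd hE using fun n => compl B βt hB0 hBh n
  refine ⟨Fintype.card ι * βt, fun a => ?_⟩
  let U : ι → Submodule ℂ R2 := fun i => if i ∈ S then homogeneousSubmodule (Fin 2) ℂ (a - δ i)
    else E (a - δ i)
  have hUf : ∀ i, Module.Finite ℂ (U i) := by
    intro i
    by_cases hi : i ∈ S
    · have h1 : U i = homogeneousSubmodule (Fin 2) ℂ (a - δ i) := if_pos hi
      rw [h1]
      exact CNTM.fin_hom 2 _
    · have h1 : U i = E (a - δ i) := if_neg hi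
      rw [h1]
      exact hEf _
  have hUd : ∀ i, finrank ℂ (U i) ≤ (if i ∈ S then a + 1 else 0) + βt := by
    intro i
    by_cases hi : i ∈ S
    · have h1 : U i = homogeneousSubmodule (Fin 2) ℂ (a - δ i) := if_pos hi
      rw [h1, finrank_hom2, if_pos hi]
      omega
    · have h1 : U i = E (a - δ i) := if_neg hi
      rw [h1, if_neg hi, zero_add]
      exact hEd _
  let P : Submodule ℂ S4 := Finset.univ.sup fun i => Submodule.map (phi l (g i)) (U i)
  have hPf : ∀ i, Module.Finite ℂ (Submodule.map (phi l (g i)) (U i)) := by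
    intro i
    have := hUf i
    infer_instance
  have hPfin : Module.Finite ℂ P := Submodule.finite_finset_sup _ _
  have hPle : ∀ i, Submodule.map (phi l (g i)) (U i) ≤ P := fun i =>
    Finset.le_sup (f := fun i => Submodule.map (phi l (g i)) (U i)) (Finset.mem_univ i)
  have hPS : ∀ i ∈ S, ∀ f ∈ H a (δ i), aeval l f * g i ∈ P := by
    intro i hi f hf
    refine hPle i ⟨f, ?_, rfl⟩
    have h1 : U i = homogeneousSubmodule (Fin 2) ℂ (a - δ i) := if_pos hi
    rw [h1]
    exact H_le _ _ hf
  have hW : homogeneousSubmodule (Fin 4) ℂ a ≤ J.restrictScalars ℂ ⊔ P := by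
    refine (hgen a).trans (sup_le le_sup_left (iSup_le fun j => ?_))
    rintro _ ⟨f, hf, rfl⟩
    rw [phi_apply]
    by_cases hj : j ∈ S
    · exact (le_sup_right : P ≤ _) (hPS j hj f hf)
    by_cases hja : δ j ≤ a
    swap
    · have h1 : f = 0 := by
        unfold H at hf
        have h2 : f ∈ (if δ j ≤ a then homogeneousSubmodule (Fin 2) ℂ (a - δ j) else ⊥) := hf
        rw [if_neg hja] at h2
        exact (Submodule.mem_bot ℂ).1 h2
      rw [h1, map_zero, zero_mul]
      exact zero_mem _
    obtain ⟨h, e, he, hfe, hh⟩ := hE (a - δ j) f (H_le _ _ hf)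
    rw [hfe, map_add, add_mul]
    refine add_mem ?_ ((le_sup_right : P ≤ _) (hPle j ⟨e, ?_, rfl⟩))
    swap
    · have h1 : U j = E (a - δ j) := if_neg hj
      rw [h1]
      exact he
    rcases hh with ⟨hβa, hh⟩ | hh
    swap
    · rw [hh, mul_zero, map_zero, zero_mul]
      exact zero_mem _
    obtain ⟨hc1, hc2⟩ := hbc j hj
    have hBj : B = b j * ∏ i ∈ Finset.univ.erase j, b i := (Finset.mul_prod_erase _ _
      (Finset.mem_univ j)).symm
    have hβj : βt = β j + ∑ i ∈ Finset.univ.erase j, β i := (Finset.add_sum_erase _ _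
      (Finset.mem_univ j)).symm
    set R := ∏ i ∈ Finset.univ.erase j, b i with hR
    have hRh : R.IsHomogeneous (∑ i ∈ Finset.univ.erase j, β i) :=
      IsHomogeneous.prod _ _ _ fun i _ => hbh i
    have hhR : (h * R).IsHomogeneous (a - δ j - β j) := by
      have h1 := hh.mul hRh
      have h2 : a - δ j - βt + ∑ i ∈ Finset.univ.erase j, β i = a - δ j - β j := by omega
      rwa [h2] at h1
    have hsplit : aeval l (B * h) * g j = aeval l (h * R) * (aeval l (b j) * g j +
        ∑ i ∈ S, aeval l (c j i) * g i) - ∑ i ∈ S, aeval l (h * R * c j i) * g i := by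
      rw [hBj, mul_add, Finset.mul_sum]
      have h1 : ∀ i ∈ S, aeval l (h * R) * (aeval l (c j i) * g i) =
          aeval l (h * R * c j i) * g i := by
        intro i _
        rw [map_mul (aeval l) (h * R)]
        ring
      rw [Finset.sum_congr rfl h1]
      simp only [map_mul]
      ring
    rw [hsplit]
    refine sub_mem ((le_sup_left : J.restrictScalars ℂ ≤ _) (J.mul_mem_left _ hc2)) ?_
    refine (le_sup_right : P ≤ _) (Submodule.sum_mem _ fun i hi => hPS i hi _ ?_)
    have h1 := H_mul (hc1 i) hhR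
    have h2 : δ j + β j + (a - δ j - β j) = a := by omega
    rwa [h2] at h1
  have hfin : hq J a ≤ finrank ℂ P := finrank_quot_le _ _ P hW
  refine hfin.trans ((finrank_sup_le _ _ hPf).trans ?_)
  have h1 : ∑ i, finrank ℂ (Submodule.map (phi l (g i)) (U i)) ≤
      ∑ i : ι, ((if i ∈ S then a + 1 else 0) + βt) := by
    refine Finset.sum_le_sum fun i _ => ?_
    have := hUf i
    exact (Submodule.finrank_map_le _ _).trans (hUd i)
  refine h1.trans ?_
  rw [Finset.sum_add_distrib, Finset.sum_ite_mem, Finset.univ_inter, Finset.sum_const,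
    Finset.sum_const, smul_eq_mul, smul_eq_mul, Finset.card_univ]
  have := Nat.mul_le_mul_right (a + 1) hcard
  omega

end Pool.Agent.Lib.MPc9b009.OD
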