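import Pool.Agent.Lib.MP_c9b009_ag.OD.Spec

/-!
# MP_c9b009_ag, row OD: module RST
-/

set_option autoImplicit false

namespace Pool.Agent.Lib.MPc9b009.OD

open MvPolynomial Pool.Agent.Lib.MPc9b009.B5

namespace RSTM

/-- the wedge of a 2-form with two covectors -/
noncomputable def W (O : Fin 4 → Fin 4 → S4) (x y : Fin 4 → S4) : S4 :=
  O 0 1 * (x 2 * y 3 - x 3 * y 2) - O 0 2 * (x 1 * y 3 - x 3 * y 1)
  + O 0 3 * (x 1 * y 2 - x 2 * y 1) + O 1 2 * (x 0 * y 3 - x 3 * y 0)
  - O 1 3 * (x 0 * y 2 - x 2 * y 0) + O 2 3 * (x 0 * y 1 - x 1 * y 0)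

lemma lap (r : Fin 4 → Fin 4 → S4) : (Matrix.of r).det =
    W (fun c d => r 0 c * r 1 d - r 0 d * r 1 c) (r 2) (r 3) := by
  rw [Matrix.det_succ_row_zero]
  simp [Fin.sum_univ_four, Matrix.det_fin_three, Matrix.submatrix, Fin.succAbove, W]
  ring

lemma W_smul (s : S4) (O : Fin 4 → Fin 4 → S4) (x y : Fin 4 → S4) :
    W (fun c d => s * O c d) x y = s * W O x y := by
  unfold W; ring

lemma W_comb (s t : S4) (O O' : Fin 4 → Fin 4 → S4) (x y : Fin 4 → S4) :
    W (fun c d => s * O c d - t * O' c d) x y = s * W O x y - t * W O' x y := by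
  unfold W; ring

lemma W_mem (I : Ideal S4) (O : Fin 4 → Fin 4 → S4) (h : ∀ c d, O c d ∈ I) (x y : Fin 4 → S4) :
    W O x y ∈ I := by
  unfold W
  refine I.add_mem (I.sub_mem (I.add_mem (I.add_mem (I.sub_mem ?_ ?_) ?_) ?_) ?_) ?_ <;>
  exact I.mul_mem_right _ (h _ _)

lemma chain {N : ℕ} (u : Fin 4 → Fin N → ℂ) (c : Fin 4) (z : MvPolynomial (Fin N) ℂ) :
    pderiv c (CUTM.Phi u z) = ∑ k, C (u c k) * CUTM.Phi u (pderiv k z) := by
  classical
  induction z using MvPolynomial.induction_on with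
  | C a =>
    have : CUTM.Phi u (C a) = C a := by simp [CUTM.Phi]
    rw [this, pderiv_C]
    simp
  | add p q hp hq =>
    rw [map_add, map_add, hp, hq, ← Finset.sum_add_distrib]
    refine Finset.sum_congr rfl fun k _ => ?_
    rw [map_add, map_add, mul_add]
  | mul_X p n hp =>
    have hX : CUTM.Phi u (X n) = ∑ b, C (u b n) * X b := by simp [CUTM.Phi]
    have h1 : pderiv c (CUTM.Phi u (X n)) = C (u c n) := by
      rw [hX, map_sum, Finset.sum_eq_single c]
      · rw [pderiv_C_mul, pderiv_X_self, mul_one]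
      · intro b _ hb
        rw [pderiv_C_mul, pderiv_X_of_ne hb, mul_zero]
      · intro h; exact absurd (Finset.mem_univ _) h
    rw [map_mul, pderiv_mul, hp, h1]
    have h2 : ∀ k, C (u c k) * CUTM.Phi u (pderiv k (p * X n))
        = C (u c k) * CUTM.Phi u (pderiv k p) * CUTM.Phi u (X n)
          + CUTM.Phi u p * (C (u c k) * CUTM.Phi u (pderiv k (X n))) := by
      intro k
      rw [pderiv_mul, map_add, map_mul, map_mul]; ring
    rw [Finset.sum_congr rfl fun k _ => h2 k, Finset.sum_add_distrib, ← Finset.sum_mul,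
      ← Finset.mul_sum]
    congr 2
    rw [Finset.sum_eq_single n]
    · rw [pderiv_X_self, map_one, mul_one]
    · intro k _ hk
      rw [pderiv_X_of_ne (Ne.symm hk), map_zero, mul_zero]
    · intro h; exact absurd (Finset.mem_univ _) h

lemma jc_eq (q l : Fin 2 → S4) : jc q l = W (fun c d => pderiv c (q 0) * pderiv d (q 1)
    - pderiv d (q 0) * pderiv c (q 1)) (fun c => pderiv c (l 0)) (fun c => pderiv c (l 1)) := by
  unfold jc
  rw [lap]
  simp only [Matrix.cons_val_zero, Matrix.cons_val_one, Matrix.cons_val]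

/-- `f_a` -/
noncomputable def fa {N : ℕ} (P : Fin N → Fin N → MvPolynomial (Fin N) ℂ) (a : Fin N → ℂ) :
    MvPolynomial (Fin N) ℂ := ∑ i, C (a i) * fo P i

/-- `P(e_k, a)` -/
noncomputable def al {N : ℕ} (P : Fin N → Fin N → MvPolynomial (Fin N) ℂ) (a : Fin N → ℂ)
    (k : Fin N) : MvPolynomial (Fin N) ℂ := ∑ i, C (a i) * P k i

lemma fa_eq {N : ℕ} (P : Fin N → Fin N → MvPolynomial (Fin N) ℂ) (a : Fin N → ℂ) :
    fa P a = ∑ k, X k * al P a k := by
  unfold fa al fo
  simp_rw [Finset.mul_sum]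
  rw [Finset.sum_comm]
  refine Finset.sum_congr rfl fun k _ => Finset.sum_congr rfl fun i _ => ?_
  ring

lemma wedge {N : ℕ} {P : Fin N → Fin N → MvPolynomial (Fin N) ℂ}
    (hplu : ∀ i j k l, P i j * P k l - P i k * P j l + P i l * P j k = 0)
    (a b : Fin N → ℂ) (k l : Fin N) :
    al P a k * al P b l - al P a l * al P b k = Puv P a b * P k l := by
  unfold al Puv
  rw [Finset.sum_mul_sum, Finset.sum_mul_sum, ← Finset.sum_sub_distrib, Finset.sum_mul]
  refine Finset.sum_congr rfl fun i _ => ?_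
  rw [← Finset.sum_sub_distrib, Finset.sum_mul]
  refine Finset.sum_congr rfl fun j _ => ?_
  linear_combination (-C (a i) * C (b j)) * hplu k l i j

lemma third {N : ℕ} {P : Fin N → Fin N → MvPolynomial (Fin N) ℂ}
    (hplu : ∀ i j k l, P i j * P k l - P i k * P j l + P i l * P j k = 0)
    (a b : Fin N → ℂ) (i : Fin N) :
    Puv P a b * fo P i = al P b i * fa P a - al P a i * fa P b := by
  rw [fa_eq, fa_eq]
  unfold fo
  rw [Finset.mul_sum, Finset.mul_sum, Finset.mul_sum, ← Finset.sum_sub_distrib]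
  refine Finset.sum_congr rfl fun k _ => ?_
  linear_combination (- X k) * wedge hplu a b k i

end RSTM

theorem specRST (hE2 : SpecE2) : SpecRST := by
  intro N g P hN hG u a b q l hq0 hq1
  have hqa : q 0 = CUTM.Phi u (RSTM.fa P a) := by
    rw [hq0]; unfold RSTM.fa; rw [map_sum]
    refine Finset.sum_congr rfl fun i _ => ?_
    rw [map_mul]; simp [CUTM.Phi]
  have hqb : q 1 = CUTM.Phi u (RSTM.fa P b) := by
    rw [hq1]; unfold RSTM.fa; rw [map_sum]
    refine Finset.sum_congr rfl fun i _ => ?_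
    rw [map_mul]; simp [CUTM.Phi]
  set O : Fin 4 → Fin 4 → S4 := fun c d =>
    ∑ k, ∑ m, C (u c k) * C (u d m) * CUTM.Phi u (P k m) with hO
  set x : Fin 4 → S4 := fun c => pderiv c (l 0) with hx
  set y : Fin 4 → S4 := fun c => pderiv c (l 1) with hy
  have hX : ∀ k, CUTM.Phi u (X k) = ∑ c, C (u c k) * X c := by
    intro k; simp [CUTM.Phi]
  have hV : ∀ v : Fin N → ℂ, ∑ c, X c * (∑ k, C (u c k) * CUTM.Phi u (RSTM.al P v k))
      = CUTM.Phi u (RSTM.fa P v) := by
    intro v
    rw [RSTM.fa_eq, map_sum]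
    simp_rw [Finset.mul_sum]
    rw [Finset.sum_comm]
    refine Finset.sum_congr rfl fun k _ => ?_
    rw [map_mul, hX, Finset.sum_mul]
    refine Finset.sum_congr rfl fun c _ => ?_
    ring
  refine ⟨![fun c => ∑ k, C (u c k) * CUTM.Phi u (RSTM.al P a k),
    fun c => ∑ k, C (u c k) * CUTM.Phi u (RSTM.al P b k)], RSTM.W O x y, ?_, ?_, ?_, ?_⟩
  · intro i
    fin_cases i
    · exact (hV a).trans hqa.symm
    · exact (hV b).trans hqb.symm
  · unfold vd
    rw [RSTM.lap, ← RSTM.W_smul]
    have : (fun c d => (![fun c => ∑ k, C (u c k) * CUTM.Phi u (RSTM.al P a k),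
        fun c => ∑ k, C (u c k) * CUTM.Phi u (RSTM.al P b k), fun c => pderiv c (l 0),
        fun c => pderiv c (l 1)] : Fin 4 → Fin 4 → S4) 0 c *
        (![fun c => ∑ k, C (u c k) * CUTM.Phi u (RSTM.al P a k),
        fun c => ∑ k, C (u c k) * CUTM.Phi u (RSTM.al P b k), fun c => pderiv c (l 0),
        fun c => pderiv c (l 1)] : Fin 4 → Fin 4 → S4) 1 d -
        (![fun c => ∑ k, C (u c k) * CUTM.Phi u (RSTM.al P a k),
        fun c => ∑ k, C (u c k) * CUTM.Phi u (RSTM.al P b k), fun c => pderiv c (l 0),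
        fun c => pderiv c (l 1)] : Fin 4 → Fin 4 → S4) 0 d *
        (![fun c => ∑ k, C (u c k) * CUTM.Phi u (RSTM.al P a k),
        fun c => ∑ k, C (u c k) * CUTM.Phi u (RSTM.al P b k), fun c => pderiv c (l 0),
        fun c => pderiv c (l 1)] : Fin 4 → Fin 4 → S4) 1 c)
        = fun c d => CUTM.Phi u (Puv P a b) * O c d := by
      funext c d
      show (∑ k, C (u c k) * CUTM.Phi u (RSTM.al P a k)) * (∑ k, C (u d k) * CUTM.Phi u (RSTM.al P b k))
        - (∑ k, C (u d k) * CUTM.Phi u (RSTM.al P a k)) * (∑ k, C (u c k) * CUTM.Phi u (RSTM.al P b k))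
        = CUTM.Phi u (Puv P a b) * O c d
      have e2 : (∑ k, C (u d k) * CUTM.Phi u (RSTM.al P a k)) *
          (∑ k, C (u c k) * CUTM.Phi u (RSTM.al P b k))
          = ∑ k, ∑ m, C (u c k) * C (u d m) *
            (CUTM.Phi u (RSTM.al P a m) * CUTM.Phi u (RSTM.al P b k)) := by
        rw [mul_comm, Finset.sum_mul_sum]
        refine Finset.sum_congr rfl fun k _ => Finset.sum_congr rfl fun m _ => ?_
        ring
      rw [e2, Finset.sum_mul_sum, ← Finset.sum_sub_distrib, hO, Finset.mul_sum]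
      refine Finset.sum_congr rfl fun k _ => ?_
      rw [← Finset.sum_sub_distrib, Finset.mul_sum]
      refine Finset.sum_congr rfl fun m _ => ?_
      have h1 := congrArg (CUTM.Phi u) (RSTM.wedge hG.plu a b k m)
      rw [map_sub, map_mul, map_mul, map_mul] at h1
      linear_combination (C (u c k) * C (u d m)) * h1
    exact congrArg (fun O' => RSTM.W O' x y) this
  · intro z hz
    unfold Jf at hz
    rw [Ideal.map_span] at hz
    induction hz using Submodule.span_induction with
    | mem z' hz' =>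
      obtain ⟨f, ⟨i, rfl⟩, rfl⟩ := hz'
      have h1 := congrArg (CUTM.Phi u) (RSTM.third hG.plu a b i)
      rw [map_sub, map_mul, map_mul, map_mul, ← hqa, ← hqb] at h1
      show CUTM.Phi u (Puv P a b) * CUTM.Phi u (fo P i) ∈ _
      rw [h1]
      exact Ideal.sub_mem _ (Ideal.mul_mem_left _ _ (Ideal.subset_span (by simp)))
        (Ideal.mul_mem_left _ _ (Ideal.subset_span (by simp)))
    | zero => rw [mul_zero]; exact Submodule.zero_mem _
    | add z1 z2 _ _ h1 h2 => rw [mul_add]; exact Ideal.add_mem _ h1 h2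
    | smul s z1 _ h1 =>
      rw [smul_eq_mul, mul_left_comm]
      exact Ideal.mul_mem_left _ _ h1
  · obtain ⟨m, hm⟩ := hE2 N g P hN hG a b
    refine ⟨m, ?_⟩
    set I := Ideal.map (CUTM.Phi u) (Jf P) with hI
    set pu := CUTM.Phi u (Puv P a b) with hpu
    set du := CUTM.Phi u (duv P a b) with hdu
    have hFu : ∀ (v : Fin N → ℂ) (c : Fin 4), pderiv c (CUTM.Phi u (RSTM.fa P v))
        = ∑ k, C (u c k) * CUTM.Phi u (Fu P v k) := by
      intro v c
      rw [RSTM.chain]
      refine Finset.sum_congr rfl fun k _ => ?_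
      congr 2
      unfold RSTM.fa Fu FF
      rw [map_sum]
      refine Finset.sum_congr rfl fun i _ => ?_
      rw [pderiv_C_mul]
    have hmem : ∀ c d, pu ^ m * (pu * (pderiv c (q 0) * pderiv d (q 1)
        - pderiv d (q 0) * pderiv c (q 1)) - du * O c d) ∈ I := by
      intro c d
      have e : pu ^ m * (pu * (pderiv c (q 0) * pderiv d (q 1)
        - pderiv d (q 0) * pderiv c (q 1)) - du * O c d)
        = ∑ k, ∑ n, C (u c k) * C (u d n) * CUTM.Phi u (Puv P a b ^ m *
          (Puv P a b * (Fu P a k * Fu P b n - Fu P a n * Fu P b k) - duv P a b * P k n)) := by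
        rw [hqa, hqb, hFu, hFu, hFu, hFu]
        have e2 : (∑ k, C (u d k) * CUTM.Phi u (Fu P a k)) *
            (∑ k, C (u c k) * CUTM.Phi u (Fu P b k))
            = ∑ k, ∑ n, C (u c k) * C (u d n) *
              (CUTM.Phi u (Fu P a n) * CUTM.Phi u (Fu P b k)) := by
          rw [mul_comm, Finset.sum_mul_sum]
          refine Finset.sum_congr rfl fun k _ => Finset.sum_congr rfl fun n _ => ?_
          ring
        rw [e2, Finset.sum_mul_sum, ← Finset.sum_sub_distrib, hO, Finset.mul_sum, Finset.mul_sum,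
          ← Finset.sum_sub_distrib, Finset.mul_sum]
        refine Finset.sum_congr rfl fun k _ => ?_
        rw [← Finset.sum_sub_distrib, Finset.mul_sum, Finset.mul_sum, ← Finset.sum_sub_distrib,
          Finset.mul_sum]
        refine Finset.sum_congr rfl fun n _ => ?_
        simp only [map_sub, map_mul, map_pow]
        rw [← hpu, ← hdu]
        ring
      rw [e]
      refine Ideal.sum_mem _ fun k _ => Ideal.sum_mem _ fun n _ => ?_
      exact Ideal.mul_mem_left _ _ (Ideal.mem_map_of_mem _ (hm k n))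
    have h1 := RSTM.W_mem I _ hmem x y
    have h2 : RSTM.W (fun c d => pu ^ m * (pu * (pderiv c (q 0) * pderiv d (q 1)
        - pderiv d (q 0) * pderiv c (q 1)) - du * O c d)) x y
        = pu ^ m * (pu * jc q l - du * RSTM.W O x y) := by
      have hj : jc q l = RSTM.W (fun c d => pderiv c (q 0) * pderiv d (q 1)
        - pderiv d (q 0) * pderiv c (q 1)) x y := RSTM.jc_eq q l
      have h3 := RSTM.W_comb pu du (fun c d => pderiv c (q 0) * pderiv d (q 1)
        - pderiv d (q 0) * pderiv c (q 1)) O x y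
      rw [RSTM.W_smul, hj]
      exact congrArg (fun t => pu ^ m * t) h3
    rw [← h2]
    exact h1

end Pool.Agent.Lib.MPc9b009.OD
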