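import Pool.Agent.Lib.MP_c9b009_ag.OD.Spec

/-!
# MP_c9b009_ag, row OD, module THN: the kernel generator
-/

set_option autoImplicit false

namespace Pool.Agent.Lib.MPc9b009.OD

open MvPolynomial Pool.Agent.Lib.MPc9b009.B5

namespace THNM

open Module THEM

variable {N nv : ℕ}

/-- two independent kernel vectors over the fraction field, with a nonzero minor -/
theorem two_vec (hSKE : SpecSKE) (A : Matrix (Fin N) (Fin N) (MvPolynomial (Fin nv) ℂ)) (hN : Even N)
    (hsk : ∀ i j, A j i = - A i j) (hdet : A.det = 0) :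
    ∃ k k' : Fin N → (MvPolynomial (Fin nv) ℂ), A.mulVec k = 0 ∧ A.mulVec k' = 0 ∧
      ∃ i j, k i * k' j - k j * k' i ≠ 0 := by
  classical
  set K := FractionRing (MvPolynomial (Fin nv) ℂ) with hK
  set B : Matrix (Fin N) (Fin N) K := A.map (algebraMap (MvPolynomial (Fin nv) ℂ) K) with hB
  have hBsk : B.transpose = - B := by
    ext i j
    rw [Matrix.transpose_apply, Matrix.neg_apply, hB, Matrix.map_apply, Matrix.map_apply,
      hsk i j, map_neg]
  have hBdet : B.det = 0 := by
    have h := RingHom.map_det (algebraMap (MvPolynomial (Fin nv) ℂ) K) A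
    rw [RingHom.mapMatrix_apply] at h
    rw [hB, ← h, hdet, map_zero]
  have hrn := LinearMap.finrank_range_add_finrank_ker B.mulVecLin
  have hr0 : finrank K (LinearMap.range B.mulVecLin) = B.rank := rfl
  rw [hr0, finrank_fin_fun] at hrn
  obtain ⟨v, hv0, hv⟩ := Matrix.exists_mulVec_eq_zero_iff.2 hBdet
  have hpos : 1 ≤ finrank K (LinearMap.ker B.mulVecLin) := by
    rw [Nat.one_le_iff_ne_zero]
    intro h
    rw [Submodule.finrank_eq_zero] at h
    have : v ∈ LinearMap.ker B.mulVecLin := hv
    rw [h, Submodule.mem_bot] at this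
    exact hv0 this
  obtain ⟨c, hc⟩ := hN
  have hker : 1 < finrank K (LinearMap.ker B.mulVecLin) := by
    have h1 := hSKE K inferInstance inferInstance N (c - 1) B hBsk (by omega)
    omega
  have hx0 : (⟨v, hv⟩ : LinearMap.ker B.mulVecLin) ≠ 0 := by
    intro h
    exact hv0 (congrArg Subtype.val h)
  obtain ⟨y, hy⟩ := exists_linearIndependent_pair_of_one_lt_finrank hker hx0
  rw [LinearIndependent.pair_iff] at hy
  set u : Fin N → K := v with hu
  set u' : Fin N → K := y.1 with hu'
  have hBu' : B.mulVec u' = 0 := y.2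
  obtain ⟨i, hi⟩ : ∃ i, u i ≠ 0 := by
    by_contra hcon
    push Not at hcon
    exact hv0 (funext hcon)
  obtain ⟨j, hj⟩ : ∃ j, u i * u' j - u j * u' i ≠ 0 := by
    by_contra hcon
    push Not at hcon
    have h1 := hy (- u' i) (u i) (by
      apply Subtype.ext
      funext j
      have h2 := hcon j
      show - u' i * u j + u i * u' j = 0
      linear_combination h2)
    exact hi h1.2
  obtain ⟨b, hb⟩ := IsLocalization.exist_integer_multiples_of_finite (nonZeroDivisors (MvPolynomial (Fin nv) ℂ)) u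
  obtain ⟨b', hb'⟩ := IsLocalization.exist_integer_multiples_of_finite (nonZeroDivisors (MvPolynomial (Fin nv) ℂ)) u'
  choose k hk using hb
  choose k' hk' using hb'
  have hinj : Function.Injective (algebraMap (MvPolynomial (Fin nv) ℂ) K) := IsFractionRing.injective (MvPolynomial (Fin nv) ℂ) K
  have hk2 : ∀ l, algebraMap (MvPolynomial (Fin nv) ℂ) K (k l) = algebraMap (MvPolynomial (Fin nv) ℂ) K b * u l := by
    intro l
    rw [hk l, Algebra.smul_def]
  have hk2' : ∀ l, algebraMap (MvPolynomial (Fin nv) ℂ) K (k' l) = algebraMap (MvPolynomial (Fin nv) ℂ) K b' * u' l := by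
    intro l
    rw [hk' l, Algebra.smul_def]
  have hzero : ∀ (w : Fin N → K) (z : Fin N → (MvPolynomial (Fin nv) ℂ)) (a : (MvPolynomial (Fin nv) ℂ)), B.mulVec w = 0 →
      (∀ l, algebraMap (MvPolynomial (Fin nv) ℂ) K (z l) = algebraMap (MvPolynomial (Fin nv) ℂ) K a * w l) → A.mulVec z = 0 := by
    intro w z a hw hz
    funext l
    apply hinj
    have h1 := congrFun hw l
    simp only [Matrix.mulVec, dotProduct, Pi.zero_apply, hB, Matrix.map_apply] at h1 ⊢
    rw [map_sum, map_zero]
    simp_rw [map_mul, hz]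
    have h2 : ∑ x, algebraMap (MvPolynomial (Fin nv) ℂ) K (A l x) * (algebraMap (MvPolynomial (Fin nv) ℂ) K a * w x) =
        algebraMap (MvPolynomial (Fin nv) ℂ) K a * ∑ x, algebraMap (MvPolynomial (Fin nv) ℂ) K (A l x) * w x := by
      rw [Finset.mul_sum]
      exact Finset.sum_congr rfl fun x _ => by ring
    rw [h2, h1, mul_zero]
  refine ⟨k, k', hzero u k b hv hk2, hzero u' k' b' hBu' hk2', i, j, ?_⟩
  intro h
  have h1 := congrArg (algebraMap (MvPolynomial (Fin nv) ℂ) K) h
  rw [map_sub, map_mul, map_mul, map_zero, hk2, hk2, hk2', hk2'] at h1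
  have h2 : algebraMap (MvPolynomial (Fin nv) ℂ) K b * algebraMap (MvPolynomial (Fin nv) ℂ) K b' * (u i * u' j - u j * u' i) = 0 := by
    linear_combination h1
  have hb0 : algebraMap (MvPolynomial (Fin nv) ℂ) K b ≠ 0 := by
    rw [Ne, map_eq_zero_iff _ hinj]
    exact nonZeroDivisors.coe_ne_zero b
  have hb0' : algebraMap (MvPolynomial (Fin nv) ℂ) K b' ≠ 0 := by
    rw [Ne, map_eq_zero_iff _ hinj]
    exact nonZeroDivisors.coe_ne_zero b'
  exact (mul_ne_zero (mul_ne_zero hb0 hb0') hj) h2

/-- components of kernel vectors are kernel vectors -/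
theorem comp_ker {A : Matrix (Fin N) (Fin N) (MvPolynomial (Fin nv) ℂ)} (hA : ∀ i j, (A i j).IsHomogeneous 2)
    {w : Fin N → (MvPolynomial (Fin nv) ℂ)} (hw : A.mulVec w = 0) (d : ℕ) :
    A.mulVec (fun i => homogeneousComponent d (w i)) = 0 := by
  funext l
  have h1 := congrArg (homogeneousComponent (2 + d)) (congrFun hw l)
  simp only [Matrix.mulVec, dotProduct, Pi.zero_apply, map_zero] at h1 ⊢
  rw [map_sum] at h1
  rw [← h1]
  exact Finset.sum_congr rfl fun x _ => (comp_mul (hA l x) _ _).symm

end THNM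



open THEM THNM in
/-- **THN** -/
theorem specTHN : SpecTHN := by
  classical
  intro nv N A hN _ hsk hq hdet
  obtain ⟨k, k', hk, hk', i0, j0, hij⟩ := THNM.two_vec specSKE A hN hsk hdet
  -- homogeneous kernel vectors
  obtain ⟨d, e, hde⟩ : ∃ d e, homogeneousComponent d (k i0) * homogeneousComponent e (k' j0) -
      homogeneousComponent d (k j0) * homogeneousComponent e (k' i0) ≠ 0 := by
    by_contra hcon
    push Not at hcon
    apply hij
    set M := (k i0).totalDegree + (k j0).totalDegree + (k' i0).totalDegree +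
      (k' j0).totalDegree + 1 with hM
    rw [eq_sum (q := k i0) (M := M) (by omega), eq_sum (q := k' j0) (M := M) (by omega),
      eq_sum (q := k j0) (M := M) (by omega), eq_sum (q := k' i0) (M := M) (by omega),
      Finset.sum_mul_sum, Finset.sum_mul_sum, ← Finset.sum_sub_distrib]
    refine Finset.sum_eq_zero fun d _ => ?_
    rw [← Finset.sum_sub_distrib]
    exact Finset.sum_eq_zero fun e _ => hcon d e
  set x : Fin N → (MvPolynomial (Fin nv) ℂ) := fun i => homogeneousComponent d (k i) with hx
  set y : Fin N → (MvPolynomial (Fin nv) ℂ) := fun i => homogeneousComponent e (k' i) with hy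
  have hAx : A.mulVec x = 0 := THNM.comp_ker hq hk d
  have hAy : A.mulVec y = 0 := THNM.comp_ker hq hk' e
  have hxh : ∀ i, (x i).IsHomogeneous d := fun i => homogeneousComponent_isHomogeneous d _
  have hyh : ∀ i, (y i).IsHomogeneous e := fun i => homogeneousComponent_isHomogeneous e _
  let _ : NormalizedGCDMonoid (MvPolynomial (Fin nv) ℂ) := Classical.choice (inferInstance)
  obtain ⟨G, hG, hG1⟩ := Finset.extract_gcd (s := (Finset.univ : Finset (Fin N × Fin N)))
    (fun z => x z.1 * y z.2 - x z.2 * y z.1) ⟨(i0, j0), Finset.mem_univ _⟩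
  set g := (Finset.univ : Finset (Fin N × Fin N)).gcd
    (fun z => x z.1 * y z.2 - x z.2 * y z.1) with hg
  have hGe : ∀ i j, x i * y j - x j * y i = g * G (i, j) := fun i j => hG (i, j) (Finset.mem_univ _)
  have hth : ∀ i j, (x i * y j - x j * y i).IsHomogeneous (d + e) := fun i j =>
    ((hxh i).mul (hyh j)).sub ((hxh j).mul (hyh i))
  have h0 : g * G (i0, j0) ≠ 0 := by
    rw [← hGe]
    exact hde
  have hg0 : g ≠ 0 := left_ne_zero_of_mul h0
  obtain ⟨m, th, hmth, hgm, -⟩ := factor (P := g) (q := G (i0, j0)) (m := d + e)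
    (by rw [← hGe]; exact hth i0 j0) h0
  refine ⟨th, Matrix.of fun i j => G (i, j), ?_, ?_, ?_, ?_, ?_, ?_⟩
  · intro i j
    rw [Matrix.of_apply, Matrix.of_apply]
    apply mul_left_cancel₀ hg0
    rw [← hGe, mul_neg, ← hGe]
    ring
  · intro i j
    rw [Matrix.of_apply]
    refine homog_of_mul hgm hg0 ?_
    rw [← hGe, hmth]
    exact hth i j
  · ext1 i j
    rw [Matrix.mul_apply, Matrix.zero_apply]
    apply mul_left_cancel₀ hg0
    rw [Finset.mul_sum, mul_zero]
    have h1 : ∀ l, g * (A i l * (Matrix.of fun i j => G (i, j)) l j) =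
        A i l * x l * y j - A i l * y l * x j := by
      intro l
      rw [Matrix.of_apply]
      have := hGe l j
      linear_combination (-(A i l)) * this
    rw [Finset.sum_congr rfl fun l _ => h1 l, Finset.sum_sub_distrib, ← Finset.sum_mul,
      ← Finset.sum_mul]
    have h2 : ∑ l, A i l * x l = 0 := congrFun hAx i
    have h3 : ∑ l, A i l * y l = 0 := congrFun hAy i
    rw [h2, h3, zero_mul, zero_mul, sub_zero]
  · intro h
    have h1 := congrFun (congrFun h i0) j0
    rw [Matrix.of_apply, Matrix.zero_apply] at h1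
    exact h0 (by rw [h1, mul_zero])
  · intro z hz
    have h1 : z ∣ (Finset.univ : Finset (Fin N × Fin N)).gcd G :=
      Finset.dvd_gcd fun b _ => hz b.1 b.2
    rw [hG1] at h1
    exact isUnit_of_dvd_one h1
  · intro i j k l
    simp only [Matrix.of_apply]
    apply mul_left_cancel₀ hg0
    apply mul_left_cancel₀ hg0
    have e1 := hGe i j
    have e2 := hGe k l
    have e3 := hGe i k
    have e4 := hGe j l
    have e5 := hGe i l
    have e6 := hGe j k
    have h1 : g * (g * (G (i, j) * G (k, l) - G (i, k) * G (j, l) + G (i, l) * G (j, k))) =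
        (g * G (i, j)) * (g * G (k, l)) - (g * G (i, k)) * (g * G (j, l)) +
          (g * G (i, l)) * (g * G (j, k)) := by ring
    rw [h1, ← e1, ← e2, ← e3, ← e4, ← e5, ← e6]
    ring

end Pool.Agent.Lib.MPc9b009.OD
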