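import Pool.Agent.Lib.MP_c9b009_ag.OD.Spec

/-!
# MP_c9b009_ag, row OD, module TRB: the trace of an element with constant residues
-/

set_option autoImplicit false

namespace Pool.Agent.Lib.MPc9b009.OD

namespace TRBM

open Polynomial

/-- the restriction of an endomorphism and polynomials in it -/
theorem aeval_restrict {k V : Type} [Field k] [AddCommGroup V] [Module k V]
    (f : V →ₗ[k] V) (W : Submodule k V) (h : ∀ x ∈ W, f x ∈ W) (p : k[X]) (w : W) :
    ((aeval (f.restrict h) p w : W) : V) = aeval f p (w : V) := by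
  induction p using Polynomial.induction_on' generalizing w with
  | add p q hp hq => simp [hp, hq]
  | monomial n a =>
    have hpow : ∀ (n : ℕ) (w : W), (((f.restrict h ^ n) w : W) : V) = (f ^ n) (w : V) := by
      intro n
      induction n with
      | zero => intro w; simp
      | succ n ih =>
        intro w
        rw [pow_succ, pow_succ, Module.End.mul_apply, Module.End.mul_apply, ih]
        rfl
    simp [Polynomial.aeval_monomial, hpow]

/-- an operator annihilated by a product of real linear factors -/
theorem main {k : Type} [Field k] (κ : ℂ →+* k) (ε : ℝ) (s : Multiset ℝ) :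
    (∀ r ∈ s, ε ≤ r) → ∀ (V : Type) (_ : AddCommGroup V) (_ : Module k V)
      (_ : FiniteDimensional k V) (f : V →ₗ[k] V),
      aeval f (s.map (fun r : ℝ => (X - C (κ (r : ℂ)) : k[X]))).prod = 0 →
      ∃ r : ℝ, LinearMap.trace k V f = κ (r : ℂ) ∧ ε * (Module.finrank k V : ℝ) ≤ r := by
  induction s using Multiset.induction_on with
  | empty =>
    intro _ V _ _ _ f hf
    simp only [Multiset.map_zero, Multiset.prod_zero, map_one] at hf
    have hsub : Subsingleton V := by
      refine ⟨fun x y => ?_⟩
      have h1 : (1 : Module.End k V) x = (0 : Module.End k V) x := by rw [hf]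
      have h2 : (1 : Module.End k V) y = (0 : Module.End k V) y := by rw [hf]
      simp only [Module.End.one_apply, LinearMap.zero_apply] at h1 h2
      rw [h1, h2]
    refine ⟨0, ?_, ?_⟩
    · have : f = 0 := by
        ext x
        exact Subsingleton.elim _ _
      simp [this]
    · rw [Module.finrank_zero_of_subsingleton]
      simp
  | cons a s ih =>
    intro hs V _ _ _ f hf
    set c : k := κ (a : ℂ) with hc
    set g : V →ₗ[k] V := f - c • LinearMap.id with hg
    set W : Submodule k V := LinearMap.range g with hW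
    have hfW : ∀ x ∈ W, f x ∈ W := by
      rintro x ⟨v, rfl⟩
      refine ⟨f v, ?_⟩
      simp [hg]
    have hgW : ∀ x, g x ∈ W := fun x => ⟨x, rfl⟩
    have hgW' : ∀ x ∈ W, g x ∈ W := fun x _ => hgW x
    have ht := LinearMap.trace_restrict_eq_of_forall_mem W g hgW hgW'
    have hr : g.restrict hgW' = f.restrict hfW - c • LinearMap.id := by
      ext x
      simp [hg, LinearMap.restrict_apply]
    obtain ⟨r, hr1, hr2⟩ := ih (fun r hr => hs r (Multiset.mem_cons_of_mem hr)) W inferInstance
      inferInstance inferInstance (f.restrict hfW) (by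
        ext ⟨x, v, rfl⟩
        rw [aeval_restrict]
        have h1 : g = aeval f (X - C c : k[X]) := by
          ext z
          simp [hg]
        have h2 : aeval f (s.map (fun r : ℝ => (X - C (κ (r : ℂ)) : k[X]))).prod (g v) =
            aeval f (((a ::ₘ s).map (fun r : ℝ => (X - C (κ (r : ℂ)) : k[X]))).prod) v := by
          rw [h1, ← Module.End.mul_apply, ← map_mul, Multiset.map_cons, Multiset.prod_cons, mul_comm]
        rw [h2, hf]
        simp)
    rw [hr, map_sub, map_smul, hr1, hg, map_sub, map_smul] at ht
    simp only [LinearMap.trace_id, smul_eq_mul] at ht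
    refine ⟨r + a * ((Module.finrank k V : ℝ) - (Module.finrank k W : ℝ)), ?_, ?_⟩
    · have h3 : LinearMap.trace k V f = κ (r : ℂ) - c * (Module.finrank k W : k)
          + c * (Module.finrank k V : k) := by
        rw [ht]; ring
      rw [h3]
      push_cast
      simp only [map_add, map_mul, map_sub, map_natCast, hc]
      ring
    · have h4 : (Module.finrank k W : ℝ) ≤ (Module.finrank k V : ℝ) := by
        exact_mod_cast Submodule.finrank_le W
      have h5 : ε ≤ a := hs a (Multiset.mem_cons_self a s)
      nlinarith [mul_nonneg (sub_nonneg.mpr h5) (sub_nonneg.mpr h4)]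

end TRBM

/-- the trace of an element with constant residues -/
theorem specTRB : SpecTRB := by
  classical
  intro k K _ _ _ _ κ J ψ ε hJ hP
  -- the trace on `K` is the trace on `K / J`
  have htr : Algebra.trace k K ψ = Algebra.trace k (K ⧸ J) (Ideal.Quotient.mk J ψ) := by
    let A : K →ₗ[k] (K ⧸ J) := (Ideal.Quotient.mkₐ k J).toLinearMap
    have hker : J.restrictScalars k ≤ LinearMap.ker (Algebra.lmul k K ψ) := by
      intro z hz
      rw [LinearMap.mem_ker]
      exact hJ z hz
    let B : (K ⧸ J) →ₗ[k] K :=
      { toFun := fun z => Quotient.liftOn' z (fun x => ψ * x) (by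
          intro a b hab
          have h1 : a - b ∈ J := by
            rwa [Submodule.quotientRel_def] at hab
          have h2 := hJ _ h1
          rw [mul_sub, sub_eq_zero] at h2
          exact h2)
        map_add' := by
          intro x y
          obtain ⟨x, rfl⟩ := Ideal.Quotient.mk_surjective x
          obtain ⟨y, rfl⟩ := Ideal.Quotient.mk_surjective y
          exact mul_add _ _ _
        map_smul' := by
          intro c x
          obtain ⟨x, rfl⟩ := Ideal.Quotient.mk_surjective x
          exact mul_smul_comm c ψ x }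
    have h1 : B ∘ₗ A = Algebra.lmul k K ψ := by
      ext x
      rfl
    have h2 : A ∘ₗ B = Algebra.lmul k (K ⧸ J) (Ideal.Quotient.mk J ψ) := by
      ext x
      obtain ⟨x, rfl⟩ := Ideal.Quotient.mk_surjective x
      rfl
    rw [Algebra.trace_apply, Algebra.trace_apply]
    change LinearMap.trace k K (Algebra.lmul k K ψ) =
      LinearMap.trace k (K ⧸ J) (Algebra.lmul k (K ⧸ J) (Ideal.Quotient.mk J ψ))
    rw [← h1, ← h2, LinearMap.trace_comp_comm']
  rw [htr]
  have hart : IsArtinianRing (K ⧸ J) := isArtinian_of_tower k inferInstance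
  have : Fintype (MaximalSpectrum (K ⧸ J)) := Fintype.ofFinite _
  set ψ' : K ⧸ J := Ideal.Quotient.mk J ψ with hψ'
  have hP' : ∀ P : MaximalSpectrum (K ⧸ J), ∃ r : ℝ, ε ≤ r ∧
      ψ' - algebraMap k (K ⧸ J) (κ (r : ℂ)) ∈ P.asIdeal := by
    intro P
    have := P.isMaximal
    obtain ⟨r, hr1, hr2⟩ := hP (P.asIdeal.comap (Ideal.Quotient.mk J))
      (Ideal.comap_isMaximal_of_surjective _ Ideal.Quotient.mk_surjective) (by
        intro z hz
        rw [Ideal.mem_comap, Ideal.Quotient.eq_zero_iff_mem.mpr hz]
        exact zero_mem _)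
    refine ⟨r, hr1, ?_⟩
    rw [Ideal.mem_comap, map_sub] at hr2
    exact hr2
  choose r hr1 hr2 using hP'
  -- the product of the factors is nilpotent
  have hnil : IsNilpotent (∏ P : MaximalSpectrum (K ⧸ J),
      (ψ' - algebraMap k (K ⧸ J) (κ (r P : ℂ)))) := by
    rw [nilpotent_iff_mem_prime]
    intro Q hQ
    have hQm : Q.IsMaximal := (IsArtinianRing.isPrime_iff_isMaximal Q).mp hQ
    rw [Finset.prod_eq_prod_sdiff_singleton_mul (Finset.mem_univ (⟨Q, hQm⟩ : MaximalSpectrum (K ⧸ J)))]
    exact Q.mul_mem_left _ (hr2 ⟨Q, hQm⟩)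
  obtain ⟨n, hn⟩ := hnil
  set s0 : Multiset ℝ := (Finset.univ : Finset (MaximalSpectrum (K ⧸ J))).val.map r with hs0
  have hmain := TRBM.main κ ε (n • s0) (by
    intro a ha
    have ha' := Multiset.mem_of_mem_nsmul ha
    rw [hs0, Multiset.mem_map] at ha'
    obtain ⟨P, _, rfl⟩ := ha'
    exact hr1 P) (K ⧸ J) inferInstance inferInstance inferInstance
    (Algebra.lmul k (K ⧸ J) ψ') (by
      rw [Multiset.map_nsmul, Multiset.prod_nsmul, map_pow]
      rw [hs0, Multiset.map_map]
      have h1 : Polynomial.aeval (Algebra.lmul k (K ⧸ J) ψ')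
          (Multiset.map ((fun r : ℝ => (Polynomial.X - Polynomial.C (κ (r : ℂ)) : Polynomial k)) ∘ r)
            (Finset.univ : Finset (MaximalSpectrum (K ⧸ J))).val).prod =
          Algebra.lmul k (K ⧸ J) (∏ P : MaximalSpectrum (K ⧸ J),
            (ψ' - algebraMap k (K ⧸ J) (κ (r P : ℂ)))) := by
        rw [Polynomial.aeval_algHom_apply]
        congr 1
        change Polynomial.aeval ψ' (∏ P : MaximalSpectrum (K ⧸ J),
          (Polynomial.X - Polynomial.C (κ (r P : ℂ)) : Polynomial k)) = _
        rw [map_prod]
        refine Finset.prod_congr rfl fun P _ => ?_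
        simp
      rw [h1, ← map_pow, hn, map_zero])
  exact hmain

end Pool.Agent.Lib.MPc9b009.OD
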