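import Pool.Agent.Lib.MP_c9b009_ag.OD.Spec

/-!
# MP_c9b009_ag, row OD, module USL: the generic 4-dimensional subspace
-/

set_option autoImplicit false

namespace Pool.Agent.Lib.MPc9b009.OD

open MvPolynomial Pool.Agent.Lib.MPc9b009.B5

namespace USLM

/-- the transcendence degree of the polynomial ring -/
theorem trdeg_poly (v : ℕ) :
    Algebra.trdeg ℂ (MvPolynomial (Fin v) ℂ) = ((v : ℕ) : Cardinal) := by
  rw [MvPolynomial.trdeg_of_isDomain, Cardinal.mk_fin, Cardinal.lift_natCast]

/-- a linear form in the variables of the 4-dimensional space -/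
theorem Phi_X {N : ℕ} (u : Fin 4 → Fin N → ℂ) (k : Fin N) :
    CUTM.Phi u (X k) = ∑ b, C (u b k) * X b := by
  rw [CUTM.Phi, aeval_X]

theorem Phi_C {N : ℕ} (u : Fin 4 → Fin N → ℂ) (c : ℂ) : CUTM.Phi u (C c) = C c := by
  rw [CUTM.Phi, aeval_C]
  rfl

theorem Phi_lin {N : ℕ} (u : Fin 4 → Fin N → ℂ) (c : Fin N → ℂ) :
    CUTM.Phi u (∑ k, C (c k) * X k) = ∑ b, C (∑ k, c k * u b k) * X b := by
  rw [map_sum]
  simp_rw [map_mul, Phi_C, Phi_X, Finset.mul_sum]
  rw [Finset.sum_comm]
  refine Finset.sum_congr rfl fun b _ => ?_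
  rw [map_sum, Finset.sum_mul]
  refine Finset.sum_congr rfl fun k _ => ?_
  rw [C_mul]
  ring

/-- the restriction to the subspace is surjective -/
theorem Phi_surj {N : ℕ} {u : Fin 4 → Fin N → ℂ} (hu : LinearIndependent ℂ u) :
    Function.Surjective (CUTM.Phi u) := by
  classical
  have hker : LinearMap.ker (Fintype.linearCombination ℂ u) = ⊥ :=
    LinearMap.ker_eq_bot.2 (linearIndependent_iff_injective_fintypeLinearCombination.1 hu)
  obtain ⟨s, hs⟩ := LinearMap.exists_leftInverse_of_injective _ hker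
  have hd : ∀ b c : Fin 4, ∑ k, s (Pi.single k 1) c * u b k = if b = c then 1 else 0 := by
    intro b c
    have h1 : Fintype.linearCombination ℂ u (Pi.single b 1) = u b := by
      rw [Fintype.linearCombination_apply_single, one_smul]
    have h2 : s (u b) = Pi.single b 1 := by
      rw [← h1]
      exact LinearMap.congr_fun hs (Pi.single b 1)
    have h3 : s (u b) c = ∑ k, s (Pi.single k 1) c * u b k := by
      conv_lhs => rw [pi_eq_sum_univ' (u b)]
      rw [map_sum, Finset.sum_apply]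
      refine Finset.sum_congr rfl fun k _ => ?_
      rw [map_smul, Pi.smul_apply, smul_eq_mul, mul_comm]
    rw [← h3, h2, Pi.single_apply]
    simp only [eq_comm]
  intro z
  induction z using MvPolynomial.induction_on with
  | C a => exact ⟨C a, Phi_C u a⟩
  | add a b ha hb =>
    obtain ⟨a', rfl⟩ := ha
    obtain ⟨b', rfl⟩ := hb
    exact ⟨a' + b', map_add _ _ _⟩
  | mul_X a c ha =>
    obtain ⟨a', rfl⟩ := ha
    refine ⟨a' * ∑ k, C (s (Pi.single k 1) c) * X k, ?_⟩
    rw [map_mul, Phi_lin]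
    congr 1
    simp_rw [hd]
    rw [Finset.sum_eq_single c]
    · rw [if_pos rfl, C_1, one_mul]
    · intro b _ hb
      rw [if_neg hb, C_0, zero_mul]
    · intro h
      exact absurd (Finset.mem_univ _) h

/-- the restriction commutes with homogeneous components -/
theorem Phi_comp {N : ℕ} (u : Fin 4 → Fin N → ℂ) (g : MvPolynomial (Fin N) ℂ) (d : ℕ) :
    CUTM.Phi u (homogeneousComponent d g) = homogeneousComponent d (CUTM.Phi u g) := by
  conv_rhs => rw [THEM.eq_sum (q := g) (M := g.totalDegree + d + 1) (by omega)]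
  rw [map_sum, map_sum, Finset.sum_eq_single d]
  · rw [homogeneousComponent_of_mem
      (CUTM.Phi_hom u (homogeneousComponent_isHomogeneous d g)), if_pos rfl]
  · intro n _ hn
    rw [homogeneousComponent_of_mem
      (CUTM.Phi_hom u (homogeneousComponent_isHomogeneous n g)), if_neg (Ne.symm hn)]
  · intro h
    exact absurd (Finset.mem_range.2 (by omega)) h

theorem ker_hom {N : ℕ} (u : Fin 4 → Fin N → ℂ) : Hom (RingHom.ker (CUTM.Phi u)) := by
  intro g hg d
  have h0 : CUTM.Phi u g = 0 := hg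
  show CUTM.Phi u (homogeneousComponent d g) = 0
  rw [Phi_comp, h0, map_zero]

/-- the line through a nonzero point of the subspace -/
theorem point_ne {N : ℕ} {u : Fin 4 → Fin N → ℂ} (hu : LinearIndependent ℂ u) {y : Fin 4 → ℂ}
    (hy : y ≠ 0) : (fun k => ∑ b, u b k * y b) ≠ 0 := by
  intro h0
  apply hy
  have h1 : ∑ b, y b • u b = 0 := by
    ext k
    rw [Finset.sum_apply]
    have := congrFun h0 k
    simp only [Pi.zero_apply] at this
    rw [Pi.zero_apply, ← this]
    refine Finset.sum_congr rfl fun b _ => ?_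
    rw [Pi.smul_apply, smul_eq_mul, mul_comm]
  exact funext (Fintype.linearIndependent_iff.1 hu y h1)

end USLM

/-- **USL**: the generic subspace. -/
theorem specUSL : SpecUSL := by
  classical
  intro N d I J h hN hI hJ hDI hDJ h0 hh
  obtain ⟨M, rfl⟩ : ∃ M, N = M + 4 := ⟨N - 4, by omega⟩
  have hsub4 : M + 4 - 4 = M := by omega
  have hsub2 : M + 4 - 2 = M + 2 := by omega
  rw [hsub4] at hDI
  rw [hsub2] at hDJ
  have hHh : Hom (Ideal.span {h}) := CUTM.hom_span _ (by
    intro x hx
    rw [Set.mem_singleton_iff] at hx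
    subst hx
    exact ⟨d, hh⟩)
  have hDh : ∀ q : Ideal (MvPolynomial (Fin (M + 4)) ℂ), q.IsPrime → Ideal.span {h} ≤ q →
      Algebra.trdeg ℂ (MvPolynomial (Fin (M + 4)) ℂ ⧸ q) ≤ ((M + 3 : ℕ) : Cardinal) := by
    intro q hq hle
    have hlt : (⊥ : Ideal (MvPolynomial (Fin (M + 4)) ℂ)) < q := by
      rw [bot_lt_iff_ne_bot]
      intro hb
      apply h0
      rw [← Ideal.mem_bot, ← hb]
      exact hle (Ideal.mem_span_singleton_self h)
    have h1 := specMONO (M + 4) ⊥ q Ideal.isPrime_bot hq hlt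
    have h2 : Algebra.trdeg ℂ (MvPolynomial (Fin (M + 4)) ℂ ⧸
        (⊥ : Ideal (MvPolynomial (Fin (M + 4)) ℂ))) ≤ ((M + 4 : ℕ) : Cardinal) := by
      rw [← USLM.trdeg_poly]
      exact trdeg_le_of_surjective (Ideal.Quotient.mkₐ ℂ _) (Ideal.Quotient.mkₐ_surjective ℂ _)
    have h3 := h1.trans h2
    obtain ⟨n, hn⟩ := Cardinal.lt_aleph0.1
      ((self_le_add_right _ _).trans_lt (h3.trans_lt Cardinal.natCast_lt_aleph0))
    rw [hn] at h3 ⊢
    norm_cast at h3 ⊢
    omega
  obtain ⟨c, hc⟩ := (specSEL specMONO specHMIN) (M + 4) M 3 ![I, J, Ideal.span {h}] ![0, 2, 3]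
    (Fin (M + 4)) inferInstance 1 (fun k => X k) le_rfl (fun k => isHomogeneous_X ℂ k)
    (by
      intro i
      fin_cases i
      · exact hI
      · exact hJ
      · exact hHh)
    (by
      intro i q hq _ hle
      fin_cases i
      · exact hDI q hq hle
      · exact hDJ q hq hle
      · exact hDh q hq hle)
    (by
      intro i q _ _ _ hX
      exact (CUTM.trdeg_top q hX).trans (zero_le))
  obtain ⟨u, hu, hcu⟩ := CUTM.plane (N := M + 4) (M := M) (by omega) c
  have hlin : ∀ j, CUTM.Phi u (∑ k, C (c j k) * X k) = 0 := by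
    intro j
    rw [USLM.Phi_lin]
    refine Finset.sum_eq_zero fun b _ => ?_
    rw [hcu b j, C_0, zero_mul]
  refine ⟨u, hu, ?_, ?_, ?_⟩
  · intro y hy
    by_contra hcon
    push Not at hcon
    set x : Fin (M + 4) → ℂ := fun k => ∑ b, u b k * y b with hx
    have hx0 : x ≠ 0 := USLM.point_ne hu hy
    have hpr : (RingHom.ker (CUTM.psi x)).IsPrime := RingHom.ker_isPrime _
    refine CUTM.trdeg_line x hx0 ?_
    have hfin := hc 0 (RingHom.ker (CUTM.psi x)) hpr (CUTM.line_hom x) ?_ ?_
    · simpa using hfin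
    · intro z hz
      show CUTM.psi x z = 0
      ext n
      rw [CUTM.psi_comp, Polynomial.coeff_zero]
      have := hcon _ (hI z hz n)
      rwa [CUTM.eval_Phi] at this
    · intro j
      refine CUTM.mem_line x (d := 1) ?_ ?_
      · refine IsHomogeneous.sum _ _ _ fun k _ => ?_
        have := (isHomogeneous_C (Fin (M + 4)) (c j k)).mul (isHomogeneous_X ℂ k)
        rwa [zero_add] at this
      · rw [hx, ← CUTM.eval_Phi, hlin, map_zero]
  · intro Q hQ hle
    have hpr : (Ideal.comap (CUTM.Phi u) Q).IsPrime := Ideal.comap_isPrime _ _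
    set q := Ideal.comap (CUTM.Phi u) Q with hq
    have hJq : J ≤ q := Ideal.map_le_iff_le_comap.1 hle
    set K := Ideal.span {x | x ∈ q ∧ ∃ n, x.IsHomogeneous n} with hK
    have hKq : K ≤ q := Ideal.span_le.2 fun x hx => hx.1
    obtain ⟨q', hq', hq'q⟩ := Ideal.exists_minimalPrimes_le hKq
    have hHom : Hom q' := specHMIN (M + 4) K (CUTM.hom_span _ fun x hx => hx.2) q' hq'
    have h1 := hc 1 q' hq'.1.1 hHom ?_ ?_
    · have h2 : Algebra.trdeg ℂ (MvPolynomial (Fin 4) ℂ ⧸ Q) ≤
          Algebra.trdeg ℂ (MvPolynomial (Fin (M + 4)) ℂ ⧸ q') := by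
        refine trdeg_le_of_surjective (Ideal.Quotient.liftₐ q'
          ((Ideal.Quotient.mkₐ ℂ Q).comp (CUTM.Phi u)) fun a ha => ?_) fun z => ?_
        · exact Ideal.Quotient.eq_zero_iff_mem.2 (hq'q ha)
        · obtain ⟨z, rfl⟩ := Ideal.Quotient.mk_surjective z
          obtain ⟨w, rfl⟩ := USLM.Phi_surj hu z
          exact ⟨Ideal.Quotient.mk q' w, rfl⟩
      exact h2.trans h1
    · intro z hz
      rw [THEM.eq_sum (q := z) (M := z.totalDegree + 1) (by omega)]
      refine Ideal.sum_mem _ fun n _ => hq'.1.2 (Ideal.subset_span ⟨hJq (hJ z hz n), n, ?_⟩)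
      exact homogeneousComponent_isHomogeneous n z
    · intro j
      refine hq'.1.2 (Ideal.subset_span ⟨?_, 1, ?_⟩)
      · show CUTM.Phi u _ ∈ Q
        rw [hlin]
        exact Q.zero_mem
      · refine IsHomogeneous.sum _ _ _ fun k _ => ?_
        have := (isHomogeneous_C (Fin (M + 4)) (c j k)).mul (isHomogeneous_X ℂ k)
        rwa [zero_add] at this
  · intro hz
    have hpr : (RingHom.ker (CUTM.Phi u)).IsPrime := RingHom.ker_isPrime _
    have h1 := hc 2 (RingHom.ker (CUTM.Phi u)) hpr (USLM.ker_hom u) ?_ ?_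
    · have h2 : Algebra.trdeg ℂ (MvPolynomial (Fin 4) ℂ) ≤
          Algebra.trdeg ℂ (MvPolynomial (Fin (M + 4)) ℂ ⧸ RingHom.ker (CUTM.Phi u)) := by
        refine trdeg_le_of_surjective (Ideal.Quotient.liftₐ (RingHom.ker (CUTM.Phi u))
          (CUTM.Phi u) fun a ha => ha) fun z => ?_
        obtain ⟨w, rfl⟩ := USLM.Phi_surj hu z
        exact ⟨Ideal.Quotient.mk _ w, rfl⟩
      have h3 := h2.trans h1
      rw [USLM.trdeg_poly] at h3
      have h4 : ((4 : ℕ) : Cardinal) ≤ ((3 : ℕ) : Cardinal) := h3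
      norm_cast at h4
    · show Ideal.span {h} ≤ _
      rw [Ideal.span_le]
      intro x hx
      rw [Set.mem_singleton_iff] at hx
      subst hx
      exact hz
    · intro j
      exact hlin j

end Pool.Agent.Lib.MPc9b009.OD
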