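import Pool.Agent.Lib.MP_c9b009_ag.OD.Spec

/-!
# MP_c9b009_ag, row OD, module UVL: choice of `q_0`, `q_1` and of the linear forms
-/

set_option autoImplicit false

namespace Pool.Agent.Lib.MPc9b009.OD

open MvPolynomial Pool.Agent.Lib.MPc9b009.B5

namespace UVLM

/-- The linear map `c ↦ ∑ c_k g_k`. -/
noncomputable def lin {ι : Type} [Fintype ι] (g : ι → S4) : (ι → ℂ) →ₗ[ℂ] S4 where
  toFun c := ∑ k, C (c k) * g k
  map_add' a b := by
    simp [add_mul, Finset.sum_add_distrib]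
  map_smul' r a := by
    simp [Finset.mul_sum, mul_assoc, smul_eq_C_mul]

theorem lin_single {ι : Type} [Fintype ι] [DecidableEq ι] (g : ι → S4) (k : ι) :
    lin g (Pi.single k 1) = g k := by
  show ∑ i, C ((Pi.single k 1 : ι → ℂ) i) * g i = g k
  rw [Finset.sum_eq_single k]
  · rw [Pi.single_eq_same, C_1, one_mul]
  · intro i _ hi
    rw [Pi.single_eq_of_ne hi, C_0, zero_mul]
  · intro h
    exact absurd (Finset.mem_univ k) h

/-- vectors outside of two finite families of proper subspaces -/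
theorem avoid {E : Type} [AddCommGroup E] [Module ℂ E] {α β : Type} [Finite α] [Finite β]
    (U : α → Submodule ℂ E) (W : β → Submodule ℂ E) (hU : ∀ x, U x ≠ ⊤) (hW : ∀ x, W x ≠ ⊤) :
    ∃ a : E, (∀ x, a ∉ U x) ∧ ∀ x, a ∉ W x := by
  by_contra hcon
  push Not at hcon
  have hcov : ⋃ x : α ⊕ β, ((Sum.elim U W x : Submodule ℂ E) : Set E) = Set.univ := by
    refine Set.eq_univ_of_forall fun c => ?_
    by_cases hc : ∃ x, c ∈ U x
    · obtain ⟨x, hx⟩ := hc
      exact Set.mem_iUnion.2 ⟨Sum.inl x, hx⟩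
    · push Not at hc
      obtain ⟨x, hx⟩ := hcon c hc
      exact Set.mem_iUnion.2 ⟨Sum.inr x, hx⟩
  obtain ⟨x, hx⟩ := Subspace.exists_eq_top_of_iUnion_eq_univ hcov
  rcases x with x | x
  · exact hU x hx
  · exact hW x hx

theorem trdeg_le {v : ℕ} (q : Ideal (MvPolynomial (Fin v) ℂ)) :
    Algebra.trdeg ℂ (MvPolynomial (Fin v) ℂ ⧸ q) ≤ ((v : ℕ) : Cardinal) := by
  have h1 : Algebra.trdeg ℂ (MvPolynomial (Fin v) ℂ ⧸ q) ≤
      Algebra.trdeg ℂ (MvPolynomial (Fin v) ℂ) :=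
    trdeg_le_of_surjective (Ideal.Quotient.mkₐ ℂ q) (Ideal.Quotient.mkₐ_surjective ℂ q)
  rw [MvPolynomial.trdeg_of_isDomain] at h1
  simpa using h1

theorem trdeg_nat {v : ℕ} (q : Ideal (MvPolynomial (Fin v) ℂ)) :
    ∃ n : ℕ, n ≤ v ∧ Algebra.trdeg ℂ (MvPolynomial (Fin v) ℂ ⧸ q) = (n : Cardinal) := by
  have h := trdeg_le q
  obtain ⟨n, hn⟩ := Cardinal.lt_aleph0.1 (h.trans_lt (Cardinal.natCast_lt_aleph0 (n := v)))
  rw [hn] at h
  exact ⟨n, by exact_mod_cast h, hn⟩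

theorem trdeg_bot : Algebra.trdeg ℂ (S4 ⧸ (⊥ : Ideal S4)) = ((4 : ℕ) : Cardinal) := by
  refine le_antisymm (trdeg_le _) ?_
  have h1 : Algebra.trdeg ℂ S4 ≤ Algebra.trdeg ℂ (S4 ⧸ (⊥ : Ideal S4)) := by
    refine trdeg_le_of_injective (Ideal.Quotient.mkₐ ℂ (⊥ : Ideal S4)) ?_
    intro x y hxy
    have h2 : Ideal.Quotient.mk (⊥ : Ideal S4) x = Ideal.Quotient.mk (⊥ : Ideal S4) y := hxy
    rw [Ideal.Quotient.eq, Ideal.mem_bot, sub_eq_zero] at h2
    exact h2
  rw [MvPolynomial.trdeg_of_isDomain] at h1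
  simpa using h1

/-- a proper inclusion of primes, numbers -/
theorem mono {v : ℕ} (p q : Ideal (MvPolynomial (Fin v) ℂ)) (hp : p.IsPrime) (hq : q.IsPrime)
    (hpq : p < q) (m n : ℕ) (hm : Algebra.trdeg ℂ (MvPolynomial (Fin v) ℂ ⧸ p) ≤ ((m : ℕ) : Cardinal))
    (hn : ((n : ℕ) : Cardinal) ≤ Algebra.trdeg ℂ (MvPolynomial (Fin v) ℂ ⧸ q)) : n + 1 ≤ m := by
  have h1 := specMONO v p q hp hq hpq
  obtain ⟨a, -, ea⟩ := trdeg_nat p
  obtain ⟨b, -, eb⟩ := trdeg_nat q
  rw [ea] at hm h1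
  rw [eb] at hn h1
  norm_cast at hm hn h1
  omega

end UVLM

open UVLM in
theorem specUVL : SpecUVL := by
  intro N e F Pm he hF hD hP
  classical
  set I : Ideal S4 := Ideal.span (Set.range F) with hI
  have hIhom : Hom I := CUTM.hom_span _ (by
    rintro _ ⟨i, rfl⟩
    exact ⟨e, hF i⟩)
  have hFI : ∀ i, F i ∈ I := fun i => Ideal.subset_span ⟨i, rfl⟩
  have hIle : ∀ Q : Ideal S4, (∀ i, F i ∈ Q) → I ≤ Q := by
    intro Q hQ
    rw [hI, Ideal.span_le]
    rintro _ ⟨i, rfl⟩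
    exact hQ i
  -- some `F i` is not zero
  have hF0 : ∃ i, F i ≠ 0 := by
    by_contra hcon
    push Not at hcon
    have h1 := hD ⊥ Ideal.isPrime_bot (hIle _ fun i => by rw [hcon i]; exact Ideal.zero_mem _)
    rw [trdeg_bot] at h1
    norm_cast at h1
  -- the components of dimension two
  let 𝒬 : Set (Ideal S4) := {Q | Q ∈ I.minimalPrimes ∧
    ((2 : ℕ) : Cardinal) ≤ Algebra.trdeg ℂ (S4 ⧸ Q)}
  have hQfin : 𝒬.Finite := (Ideal.finite_minimalPrimes_of_isNoetherianRing _ I).subset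
    fun Q hQ => hQ.1
  have : Finite 𝒬 := hQfin
  have hQmem : ∀ Q : Ideal S4, Q.IsPrime → (∀ i, F i ∈ Q) →
      ((2 : ℕ) : Cardinal) ≤ Algebra.trdeg ℂ (S4 ⧸ Q) → Q ∈ 𝒬 := by
    intro Q hQ hFQ h2
    obtain ⟨p, hp, hpQ⟩ := Ideal.exists_minimalPrimes_le (hIle Q hFQ)
    rcases eq_or_ne p Q with rfl | hne
    · exact ⟨hp, h2⟩
    · exfalso
      have := mono p Q hp.1.1 hQ (lt_of_le_of_ne hpQ hne) 2 2 (hD p hp.1.1 hp.1.2) h2
      omega
  have hQP : ∀ Q ∈ 𝒬, ∃ i j, Pm i j ∉ Q := by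
    intro Q hQ
    exact hP Q hQ.1.1.1 (specHMIN 4 I hIhom Q hQ.1) (fun i => hQ.1.1.2 (hFI i)) hQ.2
  -- the choice of `a`
  obtain ⟨a, ha0, haQ⟩ := avoid (E := Fin N → ℂ)
    (fun _ : Unit => LinearMap.ker (lin F))
    (fun Q : 𝒬 => ⨅ j, ((Q : Ideal S4).restrictScalars ℂ).comap (lin fun i => Pm i j))
    (by
      intro _ htop
      obtain ⟨i, hi⟩ := hF0
      apply hi
      have h1 : (Pi.single i 1 : Fin N → ℂ) ∈ LinearMap.ker (lin F) := by
        rw [htop]; trivial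
      rw [LinearMap.mem_ker, lin_single] at h1
      exact h1)
    (by
      intro Q htop
      obtain ⟨i, j, hij⟩ := hQP Q Q.2
      apply hij
      have h1 : (Pi.single i 1 : Fin N → ℂ) ∈
          ⨅ j, ((Q : Ideal S4).restrictScalars ℂ).comap (lin fun i => Pm i j) := by
        rw [htop]; trivial
      rw [Submodule.mem_iInf] at h1
      have h2 : lin (fun i => Pm i j) (Pi.single i 1) ∈ (Q : Ideal S4) := h1 j
      rw [lin_single] at h2
      exact h2)
  have ha : lin F a ≠ 0 := fun h => ha0 () (LinearMap.mem_ker.2 h)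
  have haP : ∀ Q ∈ 𝒬, ∃ j, lin (fun i => Pm i j) a ∉ Q := by
    intro Q hQ
    have h1 := haQ ⟨Q, hQ⟩
    rw [Submodule.mem_iInf] at h1
    push Not at h1
    obtain ⟨j, hj⟩ := h1
    exact ⟨j, hj⟩
  -- the components of `q_0 = 0`
  let PP : Set (Ideal S4) := {p | p ∈ (Ideal.span {lin F a}).minimalPrimes ∧
    ((3 : ℕ) : Cardinal) ≤ Algebra.trdeg ℂ (S4 ⧸ p)}
  have hPfin : PP.Finite := (Ideal.finite_minimalPrimes_of_isNoetherianRing _ _).subset
    fun Q hQ => hQ.1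
  have : Finite PP := hPfin
  obtain ⟨b, hbP, hbQ⟩ := avoid (E := Fin N → ℂ)
    (fun p : PP => ((p : Ideal S4).restrictScalars ℂ).comap (lin F))
    (fun Q : 𝒬 => ((Q : Ideal S4).restrictScalars ℂ).comap
      (lin fun j => lin (fun i => Pm i j) a))
    (by
      intro p htop
      have h1 : ∀ i, F i ∈ (p : Ideal S4) := by
        intro i
        have h1 : (Pi.single i 1 : Fin N → ℂ) ∈
            ((p : Ideal S4).restrictScalars ℂ).comap (lin F) := by
          rw [htop]; trivial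
        have h2 : lin F (Pi.single i 1) ∈ (p : Ideal S4) := h1
        rw [lin_single] at h2
        exact h2
      have h2 := p.2.2.trans (hD p p.2.1.1.1 (hIle _ h1))
      norm_cast at h2)
    (by
      intro Q htop
      obtain ⟨j, hj⟩ := haP Q Q.2
      apply hj
      have h1 : (Pi.single j 1 : Fin N → ℂ) ∈ ((Q : Ideal S4).restrictScalars ℂ).comap
          (lin fun j => lin (fun i => Pm i j) a) := by
        rw [htop]; trivial
      have h2 : lin (fun j => lin (fun i => Pm i j) a) (Pi.single j 1) ∈ (Q : Ideal S4) := h1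
      rw [lin_single] at h2
      exact h2)
  -- the ideal of `q_0, q_1`
  have hq0 : ∀ c, lin F c = ∑ i, C (c i) * F i := fun c => rfl
  have hqhom : ∀ c, (lin F c).IsHomogeneous e := by
    intro c
    refine IsHomogeneous.sum _ _ _ fun i _ => ?_
    have := (isHomogeneous_C (Fin 4) (c i)).mul (hF i)
    rwa [zero_add] at this
  have hJ : Dle (Ideal.span {lin F a, lin F b}) 2 := by
    intro q hq hle
    by_contra hcon
    have h3 : ((3 : ℕ) : Cardinal) ≤ Algebra.trdeg ℂ (S4 ⧸ q) := by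
      obtain ⟨n, -, hn⟩ := trdeg_nat q
      rw [hn] at hcon ⊢
      norm_cast at hcon ⊢
      omega
    have haq : Ideal.span {lin F a} ≤ q := by
      rw [Ideal.span_le]
      rintro _ rfl
      exact hle (Ideal.subset_span (Set.mem_insert _ _))
    have hbq : lin F b ∈ q := hle (Ideal.subset_span (Set.mem_insert_of_mem _ rfl))
    obtain ⟨p, hp, hpq⟩ := Ideal.exists_minimalPrimes_le haq
    have hp3 : ((3 : ℕ) : Cardinal) ≤ Algebra.trdeg ℂ (S4 ⧸ p) :=
      h3.trans (SOPM.trdeg_mono hpq)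
    have hpP : p ∈ PP := ⟨hp, hp3⟩
    have hne : p ≠ q := by
      rintro rfl
      exact hbP ⟨p, hpP⟩ hbq
    have h0 : (⊥ : Ideal S4) < p := by
      rw [bot_lt_iff_ne_bot]
      rintro rfl
      have h1 : lin F a ∈ (⊥ : Ideal S4) := hp.1.2 (Ideal.subset_span rfl)
      exact ha h1
    have h5 : Algebra.trdeg ℂ (S4 ⧸ p) ≤ ((3 : ℕ) : Cardinal) := by
      have h6 := specMONO 4 ⊥ p Ideal.isPrime_bot hp.1.1 h0
      rw [trdeg_bot] at h6
      obtain ⟨n, -, hn⟩ := trdeg_nat p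
      rw [hn] at h6 ⊢
      norm_cast at h6 ⊢
      omega
    have h7 := mono p q hp.1.1 hq (lt_of_le_of_ne hpq hne) 3 3 h5 h3
    omega
  -- the linear forms
  have hJhom : Hom (Ideal.span {lin F a, lin F b}) := CUTM.hom_span _ (by
    rintro x (rfl | rfl)
    · exact ⟨e, hqhom a⟩
    · exact ⟨e, hqhom b⟩)
  obtain ⟨c, hc⟩ := specSEL specMONO specHMIN 4 2 1 (fun _ => Ideal.span {lin F a, lin F b})
    (fun _ => 0) (Fin 4) inferInstance 1 (fun k => X k) le_rfl (fun k => isHomogeneous_X ℂ k)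
    (fun _ => hJhom) (fun _ q hq _ hIq => by simpa using hJ q hq hIq)
    (fun _ q _ _ _ hX => by
      have := CUTM.trdeg_top q hX
      simpa using this)
  refine ⟨a, b, fun j => ∑ k, C (c j k) * X k, ?_, ?_, hJ, ?_⟩
  · intro j
    refine IsHomogeneous.sum _ _ _ fun i _ => ?_
    have := (isHomogeneous_C (Fin 4) (c j i)).mul (isHomogeneous_X ℂ i)
    rwa [zero_add] at this
  · intro Q hQ hQh h0 h1 hl
    have := hc 0 Q hQ hQh (by
      rw [Ideal.span_le]
      rintro x (rfl | rfl)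
      · exact h0
      · exact h1) hl
    simpa using this
  · intro Q hQ hQh hFQ h2 hmem
    apply hbQ ⟨Q, hQmem Q hQ hFQ h2⟩
    show lin (fun j => lin (fun i => Pm i j) a) b ∈ Q
    convert hmem using 1
    show ∑ j, C (b j) * (∑ i, C (a i) * Pm i j) = _
    rw [Finset.sum_comm]
    refine Finset.sum_congr rfl fun j _ => ?_
    rw [Finset.mul_sum]
    refine Finset.sum_congr rfl fun i _ => ?_
    ring

end Pool.Agent.Lib.MPc9b009.OD
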