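import Pool.Agent.Lib.MP_c9b009_ag.OD.Spec

/-!
# MP_c9b009_ag, row OD, module VAL: the local structure of the trace of `θ` at a prime
-/

set_option autoImplicit false

namespace Pool.Agent.Lib.MPc9b009.OD

open MvPolynomial IsDedekindDomain Pool.Agent.Lib.MPc9b009.B5

namespace VALM

/-- a common divisor of the `a_k` over a principal ideal domain -/
theorem choice {V L : Type} [CommRing V] [IsDomain V] [IsPrincipalIdealRing V] [Field L] [Algebra V L]
    [IsFractionRing V L] {N : ℕ} (a : Fin N → L) (j0 : Fin N) (h : a j0 = 1) :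
    ∃ (z : V) (c r : Fin N → V), z ≠ 0 ∧ (∀ k, algebraMap V L z * a k = algebraMap V L (c k)) ∧
      ∑ k, r k * c k = 1 := by
  classical
  obtain ⟨d, hd⟩ := IsLocalization.exist_integer_multiples_of_finite (nonZeroDivisors V) a
  choose n hn using hd
  have hn' : ∀ k, algebraMap V L (n k) = algebraMap V L (d : V) * a k := fun k => by
    rw [hn k, Algebra.smul_def]
  have hd0 : (d : V) ≠ 0 := nonZeroDivisors.ne_zero d.2
  have inj : Function.Injective (algebraMap V L) := IsFractionRing.injective V L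
  obtain ⟨g, hg⟩ := (IsPrincipalIdealRing.principal (Ideal.span (Set.range n))).principal
  have hg' : Ideal.span (Set.range n) = Ideal.span {g} := hg
  have hc : ∀ k, ∃ c, n k = g * c := fun k => by
    have h1 : n k ∈ Ideal.span (Set.range n) := Ideal.subset_span ⟨k, rfl⟩
    rw [hg'] at h1
    exact Ideal.mem_span_singleton.mp h1
  choose c hc using hc
  have h2 : g ∈ Ideal.span (Set.range n) := by rw [hg']; exact Ideal.mem_span_singleton_self g
  obtain ⟨r, hr⟩ := Ideal.mem_span_range_iff_exists_fun.mp h2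
  have hnj : n j0 = d := inj (by rw [hn', h, mul_one])
  have hg0 : g ≠ 0 := by
    rintro rfl
    apply hd0
    rw [← hnj, hc, zero_mul]
  have hc0 : c j0 ≠ 0 := by
    intro h0
    apply hd0
    rw [← hnj, hc, h0, mul_zero]
  refine ⟨c j0, c, r, hc0, fun k => ?_, ?_⟩
  · have e1 : algebraMap V L g * (algebraMap V L (c j0) * a k) = algebraMap V L g * algebraMap V L (c k) := by
      rw [← mul_assoc, ← map_mul, ← hc, hnj, ← hn', hc k, map_mul]
    exact mul_left_cancel₀ (fun h0 => hg0 (inj (by rw [h0, map_zero]))) e1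
  · apply mul_left_cancel₀ hg0
    rw [mul_one, Finset.mul_sum]
    conv_rhs => rw [← hr]
    apply Finset.sum_congr rfl
    intro k _
    rw [hc k]
    ring

/-- the restriction of a derivation to a subfield -/
theorem restr {F L : Type} [Field F] [Field L] [Algebra F L] (D : Derivation ℤ L L)
    (hD : ∀ x : F, ∃ y : F, D (algebraMap F L x) = algebraMap F L y) :
    ∃ D' : Derivation ℤ F F, ∀ x, D (algebraMap F L x) = algebraMap F L (D' x) := by
  choose f hf using hD
  have inj : Function.Injective (algebraMap F L) := (algebraMap F L).injective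
  have hadd : ∀ x y, f (x + y) = f x + f y := fun x y => inj (by
    rw [← hf, map_add, map_add, map_add, hf, hf])
  refine ⟨Derivation.mk' (AddMonoidHom.mk' f hadd).toIntLinearMap ?_, ?_⟩
  · intro x y
    change f (x * y) = x • f y + y • f x
    apply inj
    rw [← hf, map_mul, Derivation.leibniz, hf, hf]
    simp only [smul_eq_mul, map_add, map_mul]
  · intro x
    exact hf x

/-- the estimate of `θ + dlog z` at one place -/
theorem est {Γ : Type} [LinearOrderedCommGroupWithZero Γ] {L : Type} [Field L] [Algebra ℂ L]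
    (v : Valuation L Γ)
    {N : ℕ} (a ah x : Fin N → L) (z : L) (hz : z ≠ 0) (hah : ∀ k, ah k = z * a k)
    (hah1 : ∀ k, v (ah k) ≤ 1) (k0 : Fin N) (hk0 : v (ah k0) = 1) (hx : ∀ l, v (x l) ≤ 1)
    (p q : Fin N) (al be : Fin N → L) (γ γ' : Fin N → Fin N → L)
    (h1 : ∀ k, v (al k) ≤ 1 ∧ v (be k) ≤ 1) (h2 : ∀ m l, v (γ m l) ≤ 1 ∧ v (γ' m l) ≤ 1)
    (h3 : ∀ k, a k = a p * al k + a q * be k) (D : Derivation ℂ L L) (t : L)
    (h4 : ∀ m, (m = p ∨ m = q) → D (a m) - a p * (∑ l, γ m l * D (x l))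
      - a q * (∑ l, γ' m l * D (x l)) = t * a m) :
    ((∀ y, v y ≤ 1 → v (D y) ≤ 1) → v (t + D z / z) ≤ 1) ∧
    ((∀ y, v y ≤ 1 → v (D y) < 1) → v (t + D z / z) < 1) := by
  obtain ⟨m, hm, hmu⟩ : ∃ m, (m = p ∨ m = q) ∧ v (ah m) = 1 := by
    by_contra hcon
    push Not at hcon
    have hp := lt_of_le_of_ne (hah1 p) (hcon p (Or.inl rfl))
    have hq := lt_of_le_of_ne (hah1 q) (hcon q (Or.inr rfl))
    have e1 : ah k0 = ah p * al k0 + ah q * be k0 := by
      rw [hah, h3 k0, hah, hah]
      ring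
    have e2 : v (ah k0) < 1 := by
      rw [e1]
      apply Valuation.map_add_lt
      · rw [map_mul]
        exact lt_of_le_of_lt (mul_le_mul_right (h1 k0).1 _) (by rw [mul_one]; exact hp)
      · rw [map_mul]
        exact lt_of_le_of_lt (mul_le_mul_right (h1 k0).2 _) (by rw [mul_one]; exact hq)
    rw [hk0] at e2
    exact lt_irrefl _ e2
  have key : (t + D z / z) * ah m = D (ah m) - ah p * (∑ l, γ m l * D (x l))
      - ah q * (∑ l, γ' m l * D (x l)) := by
    have h5 := h4 m hm
    have e3 : D (ah m) = z * D (a m) + a m * D z := by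
      rw [hah, Derivation.leibniz, smul_eq_mul, smul_eq_mul]
    rw [e3, hah p, hah q, hah m]
    have e4 : (t + D z / z) * (z * a m) = z * (t * a m) + a m * D z := by
      field_simp
    rw [e4, ← h5]
    ring
  have key2 : v (t + D z / z) = v (D (ah m) - ah p * (∑ l, γ m l * D (x l))
      - ah q * (∑ l, γ' m l * D (x l))) := by
    rw [← key, map_mul, hmu, mul_one]
  constructor
  · intro hD
    rw [key2]
    apply Valuation.map_sub_le
    · apply Valuation.map_sub_le _ (hD _ (hah1 m))
      rw [map_mul]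
      apply mul_le_one' (hah1 p)
      apply Valuation.map_sum_le
      intro l _
      rw [map_mul]
      exact mul_le_one' (h2 m l).1 (hD _ (hx l))
    · rw [map_mul]
      apply mul_le_one' (hah1 q)
      apply Valuation.map_sum_le
      intro l _
      rw [map_mul]
      exact mul_le_one' (h2 m l).2 (hD _ (hx l))
  · intro hD
    have hsum : ∀ g : Fin N → L, (∀ l, v (g l) ≤ 1) → v (∑ l, g l * D (x l)) < 1 := by
      intro g hg
      apply Valuation.map_sum_lt _ one_ne_zero
      intro l _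
      rw [map_mul]
      calc v (g l) * v (D (x l)) ≤ 1 * v (D (x l)) := mul_le_mul_left (hg l) _
        _ < 1 := by rw [one_mul]; exact hD _ (hx l)
    rw [key2]
    apply lt_of_le_of_lt (Valuation.map_sub _ _ _)
    rw [max_lt_iff]
    constructor
    · apply lt_of_le_of_lt (Valuation.map_sub _ _ _)
      rw [max_lt_iff]
      refine ⟨hD _ (hah1 m), ?_⟩
      rw [map_mul]
      calc _ ≤ 1 * v (∑ l, γ m l * D (x l)) := mul_le_mul_left (hah1 p) _
        _ < 1 := by rw [one_mul]; exact hsum _ fun l => (h2 m l).1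
    · rw [map_mul]
      calc _ ≤ 1 * v (∑ l, γ' m l * D (x l)) := mul_le_mul_left (hah1 q) _
        _ < 1 := by rw [one_mul]; exact hsum _ fun l => (h2 m l).2

section Fin

variable {σ : Type} [Fintype σ] [DecidableEq σ] {L F A V : Type} [Field L]
  [Algebra (MvPolynomial σ ℂ) L] [Algebra ℂ L] [IsScalarTower ℂ (MvPolynomial σ ℂ) L]
  [Field F] [Algebra (MvPolynomial σ ℂ) F] [Algebra F L] [IsScalarTower (MvPolynomial σ ℂ) F L]
  [FiniteDimensional F L] [CharZero F] [CommRing A] [IsDomain A] [IsDiscreteValuationRing A]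
  [Algebra (MvPolynomial σ ℂ) A] [Algebra A F] [IsScalarTower (MvPolynomial σ ℂ) A F]
  [IsFractionRing A F] [Algebra A L] [IsScalarTower A F L] [IsScalarTower (MvPolynomial σ ℂ) A L]
  [CommRing V] [IsDedekindDomain V] [Algebra A V] [Algebra V L] [IsScalarTower A V L]
  [IsFractionRing V L] [IsIntegralClosure V A L] [Module.Finite A V] [Algebra.IsIntegral A V]
  [FaithfulSMul A V]

omit [Module.Finite A V] in
/-- `V` is a principal ideal domain -/
theorem pid (h : A) (hh : IsLocalRing.maximalIdeal A = Ideal.span {h}) : IsPrincipalIdealRing V := by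
  have hh0 : h ≠ 0 := by
    rintro rfl
    rw [Ideal.span_singleton_eq_bot.mpr rfl] at hh
    exact IsDiscreteValuationRing.not_a_field A hh
  have hhV : algebraMap A V h ≠ 0 := by
    intro h0
    exact hh0 (FaithfulSMul.algebraMap_injective A V (by rw [h0, map_zero]))
  apply IsPrincipalIdealRing.of_finite_primes
  have h1 := Ideal.finite_factors (I := Ideal.span {algebraMap A V h}) (by
    rw [Ne, Ideal.zero_eq_bot, Ideal.span_singleton_eq_bot]
    exact hhV)
  apply ((h1.image fun P => P.asIdeal).insert ⊥).subset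
  intro I hI
  have hI' : I.IsPrime := hI
  by_cases h0 : I = ⊥
  · exact Or.inl h0
  · refine Or.inr ⟨⟨I, hI', h0⟩, ?_, rfl⟩
    change I ∣ _
    rw [Ideal.dvd_iff_le, Ideal.span_singleton_le_iff_mem]
    have hp : (I.comap (algebraMap A V)).IsPrime := Ideal.comap_isPrime _ _
    have hne : I.comap (algebraMap A V) ≠ ⊥ := by
      intro h2
      exact h0 (Ideal.eq_bot_of_comap_eq_bot (R := A) h2)
    have hm : (I.comap (algebraMap A V)).IsMaximal := Ring.DimensionLEOne.maximalOfPrime hne hp
    have he := IsLocalRing.eq_maximalIdeal hm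
    have : h ∈ I.comap (algebraMap A V) := by
      rw [he, hh]
      exact Ideal.mem_span_singleton_self h
    exact this

variable (V) in
include V in
theorem main (hTRV : SpecTRV) (hTLD : SpecTLD) (S : Submonoid (MvPolynomial σ ℂ)) [IsLocalization S A]
    (h : MvPolynomial σ ℂ)
    (hh : IsLocalRing.maximalIdeal A = Ideal.span {algebraMap (MvPolynomial σ ℂ) A h})
    (hun : ∀ r, ¬ h ∣ r → IsUnit (algebraMap (MvPolynomial σ ℂ) A r))
    (b0 : σ) (hb0 : ¬ h ∣ pderiv b0 h)
    (dd : σ → Derivation ℂ L L)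
    (hdd : ∀ b c, dd b (algebraMap (MvPolynomial σ ℂ) L (X c)) = if b = c then 1 else 0)
    (N : ℕ) (x a : Fin N → L) (j0 : Fin N) (θ : σ → L)
    (hx : ∀ k, IsIntegral (MvPolynomial σ ℂ) (x k)) (haj : a j0 = 1)
    (hloc : ∀ v : Valuation L (WithZero (Multiplicative ℤ)),
      (∀ z : L, IsIntegral (MvPolynomial σ ℂ) z → v z ≤ 1) →
      (∀ r : MvPolynomial σ ℂ, v (algebraMap (MvPolynomial σ ℂ) L r) < 1 ↔ h ∣ r) →
      ∃ (p q : Fin N) (al be : Fin N → L) (γ γ' : Fin N → Fin N → L),
        (∀ k, v (al k) ≤ 1 ∧ v (be k) ≤ 1) ∧ (∀ m l, v (γ m l) ≤ 1 ∧ v (γ' m l) ≤ 1) ∧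
        (∀ k, a k = a p * al k + a q * be k) ∧
        ∀ b m, (m = p ∨ m = q) → dd b (a m) - a p * (∑ l, γ m l * dd b (x l))
          - a q * (∑ l, γ' m l * dd b (x l)) = θ b * a m) :
    ∃ n : ℕ, ∀ b, ∃ α : A, Algebra.trace F L (θ b) +
      n * (algebraMap (MvPolynomial σ ℂ) F (pderiv b h) / algebraMap (MvPolynomial σ ℂ) F h)
        = algebraMap A F α := by
  classical
  have hQ : ∀ n : ℕ, n ≠ 0 → IsUnit (n : A) := by
    intro n hn
    have h1 : IsUnit (n : ℂ) := isUnit_iff_ne_zero.mpr (Nat.cast_ne_zero.mpr hn)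
    have h2 := h1.map ((algebraMap (MvPolynomial σ ℂ) A).comp (algebraMap ℂ (MvPolynomial σ ℂ)))
    rwa [map_natCast] at h2
  have hh0 : algebraMap (MvPolynomial σ ℂ) A h ≠ 0 := by
    intro h0
    rw [h0, Ideal.span_singleton_eq_bot.mpr rfl] at hh
    exact IsDiscreteValuationRing.not_a_field A hh
  have injAF : Function.Injective (algebraMap A F) := IsFractionRing.injective A F
  have towF : ∀ p, algebraMap (MvPolynomial σ ℂ) F p =
      algebraMap A F (algebraMap (MvPolynomial σ ℂ) A p) := fun p => IsScalarTower.algebraMap_apply _ _ _ _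
  have hF0 : algebraMap (MvPolynomial σ ℂ) F h ≠ 0 := by
    rw [towF]
    intro h0
    exact hh0 (injAF (by rw [h0, map_zero]))
  have tow : ∀ p, algebraMap (MvPolynomial σ ℂ) L p = algebraMap A L (algebraMap (MvPolynomial σ ℂ) A p) :=
    fun p => IsScalarTower.algebraMap_apply _ _ _ _
  have towAFL : ∀ p, algebraMap A L p = algebraMap F L (algebraMap A F p) :=
    fun p => IsScalarTower.algebraMap_apply _ _ _ _
  obtain ⟨u, hu⟩ := (hun _ hb0).exists_right_inv
  have huL : algebraMap (MvPolynomial σ ℂ) L (pderiv b0 h) * algebraMap A L u = 1 := by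
    rw [tow, ← map_mul, hu, map_one]
  have hdp := TRHM.dd_poly dd hdd
  -- the element `z`
  have hpid : IsPrincipalIdealRing V := pid (V := V) (algebraMap (MvPolynomial σ ℂ) A h) hh
  obtain ⟨zV, c, r, hzV, hc, hr⟩ := choice (V := V) (L := L) a j0 haj
  obtain ⟨z, hz⟩ : ∃ z, z = algebraMap V L zV := ⟨_, rfl⟩
  have hz0 : z ≠ 0 := by
    rw [hz]
    intro h0
    exact hzV (IsFractionRing.injective V L (by rw [h0, map_zero]))
  have hah : ∀ k, algebraMap V L (c k) = z * a k := fun k => by rw [hz, hc k]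
  have hk0 : ∀ P : HeightOneSpectrum V, ∃ k0, P.valuation L (algebraMap V L (c k0)) = 1 := by
    intro P
    by_contra hcon
    push Not at hcon
    have h1 : ∀ k, c k ∈ P.asIdeal := by
      intro k
      have := lt_of_le_of_ne (P.valuation_le_one (K := L) (c k)) (hcon k)
      rwa [HeightOneSpectrum.valuation_lt_one_iff_mem] at this
    have h2 : (1 : V) ∈ P.asIdeal := by
      rw [← hr]
      exact P.asIdeal.sum_mem fun k _ => P.asIdeal.mul_mem_left _ (h1 k)
    exact P.isPrime.ne_top ((Ideal.eq_top_iff_one _).mpr h2)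
  -- the derivations
  obtain ⟨Dh, hDh⟩ : ∃ Dh : Derivation ℂ L L,
      Dh = (algebraMap (MvPolynomial σ ℂ) L h * algebraMap A L u) • dd b0 := ⟨_, rfl⟩
  obtain ⟨Db, hDb⟩ : ∃ Db : σ → Derivation ℂ L L, Db = fun b =>
      dd b - (algebraMap (MvPolynomial σ ℂ) L (pderiv b h) * algebraMap A L u) • dd b0 := ⟨_, rfl⟩
  have hDhx : ∀ z, Dh z = algebraMap (MvPolynomial σ ℂ) L h * algebraMap A L u * dd b0 z := by
    intro z; rw [hDh]; rfl
  have hDbx : ∀ b z, Db b z = dd b z -
      algebraMap (MvPolynomial σ ℂ) L (pderiv b h) * algebraMap A L u * dd b0 z := by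
    intro b z; rw [hDb]; rfl
  have hJh : ∀ z : A, ∃ w, Dh (algebraMap A L z) =
      algebraMap A L (algebraMap (MvPolynomial σ ℂ) A h * w) := by
    intro z
    obtain ⟨w, hw, hw'⟩ := TRHM.D_A S (Ideal.span {algebraMap (MvPolynomial σ ℂ) A h}) (Dh.restrictScalars ℤ)
      (fun p => ⟨algebraMap (MvPolynomial σ ℂ) A h * (u * algebraMap (MvPolynomial σ ℂ) A (pderiv b0 p)),
        Ideal.mul_mem_right _ _ (Ideal.mem_span_singleton_self _), by
          change Dh _ = _
          rw [hDhx, hdp, map_mul, map_mul, ← tow, ← tow, mul_assoc]⟩) z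
    obtain ⟨w', rfl⟩ := Ideal.mem_span_singleton.mp hw
    exact ⟨w', hw'⟩
  have hJd : ∀ b, ∀ z : A, ∃ w, dd b (algebraMap A L z) = algebraMap A L w := by
    intro b z
    obtain ⟨w, hw, hw'⟩ := TRHM.D_A S (⊤ : Ideal A) ((dd b).restrictScalars ℤ)
      (fun p => ⟨algebraMap (MvPolynomial σ ℂ) A (pderiv b p), Submodule.mem_top, by
          change dd b _ = _
          rw [hdp, ← tow]⟩) z
    exact ⟨w, hw'⟩
  have hJb : ∀ b, ∀ z : A, ∃ w, Db b (algebraMap A L z) = algebraMap A L w := by
    intro b z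
    obtain ⟨w, hw⟩ := hJd b z
    obtain ⟨w', hw'⟩ := hJd b0 z
    refine ⟨w - algebraMap (MvPolynomial σ ℂ) A (pderiv b h) * u * w', ?_⟩
    rw [hDbx, hw, hw', map_sub, map_mul, map_mul, ← tow]
  have hbh : ∀ b, Db b (algebraMap (MvPolynomial σ ℂ) L h) = 0 := by
    intro b
    rw [hDbx, hdp, hdp, mul_assoc, mul_comm (algebraMap A L u), huL, mul_one, sub_self]
  have logh : ∀ P : HeightOneSpectrum V, ∀ z, P.valuation L z ≤ 1 → P.valuation L (Dh z) < 1 := by
    intro P
    have := TRHM.log F hTRV P (algebraMap (MvPolynomial σ ℂ) A h) hh hQ (Dh.restrictScalars ℤ)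
      (fun z => by obtain ⟨w, hw⟩ := hJh z; exact ⟨_, hw⟩) (hJh _)
    exact this.2 hJh
  have logb : ∀ P : HeightOneSpectrum V, ∀ b z, P.valuation L (Db b z) ≤ P.valuation L z := by
    intro P b
    exact (TRHM.log F hTRV P (algebraMap (MvPolynomial σ ℂ) A h) hh hQ ((Db b).restrictScalars ℤ)
      (hJb b) ⟨0, by
        change Db b _ = _
        rw [← tow, hbh, mul_zero, map_zero]⟩).1
  have hintV : ∀ (P : HeightOneSpectrum V) (z : L), IsIntegral (MvPolynomial σ ℂ) z →
      P.valuation L z ≤ 1 := by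
    intro P z hz
    have h1 : IsIntegral A z := hz.tower_top
    obtain ⟨w, rfl⟩ := (IsIntegralClosure.isIntegral_iff (A := V)).mp h1
    exact P.valuation_le_one w
  have hval : ∀ (P : HeightOneSpectrum V) (r : MvPolynomial σ ℂ),
      P.valuation L (algebraMap (MvPolynomial σ ℂ) L r) < 1 ↔ h ∣ r := by
    intro P r
    constructor
    · intro hlt
      by_contra hnd
      have := TRHM.A_unit (L := L) P (algebraMap (MvPolynomial σ ℂ) A r) (hun r hnd)
      rw [← tow] at this
      rw [this] at hlt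
      exact lt_irrefl _ hlt
    · rintro ⟨r', rfl⟩
      rw [map_mul, map_mul]
      have h1 := TRHM.h_lt (L := L) P (algebraMap (MvPolynomial σ ℂ) A h) hh
      have h2 := TRHM.A_le (L := L) P (algebraMap (MvPolynomial σ ℂ) A r')
      rw [← tow] at h1 h2
      calc _ ≤ P.valuation L (algebraMap (MvPolynomial σ ℂ) L h) * 1 := mul_le_mul_right h2 _
        _ < 1 := by rw [mul_one]; exact h1
  -- the estimates
  have hEst : ∀ P : HeightOneSpectrum V,
      P.valuation L (algebraMap (MvPolynomial σ ℂ) L h * algebraMap A L u * θ b0 + Dh z / z) < 1 ∧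
      ∀ b, P.valuation L (θ b - algebraMap (MvPolynomial σ ℂ) L (pderiv b h) * algebraMap A L u * θ b0
        + Db b z / z) ≤ 1 := by
    intro P
    obtain ⟨p, q, al, be, γ, γ', h1, h2, h3, h4⟩ := hloc (P.valuation L) (hintV P) (hval P)
    obtain ⟨k0, hk⟩ := hk0 P
    have hE := fun (D : Derivation ℂ L L) (t : L) => est (P.valuation L) a
      (fun k => algebraMap V L (c k)) x z hz0 hah (fun k => P.valuation_le_one (c k)) k0 hk
      (fun l => hintV P _ (hx l)) p q al be γ γ' h1 h2 h3 D t
    constructor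
    · refine (hE Dh _ ?_).2 (logh P)
      intro m hm
      have h5 := h4 b0 m hm
      have e1 : ∀ g : Fin N → L, ∑ l, g l * Dh (x l) =
          (algebraMap (MvPolynomial σ ℂ) L h * algebraMap A L u) * ∑ l, g l * dd b0 (x l) := by
        intro g
        rw [Finset.mul_sum]
        apply Finset.sum_congr rfl
        intro l _
        rw [hDhx]
        ring
      rw [e1, e1, hDhx, mul_assoc _ (θ b0), ← h5]
      ring
    · intro b
      refine (hE (Db b) _ ?_).1 (fun y hy => (logb P b y).trans hy)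
      intro m hm
      have h5 := h4 b0 m hm
      have h6 := h4 b m hm
      have e1 : ∀ g : Fin N → L, ∑ l, g l * Db b (x l) = ∑ l, g l * dd b (x l) -
          (algebraMap (MvPolynomial σ ℂ) L (pderiv b h) * algebraMap A L u) * ∑ l, g l * dd b0 (x l) := by
        intro g
        rw [Finset.mul_sum, ← Finset.sum_sub_distrib]
        apply Finset.sum_congr rfl
        intro l _
        rw [hDbx]
        ring
      rw [e1, e1, hDbx, sub_mul, mul_assoc _ (θ b0), ← h5, ← h6]
      ring
  -- traces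
  obtain ⟨α0, hα0⟩ := TRHM.trc (A := A) (F := F) (V := V) _ hh _ (fun P => (hEst P).1)
  have hαb : ∀ b, ∃ α : A, Algebra.trace F L (θ b - algebraMap (MvPolynomial σ ℂ) L (pderiv b h) *
      algebraMap A L u * θ b0 + Db b z / z) = algebraMap A F α := by
    intro b
    obtain ⟨w, hw⟩ := HeightOneSpectrum.mem_integers_of_valuation_le_one L _ (fun P => (hEst P).2 b)
    rw [← hw]
    have h1 : IsIntegral A (algebraMap V L w) :=
      (IsIntegralClosure.isIntegral_iff (A := V)).mpr ⟨w, rfl⟩
    have h2 : IsIntegral A (Algebra.trace F L (algebraMap V L w)) := Algebra.isIntegral_trace h1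
    obtain ⟨α, hα⟩ := IsIntegrallyClosed.isIntegral_iff.mp h2
    exact ⟨α, hα.symm⟩
  choose αb hαb using hαb
  have hmulF : ∀ (f : F) (y : L), Algebra.trace F L (algebraMap F L f * y) = f * Algebra.trace F L y := by
    intro f y
    rw [← Algebra.smul_def, map_smul, smul_eq_mul]
  have hτ0 : algebraMap A F u * Algebra.trace F L (θ b0 + dd b0 z / z) = algebraMap A F α0 := by
    have e1 : algebraMap (MvPolynomial σ ℂ) L h * algebraMap A L u * θ b0 + Dh z / z =
        algebraMap F L (algebraMap (MvPolynomial σ ℂ) F h * algebraMap A F u) *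
          (θ b0 + dd b0 z / z) := by
      rw [hDhx, map_mul, ← towAFL, ← IsScalarTower.algebraMap_apply]
      ring
    rw [e1, hmulF, map_mul, ← towF, mul_assoc] at hα0
    exact mul_left_cancel₀ hF0 hα0
  have hτ : ∀ b, ∃ α : A, Algebra.trace F L (θ b + dd b z / z) = algebraMap A F α := by
    intro b
    refine ⟨αb b + algebraMap (MvPolynomial σ ℂ) A (pderiv b h) * α0, ?_⟩
    have e1 : θ b - algebraMap (MvPolynomial σ ℂ) L (pderiv b h) * algebraMap A L u * θ b0
        + Db b z / z = (θ b + dd b z / z) -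
          algebraMap F L (algebraMap (MvPolynomial σ ℂ) F (pderiv b h) * algebraMap A F u) *
          (θ b0 + dd b0 z / z) := by
      rw [hDbx, map_mul, ← towAFL, ← IsScalarTower.algebraMap_apply]
      ring
    have h1 := hαb b
    rw [e1, map_sub, hmulF, mul_assoc, hτ0] at h1
    have e2 : algebraMap A F (αb b + algebraMap (MvPolynomial σ ℂ) A (pderiv b h) * α0) =
        algebraMap A F (αb b) + algebraMap (MvPolynomial σ ℂ) F (pderiv b h) * algebraMap A F α0 := by
      rw [map_add, map_mul, ← towF]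
    rw [e2, ← h1]
    ring
  -- the norm
  have hzint : IsIntegral A z := (IsIntegralClosure.isIntegral_iff (A := V)).mpr ⟨zV, hz.symm⟩
  obtain ⟨ν, hν⟩ := IsIntegrallyClosed.isIntegral_iff.mp (Algebra.isIntegral_norm F hzint)
  have hN0 : Algebra.norm F z ≠ 0 := Algebra.norm_ne_zero_iff.mpr hz0
  have hν0 : ν ≠ 0 := by
    rintro rfl
    rw [map_zero] at hν
    exact hN0 hν.symm
  have hirr : Irreducible (algebraMap (MvPolynomial σ ℂ) A h) :=
    (IsDiscreteValuationRing.irreducible_iff_uniformizer _).mpr hh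
  obtain ⟨n, w, hw⟩ := IsDiscreteValuationRing.eq_unit_mul_pow_irreducible hν0 hirr
  refine ⟨n, fun b => ?_⟩
  -- the derivation of `F`
  have hDF : ∀ f : F, ∃ y : F, (dd b).restrictScalars ℤ (algebraMap F L f) = algebraMap F L y := by
    intro f
    obtain ⟨p, s, hs, rfl⟩ := IsFractionRing.div_surjective (A := A) f
    obtain ⟨p', hp'⟩ := hJd b p
    obtain ⟨s', hs'⟩ := hJd b s
    refine ⟨(algebraMap A F s * algebraMap A F p' - algebraMap A F p * algebraMap A F s') /
      (algebraMap A F s) ^ 2, ?_⟩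
    change dd b _ = _
    rw [map_div₀, ← towAFL, ← towAFL, Derivation.leibniz_div, hp', hs']
    simp only [map_div₀, map_sub, map_mul, map_pow, ← towAFL, smul_eq_mul]
    ring
  obtain ⟨D', hD'⟩ := restr ((dd b).restrictScalars ℤ) hDF
  have injFL : Function.Injective (algebraMap F L) := (algebraMap F L).injective
  have hD'h : D' (algebraMap (MvPolynomial σ ℂ) F h) = algebraMap (MvPolynomial σ ℂ) F (pderiv b h) := by
    apply injFL
    rw [← hD', ← IsScalarTower.algebraMap_apply, ← IsScalarTower.algebraMap_apply]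
    exact hdp b h
  obtain ⟨w', hw'⟩ := hJd b (w : A)
  have hD'w : D' (algebraMap A F (w : A)) = algebraMap A F w' := by
    apply injFL
    rw [← hD', ← towAFL, ← towAFL]
    exact hw'
  have hT := hTLD F L inferInstance inferInstance inferInstance inferInstance D'
    ((dd b).restrictScalars ℤ) hD' z hz0
  change Algebra.trace F L (dd b z / z) = _ at hT
  obtain ⟨wi, hwi⟩ := w.isUnit.exists_right_inv
  have hwF : algebraMap A F (w : A) * algebraMap A F wi = 1 := by rw [← map_mul, hwi, map_one]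
  have hwF0 : algebraMap A F (w : A) ≠ 0 := left_ne_zero_of_mul_eq_one hwF
  have hlog : D' (Algebra.norm F z) / Algebra.norm F z =
      n * (algebraMap (MvPolynomial σ ℂ) F (pderiv b h) / algebraMap (MvPolynomial σ ℂ) F h) +
        algebraMap A F (w' * wi) := by
    have e1 : Algebra.norm F z = algebraMap A F (w : A) * (algebraMap (MvPolynomial σ ℂ) F h) ^ n := by
      rw [← hν, hw, map_mul, map_pow, ← towF]
    have e2 : algebraMap A F wi = (algebraMap A F (w : A))⁻¹ := by
      rw [eq_comm, inv_eq_iff_eq_inv]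
      exact (eq_inv_of_mul_eq_one_left hwF)
    rw [e1, Derivation.leibniz, Derivation.leibniz_pow, hD'h, hD'w, map_mul, e2]
    simp only [smul_eq_mul, nsmul_eq_mul]
    rcases Nat.eq_zero_or_pos n with rfl | hn
    · simp
      field_simp
    · obtain ⟨k, rfl⟩ := Nat.exists_eq_succ_of_ne_zero hn.ne'
      simp only [Nat.succ_sub_one, pow_succ]
      field_simp
  obtain ⟨α, hα⟩ := hτ b
  refine ⟨α - w' * wi, ?_⟩
  rw [map_add, hT, hlog] at hα
  rw [map_sub, ← hα]
  ring

end Fin

end VALM

/-- VAL -/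
theorem specVAL (hTLD : SpecTLD) : SpecVAL := by
  intro σ _ _ L _ _ _ _ _ _ _ dd N x a j0 θ hdd hx haj hloc h hh
  have hp : (Ideal.span {h}).IsPrime := (Ideal.span_singleton_prime hh.ne_zero).mpr hh
  obtain ⟨b0, hb0⟩ := TRHM.exb0 h hh
  let S : Submonoid (MvPolynomial σ ℂ) := (Ideal.span {h}).primeCompl
  have hS : S ≤ nonZeroDivisors (MvPolynomial σ ℂ) := Ideal.primeCompl_le_nonZeroDivisors _
  let A : Subalgebra (MvPolynomial σ ℂ) (FractionRing (MvPolynomial σ ℂ)) :=
    Localization.subalgebra.ofField (FractionRing (MvPolynomial σ ℂ)) S hS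
  have hA : IsLocalization S ↥A := Localization.subalgebra.isLocalization_ofField _ S hS
  have hAp : IsLocalization.AtPrime ↥A (Ideal.span {h}) := hA
  have hfA : FaithfulSMul (MvPolynomial σ ℂ) ↥A := by
    rw [faithfulSMul_iff_algebraMap_injective]
    exact IsLocalization.injective ↥A hS
  obtain ⟨hdvr, hmax⟩ := TRHM.dvr h hh ↥A
  have hun : ∀ r, ¬ h ∣ r → IsUnit (algebraMap (MvPolynomial σ ℂ) ↥A r) := by
    intro r hr
    apply IsLocalization.map_units ↥A (⟨r, ?_⟩ : S)
    intro hmem
    exact hr (Ideal.mem_span_singleton.mp hmem)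
  have hchar : CharZero (FractionRing (MvPolynomial σ ℂ)) :=
    charZero_of_injective_algebraMap
      (R := MvPolynomial σ ℂ) (IsFractionRing.injective _ _)
  have t1 : IsScalarTower ↥A (FractionRing (MvPolynomial σ ℂ)) L := inferInstance
  have t2 : IsScalarTower (MvPolynomial σ ℂ) ↥A L := by
    apply IsScalarTower.of_algebraMap_eq
    intro p
    rw [IsScalarTower.algebraMap_apply (MvPolynomial σ ℂ) (FractionRing (MvPolynomial σ ℂ)) L]
    rfl
  have hV1 : IsDedekindDomain ↥(integralClosure ↥A L) :=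
    integralClosure.isDedekindDomain ↥A (FractionRing (MvPolynomial σ ℂ)) L
  have hV2 : IsFractionRing ↥(integralClosure ↥A L) L :=
    integralClosure.isFractionRing_of_finite_extension (FractionRing (MvPolynomial σ ℂ)) L
  have hV3 : Module.Finite ↥A ↥(integralClosure ↥A L) :=
    IsIntegralClosure.finite ↥A (FractionRing (MvPolynomial σ ℂ)) L ↥(integralClosure ↥A L)
  have hAL : Function.Injective (algebraMap ↥A L) := by
    rw [IsScalarTower.algebraMap_eq ↥A (FractionRing (MvPolynomial σ ℂ)) L]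
    exact (algebraMap (FractionRing (MvPolynomial σ ℂ)) L).injective.comp
      (IsFractionRing.injective ↥A (FractionRing (MvPolynomial σ ℂ)))
  have hV4 : FaithfulSMul ↥A ↥(integralClosure ↥A L) := by
    rw [faithfulSMul_iff_algebraMap_injective]
    intro u w huw
    apply hAL
    exact congrArg Subtype.val huw
  obtain ⟨n, hn⟩ := VALM.main (F := FractionRing (MvPolynomial σ ℂ)) (A := ↥A)
    ↥(integralClosure ↥A L) specTRV hTLD S h hmax hun b0 hb0 dd hdd N x a j0 θ hx haj (hloc h hh)
  refine ⟨n, fun b => ?_⟩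
  obtain ⟨α, hα⟩ := hn b
  obtain ⟨⟨r, s⟩, hrs⟩ := IsLocalization.surj S α
  refine ⟨r, s, ?_, ?_⟩
  · intro hd
    exact s.2 (Ideal.mem_span_singleton.mpr hd)
  · rw [hα]
    simp only at hrs
    rw [IsScalarTower.algebraMap_apply (MvPolynomial σ ℂ) ↥A (FractionRing (MvPolynomial σ ℂ)),
      IsScalarTower.algebraMap_apply (MvPolynomial σ ℂ) ↥A (FractionRing (MvPolynomial σ ℂ)),
      ← map_mul, hrs]

end Pool.Agent.Lib.MPc9b009.OD
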