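import Pool.Agent.Lib.MP_c9b009_ag.OD.Spec

/-!
# MP_c9b009_ag, row OD, module ZRO: a homogeneous prime of degree `≥ 2` and a form have a common zero
-/

set_option autoImplicit false

namespace Pool.Agent.Lib.MPc9b009.OD

open MvPolynomial Pool.Agent.Lib.MPc9b009.B5

theorem specZRO : SpecZRO := by
  intro v Q h d hQ hHom htr hd hh
  by_contra hcon
  push Not at hcon
  -- all homogeneous primes over `Q + (h)` contain the variables
  have hX : ∀ q : Ideal (MvPolynomial (Fin v) ℂ), q.IsPrime → Q ≤ q → h ∈ q →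
      ∀ c, (X c : MvPolynomial (Fin v) ℂ) ∈ q := by
    intro q hq hQq hhq c
    by_contra hc
    have hvan : vanishingIdeal ℂ (zeroLocus ℂ q) = q := IsPrime.vanishingIdeal_zeroLocus q
    rw [← hvan, mem_vanishingIdeal_iff] at hc
    push Not at hc
    obtain ⟨y, hy, hyc⟩ := hc
    rw [mem_zeroLocus_iff] at hy
    have hy' : ∀ z ∈ q, eval y z = 0 := by
      intro z hz
      have := hy z hz
      simpa [aeval_eq_eval] using this
    refine hcon y ?_ (fun z hz => hy' z (hQq hz)) (hy' h hhq)
    rintro rfl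
    apply hyc
    simp
  have hint := specFINI v Q hQ hHom Unit inferInstance (fun _ => h) (fun _ => d) (fun _ => hd)
    (fun _ => hh) (fun q hq _ hQq hhq => CUTM.trdeg_top q (hX q hq hQq (hhq ())))
  have : Algebra.IsAlgebraic
      (Algebra.adjoin ℂ (Set.range fun _ : Unit => Ideal.Quotient.mk Q h))
      (MvPolynomial (Fin v) ℂ ⧸ Q) := by
    have : IsDomain (MvPolynomial (Fin v) ℂ ⧸ Q) := Ideal.Quotient.isDomain Q
    exact ⟨fun z => (hint z).isAlgebraic⟩
  have h1 := Algebra.IsAlgebraic.trdeg_le_cardinalMk ℂ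
    (Set.range fun _ : Unit => Ideal.Quotient.mk Q h)
  have h2 : Cardinal.mk (Set.range fun _ : Unit => Ideal.Quotient.mk Q h) ≤ 1 := by
    refine Cardinal.mk_range_le.trans ?_
    simp
  have h3 := (htr.trans h1).trans h2
  norm_cast at h3

end Pool.Agent.Lib.MPc9b009.OD
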