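import Pool.Agent.Lib.MP_c9b009_ag.OD.PRK
import Pool.Agent.Lib.MP_c9b009_ag.OD.THN
import Pool.Agent.Lib.MP_c9b009_ag.OD.PRB
import Pool.Agent.Lib.MP_c9b009_ag.OD.PRI
import Pool.Agent.Lib.MP_c9b009_ag.OD.LIE
import Pool.Agent.Lib.MP_c9b009_ag.OD.CLO
import Pool.Agent.Lib.MP_c9b009_ag.OD.KER
import Pool.Agent.Lib.MP_c9b009_ag.OD.E2
import Pool.Agent.Lib.MP_c9b009_ag.OD.PSA
import Pool.Agent.Lib.MP_c9b009_ag.OD.PSB
import Pool.Agent.Lib.MP_c9b009_ag.OD.PSC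
import Pool.Agent.Lib.MP_c9b009_ag.OD.TLD
import Pool.Agent.Lib.MP_c9b009_ag.OD.VAL
import Pool.Agent.Lib.MP_c9b009_ag.OD.LOG
import Pool.Agent.Lib.MP_c9b009_ag.OD.PLC
import Pool.Agent.Lib.MP_c9b009_ag.OD.POS
import Pool.Agent.Lib.MP_c9b009_ag.OD.GCD
import Pool.Agent.Lib.MP_c9b009_ag.OD.COD
import Pool.Agent.Lib.MP_c9b009_ag.OD.USL
import Pool.Agent.Lib.MP_c9b009_ag.OD.CNX
import Pool.Agent.Lib.MP_c9b009_ag.OD.HIL
import Pool.Agent.Lib.MP_c9b009_ag.OD.BND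
import Pool.Agent.Lib.MP_c9b009_ag.OD.ZRO
import Pool.Agent.Lib.MP_c9b009_ag.OD.RES
import Pool.Agent.Lib.MP_c9b009_ag.OD.HC1
import Pool.Agent.Lib.MP_c9b009_ag.OD.UVL
import Pool.Agent.Lib.MP_c9b009_ag.OD.FRM
import Pool.Agent.Lib.MP_c9b009_ag.OD.FLD
import Pool.Agent.Lib.MP_c9b009_ag.OD.JTR
import Pool.Agent.Lib.MP_c9b009_ag.OD.CRB
import Pool.Agent.Lib.MP_c9b009_ag.OD.BBX
import Pool.Agent.Lib.MP_c9b009_ag.OD.RK0
import Pool.Agent.Lib.MP_c9b009_ag.OD.FRE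
import Pool.Agent.Lib.MP_c9b009_ag.OD.TRB
import Pool.Agent.Lib.MP_c9b009_ag.OD.EVA
import Pool.Agent.Lib.MP_c9b009_ag.OD.EVB
import Pool.Agent.Lib.MP_c9b009_ag.OD.RNK
import Pool.Agent.Lib.MP_c9b009_ag.OD.RST
import Pool.Agent.Lib.MP_c9b009_ag.OD.PQL
import Pool.Agent.Lib.MP_c9b009_ag.OD.MAN
import Pool.Agent.Lib.MP_c9b009_ag.OD.FNL

/-!
# MP_c9b009_ag, row OD: assembly
-/

set_option autoImplicit false

namespace Pool.Agent.Lib.MPc9b009.OD

open Pool.Agent.Lib.MPc9b009.B5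

/-- Bondal's conjecture for the top degeneracy loci of `ℙⁿ`, `n = N - 1` odd. -/
theorem holds : SpecFNL := by
  have hSEL : SpecSEL := specSEL specMONO specHMIN
  have hSOP : SpecSOP := specSOP hSEL specFINI
  have hTRA : SpecTRA := specTRA (specTRH specTRV)
  have hBST : SpecBST := specBST hSOP hTRA specDEX specCRA
  have hRKT : SpecRKT := specRKT specSKE specRKM
  have hCRIT : SpecCRIT := specCRIT hBST hRKT specBIG
  have hPRK : SpecPRK := specPRK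
  have hZRO : SpecZRO := specZRO
  have hKER : SpecKER := specKER
  have hPSA : SpecPSA := specPSA hKER
  have hPLC : SpecPLC := specPLC hPRK
  have hPOS : SpecPOS := specPOS (specPSB hPSA) (specPSC hPSA hKER) (specVAL specTLD) specLOG hPLC
  have hPRI : SpecPRI := specPRI specTHN specPRB hPRK
  have hRES : SpecRES := specRES hPRK hZRO
  have hCNX : SpecCNX := specCNX specEXA
  have hHC1 : SpecHC1 := specHC1 specGCD specCOD specUSL hRES hCNX specHIL specBND hZRO specHMIN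
  have hEVB : SpecEVB := specEVB (specEVA specFRE) specTRB
  have hMAN : SpecMAN := specMAN hPRI specLIE specCLO hHC1 specCOD specUSL hRES hCNX specHIL
    (specPQL hPOS hZRO) specUVL specFRM specFLD specJTR (specRST (specE2 hKER))
    (specBBX specCRB) specRK0 hEVB specRNK specMONO specHMIN
  exact specFNL hMAN hCRIT specLIFT specDET0 specMST specDMIN specHMIN specSKE specRKM

end Pool.Agent.Lib.MPc9b009.OD
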