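import Pool.Agent.Lib.MP_c9b009_ag.OD.Spec

/-!
# MP_c9b009_ag, row OD, module BND: bounded Hilbert functions
-/

set_option autoImplicit false

namespace Pool.Agent.Lib.MPc9b009.OD

open MvPolynomial Pool.Agent.Lib.MPc9b009.B5

namespace BNDM

attribute [local instance] MvPolynomial.gradedAlgebra

/-- a linear form such that all the forms of large degree are in `I + (l)` -/
theorem param (I : Ideal S4) (hI : Hom I) (h1 : Dle I 1) :
    ∃ (l : S4) (n0 : ℕ), l.IsHomogeneous 1 ∧
      ∀ (m : ℕ) (f : S4), n0 ≤ m → f.IsHomogeneous m → f ∈ I ⊔ Ideal.span {l} := by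
  have hSEL : SpecSEL := specSEL specMONO specHMIN
  obtain ⟨c, hc⟩ := hSEL 4 1 1 (fun _ => I) (fun _ => 0) (Fin 4) inferInstance 1
    (fun k => X k) le_rfl (fun k => isHomogeneous_X ℂ k) (fun _ => hI)
    (fun _ q hq _ hIq => h1 q hq hIq)
    (fun _ q hq _ _ hX => by
      have := SOPM.trdeg_of_X hq hX
      exact_mod_cast this)
  obtain ⟨l, hl⟩ : ∃ l : S4, l = ∑ k, C (c 0 k) * X k := ⟨_, rfl⟩
  have hl1 : l.IsHomogeneous 1 := by
    rw [hl]
    refine IsHomogeneous.sum _ _ _ fun k _ => ?_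
    have := (isHomogeneous_C (Fin 4) (c 0 k)).mul (isHomogeneous_X ℂ k)
    rwa [zero_add] at this
  obtain ⟨J, hJ⟩ : ∃ J : Ideal S4, J = I ⊔ Ideal.span {l} := ⟨_, rfl⟩
  have hJhom : J.IsHomogeneous (homogeneousSubmodule (Fin 4) ℂ) := by
    rw [hJ]
    refine Ideal.IsHomogeneous.sup ((FINIM.hom_iff I).mp hI) ?_
    refine Ideal.homogeneous_span _ _ ?_
    intro x hx
    rw [Set.mem_singleton_iff] at hx
    subst hx
    exact ⟨1, hl1⟩
  have hrad : ∀ i : Fin 4, X i ∈ J.radical := by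
    intro i
    rw [hJhom.radical_eq, Ideal.mem_sInf]
    rintro q ⟨hq1, hq2, hq3⟩
    have hq4 : Hom q := (FINIM.hom_iff q).mpr hq1
    rw [hJ] at hq2
    have hpq : I ≤ q := le_trans le_sup_left hq2
    have hlq : l ∈ q := hq2 (Ideal.mem_sup_right (Ideal.subset_span rfl))
    refine FINIM.X_mem q hq3 hq4 ?_ i
    have := hc 0 q hq3 hq4 hpq (fun j => by
      have hj : j = 0 := Subsingleton.elim _ _
      subst hj
      rw [← hl]
      exact hlq)
    exact_mod_cast this
  choose n hn using fun i => hrad i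
  obtain ⟨e, he⟩ : ∃ e : ℕ, e = ∑ i, n i := ⟨_, rfl⟩
  have hXe : ∀ i : Fin 4, (X i : S4) ^ e ∈ J := by
    intro i
    have h1 : n i ≤ e := by
      rw [he]
      exact Finset.single_le_sum (fun j _ => Nat.zero_le (n j)) (Finset.mem_univ i)
    obtain ⟨k, hk⟩ := Nat.exists_eq_add_of_le h1
    rw [hk, pow_add]
    exact J.mul_mem_right _ (hn i)
  refine ⟨l, 4 * e + 1, hl1, fun m f hm hf => ?_⟩
  rw [← hJ, f.as_sum]
  refine J.sum_mem fun s hs => ?_
  have hdeg : ∑ i, s i = m := by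
    have := hf (mem_support_iff.mp hs)
    rw [Finsupp.weight_apply, Finsupp.sum_fintype _ _ (by intro i; rfl)] at this
    simpa using this
  have hex : ∃ i, e ≤ s i := by
    by_contra hcon
    push Not at hcon
    have h2 : ∑ i, s i ≤ ∑ _i : Fin 4, e := Finset.sum_le_sum fun i _ => (hcon i).le
    rw [Finset.sum_const, Finset.card_univ, Fintype.card_fin, smul_eq_mul] at h2
    omega
  obtain ⟨i, hi⟩ := hex
  have h3 : (monomial s (f.coeff s) : S4) = monomial (s - Finsupp.single i e) (f.coeff s) * X i ^ e := by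
    rw [X_pow_eq_monomial, monomial_mul, mul_one, tsub_add_cancel_of_le]
    rw [Finsupp.single_le_iff]
    exact hi
  rw [h3]
  exact J.mul_mem_left _ (hXe i)

/-- the Hilbert function does not increase -/
theorem step (I : Ideal S4) (hI : Hom I) (l : S4) (hl : l.IsHomogeneous 1) (a : ℕ)
    (h : ∀ f : S4, f.IsHomogeneous (a + 1) → f ∈ I ⊔ Ideal.span {l}) : hq I (a + 1) ≤ hq I a := by
  obtain ⟨φ, hφ⟩ : ∃ φ : ↥(homogeneousSubmodule (Fin 4) ℂ a) →ₗ[ℂ]
      ↥(homogeneousSubmodule (Fin 4) ℂ (a + 1)),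
      ∀ x, (φ x : S4) = (x : S4) * l := by
    refine ⟨LinearMap.codRestrict _ ((LinearMap.mulRight ℂ l).comp
      (homogeneousSubmodule (Fin 4) ℂ a).subtype) ?_, fun x => rfl⟩
    intro x
    exact (show (x : S4).IsHomogeneous a from x.2).mul hl
  obtain ⟨P, hP⟩ : ∃ P : ∀ b : ℕ, Submodule ℂ ↥(homogeneousSubmodule (Fin 4) ℂ b),
      ∀ b, P b = Submodule.comap (homogeneousSubmodule (Fin 4) ℂ b).subtype (I.restrictScalars ℂ) :=
    ⟨_, fun b => rfl⟩
  have hPm : ∀ b (x : ↥(homogeneousSubmodule (Fin 4) ℂ b)), x ∈ P b ↔ (x : S4) ∈ I := by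
    intro b x
    rw [hP b]
    rfl
  have hle : P a ≤ Submodule.comap φ (P (a + 1)) := by
    intro x hx
    rw [Submodule.mem_comap, hPm, hφ]
    exact I.mul_mem_right _ ((hPm a x).1 hx)
  have hsurj : Function.Surjective (Submodule.mapQ (P a) (P (a + 1)) φ hle) := by
    intro y
    obtain ⟨y, rfl⟩ := Submodule.mkQ_surjective _ y
    have hy : (y : S4).IsHomogeneous (a + 1) := y.2
    have h1 := h y hy
    rw [Submodule.mem_sup] at h1
    obtain ⟨i, hi, z, hz, hiz⟩ := h1
    obtain ⟨w, rfl⟩ := Ideal.mem_span_singleton'.1 hz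
    have h2 : (y : S4) = homogeneousComponent (a + 1) i + homogeneousComponent a w * l := by
      have h3 : homogeneousComponent (a + 1) (y : S4) = y := by
        rw [homogeneousComponent_of_mem hy, if_pos rfl]
      have h4 := FINIM.comp_mul w l 1 (a + 1) hl
      rw [if_pos (by omega), Nat.add_sub_cancel] at h4
      rw [← h4, ← map_add, hiz, h3]
    refine ⟨Submodule.mkQ _ ⟨homogeneousComponent a w, homogeneousComponent_isHomogeneous _ _⟩, ?_⟩
    rw [Submodule.mkQ_apply, Submodule.mapQ_apply, Submodule.mkQ_apply, Submodule.Quotient.eq, hPm]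
    rw [Submodule.coe_sub, hφ]
    change homogeneousComponent a w * l - (y : S4) ∈ I
    rw [h2]
    have h5 := I.neg_mem (hI i hi (a + 1))
    convert h5 using 1
    ring
  have hfin : Module.Finite ℂ (homogeneousSubmodule (Fin 4) ℂ a) :=
    Module.Finite.iff_fg.2 (homogeneousSubmodule_fg (Fin 4) ℂ a)
  have h6 := LinearMap.finrank_range_le (Submodule.mapQ (P a) (P (a + 1)) φ hle)
  rw [LinearMap.range_eq_top.2 hsurj, finrank_top] at h6
  unfold hq
  rw [← hP, ← hP]
  exact h6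

end BNDM

open BNDM in
/-- module BND -/
theorem specBND : SpecBND := by
  intro I hI h1
  obtain ⟨l, n0, hl, hJ⟩ := param I hI h1
  have hst : ∀ a, n0 ≤ a → hq I (a + 1) ≤ hq I a := fun a ha =>
    step I hI l hl a fun f hf => hJ (a + 1) f (by omega) hf
  have hb : ∀ k, hq I (n0 + k) ≤ hq I n0 := by
    intro k
    induction k with
    | zero => exact le_rfl
    | succ k ih => exact (hst (n0 + k) (by omega)).trans ih
  refine ⟨∑ b ∈ Finset.range (n0 + 1), hq I b, fun a => ?_⟩
  have hs : ∀ b ∈ Finset.range (n0 + 1), hq I b ≤ ∑ b ∈ Finset.range (n0 + 1), hq I b :=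
    fun b hb => Finset.single_le_sum (f := fun b => hq I b) (fun j _ => Nat.zero_le _) hb
  rcases le_or_gt a n0 with ha | ha
  · exact hs a (Finset.mem_range.2 (by omega))
  · obtain ⟨k, rfl⟩ := Nat.exists_eq_add_of_le ha.le
    exact (hb k).trans (hs n0 (Finset.mem_range.2 (by omega)))

end Pool.Agent.Lib.MPc9b009.OD
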