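import Pool.Agent.Lib.MP_c9b009_ag.B5.All

/-!
# MP_c9b009_ag, row OD: Bondal's conjecture for the top degeneracy loci of `ℙⁿ`, `n` odd. Definitions

THEOREM. `n` odd, `τ` any Poisson structure on `ℙⁿ`, `s` even, `n - 5 ≤ s < n`: `X_{≤ s}` has an
irreducible component of dimension `≥ s + 1`.

Notation of all the docstrings. `N = n + 1` is even, `S = ℂ[x_1, .., x_N]`, `D(p)` = transcendence
degree of `S / p`. `g` is the unimodular quadratic Poisson lift (LIFT of row B5), `det g = 0`, and the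
theorem follows as in B5/THA from: the ideal `mI (N - 3) g` of the `(N - 3)`-minors has a minimal prime
`p` with `D(p) ≥ N - 3`. SUPPOSE NOT: `Dle (mI (N - 3) g) (N - 4)`. Then (G) the kernel of `g` has a
primitive skew generator `P_ij` of degree `N - 2`, the 2-form `Ω = ½ ∑ P_ij dx_i dx_j` is closed,
`f_j = ∑ x_i P_ij`, `ω = ∑ f_j dx_j`, `dω = N Ω`. (P) Along every component `𝔭` of `V = {f = 0}`
(dimension `N - 2`) the minors of `F_ik = ∂_k f_i` are `δ P_ij P_kl` with a REAL CONSTANT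
`0 < δ ≤ N² / 4` (`δ = λ μ`, `λ + μ = N`, the eigenvalues `λ, μ` are real and `≥ 1` if `λ ≠ μ`).
(H) On a generic 4-dimensional subspace `U` the curve `V ∩ ℙ(U)` has degree `(N² - 1) / 3`.
(B) A Baum-Bott formula: `∑ deg_i / δ_i = [L : F] / (N-1)² ≤ 1`. But
`∑ deg_i / δ_i ≥ (4 / N²) (N² - 1) / 3 > 1`.
-/

set_option autoImplicit false

namespace Pool.Agent.Lib.MPc9b009.OD

open MvPolynomial Pool.Agent.Lib.MPc9b009.B5

/-- the coordinate ring of a 4-dimensional space -/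
abbrev S4 := MvPolynomial (Fin 4) ℂ

/-- the polynomial ring in `q_0, q_1, l_0, l_1` -/
abbrev R4 := MvPolynomial (Fin 2 ⊕ Fin 2) ℂ

/-- all primes over `I` have transcendence degree `≤ t` -/
def Dle {v : ℕ} (I : Ideal (MvPolynomial (Fin v) ℂ)) (t : ℕ) : Prop :=
  ∀ q : Ideal (MvPolynomial (Fin v) ℂ), q.IsPrime → I ≤ q →
    Algebra.trdeg ℂ (MvPolynomial (Fin v) ℂ ⧸ q) ≤ ((t : ℕ) : Cardinal)

/-- the ideal of the `k`-minors -/
noncomputable def mI {N : ℕ} (k : ℕ) (g : Biv N) : Ideal (MvPolynomial (Fin N) ℂ) :=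
  Ideal.span {z | ∃ I J : Fin k → Fin N, z = mnr g.f I J}

/-- `P` is the primitive skew generator of the kernel of `g` (degree `N - 2`) -/
structure Om {N : ℕ} (g : Biv N) (P : Fin N → Fin N → MvPolynomial (Fin N) ℂ) : Prop where
  skew : ∀ i j, P j i = - P i j
  hom : ∀ i j, (P i j).IsHomogeneous (N - 2)
  ker : ∀ a k, ∑ j, g.f a j * P j k = 0
  plu : ∀ i j k l, P i j * P k l - P i k * P j l + P i l * P j k = 0
  minor : ∃ h : ℂ, h ≠ 0 ∧ ∀ i j, i ≠ j → (EXAM.mij (Matrix.of g.f) i j).det = C h * P i j ^ 2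
  prim : ∀ z, (∀ i j, z ∣ P i j) → IsUnit z

/-- `f_j = ∑ x_i P_ij` -/
noncomputable def fo {N : ℕ} (P : Fin N → Fin N → MvPolynomial (Fin N) ℂ) (j : Fin N) :
    MvPolynomial (Fin N) ℂ := ∑ i, X i * P i j

/-- the Hamiltonian vector field `X_a = {x_a, .}` -/
noncomputable def ham {N : ℕ} (g : Biv N) (a : Fin N) (z : MvPolynomial (Fin N) ℂ) :
    MvPolynomial (Fin N) ℂ := ∑ l, g.f a l * pderiv l z

/-- `F_ik = ∂_k f_i` -/
noncomputable def FF {N : ℕ} (P : Fin N → Fin N → MvPolynomial (Fin N) ℂ) (i k : Fin N) :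
    MvPolynomial (Fin N) ℂ := pderiv k (fo P i)

/-- `P` with its differential equations -/
structure Geo {N : ℕ} (g : Biv N) (P : Fin N → Fin N → MvPolynomial (Fin N) ℂ) : Prop
    extends Om g P where
  lie : ∀ a i j, ham g a (P i j) + ∑ l, pderiv i (g.f a l) * P l j
    + ∑ l, pderiv j (g.f a l) * P i l = 0
  curl : ∀ i j, pderiv i (fo P j) - pderiv j (fo P i) = C (N : ℂ) * P i j
  hamf : ∀ a i, ham g a (fo P i) + ∑ l, pderiv i (g.f a l) * fo P l = 0

/-- the ideal of `V` -/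
noncomputable def Jf {N : ℕ} (P : Fin N → Fin N → MvPolynomial (Fin N) ℂ) : Ideal (MvPolynomial (Fin N) ℂ) :=
  Ideal.span (Set.range (fo P))

/-- `P(u, v)` for constant vectors -/
noncomputable def Puv {N : ℕ} (P : Fin N → Fin N → MvPolynomial (Fin N) ℂ) (u v : Fin N → ℂ) :
    MvPolynomial (Fin N) ℂ := ∑ i, ∑ j, C (u i) * C (v j) * P i j

/-- `∂_k f_u` -/
noncomputable def Fu {N : ℕ} (P : Fin N → Fin N → MvPolynomial (Fin N) ℂ) (u : Fin N → ℂ)
    (k : Fin N) : MvPolynomial (Fin N) ℂ := ∑ i, C (u i) * FF P i k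

/-- `F(u,u) F(v,v) - F(u,v) F(v,u)`, `F(u,v) = ∑ u_i v_k F_ik` -/
noncomputable def duv {N : ℕ} (P : Fin N → Fin N → MvPolynomial (Fin N) ℂ) (u v : Fin N → ℂ) :
    MvPolynomial (Fin N) ℂ :=
  (∑ k, C (u k) * Fu P u k) * (∑ k, C (v k) * Fu P v k)
    - (∑ k, C (v k) * Fu P u k) * (∑ k, C (u k) * Fu P v k)

/-- coefficients of the connection -/
noncomputable def ga {N : ℕ} {L : Type} [Field L] [Algebra ℂ L]
    (P : Fin N → Fin N → MvPolynomial (Fin N) ℂ) (br : MvPolynomial (Fin N) ℂ →ₐ[ℂ] L)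
    (p q m l : Fin N) : L :=
  br (pderiv m (P l q) * P p q - P l q * pderiv m (P p q)) / br (P p q) ^ 2

/-- coefficients of the connection -/
noncomputable def gb {N : ℕ} {L : Type} [Field L] [Algebra ℂ L]
    (P : Fin N → Fin N → MvPolynomial (Fin N) ℂ) (br : MvPolynomial (Fin N) ℂ →ₐ[ℂ] L)
    (p q m l : Fin N) : L :=
  br (pderiv m (P p l) * P p q - P p l * pderiv m (P p q)) / br (P p q) ^ 2

/-- the dimension of the degree `a` part of `S / I` -/
noncomputable def hq {v : ℕ} (I : Ideal (MvPolynomial (Fin v) ℂ)) (a : ℕ) : ℕ :=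
  Module.finrank ℂ (↥(homogeneousSubmodule (Fin v) ℂ a) ⧸
    (Submodule.comap (homogeneousSubmodule (Fin v) ℂ a).subtype (I.restrictScalars ℂ)))

/-- the Jacobian determinant of `q_0, q_1, l_0, l_1` -/
noncomputable def jc (q l : Fin 2 → S4) : S4 :=
  (Matrix.of fun a c : Fin 4 => pderiv c ((![q 0, q 1, l 0, l 1] : Fin 4 → S4) a)).det

/-- the determinant with the rows `V_0, V_1, dl_0, dl_1` -/
noncomputable def vd (V : Fin 2 → Fin 4 → S4) (l : Fin 2 → S4) : S4 :=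
  (Matrix.of (![V 0, V 1, fun c => pderiv c (l 0), fun c => pderiv c (l 1)] :
    Fin 4 → Fin 4 → S4)).det

end Pool.Agent.Lib.MPc9b009.OD
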