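import Pool.Agent.Lib.MP_c9b009_ag.OD.Spec

/-!
# MP_c9b009_ag, row OD, module FRE: freeness over a two-dimensional regular local ring
-/

set_option autoImplicit false

namespace Pool.Agent.Lib.MPc9b009.OD

open MvPolynomial Pool.Agent.Lib.MPc9b009.B5

namespace FREM

open TensorProduct

variable {B : Type} [CommRing B] [IsLocalRing B]

theorem gens (M : Type) [AddCommGroup M] [Module B M] [Module.Finite B M] :
    ∃ (n : ℕ) (f : Fin n → M), Submodule.span B (Set.range f) = ⊤ ∧
      ∀ a : Fin n → B, ∑ i, a i • f i ∈ IsLocalRing.maximalIdeal B • (⊤ : Submodule B M) →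
        ∀ i, a i ∈ IsLocalRing.maximalIdeal B := by
  classical
  let k := IsLocalRing.ResidueField B
  let b := Module.finBasis k (k ⊗[B] M)
  have hsurj : ∀ t : k ⊗[B] M, ∃ m : M, (1 : k) ⊗ₜ[B] m = t := by
    have := TensorProduct.mk_surjective B M k (IsLocalRing.residue_surjective)
    exact fun t => this t
  choose g hg using hsurj
  refine ⟨_, fun i => g (b i), ?_, ?_⟩
  · exact IsLocalRing.span_eq_top_of_tmul_eq_basis _ b fun i => hg (b i)
  · intro a ha i
    have h1 : ∀ m ∈ IsLocalRing.maximalIdeal B • (⊤ : Submodule B M), (1 : k) ⊗ₜ[B] m = 0 := by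
      intro m hm
      refine Submodule.smul_induction_on hm ?_ ?_
      · intro r hr x _
        rw [← TensorProduct.smul_tmul, Algebra.smul_def, mul_one]
        have : algebraMap B k r = 0 := by
          rw [IsLocalRing.ResidueField.algebraMap_eq]
          exact (IsLocalRing.residue_eq_zero_iff r).2 hr
        rw [this, TensorProduct.zero_tmul]
      · intro x y hx hy
        rw [TensorProduct.tmul_add, hx, hy, add_zero]
    have h2 := h1 _ ha
    rw [TensorProduct.tmul_sum] at h2
    have h3 : ∀ j, (1 : k) ⊗ₜ[B] (a j • g (b j)) = (algebraMap B k (a j)) • b j := by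
      intro j
      rw [← TensorProduct.smul_tmul, ← hg (b j), TensorProduct.smul_tmul', hg (b j)]
      rw [Algebra.smul_def, mul_one, smul_eq_mul, mul_one]
    simp only [h3] at h2
    have h4 := (Fintype.linearIndependent_iff.1 b.linearIndependent) _ h2 i
    rw [IsLocalRing.ResidueField.algebraMap_eq] at h4
    exact (IsLocalRing.residue_eq_zero_iff _).1 h4

end FREM

open FREM in
/-- module FRE -/
theorem specFRE : SpecFRE := by
  intro B _ _ _ M _ _ _ x y hm hx hy
  obtain ⟨n, f, hspan, hf⟩ := gens (B := B) M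
  have hxm : x ∈ IsLocalRing.maximalIdeal B := by
    rw [hm]; exact Ideal.subset_span (by simp)
  have hym : y ∈ IsLocalRing.maximalIdeal B := by
    rw [hm]; exact Ideal.subset_span (by simp)
  -- step 1
  have step : ∀ (t : ℕ) (a : Fin n → B) (m : M), ∑ i, a i • f i = x • m →
      ∀ i, ∃ b c, a i = x * b + y ^ t * c := by
    intro t
    induction t with
    | zero =>
      intro a m _ i
      exact ⟨0, a i, by ring⟩
    | succ t ih =>
      intro a m ha i
      have h1 : ∑ i, a i • f i ∈ IsLocalRing.maximalIdeal B • (⊤ : Submodule B M) := by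
        rw [ha]
        exact Submodule.smul_mem_smul hxm trivial
      have h2 : ∀ j, ∃ b c, a j = x * b + y * c := by
        intro j
        have := hf a h1 j
        rw [hm, Ideal.mem_span_pair] at this
        obtain ⟨b, c, h⟩ := this
        exact ⟨b, c, by rw [← h]; ring⟩
      choose b c hbc using h2
      have h3 : y • ∑ i, c i • f i = x • (m - ∑ i, b i • f i) := by
        rw [smul_sub, ← ha, Finset.smul_sum, Finset.smul_sum, ← Finset.sum_sub_distrib]
        refine Finset.sum_congr rfl fun j _ => ?_
        rw [hbc j, add_smul, mul_smul, mul_smul]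
        abel
      obtain ⟨m', hm'⟩ := hy _ _ h3
      obtain ⟨b', c', h4⟩ := ih c m' hm' i
      exact ⟨b i + y * b', c', by rw [hbc i, h4]; ring⟩
  have hdiv : ∀ (a : Fin n → B) (m : M), ∑ i, a i • f i = x • m → ∀ i, ∃ b, a i = x * b := by
    intro a m ha i
    have h1 : (Ideal.Quotient.mk (Ideal.span {x}) (a i)) ∈
        (⨅ t : ℕ, (IsLocalRing.maximalIdeal B) ^ t • (⊤ : Submodule B (B ⧸ Ideal.span {x}))) := by
      rw [Submodule.mem_iInf]
      intro t
      obtain ⟨b, c, h⟩ := step t a m ha i
      have h2 : Ideal.Quotient.mk (Ideal.span {x}) (a i)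
          = y ^ t • (Ideal.Quotient.mk (Ideal.span {x}) c) := by
        rw [Algebra.smul_def, Ideal.Quotient.algebraMap_eq, ← map_mul, Ideal.Quotient.eq]
        rw [h, Ideal.mem_span_singleton]
        exact ⟨b, by ring⟩
      rw [h2]
      exact Submodule.smul_mem_smul (Ideal.pow_mem_pow hym t) trivial
    rw [Ideal.iInf_pow_smul_eq_bot_of_isLocalRing _ (IsLocalRing.maximalIdeal.isMaximal B).ne_top,
      Submodule.mem_bot, Ideal.Quotient.eq_zero_iff_mem, Ideal.mem_span_singleton] at h1
    exact h1
  -- step 2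
  have step2 : ∀ (t : ℕ) (a : Fin n → B), ∑ i, a i • f i = 0 → ∀ i, ∃ b, a i = x ^ t * b := by
    intro t
    induction t with
    | zero =>
      intro a _ i
      exact ⟨a i, by ring⟩
    | succ t ih =>
      intro a ha i
      have h1 := hdiv a 0 (by rw [ha, smul_zero])
      choose b hb using h1
      have h2 : x • ∑ i, b i • f i = 0 := by
        rw [← ha, Finset.smul_sum]
        refine Finset.sum_congr rfl fun j _ => ?_
        rw [hb j, mul_smul]
      obtain ⟨c, hc⟩ := ih b (hx _ h2) i
      exact ⟨c, by rw [hb i, hc]; ring⟩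
  have hzero : ∀ a : Fin n → B, ∑ i, a i • f i = 0 → ∀ i, a i = 0 := by
    intro a ha i
    have h1 : a i ∈ (⨅ t : ℕ, (IsLocalRing.maximalIdeal B) ^ t • (⊤ : Submodule B B)) := by
      rw [Submodule.mem_iInf]
      intro t
      obtain ⟨b, hb⟩ := step2 t a ha i
      rw [hb, ← smul_eq_mul]
      exact Submodule.smul_mem_smul (Ideal.pow_mem_pow hxm t) trivial
    rw [Ideal.iInf_pow_smul_eq_bot_of_isLocalRing _
      (IsLocalRing.maximalIdeal.isMaximal B).ne_top, Submodule.mem_bot] at h1
    exact h1
  have hli : LinearIndependent B f := Fintype.linearIndependent_iff.2 hzero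
  exact Module.Free.of_basis (Module.Basis.mk hli (by rw [hspan]))

end Pool.Agent.Lib.MPc9b009.OD
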