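import Pool.Agent.Lib.MP_c9b009_ag.OD.Spec

/-!
# MP_c9b009_ag, row OD, module PRK: skew matrices whose principal `(N-2)`-minors vanish
-/

set_option autoImplicit false

namespace Pool.Agent.Lib.MPc9b009.OD

open Pool.Agent.Lib.MPc9b009.B5

namespace PRKM

variable {F : Type} [Field F] [CharZero F]

theorem odd_skew {ι : Type} [Fintype ι] [DecidableEq ι] (M : Matrix ι ι F)
    (hM : M.transpose = -M) (hc : Odd (Fintype.card ι)) : M.det = 0 := by
  have h1 : M.det = (-M).det := by rw [← hM, Matrix.det_transpose]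
  rw [Matrix.det_neg, hc.neg_one_pow] at h1
  have h2 : (2 : F) * M.det = 0 := by linear_combination h1
  exact (mul_eq_zero.1 h2).resolve_left two_ne_zero

theorem minor_ne {N : ℕ} (M : Matrix (Fin N) (Fin N) F) (hN : Even N)
    (hM : ∀ i j, M j i = - M i j) (hdet : M.det = 0) (hrk : N ≤ M.rank + 2) :
    ∃ i j : Fin N, i ≠ j ∧ (EXAM.mij M i j).det ≠ 0 := by
  classical
  obtain ⟨u, hu0, hu⟩ := Matrix.exists_mulVec_eq_zero_iff.2 hdet
  obtain ⟨i, hi⟩ := Function.ne_iff.1 hu0
  rw [Pi.zero_apply] at hi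
  have horth : ∀ x y : Fin N → F, M.mulVec y = 0 → ∑ l, (M.mulVec x) l * y l = 0 := by
    intro x y hy
    have h1 : ∑ l, (M.mulVec x) l * y l = - ∑ m, x m * (M.mulVec y) m := by
      simp only [Matrix.mulVec, dotProduct, Finset.sum_mul, Finset.mul_sum]
      rw [Finset.sum_comm, ← Finset.sum_neg_distrib]
      refine Finset.sum_congr rfl fun a _ => ?_
      rw [← Finset.sum_neg_distrib]
      refine Finset.sum_congr rfl fun b _ => ?_
      rw [hM a b]
      ring
    rw [h1, hy]
    simp
  -- the second kernel vector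
  have hodd : Odd (Fintype.card {l : Fin N // l ≠ i}) := by
    have h1 : Fintype.card {l : Fin N // l ≠ i} = N - 1 := by
      rw [Fintype.card_subtype_compl]
      simp
    have hNpos : 0 < N := i.pos
    rw [h1]
    obtain ⟨m, hm⟩ := hN
    exact ⟨m - 1, by omega⟩
  have hdet1 : (M.submatrix (Subtype.val : {l : Fin N // l ≠ i} → Fin N) Subtype.val).det = 0 := by
    apply odd_skew _ _ hodd
    ext a b
    simp only [Matrix.transpose_apply, Matrix.neg_apply, Matrix.submatrix_apply]
    exact hM a.1 b.1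
  obtain ⟨x', hx'0, hx'⟩ := Matrix.exists_mulVec_eq_zero_iff.2 hdet1
  obtain ⟨x, hx⟩ : ∃ x : Fin N → F, x = fun l => if h : l ≠ i then x' ⟨l, h⟩ else 0 := ⟨_, rfl⟩
  have hxi : x i = 0 := by simp [hx]
  have hxv : ∀ l : {l : Fin N // l ≠ i}, x l.1 = x' l := by
    intro l
    rw [hx]
    beta_reduce
    rw [dif_pos l.2]
  obtain ⟨⟨j, hji⟩, hj⟩ := Function.ne_iff.1 hx'0
  rw [Pi.zero_apply] at hj
  have hxj : x j ≠ 0 := by rw [hxv ⟨j, hji⟩]; exact hj
  have hMx : M.mulVec x = 0 := by
    have hl : ∀ l, l ≠ i → M.mulVec x l = 0 := by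
      intro l hl
      have h1 := congrFun hx' ⟨l, hl⟩
      have h2 : M.mulVec x l = ∑ m : {l : Fin N // l ≠ i}, M l m.1 * x' m := by
        have h3 : M.mulVec x l = ∑ m, M l m * x m := by simp [Matrix.mulVec, dotProduct]
        rw [h3, ← Finset.add_sum_erase Finset.univ _ (Finset.mem_univ i), hxi, mul_zero, zero_add,
          Finset.sum_subtype (p := fun l => l ≠ i) (Finset.univ.erase i) (by intro y; simp)]
        exact Finset.sum_congr rfl fun m _ => by rw [hxv m]
      rw [h2]
      simpa [Matrix.mulVec, dotProduct] using h1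
    have hi0 : M.mulVec x i = 0 := by
      have h1 := horth x u hu
      rw [← Finset.add_sum_erase Finset.univ _ (Finset.mem_univ i),
        Finset.sum_eq_zero (s := Finset.univ.erase i)
          (fun l hl' => by rw [hl l (Finset.ne_of_mem_erase hl'), zero_mul]), add_zero] at h1
      exact (mul_eq_zero.1 h1).resolve_right hi
    ext l
    by_cases h : l = i
    · rw [h]; exact hi0
    · exact hl l h
  refine ⟨i, j, Ne.symm hji, ?_⟩
  intro hdet2
  obtain ⟨z', hz'0, hz'⟩ := Matrix.exists_mulVec_eq_zero_iff.2 hdet2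
  obtain ⟨z, hz⟩ : ∃ z : Fin N → F, z = fun l => if h : l ≠ i ∧ l ≠ j then z' ⟨l, h⟩ else 0 :=
    ⟨_, rfl⟩
  have hzi : z i = 0 := by simp [hz]
  have hzj : z j = 0 := by simp [hz]
  have hzv : ∀ l : {l : Fin N // l ≠ i ∧ l ≠ j}, z l.1 = z' l := by
    intro l
    rw [hz]
    beta_reduce
    rw [dif_pos l.2]
  obtain ⟨⟨k, hk⟩, hzk'⟩ := Function.ne_iff.1 hz'0
  rw [Pi.zero_apply] at hzk'
  have hzk : z k ≠ 0 := by rw [hzv ⟨k, hk⟩]; exact hzk'
  have hMz : M.mulVec z = 0 := by
    have hl : ∀ l, l ≠ i ∧ l ≠ j → M.mulVec z l = 0 := by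
      intro l hl
      have h1 := congrFun hz' ⟨l, hl⟩
      have h2 : M.mulVec z l = ∑ m : {l : Fin N // l ≠ i ∧ l ≠ j}, M l m.1 * z' m := by
        have h3 : M.mulVec z l = ∑ m, M l m * z m := by simp [Matrix.mulVec, dotProduct]
        rw [h3, EXAM.sum_split i j (Ne.symm hji), hzi, hzj, mul_zero, mul_zero, zero_add, zero_add]
        exact Finset.sum_congr rfl fun m _ => by rw [hzv m]
      rw [h2]
      simpa [Matrix.mulVec, dotProduct, EXAM.mij] using h1
    have hj0 : M.mulVec z j = 0 := by
      have h1 := horth z x hMx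
      rw [EXAM.sum_split i j (Ne.symm hji),
        Finset.sum_eq_zero (fun l _ => by rw [hl l.1 l.2, zero_mul]), hxi, mul_zero,
        zero_add, add_zero] at h1
      exact (mul_eq_zero.1 h1).resolve_right hxj
    have hi0 : M.mulVec z i = 0 := by
      have h1 := horth z u hu
      rw [EXAM.sum_split i j (Ne.symm hji),
        Finset.sum_eq_zero (fun l _ => by rw [hl l.1 l.2, zero_mul]), hj0, zero_mul,
        add_zero, add_zero] at h1
      exact (mul_eq_zero.1 h1).resolve_right hi
    ext l
    by_cases h : l = i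
    · rw [h]; exact hi0
    · by_cases h' : l = j
      · rw [h']; exact hj0
      · exact hl l ⟨h, h'⟩
  -- three independent kernel vectors
  have hind : LinearIndependent F ![u, x, z] := by
    rw [Fintype.linearIndependent_iff]
    intro g hg
    have hg' : ∀ l, g 0 * u l + g 1 * x l + g 2 * z l = 0 := by
      intro l
      have h1 := congrFun hg l
      simpa [Fin.sum_univ_three] using h1
    have g0 : g 0 = 0 := by
      have h1 := hg' i
      rw [hxi, hzi, mul_zero, mul_zero, add_zero, add_zero] at h1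
      exact (mul_eq_zero.1 h1).resolve_right hi
    have g1 : g 1 = 0 := by
      have h1 := hg' j
      rw [g0, hzj, mul_zero, zero_mul, zero_add, add_zero] at h1
      exact (mul_eq_zero.1 h1).resolve_right hxj
    have g2 : g 2 = 0 := by
      have h1 := hg' k
      rw [g0, g1, zero_mul, zero_mul, zero_add, zero_add] at h1
      exact (mul_eq_zero.1 h1).resolve_right hzk
    intro l
    fin_cases l
    · exact g0
    · exact g1
    · exact g2
  have h3 : 3 ≤ Module.finrank F (LinearMap.ker M.mulVecLin) := by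
    have e1 : Module.finrank F (Submodule.span F (Set.range ![u, x, z])) = 3 := by
      rw [finrank_span_eq_card hind]
      rfl
    rw [← e1]
    apply Submodule.finrank_mono
    rw [Submodule.span_le]
    rintro _ ⟨l, rfl⟩
    fin_cases l
    · exact hu
    · exact hMx
    · exact hMz
  have h4 := LinearMap.finrank_range_add_finrank_ker M.mulVecLin
  rw [Module.finrank_fin_fun] at h4
  have h5 : M.rank = Module.finrank F (LinearMap.range M.mulVecLin) := rfl
  omega

end PRKM

/-- **PRK**. -/
theorem specPRK : SpecPRK := by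
  intro F iF iC N A hN hA hdet hmin
  have h1 : ¬ N ≤ A.rank + 2 := by
    intro h
    obtain ⟨i, j, hij, h2⟩ := PRKM.minor_ne A hN hA hdet h
    exact h2 (hmin i j hij)
  obtain ⟨m, hm⟩ := hN
  have h3 : A.rank ≤ 2 * (m - 2) := by
    refine specSKE F iF iC N (m - 2) A ?_ (by omega)
    ext i j
    rw [Matrix.transpose_apply, Matrix.neg_apply]
    exact hA i j
  omega

end Pool.Agent.Lib.MPc9b009.OD
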