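import Pool.Agent.Lib.MP_c9b009_ag.OD.Spec

/-!
# MP_c9b009_ag, row OD, module PSC: the connection along a component of `V`
-/

set_option autoImplicit false

namespace Pool.Agent.Lib.MPc9b009.OD

open MvPolynomial Pool.Agent.Lib.MPc9b009.B5

namespace PSCM

/-- A vector field which preserves the prime `p0` induces a derivation of `L`. -/
theorem der_ext {N : ℕ} (p0 : Ideal (MvPolynomial (Fin N) ℂ)) [hp : p0.IsPrime] {L : Type}
    [Field L] [Algebra ℂ L] (br : MvPolynomial (Fin N) ℂ →ₐ[ℂ] L) (hbr : ∀ z, br z = 0 ↔ z ∈ p0)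
    (hfr : ∀ x : L, ∃ z w, br w ≠ 0 ∧ x = br z / br w)
    (w : Fin N → MvPolynomial (Fin N) ℂ) (hw : ∀ z ∈ p0, ∑ i, w i * pderiv i z ∈ p0) :
    ∃ D : Derivation ℂ L L, ∀ z, D (br z) = br (∑ i, w i * pderiv i z) := by
  let A := MvPolynomial (Fin N) ℂ ⧸ p0
  have : IsDomain A := Ideal.Quotient.isDomain p0
  let ψ : A →ₐ[ℂ] L := Ideal.Quotient.liftₐ p0 br (fun z hz => (hbr z).2 hz)
  let : Algebra A L := ψ.toRingHom.toAlgebra
  have : IsScalarTower ℂ A L := IsScalarTower.of_algebraMap_eq (fun c => (ψ.commutes c).symm)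
  have hmap : ∀ z, algebraMap A L (Ideal.Quotient.mk p0 z) = br z := fun z => rfl
  have hinj : Function.Injective (algebraMap A L) := by
    rw [injective_iff_map_eq_zero]
    intro x hx
    obtain ⟨z, rfl⟩ := Ideal.Quotient.mk_surjective x
    rw [hmap, hbr] at hx
    exact Ideal.Quotient.eq_zero_iff_mem.2 hx
  have : FaithfulSMul A L := (faithfulSMul_iff_algebraMap_injective A L).2 hinj
  have : IsFractionRing A L := IsFractionRing.of_field A L (by
    intro x
    obtain ⟨z, w, _, hx⟩ := hfr x
    exact ⟨Ideal.Quotient.mk p0 z, Ideal.Quotient.mk p0 w, hx⟩)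
  let d0 : Derivation ℂ (MvPolynomial (Fin N) ℂ) (MvPolynomial (Fin N) ℂ) := mkDerivation ℂ w
  have h0 : ∀ g, d0 g = ∑ i, w i * pderiv i g := by
    intro g
    have h := BSTM.der_poly (AlgHom.id ℂ (MvPolynomial (Fin N) ℂ)) d0 g
    simp only [AlgHom.id_apply] at h
    rw [h]
    refine Finset.sum_congr rfl fun k _ => ?_
    rw [mkDerivation_X, mul_comm]
  let d1 : Derivation ℂ A A :=
    Derivation.liftOfSurjective (f := Ideal.Quotient.mkₐ ℂ p0) (Ideal.Quotient.mkₐ_surjective ℂ p0)
      (d := d0) (by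
        intro x hx
        rw [Ideal.Quotient.mkₐ_eq_mk, Ideal.Quotient.eq_zero_iff_mem] at hx ⊢
        rw [h0]
        exact hw x hx)
  obtain ⟨D, hD⟩ := BSTM.ext_frac (K := L) d1
  refine ⟨D, fun z => ?_⟩
  rw [← hmap, hD, ← hmap]
  congr 1
  change d1 (Ideal.Quotient.mkₐ ℂ p0 z) = _
  rw [Derivation.liftOfSurjective_apply, h0, Ideal.Quotient.mkₐ_eq_mk]

/-- The left inverse of the matrix of the derivations. -/
theorem gmat {N : ℕ} {L : Type} [Field L] (M : Matrix (Fin N) (Fin N) L) (p q : Fin N)
    (hpq : p ≠ q) (hB : (EXAM.mij M p q).det ≠ 0) (U : Fin N → Fin (N - 2) → L)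
    (D : Fin (N - 2) → Fin N → L) (hM : ∀ a l, M a l = ∑ c, U a c * D c l) :
    ∃ G : Fin (N - 2) → Fin N → L, ∀ b c, ∑ a, G b a * U a c = if b = c then 1 else 0 := by
  classical
  set B := EXAM.mij M p q with hBdef
  let UI : Matrix {l : Fin N // l ≠ p ∧ l ≠ q} (Fin (N - 2)) L := Matrix.of fun a c => U a.1 c
  let DI : Matrix (Fin (N - 2)) {l : Fin N // l ≠ p ∧ l ≠ q} L := Matrix.of fun c a => D c a.1
  have hprod : B = UI * DI := by
    ext a l
    rw [Matrix.mul_apply]
    exact hM a.1 l.1
  have hu : IsUnit B.det := isUnit_iff_ne_zero.2 hB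
  have h1 : UI * (DI * B⁻¹) = 1 := by
    rw [← Matrix.mul_assoc, ← hprod, Matrix.mul_nonsing_inv B hu]
  have hcard : Fintype.card {l : Fin N // l ≠ p ∧ l ≠ q} = Fintype.card (Fin (N - 2)) := by
    have := EXAM.card_ij p q hpq
    rw [Fintype.card_fin]
    omega
  have h2 : (DI * B⁻¹) * UI = 1 := (Matrix.mul_eq_one_comm_of_card_eq _ _ _ hcard).1 h1
  obtain ⟨W, hW⟩ : ∃ W : Fin (N - 2) → {l : Fin N // l ≠ p ∧ l ≠ q} → L,
      ∀ b c, ∑ a, W b a * U a.1 c = if b = c then 1 else 0 := by
    refine ⟨fun b a => (DI * B⁻¹) b a, fun b c => ?_⟩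
    have h5 := congrFun (congrFun h2 b) c
    rw [Matrix.mul_apply, Matrix.one_apply] at h5
    exact h5
  refine ⟨fun b a => if h : a ≠ p ∧ a ≠ q then W b ⟨a, h⟩ else 0, fun b c => ?_⟩
  rw [EXAM.sum_split p q hpq]
  have h3 : ¬ (p ≠ p ∧ p ≠ q) := fun h => h.1 rfl
  have h4 : ¬ (q ≠ p ∧ q ≠ q) := fun h => h.2 rfl
  beta_reduce
  rw [dif_neg h3, dif_neg h4, zero_mul, zero_mul, zero_add, zero_add, ← hW b c]
  refine Finset.sum_congr rfl fun a _ => ?_
  rw [dif_pos a.2]

/-- derivative of the equation of `f` -/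
theorem dF {N : ℕ} (g : Biv N) (P : Fin N → Fin N → MvPolynomial (Fin N) ℂ) (hG : Geo g P)
    (b i k : Fin N) :
    ham g b (FF P i k) + ∑ l, pderiv k (g.f b l) * FF P i l
      + ∑ l, pderiv i (g.f b l) * FF P l k + ∑ l, pderiv k (pderiv i (g.f b l)) * fo P l = 0 := by
  have h := congrArg (pderiv k) (hG.hamf b i)
  rw [map_zero, map_add] at h
  unfold ham at h ⊢
  rw [map_sum, map_sum] at h
  have h1 : ∀ l, pderiv k (g.f b l * pderiv l (fo P i)) =
      pderiv k (g.f b l) * FF P i l + g.f b l * pderiv l (FF P i k) := by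
    intro l
    rw [pderiv_mul]
    unfold FF
    rw [LIFTM.pderiv_pderiv_comm k l]
  have h2 : ∀ l, pderiv k (pderiv i (g.f b l) * fo P l) =
      pderiv k (pderiv i (g.f b l)) * fo P l + pderiv i (g.f b l) * FF P l k := by
    intro l
    rw [pderiv_mul]
    rfl
  simp only [h1, h2, Finset.sum_add_distrib] at h
  linear_combination h

/-- `∑ x_l ∂_m P_lq = ∂_m f_q - P_mq` -/
theorem sxP {N : ℕ} (P : Fin N → Fin N → MvPolynomial (Fin N) ℂ) (m q : Fin N) :
    ∑ l, X l * pderiv m (P l q) = FF P q m - P m q := by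
  unfold FF fo
  rw [map_sum]
  have h1 : ∀ l, pderiv m (X l * P l q) = (if l = m then P l q else 0) + X l * pderiv m (P l q) := by
    intro l
    rw [pderiv_mul, pderiv_X]
    by_cases h : l = m
    · subst h
      simp
    · rw [if_neg h, Pi.single_eq_of_ne h, zero_mul]
  simp only [h1, Finset.sum_add_distrib, Finset.sum_ite_eq', Finset.mem_univ, if_true]
  ring

/-- derivative of `∑ g_bl P_lq = 0` -/
theorem dgP {N : ℕ} (g : Biv N) (P : Fin N → Fin N → MvPolynomial (Fin N) ℂ)
    (hk : ∀ a k, ∑ j, g.f a j * P j k = 0) (b m q : Fin N) :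
    ∑ l, pderiv m (g.f b l) * P l q + ∑ l, g.f b l * pderiv m (P l q) = 0 := by
  have h := congrArg (pderiv m) (hk b q)
  rw [map_zero, map_sum] at h
  rw [← Finset.sum_add_distrib, ← h]
  refine Finset.sum_congr rfl fun l _ => ?_
  rw [pderiv_mul]


/-- homogeneity of `f` -/
theorem fo_hom {N : ℕ} (P : Fin N → Fin N → MvPolynomial (Fin N) ℂ)
    (hP : ∀ i j, (P i j).IsHomogeneous (N - 2)) (j : Fin N) :
    (fo P j).IsHomogeneous (1 + (N - 2)) := by
  unfold fo
  apply IsHomogeneous.sum
  intro i _
  exact (isHomogeneous_X ℂ i).mul (hP i j)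

/-- Euler for `P` and `F` -/
theorem eulF {N : ℕ} (P : Fin N → Fin N → MvPolynomial (Fin N) ℂ)
    (hP : ∀ i j, (P i j).IsHomogeneous (N - 2)) (i k : Fin N) :
    ∑ l, X l * pderiv l (FF P i k) = (N - 2) • FF P i k := by
  have h := (fo_hom P hP i).pderiv (i := k)
  have h2 : 1 + (N - 2) - 1 = N - 2 := by omega
  rw [h2] at h
  exact h.sum_X_mul_pderiv

end PSCM

open PSCM

theorem specPSC (hPSA : SpecPSA) (hKER : SpecKER) : SpecPSC := by
  intro N g P hN hN4 hG p0 hp0 hhom hstab hf0 hP0 δ l1 mu hsum hprod hne hdel L _ _ _ _ br y dd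
    hbr hfr hy hXy hdd hdec
  have : CharZero L := charZero_of_injective_algebraMap (algebraMap ℂ L).injective
  -- images
  set Pb : Fin N → Fin N → L := fun i j => br (P i j) with hPb
  set Fb : Fin N → Fin N → L := fun i j => br (FF P i j) with hFb
  set μ : L := algebraMap ℂ L mu with hμ
  set lam : L := algebraMap ℂ L l1 with hlam
  have hskew : ∀ i j, Pb j i = - Pb i j := by
    intro i j
    simp only [hPb]
    rw [hG.skew i j, map_neg]
  have hPii : ∀ i, Pb i i = 0 := by
    intro i
    have h := hskew i i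
    have h2 : (2 : L) * Pb i i = 0 := by linear_combination h
    exact (mul_eq_zero.1 h2).resolve_left two_ne_zero
  have hf : ∀ j, br (fo P j) = 0 := fun j => (hbr _).2 (hf0 j)
  have hsumL : lam + μ = (N : L) := by
    rw [hlam, hμ, ← map_add, hsum, map_natCast]
  have hcurl : ∀ i k, Fb k i - Fb i k = (N : L) * Pb i k := by
    intro i k
    have h := congrArg br (hG.curl i k)
    rw [map_sub, map_mul] at h
    have h2 : br (C (N : ℂ)) = (N : L) := by
      rw [show br (C (N : ℂ)) = algebraMap ℂ L (N : ℂ) from br.commutes _, map_natCast]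
    rw [h2] at h
    exact h
  obtain ⟨p1, q1, hpq1⟩ := hP0
  have hPq1 : Pb p1 q1 ≠ 0 := fun h => hpq1 ((hbr _).1 h)
  have hne1 : p1 ≠ q1 := by
    rintro rfl
    exact hPq1 (hPii p1)
  -- the matrix `H`
  set H : Fin N → Fin N → L := fun i k => Fb i k + μ * Pb i k with hH
  have hminor : ∀ i j k l, H i k * H j l - H i l * H j k = 0 := by
    intro i j k l
    have h1 := (hPSA N g P hN hG L _ _ br p1 q1 hne1 hf hPq1).2 mu i j k l
    have h2 : (br (FF P p1 p1) * br (FF P q1 q1) - br (FF P p1 q1) * br (FF P q1 p1))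
        / br (P p1 q1) ^ 2 = algebraMap ℂ L δ := by
      have h3 := (hbr _).2 (hdel p1 q1 p1 q1)
      simp only [map_sub, map_mul] at h3
      rw [show br (C δ) = algebraMap ℂ L δ from br.commutes _] at h3
      rw [div_eq_iff (pow_ne_zero 2 hPq1)]
      linear_combination h3
    rw [h2] at h1
    have h4 : algebraMap ℂ L δ - algebraMap ℂ L ((N : ℂ) * mu) + algebraMap ℂ L (mu ^ 2) = 0 := by
      rw [← map_sub, ← map_add, ← hprod, ← hsum]
      convert map_zero (algebraMap ℂ L) using 2
      ring
    rw [h4, zero_mul] at h1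
    exact h1
  obtain ⟨i0, j0, hij0⟩ : ∃ i0 j0, H i0 j0 ≠ 0 := by
    by_contra hno
    push Not at hno
    have h1 := hno p1 q1
    have h2 := hno q1 p1
    simp only [hH] at h1 h2
    have h3 := hcurl p1 q1
    have h4 := hskew p1 q1
    have h5 : ((N : L) - 2 * μ) * Pb p1 q1 = 0 := by
      rw [h4] at h2
      linear_combination -h3 + h2 - h1
    have h6 : (N : L) - 2 * μ = 0 := (mul_eq_zero.1 h5).resolve_right hPq1
    apply hne
    apply (algebraMap ℂ L).injective
    change lam = μ
    linear_combination hsumL + h6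
  set a : Fin N → L := fun k => H i0 k / H i0 j0 with ha
  have hHa : ∀ r k, H r k = H r j0 * a k := by
    intro r k
    simp only [ha]
    rw [mul_div_assoc', eq_div_iff hij0]
    linear_combination -(hminor r i0 j0 k)
  have haj : a j0 = 1 := div_self hij0
  have hHdiff : ∀ i k, H k i - H i k = (lam - μ) * Pb i k := by
    intro i k
    simp only [hH]
    rw [hskew i k]
    linear_combination hcurl i k - Pb i k * hsumL
  -- derivations
  have hder : ∀ b, ∃ D : Derivation ℂ L L, ∀ z, D (br z) = br (ham g b z) := by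
    intro b
    refine der_ext p0 br hbr hfr (fun l => g.f b l) ?_
    intro z hz
    have h := hstab z hz b
    have h2 : ∑ i, g.f b i * pderiv i z = - ∑ i, g.f i b * pderiv i z := by
      rw [← Finset.sum_neg_distrib]
      refine Finset.sum_congr rfl fun i _ => ?_
      rw [g.skew i b]
      ring
    rw [h2]
    exact p0.neg_mem h
  choose Dh hDh using hder
  obtain ⟨E, hE⟩ := der_ext p0 br hbr hfr (fun i => X i) (by
    intro z hz
    have h1 : ∑ i, X i * pderiv i z = ∑ n ∈ Finset.range (z.totalDegree + 1),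
        C (n : ℂ) * homogeneousComponent n z := by
      conv_lhs => rw [← sum_homogeneousComponent z]
      simp only [map_sum, Finset.mul_sum]
      rw [Finset.sum_comm]
      refine Finset.sum_congr rfl fun n _ => ?_
      rw [(homogeneousComponent_isHomogeneous n z).sum_X_mul_pderiv]
      simp
    rw [h1]
    exact Submodule.sum_mem _ fun n _ => Ideal.mul_mem_left _ _ (hhom z hz n))
  -- the coefficients
  set c : Fin N → Fin N → Fin N → L := fun b k l => br (pderiv k (g.f b l)) with hc
  have hDF : ∀ b i k, Dh b (Fb i k) = - ∑ l, c b k l * Fb i l - ∑ l, c b i l * Fb l k := by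
    intro b i k
    have h := congrArg br (dF g P hG b i k)
    simp only [map_add, map_sum, map_mul, map_zero, hf, mul_zero, Finset.sum_const_zero,
      add_zero] at h
    simp only [hFb]
    rw [hDh]
    linear_combination h
  have hDP : ∀ b i k, Dh b (Pb i k) = - ∑ l, c b k l * Pb i l - ∑ l, c b i l * Pb l k := by
    intro b i k
    have h := congrArg br (hG.lie b i k)
    simp only [map_add, map_sum, map_mul, map_zero] at h
    simp only [hPb]
    rw [hDh]
    linear_combination h
  have hDH : ∀ b i k, Dh b (H i k) = - ∑ l, c b k l * H i l - ∑ l, c b i l * H l k := by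
    intro b i k
    simp only [hH]
    rw [map_add, Derivation.leibniz, hμ, Derivation.map_algebraMap, smul_zero, add_zero, ← hμ,
      smul_eq_mul, hDF, hDP]
    simp only [mul_add, Finset.sum_add_distrib]
    have h1 : ∀ (u v : Fin N → L), ∑ l, u l * (μ * v l) = μ * ∑ l, u l * v l := by
      intro u v
      rw [Finset.mul_sum]
      exact Finset.sum_congr rfl fun l _ => by ring
    rw [h1, h1]
    ring
  -- `θ(X_b)`
  set th : Fin N → L := fun b => -(∑ l, c b i0 l * H l j0) / H i0 j0 - Dh b (H i0 j0) / H i0 j0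
    with hth
  have hDa : ∀ b k, Dh b (a k) + ∑ l, c b k l * a l = th b * a k := by
    intro b k
    have h1 : Dh b (a k) = (H i0 j0)⁻¹ ^ 2 * (H i0 j0 * Dh b (H i0 k) - H i0 k * Dh b (H i0 j0)) := by
      simp only [ha]
      rw [Derivation.leibniz_div]
      simp only [smul_eq_mul]
    have h2 : ∑ l, c b k l * a l = (∑ l, c b k l * H i0 l) / H i0 j0 := by
      rw [Finset.sum_div]
      refine Finset.sum_congr rfl fun l _ => ?_
      simp only [ha]
      rw [mul_div_assoc]
    have h3 : ∑ l, c b i0 l * H l k = (∑ l, c b i0 l * H l j0) * a k := by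
      rw [Finset.sum_mul]
      refine Finset.sum_congr rfl fun l _ => ?_
      rw [hHa l k]
      ring
    rw [h1, h2, hDH b i0 k, h3]
    simp only [hth, ha]
    field_simp
    ring
  -- kernel vectors
  have hkerF : ∀ b i, ∑ k, br (g.f b k) * Fb i k = 0 := by
    intro b i
    have h := congrArg br (hG.hamf b i)
    unfold ham at h
    simp only [map_add, map_sum, map_mul, map_zero, hf, mul_zero, Finset.sum_const_zero,
      add_zero] at h
    exact h
  have hkerP : ∀ b i, ∑ k, br (g.f b k) * Pb k i = 0 := by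
    intro b i
    have h := congrArg br (hG.ker b i)
    simp only [map_sum, map_mul, map_zero] at h
    exact h
  have hkerP' : ∀ b i, ∑ k, br (g.f b k) * Pb i k = 0 := by
    intro b i
    rw [← neg_eq_zero, ← Finset.sum_neg_distrib, ← hkerP b i]
    refine Finset.sum_congr rfl fun k _ => ?_
    rw [hskew i k]
    ring
  have hkera : ∀ b, ∑ k, br (g.f b k) * a k = 0 := by
    intro b
    have h1 : ∑ k, br (g.f b k) * a k = (∑ k, br (g.f b k) * H i0 k) / H i0 j0 := by
      rw [Finset.sum_div]
      refine Finset.sum_congr rfl fun l _ => ?_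
      simp only [ha]
      rw [mul_div_assoc]
    have h2 : ∑ k, br (g.f b k) * H i0 k = 0 := by
      simp only [hH, mul_add, Finset.sum_add_distrib]
      rw [hkerF b i0, zero_add]
      have h3 : ∑ k, br (g.f b k) * (μ * Pb i0 k) = μ * ∑ k, br (g.f b k) * Pb i0 k := by
        rw [Finset.mul_sum]
        exact Finset.sum_congr rfl fun l _ => by ring
      rw [h3, hkerP', mul_zero]
    rw [h1, h2, zero_div]
  have haK : ∀ p q, p ≠ q → Pb p q ≠ 0 → ∀ k, a k = a p * (Pb k q / Pb p q) + a q * (Pb p k / Pb p q) := by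
    intro p q hpq hPpq k
    have h := hKER N g P hN hG.toOm L _ br.toRingHom a hkera p q k hpq
    have h2 : Pb p q * a k - Pb k q * a p - Pb p k * a q = 0 :=
      (mul_eq_zero.1 h).resolve_left (pow_ne_zero 2 hPpq)
    field_simp
    linear_combination h2
  -- the formula for `X_b`
  have hform : ∀ p q, p ≠ q → Pb p q ≠ 0 → ∀ b m,
      Dh b (a m) - a p * (∑ l, ga P br p q m l * br (g.f b l))
        - a q * (∑ l, gb P br p q m l * br (g.f b l)) = th b * a m := by
    intro p q hpq hPpq b m
    have h1 : ∑ l, ga P br p q m l * br (g.f b l) = - ∑ l, c b m l * (Pb l q / Pb p q) := by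
      have h2 := congrArg br (dgP g P hG.ker b m q)
      simp only [map_add, map_sum, map_mul, map_zero] at h2
      have h3 : ∀ l, ga P br p q m l * br (g.f b l) =
          br (g.f b l) * br (pderiv m (P l q)) / Pb p q
            - (br (g.f b l) * Pb l q) * (br (pderiv m (P p q)) / Pb p q ^ 2) := by
        intro l
        have h4 : br (P p q) ≠ 0 := hPpq
        simp only [ga, map_sub, map_mul, hPb]
        field_simp
      simp only [h3]
      rw [Finset.sum_sub_distrib, ← Finset.sum_mul, hkerP, zero_mul, sub_zero, ← Finset.sum_div]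
      have h4 : ∑ l, c b m l * (Pb l q / Pb p q) = (∑ l, c b m l * Pb l q) / Pb p q := by
        rw [Finset.sum_div]
        exact Finset.sum_congr rfl fun l _ => by rw [mul_div_assoc]
      rw [h4, ← neg_div]
      congr 1
      linear_combination h2
    have h1' : ∑ l, gb P br p q m l * br (g.f b l) = - ∑ l, c b m l * (Pb p l / Pb p q) := by
      have h2 := congrArg br (dgP g P hG.ker b m p)
      simp only [map_add, map_sum, map_mul, map_zero] at h2
      have h2' : ∑ l, c b m l * Pb p l + ∑ l, br (g.f b l) * br (pderiv m (P p l)) = 0 := by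
        rw [← neg_eq_zero, neg_add, ← Finset.sum_neg_distrib, ← Finset.sum_neg_distrib, ← h2]
        congr 1
        · refine Finset.sum_congr rfl fun l _ => ?_
          rw [hskew l p]
          ring
        · refine Finset.sum_congr rfl fun l _ => ?_
          rw [hG.skew l p, map_neg, map_neg]
          ring
      have h3 : ∀ l, gb P br p q m l * br (g.f b l) =
          br (g.f b l) * br (pderiv m (P p l)) / Pb p q
            - (br (g.f b l) * Pb p l) * (br (pderiv m (P p q)) / Pb p q ^ 2) := by
        intro l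
        have h4 : br (P p q) ≠ 0 := hPpq
        simp only [gb, map_sub, map_mul, hPb]
        field_simp
      simp only [h3]
      rw [Finset.sum_sub_distrib, ← Finset.sum_mul, hkerP', zero_mul, sub_zero, ← Finset.sum_div]
      have h4 : ∑ l, c b m l * (Pb p l / Pb p q) = (∑ l, c b m l * Pb p l) / Pb p q := by
        rw [Finset.sum_div]
        exact Finset.sum_congr rfl fun l _ => by rw [mul_div_assoc]
      rw [h4, ← neg_div]
      congr 1
      linear_combination h2'
    have h5 : ∑ l, c b m l * a l = a p * ∑ l, c b m l * (Pb l q / Pb p q)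
        + a q * ∑ l, c b m l * (Pb p l / Pb p q) := by
      rw [Finset.mul_sum, Finset.mul_sum, ← Finset.sum_add_distrib]
      refine Finset.sum_congr rfl fun l _ => ?_
      rw [haK p q hpq hPpq l]
      ring
    rw [h1, h1']
    linear_combination hDa b m - h5
  -- the combination
  set Y : Fin (N - 2) → L := fun b => algebraMap (MvPolynomial (Fin (N - 2)) ℂ) L (X b) with hY
  have hgl : ∀ b l, Dh b (br (X l)) = br (g.f b l) := by
    intro b l
    rw [hDh]
    unfold ham
    congr 1
    rw [Finset.sum_eq_single l]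
    · rw [pderiv_X_self, mul_one]
    · intro k _ hk
      rw [pderiv_X_of_ne (Ne.symm hk), mul_zero]
    · intro h
      exact absurd (Finset.mem_univ l) h
  obtain ⟨G, hGm⟩ := gmat (Matrix.of fun i j => br (g.f i j)) p1 q1 hne1 (by
    obtain ⟨h0, hh0, hmin⟩ := hG.minor
    have h1 := congrArg br (hmin p1 q1 hne1)
    rw [AlgHom.map_det, map_mul, map_pow,
      show br (C h0) = algebraMap ℂ L h0 from br.commutes _] at h1
    have h2 : (EXAM.mij (Matrix.of fun i j => br (g.f i j)) p1 q1) =
        br.mapMatrix (EXAM.mij (Matrix.of g.f) p1 q1) := rfl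
    rw [h2, h1]
    refine mul_ne_zero ?_ (pow_ne_zero 2 hPq1)
    exact (map_ne_zero (algebraMap ℂ L)).2 hh0) (fun r c => Dh r (Y c))
    (fun c l => dd c (br (X l))) (by
      intro r l
      rw [Matrix.of_apply, ← hgl, hdec])
  have hGD : ∀ b x, ∑ r, G b r * Dh r x = dd b x := by
    intro b x
    have h1 : ∀ r, G b r * Dh r x = ∑ c, (G b r * Dh r (Y c)) * dd c x := by
      intro r
      rw [hdec (Dh r) x, Finset.mul_sum]
      exact Finset.sum_congr rfl fun c _ => by rw [mul_assoc]
    simp only [h1]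
    rw [Finset.sum_comm]
    have h2 : ∀ c, ∑ r, (G b r * Dh r (Y c)) * dd c x = (if b = c then 1 else 0) * dd c x := by
      intro c
      rw [← Finset.sum_mul, hGm]
    simp only [h2, ite_mul, one_mul, zero_mul, Finset.sum_ite_eq, Finset.mem_univ, if_true]
  have hform2 : ∀ p q, p ≠ q → Pb p q ≠ 0 → ∀ b m,
      dd b (a m) - a p * (∑ l, ga P br p q m l * dd b (br (X l)))
        - a q * (∑ l, gb P br p q m l * dd b (br (X l))) = (∑ r, G b r * th r) * a m := by
    intro p q hpq hPpq b m
    have h1 : ∀ (u : Fin N → L), ∑ l, u l * dd b (br (X l))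
        = ∑ r, G b r * ∑ l, u l * br (g.f r l) := by
      intro u
      simp only [← hgl, Finset.mul_sum]
      rw [Finset.sum_comm]
      refine Finset.sum_congr rfl fun l _ => ?_
      rw [← hGD b (br (X l)), Finset.mul_sum]
      exact Finset.sum_congr rfl fun r _ => by ring
    rw [h1, h1, ← hGD b (a m), Finset.mul_sum, Finset.mul_sum, Finset.sum_mul,
      ← Finset.sum_sub_distrib, ← Finset.sum_sub_distrib]
    refine Finset.sum_congr rfl fun r _ => ?_
    linear_combination G b r * hform p q hpq hPpq r m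
  -- Euler
  have hEY : ∀ b, E (Y b) = Y b := by
    intro b
    simp only [hY]
    rw [hXy, hE, (hy b).sum_X_mul_pderiv, one_smul]
  have hEdd : ∀ x, E x = ∑ b, Y b * dd b x := by
    intro x
    rw [hdec E x]
    refine Finset.sum_congr rfl fun b _ => ?_
    congr 1
    exact hEY b
  have hEX : ∀ l, E (br (X l)) = br (X l) := by
    intro l
    rw [hE, (isHomogeneous_X ℂ l).sum_X_mul_pderiv, one_smul]
  have hEa : ∀ k, E (a k) = 0 := by
    intro k
    have hEH : ∀ i k, E (H i k) = ((N - 2 : ℕ) : L) * H i k := by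
      intro i k
      simp only [hH]
      rw [map_add, Derivation.leibniz, hμ, Derivation.map_algebraMap, smul_zero, add_zero, ← hμ,
        smul_eq_mul]
      simp only [hFb, hPb]
      rw [hE, hE, eulF P hG.hom, (hG.hom i k).sum_X_mul_pderiv, map_nsmul, map_nsmul,
        nsmul_eq_mul, nsmul_eq_mul]
      ring
    simp only [ha]
    rw [Derivation.leibniz_div, hEH, hEH]
    simp only [smul_eq_mul]
    ring
  set Θ : L := ∑ b, Y b * ∑ r, G b r * th r with hΘ
  have hfinal : Θ = algebraMap ℂ L (1 - l1) := by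
    have h1 : ∀ (u : Fin N → L), ∑ l, u l * br (X l)
        = ∑ b, Y b * ∑ l, u l * dd b (br (X l)) := by
      intro u
      simp only [Finset.mul_sum]
      rw [Finset.sum_comm]
      refine Finset.sum_congr rfl fun l _ => ?_
      conv_lhs => rw [← hEX l, hEdd (br (X l)), Finset.mul_sum]
      exact Finset.sum_congr rfl fun r _ => by ring
    have h2 : ∀ m, E (a m) - a p1 * (∑ l, ga P br p1 q1 m l * br (X l))
        - a q1 * (∑ l, gb P br p1 q1 m l * br (X l)) = Θ * a m := by
      intro m
      rw [h1, h1, hEdd (a m), Finset.mul_sum, Finset.mul_sum, hΘ, Finset.sum_mul,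
        ← Finset.sum_sub_distrib, ← Finset.sum_sub_distrib]
      refine Finset.sum_congr rfl fun b _ => ?_
      linear_combination Y b * hform2 p1 q1 hne1 hPq1 b m
    have hxP : ∀ k, ∑ l, br (X l) * Pb l k = 0 := by
      intro k
      have h := hf k
      unfold fo at h
      simp only [map_sum, map_mul] at h
      exact h
    have hxP' : ∀ k, ∑ l, br (X l) * Pb k l = 0 := by
      intro k
      rw [← neg_eq_zero, ← Finset.sum_neg_distrib, ← hxP k]
      refine Finset.sum_congr rfl fun l _ => ?_
      rw [hskew l k]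
      ring
    have hxd : ∀ m k, ∑ l, br (X l) * br (pderiv m (P l k)) = Fb k m - Pb m k := by
      intro m k
      have h := congrArg br (sxP P m k)
      simp only [map_sum, map_mul, map_sub] at h
      exact h
    have hxd' : ∀ m k, ∑ l, br (X l) * br (pderiv m (P k l)) = - Fb k m - Pb k m := by
      intro m k
      have h3 : ∑ l, br (X l) * br (pderiv m (P k l)) = - ∑ l, br (X l) * br (pderiv m (P l k)) := by
        rw [← Finset.sum_neg_distrib]
        refine Finset.sum_congr rfl fun l _ => ?_
        rw [hG.skew l k, map_neg, map_neg]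
        ring
      rw [h3, hxd, hskew k m]
      ring
    have h4 : ∀ m, ∑ l, ga P br p1 q1 m l * br (X l) = (Fb q1 m - Pb m q1) / Pb p1 q1 := by
      intro m
      have h3 : ∀ l, ga P br p1 q1 m l * br (X l) =
          br (X l) * br (pderiv m (P l q1)) / Pb p1 q1
            - (br (X l) * Pb l q1) * (br (pderiv m (P p1 q1)) / Pb p1 q1 ^ 2) := by
        intro l
        have h4 : br (P p1 q1) ≠ 0 := hPq1
        simp only [ga, map_sub, map_mul, hPb]
        field_simp
      simp only [h3]
      rw [Finset.sum_sub_distrib, ← Finset.sum_mul, hxP, zero_mul, sub_zero, ← Finset.sum_div, hxd]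
    have h5 : ∀ m, ∑ l, gb P br p1 q1 m l * br (X l) = (- Fb p1 m - Pb p1 m) / Pb p1 q1 := by
      intro m
      have h3 : ∀ l, gb P br p1 q1 m l * br (X l) =
          br (X l) * br (pderiv m (P p1 l)) / Pb p1 q1
            - (br (X l) * Pb p1 l) * (br (pderiv m (P p1 q1)) / Pb p1 q1 ^ 2) := by
        intro l
        have h4 : br (P p1 q1) ≠ 0 := hPq1
        simp only [gb, map_sub, map_mul, hPb]
        field_simp
      simp only [h3]
      rw [Finset.sum_sub_distrib, ← Finset.sum_mul, hxP', zero_mul, sub_zero, ← Finset.sum_div,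
        hxd']
    have e1 := h2 p1
    have e2 := h2 q1
    rw [h4, h5, hEa] at e1 e2
    have hHdef : ∀ i k, H i k = Fb i k + μ * Pb i k := fun _ _ => rfl
    have eqp : Fb q1 p1 = H q1 p1 + μ * Pb p1 q1 := by
      rw [hHdef, hskew p1 q1]
      ring
    have epp : Fb p1 p1 = H p1 p1 := by
      rw [hHdef, hPii]
      ring
    have eqq : Fb q1 q1 = H q1 q1 := by
      rw [hHdef, hPii]
      ring
    have epq : Fb p1 q1 = H p1 q1 - μ * Pb p1 q1 := by
      rw [hHdef]
      ring
    have x1 := hHa q1 p1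
    have x2 := hHa p1 p1
    have x3 := hHa p1 q1
    have x4 := hHa q1 q1
    have hd := hHdiff p1 q1
    have f1 : a p1 * Fb q1 p1 - a q1 * Fb p1 p1 = lam * a p1 * Pb p1 q1 := by
      rw [eqp, epp]
      linear_combination a p1 * hd - a q1 * x2 + a p1 * x3
    have f2 : a p1 * Fb q1 q1 - a q1 * Fb p1 q1 = lam * a q1 * Pb p1 q1 := by
      rw [eqq, epq]
      linear_combination a q1 * hd + a p1 * x4 - a q1 * x1
    have g1 : (Θ - (1 - lam)) * a p1 = 0 := by
      have h6 : (Θ - (1 - lam)) * a p1 * Pb p1 q1 = 0 := by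
        rw [hPii] at e1
        have e1' : Θ * a p1 * Pb p1 q1 = - a p1 * (Fb q1 p1 - Pb p1 q1) + a q1 * Fb p1 p1 := by
          rw [← e1]
          field_simp
          ring
        linear_combination e1' - f1
      exact (mul_eq_zero.1 h6).resolve_right hPq1
    have g2 : (Θ - (1 - lam)) * a q1 = 0 := by
      have h6 : (Θ - (1 - lam)) * a q1 * Pb p1 q1 = 0 := by
        rw [hPii] at e2
        have e2' : Θ * a q1 * Pb p1 q1 = - a p1 * Fb q1 q1 + a q1 * (Fb p1 q1 + Pb p1 q1) := by
          rw [← e2]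
          field_simp
          ring
        linear_combination e2' - f2
      exact (mul_eq_zero.1 h6).resolve_right hPq1
    have h7 : Θ - (1 - lam) = 0 := by
      have h8 := haK p1 q1 hne1 hPq1 j0
      rw [haj] at h8
      linear_combination (Θ - (1 - lam)) * h8 + (Pb j0 q1 / Pb p1 q1) * g1
        + (Pb p1 j0 / Pb p1 q1) * g2
    rw [map_sub, map_one]
    linear_combination h7
  refine ⟨fun b => ∑ r, G b r * th r, a, j0, haj, hfinal, ?_⟩
  intro p q hpq hPpq
  exact ⟨haK p q hpq hPpq, fun b m _ => hform2 p q hpq hPpq b m⟩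

end Pool.Agent.Lib.MPc9b009.OD
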