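import Pool.Agent.Lib.MP_c9b009_ag.OD.Defs

/-!
# MP_c9b009_ag, row OD: statements of the modules, with proofs

One file `OD/<NAME>.lean` per module, namespace `Pool.Agent.Lib.MPc9b009.OD`, auxiliary lemmas in the
sub-namespace `<NAME>M`, theorem `spec<NAME> (h : SpecYYY) .. : Spec<NAME>` (arguments: the modules named
in the docstring after USES). Everything of row B5 is available (`B5/All.lean`; the hypotheses
`SpecSEL`, `SpecTRA` .. of B5 are THEOREMS there, use them directly: `specSEL specMONO specHMIN`,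
`specSOP (specSEL specMONO specHMIN) specFINI`, `specTRA (specTRH specTRV)`, `specDEX`, `specDIM`,
`specDMIN`, `specMST`, `specSKE`, `specRKM`, `specFINI`; `EXAM.core`, `EXAM.mij`, `EXAM.sum_split`,
`EXAM.adj_skew`, `EXAM.minor_ne`, `THEM.factor`, `THEM.homog_of_mul`, `CUTM.Phi`, `CUTM.eval_Phi`,
`CUTM.Phi_hom`, `CUTM.bound`, `CUTM.hom_span`, `CUTM.plane`, `CUTM.trdeg_top`, `CUTM.trdeg_line`,
`BSTM.ext_vf`, `BSTM.der_poly`, `BSTM.det_span`, `BSTM.mono`, `CNTM.rn`, `CNTM.finrank_hom`,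
`DET0M.der_det`, `TRHM.log`, `TRHM.trc`).
-/

set_option autoImplicit false

namespace Pool.Agent.Lib.MPc9b009.OD

open MvPolynomial Pool.Agent.Lib.MPc9b009.B5

/-! ## Linear algebra of the kernel -/

/-- PRK (~100 lines). A skew matrix of even size `N`, `det = 0`, all principal `(N-2)`-minors zero:
rank `≤ N - 4`. PROOF. As `EXAM.minor_ne` (there over `ℂ`): a skew matrix of rank `r` has a nonzero
principal `r`-minor (choose `r` independent rows `I`; by skewness the columns `I` span the column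
space, so `A_II` is invertible); `r` is even (`SKE`) and `< N`; `r = N - 2` is excluded. (`N = 2` is
excluded by the hypothesis: the empty minor is `1`.) -/
def SpecPRK : Prop := ∀ (F : Type) (_ : Field F) (_ : CharZero F) (N : ℕ)
  (A : Matrix (Fin N) (Fin N) F), Even N → (∀ i j, A j i = - A i j) → A.det = 0 →
  (∀ i j, i ≠ j → (EXAM.mij A i j).det = 0) → A.rank + 4 ≤ N

/-- THN (~150 lines, COPY of `B5/THE.lean` with `Fin v` instead of `Fin 4`; the rank hypothesis there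
is not used). -/
def SpecTHN : Prop := ∀ (v N : ℕ) (A : Matrix (Fin N) (Fin N) (MvPolynomial (Fin v) ℂ)),
  Even N → 2 ≤ N → (∀ i j, A j i = - A i j) → (∀ i j, (A i j).IsHomogeneous 2) → A.det = 0 →
  ∃ (th : ℕ) (T : Matrix (Fin N) (Fin N) (MvPolynomial (Fin v) ℂ)),
    (∀ i j, T j i = - T i j) ∧ (∀ i j, (T i j).IsHomogeneous th) ∧ A * T = 0 ∧ T ≠ 0 ∧
    (∀ z, (∀ i j, z ∣ T i j) → IsUnit z) ∧
    (∀ i j k l, T i j * T k l - T i k * T j l + T i l * T j k = 0)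

/-- PRB (~150 lines). The principal `(N-2)`-minors are proportional to the squares `T_ij²`. PROOF.
Let `Δ_ij = det (mij A i j)`; if all are zero take `c = 0`. Otherwise the kernel of `A` is spanned by
the columns of `T` and has dimension 2 (`EXAM.core`: a kernel vector is determined by two
coordinates). Fix `i`. If the row `i` of `T` is zero then `Δ_ij = 0` for all `j` (by `EXAM.core` a
nonzero `Δ_ij` determines kernel vectors by `v_i = 0` and `v_j`, dimension 1). If it is not: let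
`A'` = `A` without row and column `i` (odd size, skew), so `det A' = 0` and `adj A'` is symmetric
(`adj (A'ᵀ) = adj (-A') = (-1)^(N-2) adj A'`). A column `m` of `adj A'`, extended by `0` at `i`, is
a vector `w` with `(A w)_l = 0` for `l ≠ i`; for a kernel vector `k` with `k_i ≠ 0`,
`0 = (A k)·w = -k·(A w) = - k_i (A w)_i`, so `A w = 0`, `w_i = 0`, hence `w = c_m T_(·i)` (the kernel
vectors with `i`-th coordinate `0` are a line). Symmetry `c_m T_li = c_l T_mi` gives `c_m = c T_mi`;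
so `Δ_il = (adj A')_ll = c^(i) T_il²`. If `T_il ≠ 0` then `c^(i) = c^(l)`; if the rows `i`, `l` are not
zero and `T_il = 0`, Plücker gives `T_im T_ln = T_in T_lm`, so there is `m` with `T_im ≠ 0 ≠ T_lm` and
`c^(i) = c^(m) = c^(l)`. -/
def SpecPRB : Prop := ∀ (F : Type) (_ : Field F) (_ : CharZero F) (N : ℕ)
  (A T : Matrix (Fin N) (Fin N) F), Even N → (∀ i j, A j i = - A i j) → (∀ i j, T j i = - T i j) →
  A * T = 0 → T ≠ 0 → (∀ i j k l, T i j * T k l - T i k * T j l + T i l * T j k = 0) →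
  ∃ c : F, ∀ i j, i ≠ j → (EXAM.mij A i j).det = c * T i j ^ 2

/-- PRI (~200 lines), USES THN, PRB, PRK. PROOF. `P = T` of THN. Over the fraction field PRB:
`Δ_ij = c P_ij²`, `c = a / b` with `a, b` coprime; a prime factor of `b` would divide all `P_ij`
(primitive), so `b` is a unit, `c ∈ S`. If a prime `π` divides `c`, or if `c = 0` (then take `p = 0`):
all `Δ_ij ∈ (π)`, by PRK over `Frac (S / π)` all `(N-3)`-minors are in `(π)` (`RKM`), and
`D((π)) ≥ N - 1` (transcendence degree of a hypersurface; e.g. a variable `x_k` occurring in `π`: the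
others are independent mod `π`), against `Dle (mI (N - 3) g) (N - 4)`. So `c = C h`, `h ≠ 0`.
Degrees: `Δ_ij` is homogeneous of degree `2 (N - 2)`, some `P_ij ≠ 0`, so `2 th = 2 (N - 2)`. -/
def SpecPRI : Prop := ∀ (N : ℕ) (g : Biv N), Even N → 4 ≤ N → (Matrix.of g.f).det = 0 →
  Dle (mI (N - 3) g) (N - 4) → ∃ P : Fin N → Fin N → MvPolynomial (Fin N) ℂ, Om g P

/-- LIE (~200 lines). `L_(X_a) Ω = 0`. PROOF. Put `c_il = ∂_i g_al` and
`E_ij = X_a P_ij + ∑_l c_il P_lj + ∑_l c_jl P_il` (skew). Jacobi: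
`X_a g_jk = ∑_l (∂_l g_aj) g_lk + ∑_l (∂_l g_ak) g_jl`, from which `∑_i g_bi E_ij = 0` (differentiate
`∑_i g_bi P_ij = 0` along `X_a`; the terms cancel). So the columns of `E` are kernel vectors;
`EXAM.core` (with `Δ_pq = h P_pq²`) and Plücker give `P_pq E_ij = E_pq P_ij` for all indices (`S` is a
domain). Fix `p ≠ q` with `P_pq ≠ 0`, `I` = the other indices, `B = g_II`, `M_jl = ∂_l g_aj`,
`X_a g = M g + g Mᵀ`. `X_a (det B) = tr (adj B · X_a B) = 2 tr ((M g)_II adj B)` (`adj B` is skew),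
`(M g)_II = M_II B + M_IJ g_JI`, `J = {p, q}`; the kernel vectors `P_(·q)`, `P_(·p)` give
`(g_JI adj B)_pm = - det B P_mq / P_pq`, `(g_JI adj B)_qm = det B P_mp / P_pq`, so
`P_pq X_a (det B) = 2 det B (P_pq tr M + X_a P_pq - E_pq)`, `tr M = ∑_l ∂_l g_al = 0`. As
`det B = h P_pq²`: `E_pq P_pq² = 0`, so `E_pq = 0` and all `E_ij = 0`. -/
def SpecLIE : Prop := ∀ (N : ℕ) (g : Biv N) (P : Fin N → Fin N → MvPolynomial (Fin N) ℂ), Even N →
  4 ≤ N → (∀ i j k, jac g.f i j k = 0) → (∀ j, ∑ i, pderiv i (g.f i j) = 0) → Om g P →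
  ∀ a i j, ham g a (P i j) + ∑ l, pderiv i (g.f a l) * P l j + ∑ l, pderiv j (g.f a l) * P i l = 0

/-- CLO (~150 lines). From LIE to `Geo`. PROOF. Put `T_kij = ∂_k P_ij + ∂_i P_jk + ∂_j P_ki` (totally
skew). `∑_k g_ak T_kij = X_a P_ij + ∑ c_il P_lj + ∑ c_jl P_il = 0` (differentiate `∑_k g_ak P_kj = 0` by
`∂_i`). So `(T_kij)_k` is a kernel vector. For `p ≠ q` with `P_pq ≠ 0` a kernel vector `κ` with
`κ_p = κ_q = 0` is `0` (`EXAM.core`, `Δ_pq ≠ 0`). Apply it to `(T_kpq)_k`, then to `(T_kpj)_k`,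
`(T_kqj)_k`, then to `(T_kij)_k`: all `T = 0`. CURL: `∂_i f_j - ∂_j f_i = 2 P_ij + ∑_k x_k (∂_i P_kj -
∂_j P_ki) = 2 P_ij + ∑_k x_k ∂_k P_ij = N P_ij` (Euler, degree `N - 2`). HAMF:
`X_a f_i = ∑_l g_al P_li + ∑_k x_k X_a P_ki = - 2 ∑_l g_al P_li - ∑_l (∂_i g_al) f_l` (lie, and Euler
for the quadratic `g_al`), and `∑_l g_al P_li = 0`. -/
def SpecCLO : Prop := ∀ (N : ℕ) (g : Biv N) (P : Fin N → Fin N → MvPolynomial (Fin N) ℂ), Even N →
  4 ≤ N → Om g P →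
  (∀ a i j, ham g a (P i j) + ∑ l, pderiv i (g.f a l) * P l j
    + ∑ l, pderiv j (g.f a l) * P i l = 0) → Geo g P

/-- KER (~50 lines). Kernel vectors over any ring. PROOF. `EXAM.core` for the matrix `br g_ij`:
`Δ v_l = ki_l v_p + kj_l v_q` for all kernel vectors, `Δ = br (C h P_pq²)`. For the columns `q`, `p` of
`P`: `Δ P_lq = ki_l P_pq`, `Δ P_lp = kj_l P_qp`. So `Δ (P_pq κ_l - P_lq κ_p - P_pl κ_q) = 0` and
`br (C h)` is a unit. -/
def SpecKER : Prop := ∀ (N : ℕ) (g : Biv N) (P : Fin N → Fin N → MvPolynomial (Fin N) ℂ), Even N →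
  Om g P → ∀ (B : Type) (_ : CommRing B) (br : MvPolynomial (Fin N) ℂ →+* B) (κ : Fin N → B),
  (∀ a, ∑ k, br (g.f a k) * κ k = 0) → ∀ p q l, p ≠ q →
  br (P p q) ^ 2 * (br (P p q) * κ l - br (P l q) * κ p - br (P p l) * κ q) = 0

/-- E2 (~120 lines), USES KER. PROOF. `B = S / J`, `J = Jf P`, `κ_k = ∂_k f_u`, `κ'_k = ∂_k f_v`:
kernel vectors mod `J` by `hamf`. With `r = P_pq` KER gives `r³ κ_l = r² (P_lq κ_p + P_pl κ_q)`, hence
`r⁶ (κ_k κ'_l - κ_l κ'_k) = r⁵ (κ_p κ'_q - κ_q κ'_p) P_kl` (Plücker `P_pq P_kl = P_pl P_kq - P_pk P_lq`),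
hence `r⁶ ((κ∧κ')_kl P_ij - (κ∧κ')_ij P_kl) = 0` for all `i j k l`, and contraction with `u, v` in
`i, j`: `P_pq⁶ x ∈ J`, `x` the bracket below, for all `p, q` (trivial for `p = q`). So the ideal
`{z | z x ∈ J}` has `P_pq` in its radical, hence `P(u,v)` (take `m` for all `k, l` at once). -/
def SpecE2 : Prop := ∀ (N : ℕ) (g : Biv N) (P : Fin N → Fin N → MvPolynomial (Fin N) ℂ), Even N →
  Geo g P → ∀ u v : Fin N → ℂ, ∃ m : ℕ, ∀ k l,
  Puv P u v ^ m * (Puv P u v * (Fu P u k * Fu P v l - Fu P u l * Fu P v k) - duv P u v * P k l)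
    ∈ Jf P

/-! ## Along a component of `V`: the constant `δ` (group P) -/

/-- PSA (~150 lines), USES KER. Identities in a field `L` where `f = 0`, `P_pq ≠ 0` (write `P`, `F` for
the images). (k1) for a kernel vector `κ`: `P_jk κ_l - P_jl κ_k + P_kl κ_j = 0` (`κ_l = (P_lq κ_p + P_pl κ_q)
/ P_pq` by KER, and Plücker). The rows `(F_ik)_k` are kernel vectors by `hamf`; `F_ki - F_ik = N P_ik`
(curl), so the columns are kernel vectors, too. (k2) `F_ik P_jl - F_il P_jk = P_kl F_ij`,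
`P_ik F_jl - P_il F_jk = - P_kl F_ji` (k1). FIRST STATEMENT: for fixed `i, j` the minor
`F_ik F_jl - F_il F_jk` is a multiple of `P_kl` (wedge of two kernel vectors, `= (..)_pq P_kl / P_pq`), for
fixed `k, l` a multiple of `P_ij`. SECOND: expand; the terms are `δ P_ij P_kl`,
`μ P_kl (F_ij - F_ji) = - μ N P_ij P_kl`, `μ² (P_ik P_jl - P_il P_jk) = μ² P_ij P_kl`. -/
def SpecPSA : Prop := ∀ (N : ℕ) (g : Biv N) (P : Fin N → Fin N → MvPolynomial (Fin N) ℂ), Even N →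
  Geo g P → ∀ (L : Type) (_ : Field L) (_ : Algebra ℂ L) (br : MvPolynomial (Fin N) ℂ →ₐ[ℂ] L)
  (p q : Fin N), p ≠ q → (∀ j, br (fo P j) = 0) → br (P p q) ≠ 0 →
  (∀ i j k l, br (FF P i k) * br (FF P j l) - br (FF P i l) * br (FF P j k) =
    (br (FF P p p) * br (FF P q q) - br (FF P p q) * br (FF P q p)) / br (P p q) ^ 2
      * (br (P i j) * br (P k l))) ∧
  (∀ (μ : ℂ) (i j k l : Fin N),
    (br (FF P i k) + algebraMap ℂ L μ * br (P i k)) * (br (FF P j l) + algebraMap ℂ L μ * br (P j l))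
    - (br (FF P i l) + algebraMap ℂ L μ * br (P i l)) * (br (FF P j k) + algebraMap ℂ L μ * br (P j k))
    = ((br (FF P p p) * br (FF P q q) - br (FF P p q) * br (FF P q p)) / br (P p q) ^ 2
      - algebraMap ℂ L (N * μ) + algebraMap ℂ L (μ ^ 2)) * (br (P i j) * br (P k l)))

/-- PSB (~180 lines), USES PSA. `δ` is a constant. PROOF. `n = F_pp F_qq - F_pq F_qp`, `d = P_pq²`,
`P_pq ∉ p0`. (1) `d X_a(n) - n X_a(d) ∈ p0`: modulo `p0`, `X_a F_ik = - ∑_l c_kl F_il - ∑_l c_il F_lk`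
(`c_il = ∂_i g_al`; differentiate `hamf` by `∂_k`), so by PSA
`X_a n = - 2 δ P_pq ∑_l (c_pl P_lq + c_ql P_pl) = 2 δ P_pq X_a P_pq` (lie), `n = δ P_pq²`. (2) Choose a
zero `y` of `p0` with `P_pq(y) ≠ 0` (Nullstellensatz) and put `δ = n(y) / d(y)`. Suppose
`n - δ d ∉ p0`. `I = {z | ∃ k, d^k z ∈ p0 + (n - δ d)}` is an ideal `≠ S` (all its elements vanish
at `y`), it is stable under all `X_a` (by (1); `Stab` sums over the first index, i.e. `- X_a`), it contains `p0`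
properly, so a minimal prime `q` of `I` contained in the maximal ideal of `y` is stable (`DMIN`), `d ∉ q`,
`D(q) ≤ N - 3` (`MONO`), but the `(N-2)`-minor `Δ_pq = h P_pq²` is not in `q`: `D(q) ≥ N - 2` (`DIM`).
Contradiction; so `n - δ d ∈ p0`, and PSA (`L = Frac (S / p0)`) gives the statement. -/
def SpecPSB : Prop := ∀ (N : ℕ) (g : Biv N) (P : Fin N → Fin N → MvPolynomial (Fin N) ℂ), Even N →
  4 ≤ N → Geo g P → ∀ p0 : Ideal (MvPolynomial (Fin N) ℂ), p0.IsPrime → Stab g.f p0 →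
  (∀ j, fo P j ∈ p0) → (∃ i j, P i j ∉ p0) →
  Algebra.trdeg ℂ (MvPolynomial (Fin N) ℂ ⧸ p0) = ((N - 2 : ℕ) : Cardinal) →
  ∃ δ : ℂ, ∀ i j k l, FF P i k * FF P j l - FF P i l * FF P j k - C δ * (P i j * P k l) ∈ p0

/-- PSC (~300 lines), USES PSA, KER. The connection along `V`. PROOF (bars omitted, everything in `L`).
(1) DERIVATIONS. `X_a` induces a derivation of `L` (`BSTM.ext_vf` on the fraction field of `S / p0`, `L` is
isomorphic to it, or redo it with `Derivation.liftOfSurjective` and fractions), `X_a(x_l) = g_al`. The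
`N - 2` derivations `dd_b` are combinations of the `X_a`: a derivation of `L` is determined by its
values on the `y_b` (`hdec`), and the `N - 2` rows... the matrix `(g_al)` has rank `≥ N - 2` in `L`
(`Δ_pq = h P_pq² ≠ 0`) and factors through the matrix `(X_a(y_b))`, which has `N - 2` columns, so its
rank is `N - 2` and there are `G_ba` with `∑_a G_ba X_a = dd_b`. So a formula which is `L`-linear in the
derivation and true for all `X_a` is true for all `dd_b`. The Euler derivation `E` (`E x_l = x_l`, `p0`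
homogeneous) is `∑_b y_b dd_b`.
(2) THE EIGENLINE. `H_ik = F_ik + μ P_ik`. By PSA and `δ - N μ + μ² = 0` all 2-minors of `H` are zero.
`H ≠ 0`: otherwise `N P_ij = F_ji - F_ij = 2 μ P_ij`, `μ = N / 2 = λ`. Fix `i, j` with `H_ij ≠ 0`,
`a_k = H_ik / H_ij`. The row `(H_ik)_k` is a kernel vector: the second formula for `a_k` is KER.
(3) `θ(X_b)`. With `c_kl = ∂_k g_bl`: `X_b F_ik = - ∑_l c_kl F_il - ∑_l c_il F_lk` (derivative of `hamf`,
mod `p0`), the same for `P` (lie), so `X_b H_ik + ∑_l c_kl H_il = - ∑_l c_il H_lk = τ H_ik`,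
`τ = - ∑_l c_il H_lj / H_ij` (rank one). Hence `X_b a_k + ∑_l c_kl a_l = θ(X_b) a_k`,
`θ(X_b) = τ - X_b(H_ij) / H_ij`. For `p ≠ q`, `P_pq ≠ 0`, `α_l = P_lq / P_pq`, `β_l = P_pl / P_pq`:
`a_l = a_p α_l + a_q β_l` and `∑_l c_ml α_l = - ∑_l (∂_m α_l) g_bl = - ∑_l ga(m,l) X_b(x_l)` (derivative
by `∂_m` of `∑_l g_bl P_lq = 0`), the same for `β`, `gb`. This is the last formula below for `X_b`; define
`θ_b = ∑_a G_ba θ(X_a)`.
(4) `∑_b y_b θ_b = 1 - λ`. Take `∑_b y_b ·` (last formula) `=` the formula for `E`. `E a_k = 0` (degree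
0). `∑_l x_l ga(m,l) = (F_qm - P_mq) / P_pq`, `∑_l x_l gb(m,l) = (- F_pm - P_pm) / P_pq` (from
`∑_l x_l P_lq = f_q`, `f = 0`). So with `Θ = ∑ y_b θ_b`:
`m = p: - a_p (F_qp - P_pq) + a_q F_pp = Θ a_p P_pq`, `m = q: - a_p F_qq + a_q (F_pq + P_pq) = Θ a_q P_pq`.
And `a_p F_qp - a_q F_pp = λ a_p P_pq`, `a_p F_qq - a_q F_pq = λ a_q P_pq` (rank one of `H` and
`H_ki - H_ik = (λ - μ) P_ik`). One of `a_p, a_q` is not `0`, so `Θ = 1 - λ`. -/
def SpecPSC : Prop := ∀ (N : ℕ) (g : Biv N) (P : Fin N → Fin N → MvPolynomial (Fin N) ℂ), Even N →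
  4 ≤ N → Geo g P → ∀ p0 : Ideal (MvPolynomial (Fin N) ℂ), p0.IsPrime → Hom p0 → Stab g.f p0 →
  (∀ j, fo P j ∈ p0) → (∃ i j, P i j ∉ p0) → ∀ δ l1 mu : ℂ, l1 + mu = N → l1 * mu = δ → l1 ≠ mu →
  (∀ i j k l, FF P i k * FF P j l - FF P i l * FF P j k - C δ * (P i j * P k l) ∈ p0) →
  ∀ (L : Type) (_ : Field L) (_ : Algebra (MvPolynomial (Fin (N - 2)) ℂ) L)
  (_ : Algebra ℂ L) (_ : IsScalarTower ℂ (MvPolynomial (Fin (N - 2)) ℂ) L)
  (br : MvPolynomial (Fin N) ℂ →ₐ[ℂ] L) (y : Fin (N - 2) → MvPolynomial (Fin N) ℂ)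
  (dd : Fin (N - 2) → Derivation ℂ L L),
  (∀ z, br z = 0 ↔ z ∈ p0) → (∀ x : L, ∃ z w, br w ≠ 0 ∧ x = br z / br w) →
  (∀ b, (y b).IsHomogeneous 1) →
  (∀ b, algebraMap (MvPolynomial (Fin (N - 2)) ℂ) L (X b) = br (y b)) →
  (∀ b c, dd b (algebraMap (MvPolynomial (Fin (N - 2)) ℂ) L (X c)) = if b = c then 1 else 0) →
  (∀ D : Derivation ℂ L L, ∀ x : L,
    D x = ∑ b, D (algebraMap (MvPolynomial (Fin (N - 2)) ℂ) L (X b)) * dd b x) →
  ∃ (θ : Fin (N - 2) → L) (a : Fin N → L) (j0 : Fin N), a j0 = 1 ∧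
    (∑ b, algebraMap (MvPolynomial (Fin (N - 2)) ℂ) L (X b) * θ b = algebraMap ℂ L (1 - l1)) ∧
    ∀ p q, p ≠ q → br (P p q) ≠ 0 →
      (∀ k, a k = a p * (br (P k q) / br (P p q)) + a q * (br (P p k) / br (P p q))) ∧
      ∀ b m, (m = p ∨ m = q) →
        dd b (a m) - a p * (∑ l, ga P br p q m l * dd b (br (X l)))
          - a q * (∑ l, gb P br p q m l * dd b (br (X l))) = θ b * a m

/-- TLD (~80 lines). The trace of a logarithmic derivative is the logarithmic derivative of the norm.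
PROOF. Basis `e_i` of `L / F`, `M` = matrix of `z`, `D e_j = ∑ Γ_ij e_i`: comparing `D (z e_j)` gives
`matrix of (D z) = D'(M) + [Γ, M]`, so `tr (M⁻¹ · matrix of D z) = tr (M⁻¹ D' M) = D'(det M) / det M`
(derivative of a determinant: see `B5/DET0.lean`). -/
def SpecTLD : Prop := ∀ (F L : Type) (_ : Field F) (_ : Field L) (_ : Algebra F L)
  (_ : FiniteDimensional F L) (D' : Derivation ℤ F F) (D : Derivation ℤ L L),
  (∀ x : F, D (algebraMap F L x) = algebraMap F L (D' x)) → ∀ z : L, z ≠ 0 →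
  Algebra.trace F L (D z / z) = D' (Algebra.norm F z) / Algebra.norm F z

/-- VAL (~350 lines), USES TLD. Local structure of the trace of `θ` at a prime `h` of
`R = ℂ[X_b]`. PROOF. Setting as in the proof of `specTRH`: `A` = localization of `R` at `(h)` (a DVR), `V` =
integral closure of `A` in `L` (Dedekind, finite over `A`), the places `P` of `V`, finitely many.
(1) CHOICE OF `z`. For every place `min_k v_P(a_k) ≤ 0` (`a_j0 = 1`; `v` additive here). There is `s ∈ L`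
with `v_P(s) = min_k v_P(a_k)` for all `P`: `V` is a PID (finitely many primes), `s` = a generator of the
fractional ideal `∑ V a_k`; or `s = ∑ c_k a_k` with `c ∈ ℂ^N` outside of finitely many proper subspaces
(`{c | v_P (∑ c_k a_k t^-m) > 0}` is a proper subspace). `z = 1 / s ∈ V`, `â_k = z a_k ∈ V` and for
every `P` some `â_k` is a unit at `P`.
(2) `θ̂(D) = θ(D) + D(z) / z`, where `θ(D) = ∑ g_b θ_b` for `D = ∑ g_b dd_b`. Multiplying (LOC) by `z`:
`D(â_m) - â_p Γ(D) - â_q Γ'(D) = θ̂(D) â_m`, `m = p, q`; one of `â_p, â_q` is a unit at `P`. So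
`v_P(θ̂(D)) ≥ 0` for a log derivation `D` (`v_P(D x) ≥ v_P(x)` for all `x`: `TRHM.log`), `≥ 1` if `D` maps
`V_P` to the maximal ideal. As in `TRHM.main` choose `b0` with `∂_b0 h ∉ (h)`, `D_0 = dd_b0 / ∂_b0 h`,
`D_b = dd_b - (∂_b h) D_0`; log derivations are `D_b` and `h D_0`, the latter in the strong sense.
(3) TRACES. `θ̂(D_b) ∈ V`, so its trace is in `A`; `h θ̂(D_0)` is in the radical, so its trace is in `h A`
(`TRHM.trc`). Hence all `Tr θ̂(dd_b) ∈ A`. By TLD `Tr (dd_b z / z) = ∂_b (N z) / N z`, `N z ∈ A`, so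
`N z = h^n unit`, `n ≥ 0`, and `∂_b (N z) / N z = n ∂_b h / h + (element of A)`. So
`Tr θ_b + n ∂_b h / h ∈ A`. -/
def SpecVAL : Prop := ∀ (σ : Type) (_ : Fintype σ) (_ : DecidableEq σ) (L : Type) (_ : Field L)
  (_ : Algebra (MvPolynomial σ ℂ) L) (_ : Algebra (FractionRing (MvPolynomial σ ℂ)) L)
  (_ : IsScalarTower (MvPolynomial σ ℂ) (FractionRing (MvPolynomial σ ℂ)) L)
  (_ : Algebra ℂ L) (_ : IsScalarTower ℂ (MvPolynomial σ ℂ) L)
  (_ : FiniteDimensional (FractionRing (MvPolynomial σ ℂ)) L)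
  (dd : σ → Derivation ℂ L L) (N : ℕ) (x a : Fin N → L) (j0 : Fin N) (θ : σ → L),
  (∀ b c, dd b (algebraMap (MvPolynomial σ ℂ) L (X c)) = if b = c then 1 else 0) →
  (∀ k, IsIntegral (MvPolynomial σ ℂ) (x k)) → a j0 = 1 →
  (∀ h : MvPolynomial σ ℂ, Prime h → ∀ v : Valuation L (WithZero (Multiplicative ℤ)),
    (∀ z : L, IsIntegral (MvPolynomial σ ℂ) z → v z ≤ 1) →
    (∀ r : MvPolynomial σ ℂ, v (algebraMap (MvPolynomial σ ℂ) L r) < 1 ↔ h ∣ r) →
    ∃ (p q : Fin N) (al be : Fin N → L) (γ γ' : Fin N → Fin N → L),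
      (∀ k, v (al k) ≤ 1 ∧ v (be k) ≤ 1) ∧ (∀ m l, v (γ m l) ≤ 1 ∧ v (γ' m l) ≤ 1) ∧
      (∀ k, a k = a p * al k + a q * be k) ∧
      ∀ b m, (m = p ∨ m = q) → dd b (a m) - a p * (∑ l, γ m l * dd b (x l))
        - a q * (∑ l, γ' m l * dd b (x l)) = θ b * a m) →
  ∀ h : MvPolynomial σ ℂ, Prime h → ∃ n : ℕ, ∀ b, ∃ r s : MvPolynomial σ ℂ, ¬ h ∣ s ∧
    (Algebra.trace (FractionRing (MvPolynomial σ ℂ)) L (θ b) +
      n * (algebraMap (MvPolynomial σ ℂ) (FractionRing (MvPolynomial σ ℂ)) (pderiv b h)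
        / algebraMap (MvPolynomial σ ℂ) (FractionRing (MvPolynomial σ ℂ)) h))
      * algebraMap (MvPolynomial σ ℂ) (FractionRing (MvPolynomial σ ℂ)) s
      = algebraMap (MvPolynomial σ ℂ) (FractionRing (MvPolynomial σ ℂ)) r

/-- LOG (~250 lines). The global step. PROOF. Common denominator `s` of the `t_b`, `h_1, .., h_m` its
non-associated prime factors (UFD), `n_i` the number of the hypothesis for `h_i`. For a prime `h ∤ s`:
`t_b ∈ R_(h)`, so `n ∂_b h / h ∈ R_(h)` for all `b`; some `∂_b h` is not divisible by `h` (degree), so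
`n = 0` may be assumed. Put `Ξ_b = t_b + ∑_i n_i ∂_b h_i / h_i`: it is in `R_(h)` for all primes `h` (for
`h = h_i` use the hypothesis, the other summands are regular), hence in `R` (UFD): `Ξ_b = c_b`.
Multiply by `X_b` and sum, `Eu = ∑ X_b ∂_b`: `c = ∑ X_b c_b - ∑ n_i Eu(h_i) / h_i` in the fraction
field. Multiplying with `∏ h_i`: if `n_i ≠ 0` then `h_i ∣ Eu(h_i)`; degrees give `Eu(h_i) = m_i h_i`
with a constant `m_i`, which is a natural number (compare a monomial of `h_i` of degree `m`). So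
`c = ∑ X_b c_b - ∑ n_i m_i`; constant coefficients: `c = - ∑ n_i m_i`. -/
def SpecLOG : Prop := ∀ (σ : Type) (_ : Fintype σ) (t : σ → FractionRing (MvPolynomial σ ℂ)) (c : ℂ),
  (∀ h : MvPolynomial σ ℂ, Prime h → ∃ n : ℕ, ∀ b, ∃ r s : MvPolynomial σ ℂ, ¬ h ∣ s ∧
    (t b + n * (algebraMap (MvPolynomial σ ℂ) (FractionRing (MvPolynomial σ ℂ)) (pderiv b h)
        / algebraMap (MvPolynomial σ ℂ) (FractionRing (MvPolynomial σ ℂ)) h))
      * algebraMap (MvPolynomial σ ℂ) (FractionRing (MvPolynomial σ ℂ)) s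
      = algebraMap (MvPolynomial σ ℂ) (FractionRing (MvPolynomial σ ℂ)) r) →
  (∑ b, algebraMap (MvPolynomial σ ℂ) (FractionRing (MvPolynomial σ ℂ)) (X b) * t b =
    algebraMap (MvPolynomial σ ℂ) (FractionRing (MvPolynomial σ ℂ)) (C c)) →
  ∃ r : ℝ, c = (r : ℂ) ∧ r ≤ 0

/-- PLC (~120 lines), USES PRK. At a valuation of `L ⊇ S / p0` over a prime `h` of `ℂ[y]` some `P_pq` is a
unit. PROOF. `qv = {s ∈ S | v (br s) < 1}` is a prime ideal of `S` (elements of `S` are integral). The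
kernel of `ℂ[X_b] → S / qv`, `X_b ↦ y_b`, is `(h)`, so `D(qv) ≥ trdeg (ℂ[X_b] / h) ≥ (N - 2) - 1 = N - 3`.
By `Dle`, `mI (N - 3) g` is not in `qv`. If all `P_ij ∈ qv` then all principal `(N-2)`-minors
`h P_ij²` of `g` are in `qv`, by PRK over `Frac (S / qv)` and `RKM` all `(N-3)`-minors are in `qv`:
contradiction (`det g = 0` from `ker`, `P ≠ 0`). So `v (br P_pq) = 1` for some `p, q` (`p ≠ q`). -/
def SpecPLC : Prop := ∀ (N : ℕ) (g : Biv N) (P : Fin N → Fin N → MvPolynomial (Fin N) ℂ), Even N →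
  4 ≤ N → Om g P → Dle (mI (N - 3) g) (N - 4) →
  ∀ (L : Type) (_ : Field L) (_ : Algebra (MvPolynomial (Fin (N - 2)) ℂ) L)
  (_ : Algebra ℂ L) (_ : IsScalarTower ℂ (MvPolynomial (Fin (N - 2)) ℂ) L)
  (br : MvPolynomial (Fin N) ℂ →ₐ[ℂ] L) (y : Fin (N - 2) → MvPolynomial (Fin N) ℂ),
  (∀ b, algebraMap (MvPolynomial (Fin (N - 2)) ℂ) L (X b) = br (y b)) →
  ∀ (h : MvPolynomial (Fin (N - 2)) ℂ), Prime h → ∀ v : Valuation L (WithZero (Multiplicative ℤ)),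
  (∀ z : MvPolynomial (Fin N) ℂ, v (br z) ≤ 1) →
  (∀ r : MvPolynomial (Fin (N - 2)) ℂ, v (algebraMap _ L r) < 1 ↔ h ∣ r) →
  ∃ p q : Fin N, p ≠ q ∧ v (br (P p q)) = 1

/-- POS (~200 lines), USES PSB, PSC, VAL, LOG, PLC. PROOF. `δ` from PSB; `λ, μ` the roots of
`T² - N T + δ`. If `λ = μ` then `δ = N² / 4`. Otherwise: Noether normalization by linear forms `y_b`,
`b ∈ Fin (N - 2)` (`specSOP` with `M = 0`, `m = N - 2`), `L = Frac (S / p0)`, the algebra structures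
and finite dimension as in `B5/Bst.lean`, `B5/Bsb.lean` (`BSTM.fin_dim`), `dd` from DEX. PSC gives `θ`,
`a`. VAL applies (its hypothesis: PLC gives `p, q` with `v (P_pq) = 1`, `al k = P_kq / P_pq`,
`be k = P_pk / P_pq`, `γ = ga`, `γ' = gb` have `v ≤ 1`). LOG with `t_b = Tr θ_b`,
`∑ X_b t_b = Tr (1 - λ) = [L : F] (1 - λ)`: `[L : F] (1 - λ)` is real and `≤ 0`, so `λ` is real, `λ ≥ 1`.
The same for `μ` (exchange them). So `δ = λ μ > 0` and `4 λ μ ≤ (λ + μ)² = N²`. -/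
def SpecPOS : Prop := ∀ (N : ℕ) (g : Biv N) (P : Fin N → Fin N → MvPolynomial (Fin N) ℂ), Even N →
  4 ≤ N → Geo g P → Dle (mI (N - 3) g) (N - 4) → ∀ p0 : Ideal (MvPolynomial (Fin N) ℂ), p0.IsPrime →
  Hom p0 → Stab g.f p0 → (∀ j, fo P j ∈ p0) → (∃ i j, P i j ∉ p0) →
  Algebra.trdeg ℂ (MvPolynomial (Fin N) ℂ ⧸ p0) = ((N - 2 : ℕ) : Cardinal) →
  ∃ δ : ℝ, 0 < δ ∧ 4 * δ ≤ (N : ℝ) ^ 2 ∧
    ∀ i j k l, FF P i k * FF P j l - FF P i l * FF P j k - C (δ : ℂ) * (P i j * P k l) ∈ p0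

/-! ## Numbers on a generic 4-dimensional subspace (group H) -/

/-- GCD (~60 lines). The gcd of finitely many forms of one degree. PROOF. `Finset.extract_gcd` and
`THEM.factor`, as in `B5/THE.lean`. -/
def SpecGCD : Prop := ∀ (v n m : ℕ) (f : Fin n → MvPolynomial (Fin v) ℂ),
  (∀ j, (f j).IsHomogeneous m) → (∃ j, f j ≠ 0) →
  ∃ (h : MvPolynomial (Fin v) ℂ) (f' : Fin n → MvPolynomial (Fin v) ℂ) (d e : ℕ),
    d + e = m ∧ h.IsHomogeneous d ∧ h ≠ 0 ∧ (∀ j, (f' j).IsHomogeneous e) ∧ (∃ j, f' j ≠ 0) ∧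
    (∀ j, f j = h * f' j) ∧ ∀ z, (∀ j, z ∣ f' j) → IsUnit z

/-- COD (~80 lines). Polynomials without common factor: codimension `≥ 2`. PROOF. Let `q` be a prime
over the `f_j`, `D(q) ≥ v - 1`. `q ≠ 0` (not all `f_j` are `0`, else `0 ∣ f_j`), so `q` contains a prime
element `π` (a prime factor of a nonzero element); `D((π)) + 1 ≤ D(0) = v` (`MONO`), and if
`(π) < q` then `D(q) + 1 ≤ D((π)) ≤ v - 1`. So `q = (π)` and `π ∣ f_j` for all `j`, contradiction. -/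
def SpecCOD : Prop := ∀ (v n : ℕ) (f : Fin n → MvPolynomial (Fin v) ℂ), 2 ≤ v →
  (∀ z, (∀ j, z ∣ f j) → IsUnit z) → Dle (Ideal.span (Set.range f)) (v - 2)

/-- USL (~150 lines). The generic subspace. PROOF. As in `B5/CUT.lean`: `SEL` with `M = N - 4` and the
three ideals `I` (`t = 0`), `J` (`t = 2`), `(h)` (`t = 3`; all primes over `(h)` have `D ≤ N - 1` by `MONO`,
as `h ≠ 0` and `D(0) = N`), `g = ` the variables; then `CUTM.plane` gives `u` with
`∑_k c_jk u_bk = 0`. First claim: if all `z ∈ I` vanish at `x = ∑ y_b u_b ≠ 0`, the ideal of the line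
through `x` (`CUTM.psi`, `trdeg_line`) contradicts `t = 0`. Second claim: for a prime `Q` of `S4` over
`Phi u J` the prime `q = (Phi u)⁻¹ Q` contains `J` and the linear forms, `S / q ≅ S4 / Q` (`Phi u` is
surjective as `u` is independent); `q` contains a homogeneous minimal prime `q'` of `J` + (linear
forms) (`HMIN`), `D(q) ≤ D(q') ≤ 2`. Third claim: if `Phi u h = 0` the kernel of `Phi u` is a homogeneous prime
with `D = 4` which contains `h` and the linear forms, against `t = 3`. -/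
def SpecUSL : Prop := ∀ (N d : ℕ) (I J : Ideal (MvPolynomial (Fin N) ℂ)) (h : MvPolynomial (Fin N) ℂ),
  4 ≤ N → Hom I → Hom J → Dle I (N - 4) → Dle J (N - 2) → h ≠ 0 → h.IsHomogeneous d →
  ∃ u : Fin 4 → Fin N → ℂ, LinearIndependent ℂ u ∧
    (∀ y : Fin 4 → ℂ, y ≠ 0 → ∃ z ∈ I, eval y (CUTM.Phi u z) ≠ 0) ∧
    Dle (Ideal.map (CUTM.Phi u) J) 2 ∧ CUTM.Phi u h ≠ 0

/-- CNX (~60 lines, COPY of the proof of `specCNT` in `B5/CNT.lean` for a given `T`). -/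
def SpecCNX : Prop := ∀ (N th : ℕ) (A T : Matrix (Fin N) (Fin N) S4), Even N →
  (∀ i j, A j i = - A i j) → (∀ i j, (A i j).IsHomogeneous 2) → A.det = 0 →
  (∀ y : Fin 4 → ℂ, y ≠ 0 → N ≤ (Matrix.of fun i j => eval y (A i j)).rank + 2) →
  (∀ i j, T j i = - T i j) → (∀ i j, (T i j).IsHomogeneous th) → A * T = 0 → T ≠ 0 →
  (∀ z, (∀ i j, z ∣ T i j) → IsUnit z) →
  (∀ i j k l, T i j * T k l - T i k * T j l + T i l * T j k = 0) →
  ∃ a₀ : ℕ, ∀ a, a₀ ≤ a → Module.finrank ℂ (hk A (a + 2 + th))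
    = Module.finrank ℂ (hk A a) + N * (a + 3) ^ 2

/-- HIL (~250 lines). Lower bound for the Hilbert function of the zeros of `f' = f / h`, where
`h f'_j = ∑ x_i T_ij`. PROOF. `k(a) = finrank (hk A a)`, `b(a) = (a+3 choose 3)`. (1) With
`c = a + 3 - N/2` the number `12 k(a) - (4 c³ - N² c)` has period `N` for `a ≥ a₀` (recursion), so it is
bounded: `12 k(a) ≤ 4 c³ - N² c + C`. (2) `I'` = ideal of the `f'_j`, `I'_n` its degree `n` part. If
`w = ∑ f'_j v_j` has degree `a + 1 - d` (`v_j` homogeneous of degree `a + 1 - d - e`) then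
`h w = ∑_i x_i (T v)_i`, `T v ∈ K_a = hk A a` (degree `(N - 2) + (a + 1 - d - e) = a`). So
`h I'_(a+1-d) ⊆ ι(K_a)`, `ι κ = ∑ x_i κ_i`, and `dim I'_(a+1-d) ≤ dim ι(K_a) = k(a) - dim (ker ι on K_a)
≤ k(a) - b(a - e)`, as `s f' ∈ K_a`, `ι (s f') = 0` for `s` of degree `a - e`. (3) So
`hq I' (a+1-d) = b(a+1-d) - dim I'_(a+1-d) ≥ b(a+1-d) - k(a) + b(a - e)`, and with `s = N/2 - d`:
`12 (b(a+1-d) + b(a-e)) = 2 ((c+s)³ + (c-s)³ - 2 c) = 4 c³ + 12 s² c - 4 c`. (Small `a`: enlarge `C`.) -/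
def SpecHIL : Prop := ∀ (N d e a₀ : ℕ) (A T : Matrix (Fin N) (Fin N) S4) (x f' : Fin N → S4) (h : S4),
  Even N → 4 ≤ N → d + e = N - 1 → (∀ i j, (A i j).IsHomogeneous 2) → A * T = 0 →
  (∀ i j, (T i j).IsHomogeneous (N - 2)) → (∀ i, (x i).IsHomogeneous 1) →
  (∀ j, (f' j).IsHomogeneous e) → h.IsHomogeneous d → h ≠ 0 → (∃ j, f' j ≠ 0) →
  (∀ j, h * f' j = ∑ i, x i * T i j) → (∑ i, x i * f' i = 0) → A.mulVec f' = 0 →
  (∀ a, a₀ ≤ a → Module.finrank ℂ (hk A (a + N)) = Module.finrank ℂ (hk A a) + N * (a + 3) ^ 2) →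
  ∃ K : ℤ, ∀ a : ℕ, (3 * ((N : ℤ) - 2 * d) ^ 2 + (N : ℤ) ^ 2 - 4) * a - K
    ≤ 12 * (hq (Ideal.span (Set.range f')) a : ℤ)

/-- BND (~120 lines). If all primes over a homogeneous ideal `I` of `S4` have transcendence degree
`≤ 1` then the Hilbert function of `S4 / I` is bounded. PROOF. `SEL` (`M = 1`, `t = 0`, `g` = the
variables): a linear form `l` such that all homogeneous primes over `I + (l)` have degree 0, i.e.
contain all variables, so `X_c^m ∈ I + (l)`, all forms of degree `≥ n0` are in `I + (l)`; taking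
homogeneous parts `(S4/I)_(a+1) = l (S4/I)_a` for `a ≥ n0`: the Hilbert function is nonincreasing
from `n0` on. -/
def SpecBND : Prop := ∀ I : Ideal S4, Hom I → Dle I 1 → ∃ K : ℕ, ∀ a, hq I a ≤ K

/-- ZRO (~120 lines). A homogeneous prime `Q` with `D(Q) ≥ 2` and a form `h` of degree `≥ 1` have a
common zero `≠ 0`. PROOF. If a homogeneous prime `q ⊇ Q + (h)` does not contain all variables, it has a
zero `y ≠ 0`: `X_c ∉ q`, Nullstellensatz (a maximal ideal over `q` without `X_c`: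
`MvPolynomial.vanishingIdeal_zeroLocus_eq_radical`). Otherwise `FINI` with the one element `h`: `S4 / Q`
is integral over `ℂ[h]`, so `D(Q) ≤ 1`. -/
def SpecZRO : Prop := ∀ (v : ℕ) (Q : Ideal (MvPolynomial (Fin v) ℂ)) (h : MvPolynomial (Fin v) ℂ)
  (d : ℕ), Q.IsPrime → Hom Q → ((2 : ℕ) : Cardinal) ≤ Algebra.trdeg ℂ (MvPolynomial (Fin v) ℂ ⧸ Q) →
  1 ≤ d → h.IsHomogeneous d →
  ∃ y : Fin v → ℂ, y ≠ 0 ∧ (∀ z ∈ Q, eval y z = 0) ∧ eval y h = 0

/-- RES (~150 lines). Restriction to the subspace. PROOF. `A = Phi u g`, `T = Phi u P`. If `y ≠ 0` and all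
`P_ij(x) = 0`, `x = ∑ y_b u_b`: all principal `(N-2)`-minors of `g(x)` are zero (`minor`), so by
PRK the rank of `g(x)` is `≤ N - 4` and all `(N-3)`-minors vanish at `x`, against the second
hypothesis. So some `P_pq(x) ≠ 0` and `rk g(x) ≥ N - 2` (the minor `h P_pq(x)²`). `T` is primitive: a
common divisor `z` is a form (`THEM.factor`), and if its degree is `≥ 1` it has a zero `y ≠ 0` in
`ℂ⁴` where `T(y) = 0`. USES PRK, ZRO (for the zero of `z`: `Q = 0`). -/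
def SpecRES : Prop := ∀ (N : ℕ) (g : Biv N) (P : Fin N → Fin N → MvPolynomial (Fin N) ℂ)
  (u : Fin 4 → Fin N → ℂ), Even N → 4 ≤ N → Om g P → LinearIndependent ℂ u →
  (∀ y : Fin 4 → ℂ, y ≠ 0 → ∃ z ∈ mI (N - 3) g, eval y (CUTM.Phi u z) ≠ 0) →
  (∀ y : Fin 4 → ℂ, y ≠ 0 → ∃ i j, eval y (CUTM.Phi u (P i j)) ≠ 0) ∧
  (∀ y : Fin 4 → ℂ, y ≠ 0 →
    N ≤ (Matrix.of fun i j => eval y (CUTM.Phi u (g.f i j))).rank + 2) ∧
  (∀ z, (∀ i j, z ∣ CUTM.Phi u (P i j)) → IsUnit z) ∧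
  (Matrix.of fun i j => CUTM.Phi u (g.f i j)).det = 0

/-- HC1 (~200 lines), USES GCD, COD, USL, RES, CNX, HIL, BND, ZRO. The `f_j` have no common factor.
PROOF. `f ≠ 0` (`curl` and `P ≠ 0`). By GCD `f = h f'`, `h` of degree `d`, `f'` of degree `e`,
`d + e = N - 1`, the `f'_j` without common factor. If `d = 0` we are done. Suppose `d ≥ 1`. USL with
`I = mI (N - 3) g`, `J = (f'_j)` (COD) and `h`. On `U`: `h|U ≠ 0`; `f'|U ≠ 0`, since `Dle (map J) 2` and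
`D(0) = 4`. RES and CNX (`th = N - 2`) give the recursion, HIL for `h|U`, `f'|U`, `x = Phi u X` a Hilbert
function growing at least with slope `(3 (N - 2d)² + N² - 4) / 12 > 0`, so by BND there is a prime `Q`
over `(f'_j|U)` with `D(Q) ≥ 2`, which may be taken minimal, so homogeneous. ZRO: `y ≠ 0` with
`f'_j(x) = 0`, `h(x) = 0`, `x = ∑ y_b u_b`. The derivatives of `f_j = h f'_j` at `x` are zero, so by
`curl` `N P_ij(x) = 0` for all `i, j`, against RES. -/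
def SpecHC1 : Prop := ∀ (N : ℕ) (g : Biv N) (P : Fin N → Fin N → MvPolynomial (Fin N) ℂ), Even N →
  4 ≤ N → Geo g P → Dle (mI (N - 3) g) (N - 4) → ∀ z, (∀ j, z ∣ fo P j) → IsUnit z

/-! ## The trace formula on `U` (group B) -/

/-- UVL (~200 lines). Choice of `q_0 = ∑ a_i F_i`, `q_1 = ∑ b_i F_i` and of `l`. PROOF. Some `F_i ≠ 0`
(otherwise `D(0) = 4`). By MONO the primes over `(F)` with `D ≥ 2` are minimal primes of `(F)`:
finitely many, `Q_1, .., Q_r`, homogeneous (HMIN). Choose `a` outside of the proper subspaces `{a | ∑ a_i F_i = 0}` and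
`{a | ∀ j, ∑_i a_i Pm_ij ∈ Q_k}` (`Subspace.biUnion_ne_univ_of_top_notMem` or similar). The minimal primes of
`(q_0)` are finitely many, and each has `D ≥ 3` (it is generated by a prime factor of `q_0`; or enlarge:
if `D ≤ 2` nothing is to be done for it), so does not contain all `F_j`. Choose `b` outside of the proper
subspaces `{b | ∑ b_j F_j ∈ p}` (`p` minimal over `q_0` with `D(p) ≥ 3`) and
`{b | ∑_j b_j ∑_i a_i Pm_ij ∈ Q_k}`. A prime over `(q_0, q_1)` contains a minimal prime `p` of `(q_0)`,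
`D(p) ≤ 3` (`MONO`, `q_0 ≠ 0`), properly if `D(p) = 3`: so its `D` is `≤ 2`. Then `l` by SEL (`M = 2`,
the ideal `(q_0, q_1)`, `t = 0`, `g` = variables). -/
def SpecUVL : Prop := ∀ (N e : ℕ) (F : Fin N → S4) (Pm : Fin N → Fin N → S4), 1 ≤ e →
  (∀ i, (F i).IsHomogeneous e) → Dle (Ideal.span (Set.range F)) 2 →
  (∀ Q : Ideal S4, Q.IsPrime → Hom Q → (∀ i, F i ∈ Q) →
    ((2 : ℕ) : Cardinal) ≤ Algebra.trdeg ℂ (S4 ⧸ Q) → ∃ i j, Pm i j ∉ Q) →
  ∃ (a b : Fin N → ℂ) (l : Fin 2 → S4), (∀ j, (l j).IsHomogeneous 1) ∧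
    (∀ Q : Ideal S4, Q.IsPrime → Hom Q → (∑ i, C (a i) * F i) ∈ Q → (∑ i, C (b i) * F i) ∈ Q →
      (∀ j, l j ∈ Q) → Algebra.trdeg ℂ (S4 ⧸ Q) ≤ 0) ∧
    Dle (Ideal.span {∑ i, C (a i) * F i, ∑ i, C (b i) * F i}) 2 ∧
    (∀ Q : Ideal S4, Q.IsPrime → Hom Q → (∀ i, F i ∈ Q) →
      ((2 : ℕ) : Cardinal) ≤ Algebra.trdeg ℂ (S4 ⧸ Q) →
      (∑ i, ∑ j, C (a i) * C (b j) * Pm i j) ∉ Q)

/-- FRM (~120 lines). PROOF. FINI with `p = ⊥` (transfer from `S4 / ⊥`): integrality. Four elements over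
whose adjoined algebra `S4` (`D = 4`) is integral are algebraically independent (see `B5/SOP.lean`). Regular
sequence: `q_0 ≠ 0` (if `q_0 = 0`, a prime factor of `q_1`, or the zero ideal, has `D ≥ 3`), and
`q_0, q_1` have no common prime factor `π` (`D((π)) = 3`), so `q_0 ∣ q_1 z → q_0 ∣ z`. -/
def SpecFRM : Prop := ∀ (e : ℕ) (q l : Fin 2 → S4), 1 ≤ e → (∀ i, (q i).IsHomogeneous e) →
  (∀ j, (l j).IsHomogeneous 1) →
  (∀ Q : Ideal S4, Q.IsPrime → Hom Q → (∀ i, q i ∈ Q) → (∀ j, l j ∈ Q) →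
    Algebra.trdeg ℂ (S4 ⧸ Q) ≤ 0) →
  Dle (Ideal.span {q 0, q 1}) 2 →
  AlgebraicIndependent ℂ (Sum.elim q l) ∧
  (∀ z : S4, IsIntegral (Algebra.adjoin ℂ (Set.range (Sum.elim q l))) z) ∧ q 0 ≠ 0 ∧
  ∀ z, q 0 ∣ q 1 * z → q 0 ∣ z

/-- the standard situation: `L` = fraction field of `S4`, a finite extension of the fraction field
of `R4 = ℂ[q, l]` -/
structure Std (q l : Fin 2 → S4) (L : Type) [Field L] [Algebra S4 L] [Algebra R4 L]
    [Algebra (FractionRing R4) L] [Algebra ℂ L] : Prop where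
  fr : IsFractionRing S4 L
  t1 : IsScalarTower R4 (FractionRing R4) L
  t2 : IsScalarTower ℂ R4 L
  t3 : IsScalarTower ℂ S4 L
  fin : FiniteDimensional (FractionRing R4) L
  xl : ∀ i, algebraMap R4 L (X (Sum.inl i)) = algebraMap S4 L (q i)
  xr : ∀ j, algebraMap R4 L (X (Sum.inr j)) = algebraMap S4 L (l j)
  int : ∀ z : S4, IsIntegral R4 (algebraMap S4 L z)

/-- FLD (~80 lines). PROOF. `L = FractionRing S4`, the instances as in `BSTM.core_abs` (`B5/Bst.lean`)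
with `A = S4`, `y = Sum.elim q l`; finite dimension as `BSTM.fin_dim`. -/
def SpecFLD : Prop := ∀ (q l : Fin 2 → S4), AlgebraicIndependent ℂ (Sum.elim q l) →
  (∀ z : S4, IsIntegral (Algebra.adjoin ℂ (Set.range (Sum.elim q l))) z) →
  ∃ (L : Type) (_ : Field L) (_ : Algebra S4 L) (_ : Algebra R4 L)
    (_ : Algebra (FractionRing R4) L) (_ : Algebra ℂ L), Std q l L

/-- JTR (~100 lines). PROOF. `dd` from DEX. Chain rule `∑_c ∂_c(y_a) dd_b(X_c) = dd_b(y_a) = δ_ab` for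
`y = (q_0, q_1, l_0, l_1)`: `jc q l · det (dd_b X_c) = 1` (reindex `Fin 4 ≃ Fin 2 ⊕ Fin 2`). So
`s / jc = s det (dd_b X_c)` and TRA. -/
def SpecJTR : Prop := ∀ (q l : Fin 2 → S4) (L : Type) (_ : Field L) (_ : Algebra S4 L)
  (_ : Algebra R4 L) (_ : Algebra (FractionRing R4) L) (_ : Algebra ℂ L), Std q l L →
  jc q l ≠ 0 ∧ ∀ s : S4, ∃ r : R4, Algebra.trace (FractionRing R4) L
    (algebraMap S4 L s / algebraMap S4 L (jc q l)) = algebraMap R4 (FractionRing R4) r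

/-- CRB (~80 lines). The determinant identity. PROOF. For five vectors `a_0, .., a_4` of `B⁴`:
`∑ (-1)^i E(a_i) det (a_j, j ≠ i) = 0` (a singular `5 × 5` matrix; or `ring` after expansion). `η = U_0 - V_0`
(`E η = 0`), vectors `(V_0, η, U_1, W_0, W_1)`:
`q_0 det (η, U_1, W) = - q_1 det (V_0, η, W) + (l_0, l_1)`; `η' = U_1 - V_1`, vectors `(V_0, η', U_1, W_0, W_1)`:
`q_1 det (V_0, η', W) = - q_0 det (η', U_1, W) + (l_0, l_1)`. And
`det (U, W) - det (V, W) = det (η, U_1, W) + det (V_0, η', W)`. Multiply by `q_0 q_1`. -/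
def SpecCRB : Prop := ∀ (B : Type) (_ : CommRing B) (x : Fin 4 → B) (q l : Fin 2 → B)
  (U V W : Fin 2 → Fin 4 → B), (∀ i, ∑ c, x c * U i c = q i) → (∀ i, ∑ c, x c * V i c = q i) →
  (∀ j, ∑ c, x c * W j c = l j) → ∃ s : Fin 4 → B,
  q 0 * q 1 * ((Matrix.of (![U 0, U 1, W 0, W 1] : Fin 4 → Fin 4 → B)).det
    - (Matrix.of (![V 0, V 1, W 0, W 1] : Fin 4 → Fin 4 → B)).det)
    = q 0 ^ 2 * s 0 + q 1 ^ 2 * s 1 + l 0 * s 2 + l 1 * s 3

/-- BBX (~150 lines), USES CRB. PROOF. CRB with `B = S4`, `x = X`, `U_i = dq_i / e` (Euler), `W_j = dl_j`: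
`vd U l = jc q l / e²`. Divide by `jc` and take traces, `T0 = [L : F] = Tr 1`:
`X_0 X_1 (T0 / e² - T1) = X_0² r_0 + X_1² r_1 + Y_0 r_2 + Y_1 r_3` in `R4` (`X_i = X (inl i)`, `Y_j = X (inr j)`).
The coefficient of the monomial `X_0 X_1` (see `BSTM.mono`). -/
def SpecBBX : Prop := ∀ (e : ℕ) (q l : Fin 2 → S4), 1 ≤ e → (∀ i, (q i).IsHomogeneous e) →
  (∀ j, (l j).IsHomogeneous 1) → ∀ (L : Type) (_ : Field L) (_ : Algebra S4 L)
  (_ : Algebra R4 L) (_ : Algebra (FractionRing R4) L) (_ : Algebra ℂ L), Std q l L →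
  jc q l ≠ 0 → (∀ s : S4, ∃ r : R4, Algebra.trace (FractionRing R4) L
    (algebraMap S4 L s / algebraMap S4 L (jc q l)) = algebraMap R4 (FractionRing R4) r) →
  ∀ (V : Fin 2 → Fin 4 → S4) (T1 : R4), (∀ i, ∑ c, X c * V i c = q i) →
  Algebra.trace (FractionRing R4) L (algebraMap S4 L (vd V l) / algebraMap S4 L (jc q l))
    = algebraMap R4 (FractionRing R4) T1 →
  constantCoeff T1 * (e : ℂ) ^ 2 = (Module.finrank (FractionRing R4) L : ℂ)

/-- RK0 (~200 lines). Bezout inequality. PROOF. `L` is spanned over `F = FractionRing R4` by the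
monomials in `X_c` (`L` is the fraction field of `S4`, `S4` integral over `R4`: `1 / s` is `t / r`, `t ∈ S4`,
`r ∈ R4`), so there are `T0 = [L : F]` monomials, of degrees `≤ D0`, which are a basis; multiply by powers of
`l_0`: `T0` forms `s_i` of one degree `D0`, independent over `R4`. The products `s_i q_0^α q_1^β l_0^γ l_1^δ`,
`e (α + β) + γ + δ = e M`, are linearly independent over `ℂ` in the forms of degree `e M + D0`. Their
number is `T0 ∑_{A ≤ M} (A + 1) (e (M - A) + 1) ≥ T0 e (M+2 choose 3)`. So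
`T0 e (M+2 choose 3) ≤ (e M + D0 + 3 choose 3)` for all `M`, and `T0 ≤ e²` (leading coefficients in `M`). -/
def SpecRK0 : Prop := ∀ (e : ℕ) (q l : Fin 2 → S4), 1 ≤ e → (∀ i, (q i).IsHomogeneous e) →
  (∀ j, (l j).IsHomogeneous 1) → AlgebraicIndependent ℂ (Sum.elim q l) →
  ∀ (L : Type) (_ : Field L) (_ : Algebra S4 L)
  (_ : Algebra R4 L) (_ : Algebra (FractionRing R4) L) (_ : Algebra ℂ L), Std q l L →
  Module.finrank (FractionRing R4) L ≤ e ^ 2

/-- FRE (~130 lines). PROOF. `m_i` lifts of a basis of `M / (x, y) M` over the residue field; they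
generate `M` (Nakayama). (1) `∑ a_i m_i ∈ x M` implies `a_i ∈ (x)`: mod `(x, y)` all `a_i ∈ (x, y)`,
`a_i = x b_i + y c_i`, so `y ∑ c_i m_i ∈ x M`, `∑ c_i m_i ∈ x M`; repeating, `a_i ∈ (x) + (y)^t` for all `t`, and
`a_i ∈ (x)` by Krull (`Ideal.iInf_pow_smul_eq_bot_of_isLocalRing` for the module `B / (x)`). (2) `∑ a_i m_i = 0`
implies `a_i = x a_i'` by (1), `x ∑ a_i' m_i = 0`, `∑ a_i' m_i = 0`; repeating, `a_i ∈ (x)^t` for all `t`,
so `a_i = 0`. -/
def SpecFRE : Prop := ∀ (B : Type) (_ : CommRing B) (_ : IsLocalRing B) (_ : IsNoetherianRing B)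
  (M : Type) (_ : AddCommGroup M) (_ : Module B M) (_ : Module.Finite B M) (x y : B),
  IsLocalRing.maximalIdeal B = Ideal.span {x, y} → (∀ m : M, x • m = 0 → m = 0) →
  (∀ m n : M, y • m = x • n → ∃ m' : M, m = x • m') → Module.Free B M

/-- TRB (~150 lines). The trace of an element with constant residues. PROOF. (1) `J = 0`: `C` has finitely
many maximal ideals, let `Z` be the finite set of the reals `r_P`; `∏_{r ∈ Z} (ψ - r)` is in all maximal ideals, so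
nilpotent (`C` Artinian), so the minimal polynomial of `ψ` divides `∏ (X - r)^m`, the characteristic
polynomial of the multiplication by `ψ` splits with roots in `Z`, its trace is the sum of the
`finrank k C` roots. (2) In general: the trace on `C` is the trace on `J` (which is `0`) plus the trace on
`C / J`. -/
def SpecTRB : Prop := ∀ (k K : Type) (_ : Field k) (_ : CommRing K) (_ : Algebra k K)
  (_ : FiniteDimensional k K) (κ : ℂ →+* k) (J : Ideal K) (ψ : K) (ε : ℝ), (∀ z ∈ J, ψ * z = 0) →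
  (∀ P : Ideal K, P.IsMaximal → J ≤ P → ∃ r : ℝ, ε ≤ r ∧ ψ - algebraMap k K (κ (r : ℂ)) ∈ P) →
  ∃ r : ℝ, Algebra.trace k K ψ = κ (r : ℂ) ∧ ε * (Module.finrank k (K ⧸ J) : ℝ) ≤ r

/-- EVA (~350 lines), USES FRE. Specialization of the trace to `q_0 = q_1 = 0`. PROOF.
`φ = aeval (Sum.elim q l) : R4 → S4` (`algebraMap S4 L (φ t) = algebraMap R4 L t`; `S4` is a finite
`R4`-module by `int`). `𝔮 = (X (inl 0), X (inl 1))`, a prime of `R4` (kernel of `R4 → ℂ[Y_0, Y_1]`), `B = ` localization of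
`R4` at `𝔮`, `A' = ` localization of `S4` at the image of the complement of `𝔮`; `B` is local Noetherian with maximal
ideal `(q_0, q_1)`, `A'` is a finite `B`-module, `q_0` is regular, `q_1` is regular on `A' / q_0 A'`. FRE: `A'` is
free over `B`. `k` = residue field of `B` = fraction field of `ℂ[Y_0, Y_1]`, `K = A' / 𝔮 A'`. TRACE:
`F ⊗ A' = L`, so `Tr_(L/F) s = Tr_(A'/B) s` (`Algebra.trace_localization`), and `Tr_(K/k)` is its reduction
(`Algebra.trace_quotient_mk`). -/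
def SpecEVA : Prop := ∀ (q l : Fin 2 → S4), q 0 ≠ 0 → (∀ z, q 0 ∣ q 1 * z → q 0 ∣ z) →
  ∀ (L : Type) (_ : Field L) (_ : Algebra S4 L)
  (_ : Algebra R4 L) (_ : Algebra (FractionRing R4) L) (_ : Algebra ℂ L), Std q l L →
  ∃ (k K : Type) (_ : Field k) (_ : CommRing K) (_ : Algebra k K)
    (_ : Algebra (MvPolynomial (Fin 2) ℂ) k) (π : S4 →+* K),
    IsFractionRing (MvPolynomial (Fin 2) ℂ) k ∧ FiniteDimensional k K ∧
    (∀ i, π (q i) = 0) ∧
    (∀ c : MvPolynomial (Fin 2) ℂ, π (aeval l c) = algebraMap k K (algebraMap _ k c)) ∧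
    (∀ x : K, ∃ (s : S4) (c : MvPolynomial (Fin 2) ℂ), c ≠ 0 ∧
      algebraMap k K (algebraMap _ k c) * x = π s) ∧
    (∀ s : S4, π s = 0 → ∃ c : MvPolynomial (Fin 2) ℂ, c ≠ 0 ∧ aeval l c * s ∈ Ideal.span {q 0, q 1}) ∧
    ∀ (s : S4) (t : R4), Algebra.trace (FractionRing R4) L (algebraMap S4 L s)
      = algebraMap R4 (FractionRing R4) t →
      Algebra.trace k K (π s) = algebraMap _ k (aeval (Sum.elim (fun _ => 0) X) t :
        MvPolynomial (Fin 2) ℂ)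

/-- EVB (~300 lines), USES EVA, TRB. PROOF. In `K` of EVA let `J̄ = ` ideal generated by `π J`
`= {x | ∃ c ≠ 0, c x ∈ π J}`. (1) A maximal ideal `P` of `K` over `J̄` gives the prime `Q = π⁻¹ P`, `J ≤ Q`,
`Q ∩ ℂ[l] = 0` (a nonzero `c` is a unit in `K`): so `pu ∉ P`, `du - δ pu² ∈ P`, `du ∉ P`. So `pu`, `du` are units
mod `J̄`: `pu p' - 1 ∈ J̄`, `du d' - 1 ∈ J̄`. (2) `pu J̄ = 0` (`h1`, `π q_i = 0`), so `pu (pu p' - 1) = 0`. (3) By
`h2` and (1) `pu jac - du w ∈ J̄`; so with `ψ = pu² d'`: `pu w - ψ jac = pu (w - pu d' jac)`,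
`w - pu d' jac ∈ J̄` (as `d' (du w - pu jac) ∈ J̄` and `(du d' - 1) w ∈ J̄`), so `pu w = ψ jac` in `K`, and
`ψ J̄ = 0`. (4) `c ψ = π s`, `s ∈ S4`, `c ≠ 0`; `π (s jac - c pu w) = 0`, so
`c' (s jac - c pu w) = q_0 s_0 + q_1 s_1`, `c' ≠ 0`. Divide by `jac`, take traces:
`Tr (c' s) = c' c T1 + q_0 r_0 + q_1 r_1 ∈ R4`, and by the last property of EVA `c' c Tr_K ψ = c' c T̄1`,
`Tr_K ψ = T̄1` = `T1` at `inl = 0`. (5) TRB with `ε = 1 / B`: `ψ - 1/δ ∈ P` for `P ⊇ J̄` maximal (`pu² = du / δ` mod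
`P`, `du d' = 1`). So `T̄1 = r` is a real constant, `r = constantCoeff T1`, and `dim K / J̄ ≤ B r`. (6) A family
independent over `ℂ[l]` mod `J` is independent over `k` in `K / J̄` (clear denominators; `q_0, q_1 ∈ J`). -/
def SpecEVB : Prop := ∀ (q l : Fin 2 → S4), q 0 ≠ 0 → (∀ z, q 0 ∣ q 1 * z → q 0 ∣ z) →
  ∀ (L : Type) (_ : Field L) (_ : Algebra S4 L)
  (_ : Algebra R4 L) (_ : Algebra (FractionRing R4) L) (_ : Algebra ℂ L), Std q l L →
  ∀ (J : Ideal S4) (pu w du jac : S4) (B : ℝ), 0 < B → jac ≠ 0 → q 0 ∈ J → q 1 ∈ J →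
  (∀ z ∈ J, pu * z ∈ Ideal.span {q 0, q 1}) →
  (∃ m : ℕ, pu ^ m * (pu * jac - du * w) ∈ J) →
  (∀ Q : Ideal S4, Q.IsPrime → J ≤ Q →
    (∀ c : MvPolynomial (Fin 2) ℂ, aeval l c ∈ Q → c = 0) →
    pu ∉ Q ∧ ∃ δ : ℝ, 0 < δ ∧ δ ≤ B ∧ du - C (δ : ℂ) * pu ^ 2 ∈ Q) →
  (∀ s : S4, ∃ r : R4, Algebra.trace (FractionRing R4) L
    (algebraMap S4 L s / algebraMap S4 L jac) = algebraMap R4 (FractionRing R4) r) →
  ∀ T1 : R4, Algebra.trace (FractionRing R4) L
    (algebraMap S4 L (pu * w) / algebraMap S4 L jac) = algebraMap R4 (FractionRing R4) T1 →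
  ∃ r : ℝ, constantCoeff T1 = (r : ℂ) ∧ ∀ (n : ℕ) (m : Fin n → S4),
    (∀ c : Fin n → MvPolynomial (Fin 2) ℂ, ∑ i, aeval l (c i) * m i ∈ J → ∀ i, c i = 0) →
    (n : ℝ) ≤ B * r

/-- RNK (~250 lines). Hilbert function and rank. PROOF. All homogeneous primes over `J + (l_0, l_1)`
contain all variables (`D = 0`), so `X_c^m ∈ J + (l_0, l_1)`, and (homogeneous parts, induction) every form is
`∑ (forms of ℂ[l]) · (monomials of degree < 4 m)` mod `J`: homogeneous generators `g_1, .., g_t` of `S4 / J` over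
`ℂ[l]`. Choose a maximal independent subfamily `m_1, .., m_ρ` of the `g_j` (`ρ ≤ n0`). For every `j`:
`b_j g_j ∈ J + ∑ ℂ[l] m_i` with `b_j ≠ 0`, and taking a homogeneous part `b_j` is a form; `b = ∏ b_j`, degree `β`.
In degree `a`: the part of `∑ ℂ[l] m_i` has dimension `≤ ρ (a + 1)`. Modulo it every `g_j f`, `f` a form of `ℂ[l]` of
degree `n = a - deg g_j`, depends only on `f` mod `b`, and the forms of degree `n` mod `b` have dimension `≤ β`
(`(n + 1) - (n - β + 1)`, or `n + 1 ≤ β`). So `hq J a ≤ n0 (a + 1) + t β`. -/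
def SpecRNK : Prop := ∀ (J : Ideal S4) (l : Fin 2 → S4) (n0 : ℕ), Hom J →
  (∀ j, (l j).IsHomogeneous 1) →
  (∀ Q : Ideal S4, Q.IsPrime → Hom Q → J ≤ Q → (∀ j, l j ∈ Q) →
    Algebra.trdeg ℂ (S4 ⧸ Q) ≤ 0) →
  (∀ (n : ℕ) (m : Fin n → S4),
    (∀ c : Fin n → MvPolynomial (Fin 2) ℂ, ∑ i, aeval l (c i) * m i ∈ J → ∀ i, c i = 0) → n ≤ n0) →
  ∃ K : ℕ, ∀ a, hq J a ≤ n0 * (a + 1) + K

/-! ## The end of the proof -/

/-- RST (~200 lines), USES E2. Identities on `U`. PROOF. `m_kc = u c k`, `x_k = ∑_c m_kc X_c`, chain rule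
`∂_c (Phi z) = ∑_k m_kc Phi (∂_k z)`. `V_0c = ∑_k m_kc Phi (∑_i a_i P_ki)`, `V_1` with `b`;
`∑_c X_c V_0c = Phi (f_a)`. Plücker: `V_0c V_1d - V_0d V_1c = Phi(Puv a b) O_cd`, `O_cd = ∑_(k,l) m_kc m_ld Phi(P_kl)`.
`w` = `O ∧ dl_0 ∧ dl_1` (Laplace expansion: `∑ ± O_cd (∂_e l_0 ∂_f l_1 - ∂_f l_0 ∂_e l_1)`, `c < d`, `e < f` complementary).
Third: `f_i P_ab = f_a P_ib - f_b P_ia` (contract Plücker with `x`). Fourth: E2, apply `Phi`, multiply by
`m_kc m_ld`, sum, wedge with `dl_0 ∧ dl_1`. -/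
def SpecRST : Prop := ∀ (N : ℕ) (g : Biv N) (P : Fin N → Fin N → MvPolynomial (Fin N) ℂ), Even N →
  Geo g P → ∀ (u : Fin 4 → Fin N → ℂ) (a b : Fin N → ℂ) (q l : Fin 2 → S4),
  q 0 = ∑ i, C (a i) * CUTM.Phi u (fo P i) → q 1 = ∑ i, C (b i) * CUTM.Phi u (fo P i) →
  ∃ (V : Fin 2 → Fin 4 → S4) (w : S4), (∀ i, ∑ c, X c * V i c = q i) ∧
    vd V l = CUTM.Phi u (Puv P a b) * w ∧
    (∀ z ∈ Ideal.map (CUTM.Phi u) (Jf P), CUTM.Phi u (Puv P a b) * z ∈ Ideal.span {q 0, q 1}) ∧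
    ∃ m : ℕ, CUTM.Phi u (Puv P a b) ^ m *
      (CUTM.Phi u (Puv P a b) * jc q l - CUTM.Phi u (duv P a b) * w)
        ∈ Ideal.map (CUTM.Phi u) (Jf P)

/-- PQL (~150 lines), USES POS, ZRO. The components of `V ∩ U`. PROOF. `Q` has a zero `y ≠ 0` (ZRO with
`h = X_0`), where some `P_ij(x) ≠ 0`: first claim. `p0` = a minimal prime of `Jf P` contained in
`(Phi u)⁻¹ Q`; `P_ij ∉ p0`. `Jf P` is stable (`hamf`; `Stab` sums over the first index, `g` is skew) and homogeneous, so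
`p0` is stable (`DMIN`) and homogeneous (`HMIN`); `D(p0) ≥ N - 2` by `DIM` (the `(N-2)`-minor `h P_ij²`), `≤ N - 2` by
hypothesis. POS, contract with `a_i b_j a_k b_l`, apply `Phi u`. -/
def SpecPQL : Prop := ∀ (N : ℕ) (g : Biv N) (P : Fin N → Fin N → MvPolynomial (Fin N) ℂ), Even N →
  4 ≤ N → Geo g P → Dle (mI (N - 3) g) (N - 4) → Dle (Jf P) (N - 2) →
  ∀ (u : Fin 4 → Fin N → ℂ),
  (∀ y : Fin 4 → ℂ, y ≠ 0 → ∃ i j, eval y (CUTM.Phi u (P i j)) ≠ 0) →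
  ∀ Q : Ideal S4, Q.IsPrime → Hom Q → Ideal.map (CUTM.Phi u) (Jf P) ≤ Q →
  ((2 : ℕ) : Cardinal) ≤ Algebra.trdeg ℂ (S4 ⧸ Q) →
  (∃ i j, CUTM.Phi u (P i j) ∉ Q) ∧
  ∃ δ : ℝ, 0 < δ ∧ 4 * δ ≤ (N : ℝ) ^ 2 ∧ ∀ a b : Fin N → ℂ,
    CUTM.Phi u (duv P a b) - C (δ : ℂ) * CUTM.Phi u (Puv P a b) ^ 2 ∈ Q

/-- MAN (~300 lines), USES PRI, LIE, CLO, HC1, COD, USL, RES, CNX, HIL, PQL, UVL, FRM, FLD, JTR, RST, BBX,
RK0, EVB, RNK. PROOF. Suppose `Dle (mI (N - 3) g) (N - 4)`. `P` from PRI, `Geo` from LIE, CLO. COD with HC1: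
`Dle (Jf P) (N - 2)`. USL with `I = mI (N - 3) g` (homogeneous, `CUTM.det_hom`), `J = Jf P`, `h = 1`: `u`. RES,
CNX (`th = N - 2`), HIL (`d = 0`, `h = 1`, `f' = Phi u f`): `(4 N² - 4) a - K ≤ 12 hq J a`, `J = map (Phi u) (Jf P)`.
UVL with `F = Phi u (fo P i)`, `Pm = Phi u (P i j)` (PQL, first part), `e = N - 1`; `q_0`, `q_1`; FRM, FLD, JTR,
RST, BBX (`T1` = the trace of `vd V l / jc`): `constantCoeff T1 = T0 / e²`, `T0 ≤ e²` (RK0). EVB with `jac = jc q l`,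
`pu = Phi u (Puv P a b)`, `du = Phi u (duv P a b)`, `B = N² / 4`: a prime `Q ⊇ J` with `Q ∩ ℂ[l] = 0` has
`D(Q) ≥ 2`, and by `Dle J 2` and MONO it is a minimal prime of `J`, so homogeneous (HMIN): PQL second part and
UVL third part. So independent families mod `J` have `n ≤ B r`, `r = T0 / e² ≤ 1`: `n ≤ N² / 4 =: n0`
(`N` even). RNK (a homogeneous prime over `J` and `l_0, l_1` contains `q_0, q_1`): `hq J a ≤ n0 (a + 1) + K'`. So
`(4 N² - 4) a - K ≤ 3 N² (a + 1) + 12 K'` for all `a`, contradiction as `N² > 4`. -/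
def SpecMAN : Prop := ∀ (N : ℕ) (g : Biv N), Even N → 4 ≤ N → (∀ i j k, jac g.f i j k = 0) →
  (∀ j, ∑ i, pderiv i (g.f i j) = 0) → (Matrix.of g.f).det = 0 → ¬ Dle (mI (N - 3) g) (N - 4)

/-- FNL (~80 lines), USES MAN. PROOF. COPY of `B5/THA.lean`; in the case `N = s + 6` MAN gives a prime
over `mI (N - 3) g` with `D > N - 4`, so (`CUTM.bound`) a minimal one with `D ≥ N - 3 = s + 3 ≥ s + 2`. -/
def SpecFNL : Prop := ∀ (N s : ℕ) (τ : Pois N), Even N → Even s → N ≤ s + 6 → s + 1 < N →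
  Big τ.f s

end Pool.Agent.Lib.MPc9b009.OD
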